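import Pool.Agent.P.MP_bf0464_al.Conj

/-! Extension of the ground field and twisting by isometries. -/

namespace Pool.Agent.P.Bf04

open Module TensorProduct

attribute [local instance 100] LieRing.ofAssociativeRing

universe u

section PF

variable {K W W' B : Type*} [Field K] [AddCommGroup W] [Module K W] [AddCommGroup W']
  [Module K W'] [Ring B] [Algebra K B]

/-- polynomial functions -/
def PF (K W : Type*) [Field K] [AddCommGroup W] [Module K W] : Submodule K (K → W) :=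
  Submodule.span K {f | ∃ (n : ℕ) (w : W), f = fun c => c ^ n • w}

theorem PF_map (l : W →ₗ[K] W') {f : K → W} (hf : f ∈ PF K W) : (fun c => l (f c)) ∈ PF K W' := by
  refine (Submodule.span_le (p := (PF K W').comap (l.compLeft K))).2 ?_ hf
  rintro _ ⟨n, w, rfl⟩
  exact Submodule.subset_span ⟨n, l w, funext fun c => by simp⟩

theorem PF_mul {f g : K → B} (hf : f ∈ PF K B) (hg : g ∈ PF K B) : f * g ∈ PF K B := by
  refine (Submodule.span_le (p := (PF K B).comap (LinearMap.mulRight K g))).2 ?_ hf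
  rintro _ ⟨n, w, rfl⟩
  refine (Submodule.span_le (p := (PF K B).comap (LinearMap.mulLeft K _))).2 ?_ hg
  rintro _ ⟨n', w', rfl⟩
  exact Submodule.subset_span ⟨n + n', w * w', funext fun c => by
    simp [pow_add, smul_smul, mul_comm]⟩

theorem PF_lin (a b : W) : (fun c : K => a + c • b) ∈ PF K W :=
  add_mem (Submodule.subset_span ⟨0, a, funext fun c => by simp⟩ : (fun _ => a) ∈ PF K W)
    (Submodule.subset_span ⟨1, b, funext fun c => by simp⟩ : (fun c : K => c • b) ∈ PF K W)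

theorem PF_pow {f : K → B} (hf : f ∈ PF K B) (n : ℕ) : f ^ n ∈ PF K B := by
  induction n with
  | zero => exact Submodule.subset_span ⟨0, 1, funext fun c => by simp⟩
  | succ n ih => rw [pow_succ]; exact PF_mul ih hf

theorem PF_zero {f : K → W} (hf : f ∈ PF K W) {S : Set K} (hS : S.Infinite)
    (h : ∀ c ∈ S, f c = 0) (c : K) : f c = 0 := by
  refine (forall_dual_apply_eq_zero_iff K _).1 fun l => ?_
  obtain ⟨P, hP⟩ : ∃ P : Polynomial K, ∀ c, l (f c) = P.eval c := by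
    clear h
    induction hf using Submodule.span_induction with
    | mem f hf =>
      obtain ⟨n, w, rfl⟩ := hf
      exact ⟨Polynomial.C (l w) * Polynomial.X ^ n, fun c => by simp [mul_comm (l w)]⟩
    | zero => exact ⟨0, fun c => by simp⟩
    | add a b _ _ ha hb =>
      obtain ⟨P, hP⟩ := ha
      obtain ⟨P', hP'⟩ := hb
      exact ⟨P + P', fun c => by simp [hP, hP']⟩
    | smul a b _ hb =>
      obtain ⟨P, hP⟩ := hb
      exact ⟨Polynomial.C a * P, fun c => by simp [hP]⟩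
  rw [hP, P.eq_zero_of_infinite_isRoot (hS.mono fun c hc => ?_), Polynomial.eval_zero]
  exact (hP c).symm.trans (by rw [h c hc, map_zero])

end PF

namespace QF

variable {k V V₀ : Type u} [Field k] [AddCommGroup V] [Module k V] [AddCommGroup V₀]
  [Module k V₀] (Q : QF k V) (K : Type u) [Field K] [Algebra k K]

/-- the extended form -/
noncomputable def bc : QF K (K ⊗[k] V) where
  β := LinearMap.BilinForm.baseChange K Q.β
  ε := algebraMap k K Q.ε
  hε := by rcases Q.hε with h | h <;> simp [h]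
  symm v w := by
    have : LinearMap.BilinForm.baseChange K Q.β
        = algebraMap k K Q.ε • LinearMap.flip (LinearMap.BilinForm.baseChange K Q.β) := by
      ext a b
      simp [Q.symm a b, Algebra.smul_def]
    exact LinearMap.congr_fun₂ this v w
  two := by
    rw [← map_ofNat (algebraMap k K) 2]; exact (map_ne_zero _).2 Q.two

theorem bc_β (a b : K) (v w : V) :
    (Q.bc K).β (a ⊗ₜ v) (b ⊗ₜ w) = algebraMap k K (Q.β v w) * (a * b) :=
  (LinearMap.BilinForm.baseChange_tmul _ _ _ _ _).trans (Algebra.smul_def _ _)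

theorem bc_ε : (Q.bc K).ε = algebraMap k K Q.ε := rfl

variable {Q} in
theorem Sk.bc {x : End k V} (hx : Q.Sk x) : (Q.bc K).Sk (x.baseChange K) := by
  intro v w
  have : (Q.bc K).β ∘ₗ x.baseChange K = -(Q.bc K).β.compl₂ (x.baseChange K) := by
    ext a b
    simp [bc_β, hx a b]
  exact LinearMap.congr_fun₂ this v w

/-- extension of elements of the Lie algebra -/
noncomputable def bcg (x : Q.g) : (Q.bc K).g :=
  ⟨x.1.baseChange K, (Q.bc K).mem_g.2 ((Q.sk_of x).bc K)⟩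

theorem bc_F (v w : V) : (Q.bc K).F (1 ⊗ₜ v) (1 ⊗ₜ w) = (Q.F v w).baseChange K := by
  ext a
  simp [F_apply, bc_β, bc_ε, tmul_sub, ← map_mul]

theorem bc_Fs (v w : V) : (Q.bc K).Fs (1 ⊗ₜ v) (1 ⊗ₜ w) = Q.bcg K (Q.Fs v w) :=
  Subtype.ext (Q.bc_F K v w)

theorem bcg_lie (x y : Q.g) : Q.bcg K ⁅x, y⁆ = ⁅Q.bcg K x, Q.bcg K y⁆ :=
  Subtype.ext (by
    change (x.1 * y.1 - y.1 * x.1).baseChange K = _
    rw [LinearMap.baseChange_sub, LinearMap.baseChange_mul, LinearMap.baseChange_mul]; rfl)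

theorem bcg_pw (p : ℕ) [Fact (Odd p)] (x : Q.g) :
    Q.bcg K (Q.pw p x) = (Q.bc K).pw p (Q.bcg K x) :=
  Subtype.ext (LinearMap.baseChange_pow _ _ _ _ _)

variable {Q} {ι : Type} [Fintype ι] [DecidableEq ι]

/-- the extended frame -/
noncomputable def Frame.bc (fr : Q.Frame ι) (h : fr.W = ⊤) : (Q.bc K).Frame ι where
  W := ⊤
  b i := 1 ⊗ₜ fr.b i
  b' i := 1 ⊗ₜ fr.b' i
  b_mem _ := trivial
  b'_mem _ := trivial
  exp x _ := by
    have : ∑ i, ((Q.bc K).β (1 ⊗ₜ fr.b' i)).smulRight ((1 : K) ⊗ₜ[k] fr.b i) = LinearMap.id := by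
      ext v
      simpa [LinearMap.sum_apply, bc_β, tmul_sum] using
        congrArg (fun x => (1 : K) ⊗ₜ[k] x) (fr.exp v (h ▸ trivial))
    simpa [LinearMap.sum_apply] using LinearMap.congr_fun this x
  exp' x _ := by
    have : ∑ i, ((Q.bc K).β.flip (1 ⊗ₜ fr.b i)).smulRight ((1 : K) ⊗ₜ[k] fr.b' i)
        = LinearMap.id := by
      ext v
      simpa [LinearMap.sum_apply, bc_β, tmul_sum] using
        congrArg (fun x => (1 : K) ⊗ₜ[k] x) (fr.exp' v (h ▸ trivial))
    simpa [LinearMap.sum_apply] using LinearMap.congr_fun this x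
  dual i j := by rw [bc_β, fr.dual]; split_ifs <;> simp

/-- the extended flag -/
noncomputable def Flag.bc {Q₀ : QF k V₀} {M : ℕ} (Fl : Q.Flag Q₀ M) :
    (Q.bc K).Flag (Q₀.bc K) M where
  inc := Fl.inc.baseChange K
  pr := Fl.pr.baseChange K
  ε_eq := congrArg _ Fl.ε_eq
  β_pr v w := by
    have : (Q.bc K).β ∘ₗ Fl.inc.baseChange K = (Q₀.bc K).β.compl₂ (Fl.pr.baseChange K) := by
      ext a b
      simp [bc_β, Fl.β_pr]
    exact LinearMap.congr_fun₂ this v w
  pr_inc v := by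
    have : Fl.pr.baseChange K ∘ₗ Fl.inc.baseChange K = LinearMap.id := by
      ext a
      simp [Fl.pr_inc]
    exact LinearMap.congr_fun this v
  u i := 1 ⊗ₜ Fl.u i
  u' i := 1 ⊗ₜ Fl.u' i
  uu i j := by simp [bc_β, Fl.uu]
  u'u' i j := by simp [bc_β, Fl.u'u']
  u'u i j := by rw [bc_β, Fl.u'u]; split_ifs <;> simp
  pr_u i := by simp [Fl.pr_u]
  pr_u' i := by simp [Fl.pr_u']
  dec x := by
    have : ∑ i, ((Q.bc K).β (1 ⊗ₜ Fl.u' i)).smulRight ((1 : K) ⊗ₜ[k] Fl.u i)
        + Fl.inc.baseChange K ∘ₗ Fl.pr.baseChange K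
        + ∑ i, ((Q.bc K).β.flip (1 ⊗ₜ Fl.u i)).smulRight ((1 : K) ⊗ₜ[k] Fl.u' i)
        = LinearMap.id := by
      ext v
      simpa [LinearMap.sum_apply, bc_β, tmul_sum, tmul_add] using
        congrArg (fun x => (1 : K) ⊗ₜ[k] x) (Fl.dec v)
    simpa [LinearMap.sum_apply] using LinearMap.congr_fun this x

namespace Frame

variable (fr : Q.Frame ι) (h : fr.W = ⊤) (R : LRep k Q.g)

/-- the extended action -/
noncomputable def Λ : End K (K ⊗[k] V) →ₗ[K] End K (K ⊗[k] R.M) :=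
  ∑ i, ∑ j, ((2 : K)⁻¹ • (Q.bc K).β (1 ⊗ₜ fr.b' j) ∘ₗ LinearMap.applyₗ (1 ⊗ₜ fr.b i)).smulRight
    ((Q.φ R (fr.b j) (fr.b' i)).baseChange K)

include h

theorem Λ_bc (x : Q.g) : fr.Λ K R (x.1.baseChange K) = (R.ρ x).baseChange K := by
  conv_rhs => rw [fr.sum_sum_Fs h x]
  change _ = End.baseChangeHom k K R.M _
  simp only [map_sum, map_smul, Λ, LinearMap.sum_apply]
  refine Finset.sum_congr rfl fun i _ => Finset.sum_congr rfl fun j _ => ?_
  rw [← algebraMap_smul (R := k) K, map_mul, map_inv₀, map_ofNat]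
  simp [bc_β, φ_apply]
  rfl

theorem bc_sum (z : (Q.bc K).g) : ∃ c : ι × ι → K,
    z = ∑ l, c l • Q.bcg K (Q.Fs (fr.b l.2) (fr.b' l.1)) := by
  refine ⟨fun l => (2 : K)⁻¹ * (Q.bc K).β (1 ⊗ₜ fr.b' l.2) (z.1 (1 ⊗ₜ fr.b l.1)), ?_⟩
  rw [Fintype.sum_prod_type]
  simp only [← bc_Fs]
  exact (fr.bc K h).sum_sum_Fs rfl z

theorem bc_induction (P : Submodule K (Q.bc K).g) (hP : ∀ x, Q.bcg K x ∈ P) (z : (Q.bc K).g) :
    z ∈ P := by
  obtain ⟨c, rfl⟩ := fr.bc_sum K h z
  exact sum_mem fun l _ => P.smul_mem _ (hP _)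

theorem Λ_lie (x y : (Q.bc K).g) : fr.Λ K R (⁅x, y⁆ : (Q.bc K).g).1
    = fr.Λ K R x.1 * fr.Λ K R y.1 - fr.Λ K R y.1 * fr.Λ K R x.1 := by
  let f := fr.Λ K R ∘ₗ (Q.bc K).g.toSubmodule.subtype
  let J : (Q.bc K).g →ₗ[K] (Q.bc K).g →ₗ[K] End K (K ⊗[k] R.M) := LinearMap.mk₂ K
    (fun x y => f ⁅x, y⁆ - (f x * f y - f y * f x))
    (fun _ _ _ => by simp only [add_lie, map_add, add_mul, mul_add]; abel)
    (fun _ _ _ => by simp only [smul_lie, map_smul, smul_mul_assoc, mul_smul_comm, smul_sub])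
    (fun _ _ _ => by simp only [lie_add, map_add, add_mul, mul_add]; abel)
    (fun _ _ _ => by simp only [lie_smul, map_smul, smul_mul_assoc, mul_smul_comm, smul_sub])
  have hf : ∀ x, f (Q.bcg K x) = (R.ρ x).baseChange K := fr.Λ_bc K h R
  have : J x y = 0 := fr.bc_induction K h (LinearMap.ker (J.flip y)) (fun x =>
    fr.bc_induction K h (LinearMap.ker (J (Q.bcg K x))) (fun y => by
      change f _ - _ = 0
      rw [← bcg_lie, hf, hf, hf, R.lie_eq, LinearMap.baseChange_sub, LinearMap.baseChange_mul,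
        LinearMap.baseChange_mul, sub_self]) y) x
  exact sub_eq_zero.1 this

/-- the extended representation -/
noncomputable def rep : LRep K (Q.bc K).g :=
  LRep.ofLin (M := K ⊗[k] R.M) (fr.Λ K R ∘ₗ (Q.bc K).g.toSubmodule.subtype)
    fun x y m => LinearMap.congr_fun (fr.Λ_lie K h R x y) m

theorem rep_bc (x : Q.g) : (fr.rep K h R).ρ (Q.bcg K x) = (R.ρ x).baseChange K :=
  fr.Λ_bc K h R x

theorem rep_cc {θ : ℕ → k} (hR : Q.HasCC R θ) :
    (Q.bc K).HasCC (fr.rep K h R) fun n => algebraMap k K (θ n) := by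
  refine HasCC.of_frame (fr.bc K h) rfl fun n => LinearMap.congr_fun
    (g := algebraMap k K (θ n) • (1 : End K (K ⊗[k] R.M))) ?_
  have h1 : fr.C (Q.φ R) n = θ n • 1 := LinearMap.ext (hR ι fr h n)
  have h2 := congrArg (End.baseChangeHom k K R.M) h1
  rw [map_smul, map_one, C] at h2
  rw [algebraMap_smul, ← h2]
  have h3 := fun Φ : ι → ι → End k R.M => fun s =>
    map_cas (B' := End K (K ⊗[k] R.M)) (End.baseChangeHom k K R.M).toRingHom Φ s n
  refine Eq.trans ?_ (h3 _ _).symm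
  unfold C
  congr 1
  · funext i j
    exact (congrArg (fr.rep K h R).ρ (Q.bc_Fs K _ _)).trans (fr.rep_bc K h R _)
  · refine Eq.trans ?_ ((End.baseChangeHom k K R.M).commutes _).symm
    rw [IsScalarTower.algebraMap_apply k K (End K (K ⊗[k] R.M))]
    congr 1
    simp [sh, bc_ε, map_ofNat]

theorem rep_pchar [Infinite k] [FiniteDimensional k V] {p : ℕ} [Fact (Odd p)] {e : End k V}
    (hR : Q.PChar p e R) : (Q.bc K).PChar p (e.baseChange K) (fr.rep K h R) := by
  let l : End K (K ⊗[k] V) →ₗ[K] End K (K ⊗[k] R.M) :=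
    (LinearMap.trace K _ ∘ₗ LinearMap.mulLeft K (e.baseChange K)).smulRight 1
  let D : End K (K ⊗[k] V) → End K (K ⊗[k] R.M) := fun x =>
    fr.Λ K R x ^ p - fr.Λ K R (x ^ p) - l x ^ p
  have h0 : ∀ x : Q.g, D (x.1.baseChange K) = 0 := by
    intro x
    have h1 : R.ρ x ^ p = R.ρ (Q.pw p x) + Q.χ e x ^ p • 1 := LinearMap.ext (hR x)
    have h2 : l (x.1.baseChange K) = algebraMap k K (Q.χ e x) • 1 := by
      change LinearMap.trace K _ (e.baseChange K * x.1.baseChange K) • (1 : End K _) = _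
      rw [← LinearMap.baseChange_mul, LinearMap.trace_baseChange]; rfl
    simp only [D]
    rw [← LinearMap.baseChange_pow, fr.Λ_bc K h, ← LinearMap.baseChange_pow, h1, h2]
    erw [fr.Λ_bc K h R (Q.pw p x)]
    simp [smul_pow, ← map_pow]
  have h1 : ∀ a b, (fun c : K => D (a + c • b)) ∈ PF K (End K (K ⊗[k] R.M)) := fun a b =>
    sub_mem (sub_mem (PF_pow (PF_map (fr.Λ K R) (PF_lin a b)) p)
      (PF_map (fr.Λ K R) (PF_pow (PF_lin a b) p))) (PF_pow (PF_map l (PF_lin a b)) p)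
  have h2 : ∀ (c : ι × ι → K) (y : ι × ι → Q.g) (s : Finset (ι × ι)) (x : Q.g),
      D (x.1.baseChange K + ∑ i ∈ s, c i • (y i).1.baseChange K) = 0 := by
    intro c y s
    induction s using Finset.induction_on with
    | empty => simpa using h0
    | insert i s hi ih =>
      intro x
      rw [Finset.sum_insert hi, add_comm (c i • _), ← add_assoc]
      refine PF_zero (h1 _ _) (Set.infinite_range_of_injective (algebraMap k K).injective) ?_ _
      rintro _ ⟨a, rfl⟩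
      rw [← ih (x + a • y i), algebraMap_smul]
      congr 1
      change _ = (x.1 + a • (y i).1).baseChange K + _
      rw [LinearMap.baseChange_add, LinearMap.baseChange_smul]; abel
  intro z
  obtain ⟨c, hc⟩ := fr.bc_sum K h z
  have h3 := h2 c (fun l => Q.Fs (fr.b l.2) (fr.b' l.1)) Finset.univ 0
  have h4 : z.1 = ∑ i, c i • (Q.Fs (fr.b i.2) (fr.b' i.1)).1.baseChange K :=
    (congrArg Subtype.val hc).trans (map_sum (Q.bc K).g.toSubmodule.subtype _ _)
  rw [← h4, show (0 : Q.g).1 = 0 from rfl, LinearMap.baseChange_zero, zero_add] at h3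
  simp only [D] at h3
  rw [sub_sub, sub_eq_zero, show l z.1 = (Q.bc K).χ (e.baseChange K) z • 1 from rfl, smul_pow,
    one_pow] at h3
  exact LinearMap.congr_fun h3

end Frame

theorem exists_twist [Infinite k] [FiniteDimensional k V] (hQ : Q.ND) (p : ℕ) [Fact (Odd p)]
    {e : End k V} {e' : End K (K ⊗[k] V)} (hc : (Q.bc K).Conj (e.baseChange K) e') :
    ∃ Λ : ∀ R : LRep k Q.g, Q.g →ₗ[k] End K (K ⊗[k] R.M),
      (∀ R x y, Λ R ⁅x, y⁆ = Λ R x * Λ R y - Λ R y * Λ R x) ∧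
      (∀ R, Q.PChar p e R → ∀ x, Λ R x ^ p = Λ R (Q.pw p x)
        + LinearMap.trace K _ (e' * x.1.baseChange K) ^ p • 1) ∧
      (∀ R θ, Q.HasCC R θ → ∀ (ι : Type) [Fintype ι] [DecidableEq ι] (fr : Q.Frame ι), fr.W = ⊤ →
        ∀ n, cas (fun i j => Λ R (Q.Fs (fr.b i) (fr.b' j)))
          (algebraMap k _ (sh Q.ε (Fintype.card ι))) n = algebraMap k _ (θ n)) ∧
      ∀ x, ∃ (ι : Type) (_ : Fintype ι) (c : ι → K) (y : ι → Q.g),
        ∀ R, (R.ρ x).baseChange K = ∑ l, c l • Λ R (y l) := by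
  obtain ⟨fr, h⟩ := Q.exists_frame hQ
  obtain ⟨g, g', a1, a2, a3, a4⟩ := hc
  let E : (Q.bc K).Emb (Q.bc K) := ⟨g', g, rfl, a3, LinearMap.congr_fun a1⟩
  let R' : LRep k Q.g → LRep K (Q.bc K).g := fun R => (fr.rep K h R).res E.ext
  let Λ : ∀ R : LRep k Q.g, Q.g →ₗ[k] End K (K ⊗[k] R.M) := fun R =>
    (fr.Λ K R ∘ₗ LinearMap.mulLeft K g' ∘ₗ LinearMap.mulRight K g).restrictScalars k ∘ₗ
      LinearMap.baseChangeHom k K V V ∘ₗ Q.g.toSubmodule.subtype
  have hΛ : ∀ R x, Λ R x = (R' R).ρ (Q.bcg K x) := fun _ _ => rfl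
  refine ⟨Λ, fun R x y => ?_, fun R hR x => ?_, fun R θ hR ι _ _ fr' h' n => ?_, fun x => ?_⟩
  · rw [hΛ, bcg_lie]; exact (R' R).lie_eq _ _
  · have h1 := E.pchar_res (fr.rep_pchar K h R hR) (Q.bcg K x)
    have h2 : E.pr ∘ₗ e.baseChange K ∘ₗ E.inc = e' := by
      change g * (e.baseChange K * g') = e'
      rw [← mul_assoc, a4, mul_assoc, a1, mul_one]
    rw [h2, ← bcg_pw] at h1
    exact LinearMap.ext h1
  · have h1 := fr.rep_cc K h R hR ι (E.frame (fr'.bc K h') rfl)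
      (LinearMap.range_eq_top.2 fun v => ⟨g v, LinearMap.congr_fun a2 v⟩) n
    rw [Emb.frame_C] at h1
    have h2 : algebraMap k (End K (K ⊗[k] R.M)) (θ n) = algebraMap k K (θ n) • 1 := by
      rw [algebraMap_smul, Algebra.algebraMap_eq_smul_one]
    rw [h2]
    refine Eq.trans ?_ (LinearMap.ext h1)
    unfold Frame.C
    congr 1
    · funext i j
      exact congrArg (R' R).ρ (Q.bc_Fs K _ _).symm
    · rw [IsScalarTower.algebraMap_apply k K (End K (K ⊗[k] R.M))]
      congr 1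
      simp [sh, bc_ε, map_ofNat]
  · let z : (Q.bc K).g := ⟨_, (Q.bc K).mem_g.2 (E.sk_res ((Q.sk_of x).bc K))⟩
    obtain ⟨c, hc⟩ := fr.bc_sum K h z
    refine ⟨_, inferInstance, c, fun l => Q.Fs (fr.b l.2) (fr.b' l.1), fun R => ?_⟩
    have h1 : E.ext z = Q.bcg K x := Subtype.ext (by
      change g' * (g * (x.1.baseChange K * g') * g) = x.1.baseChange K
      rw [mul_assoc, ← mul_assoc g', a2, one_mul, mul_assoc, a2, mul_one])
    rw [← fr.rep_bc K h, ← h1]
    change (R' R).ρ z = _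
    rw [hc, map_sum]
    exact Finset.sum_congr rfl fun l _ => map_smul _ _ _

end QF

end Pool.Agent.P.Bf04
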