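import Mathlib

/-! Forms with a sign, the elements `F v w`, frames. -/

namespace Pool.Agent.P.Bf04

open Module

attribute [local instance 100] LieRing.ofAssociativeRing

/-- A bilinear form that is symmetric (`ε = 1`) or skew (`ε = -1`), in characteristic not two. -/
structure QF (k V : Type*) [Field k] [AddCommGroup V] [Module k V] where
  β : V →ₗ[k] V →ₗ[k] k
  ε : k
  hε : ε = 1 ∨ ε = -1
  symm : ∀ v w, β v w = ε * β w v
  two : (2 : k) ≠ 0

namespace QF

variable {k V : Type*} [Field k] [AddCommGroup V] [Module k V] (Q : QF k V)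

theorem ε_sq : Q.ε * Q.ε = 1 := by rcases Q.hε with h | h <;> rw [h] <;> ring

theorem ε_ne : Q.ε ≠ 0 := fun h => by simpa [h] using Q.ε_sq

theorem symm_zero {v w : V} (h : Q.β v w = 0) : Q.β w v = 0 := by rw [Q.symm, h, mul_zero]

/-- skewness -/
def Sk (x : End k V) : Prop := ∀ v w, Q.β (x v) w = - Q.β v (x w)

/-- the Lie algebra of the form -/
abbrev g : LieSubalgebra k (End k V) := skewAdjointLieSubalgebra Q.β

theorem mem_g {x : End k V} : x ∈ Q.g ↔ Q.Sk x := by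
  change x ∈ LinearMap.skewAdjointSubmodule Q.β ↔ _
  rw [LinearMap.mem_skewAdjointSubmodule]
  constructor
  · intro h v w
    have := h v w
    simpa using this
  · intro h v w
    simpa using h v w

theorem sk_of (x : Q.g) : Q.Sk x.1 := Q.mem_g.1 x.2

variable {Q} in
theorem Sk.right {x : End k V} (h : Q.Sk x) (v w : V) : Q.β v (x w) = - Q.β (x v) w := by
  rw [h, neg_neg]

variable {Q} in
theorem Sk.pow {x : End k V} (h : Q.Sk x) (n : ℕ) (v w : V) :
    Q.β ((x ^ n) v) w = (-1) ^ n * Q.β v ((x ^ n) w) := by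
  induction n generalizing v w with
  | zero => simp
  | succ n ih =>
    rw [pow_succ' x n, End.mul_apply, h, ih, ← End.mul_apply, ← pow_succ, ← pow_succ']
    ring

variable {Q} in
theorem Sk.pow_odd {x : End k V} (h : Q.Sk x) {n : ℕ} (hn : Odd n) : Q.Sk (x ^ n) := by
  intro v w
  rw [h.pow, hn.neg_one_pow]; ring

theorem Sk.zero : Q.Sk 0 := by intro v w; simp

variable {Q} in
theorem Sk.add {x y : End k V} (hx : Q.Sk x) (hy : Q.Sk y) : Q.Sk (x + y) :=
  Q.mem_g.1 (Q.g.add_mem (Q.mem_g.2 hx) (Q.mem_g.2 hy))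

variable {Q} in
theorem Sk.sub {x y : End k V} (hx : Q.Sk x) (hy : Q.Sk y) : Q.Sk (x - y) :=
  Q.mem_g.1 (Q.g.sub_mem (Q.mem_g.2 hx) (Q.mem_g.2 hy))

variable {Q} in
theorem Sk.smul {x : End k V} (hx : Q.Sk x) (c : k) : Q.Sk (c • x) :=
  Q.mem_g.1 (Q.g.smul_mem c (Q.mem_g.2 hx))

/-- `F v w x = β w x • v - ε β v x • w` -/
def F : V →ₗ[k] V →ₗ[k] End k V :=
  LinearMap.mk₂ k (fun v w => (Q.β w).smulRight v - Q.ε • (Q.β v).smulRight w)
    (fun v v' w => by ext x; simp; module)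
    (fun c v w => by ext x; simp; module)
    (fun v w w' => by ext x; simp; module)
    (fun c v w => by ext x; simp; module)

theorem F_apply (v w x : V) : Q.F v w x = Q.β w x • v - (Q.ε * Q.β v x) • w := by
  simp [F, mul_smul]

theorem F_sk (v w : V) : Q.Sk (Q.F v w) := by
  intro x y
  simp only [F_apply, map_sub, map_smul, LinearMap.sub_apply, LinearMap.smul_apply, smul_eq_mul]
  rw [Q.symm x v, Q.symm x w]
  linear_combination (- Q.β v y * Q.β w x) * Q.ε_sq

theorem F_swap (v w : V) : Q.F w v = (-Q.ε) • Q.F v w := by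
  ext x
  simp only [F_apply, LinearMap.smul_apply, smul_sub, smul_smul]
  have := Q.ε_sq
  have h2 : -Q.ε * (Q.ε * Q.β v x) = - Q.β v x := by linear_combination (- Q.β v x) * this
  rw [h2]; module

variable {Q} in
theorem Sk.comm_F {x : End k V} (h : Q.Sk x) (v w : V) :
    x * Q.F v w - Q.F v w * x = Q.F (x v) w + Q.F v (x w) := by
  ext y
  simp only [F_apply, LinearMap.sub_apply, LinearMap.add_apply, End.mul_apply, map_sub, map_smul]
  rw [h v y, h w y]; module

theorem trace_mul_F [FiniteDimensional k V] {x : End k V} (h : Q.Sk x) (v w : V) :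
    LinearMap.trace k V (x * Q.F v w) = 2 * Q.β w (x v) := by
  have e : x * Q.F v w = (Q.β w).smulRight (x v) - Q.ε • (Q.β v).smulRight (x w) := by
    ext y; simp [F_apply, mul_smul]
  rw [e, map_sub, map_smul, LinearMap.trace_smulRight, LinearMap.trace_smulRight, smul_eq_mul,
    h.right v w, Q.symm (x v) w]
  linear_combination (Q.β w (x v)) * Q.ε_sq

/-- `F` with values in the Lie algebra -/
def Fs : V →ₗ[k] V →ₗ[k] Q.g :=
  LinearMap.mk₂ k (fun v w => ⟨Q.F v w, Q.mem_g.2 (Q.F_sk v w)⟩)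
    (fun v v' w => Subtype.ext (by simp))
    (fun c v w => Subtype.ext (by simp))
    (fun v w w' => Subtype.ext (by simp))
    (fun c v w => Subtype.ext (by simp))

@[simp] theorem Fs_coe (v w : V) : (Q.Fs v w : End k V) = Q.F v w := rfl

theorem Fs_swap (v w : V) : Q.Fs w v = (-Q.ε) • Q.Fs v w :=
  Subtype.ext (Q.F_swap v w)

theorem lie_Fs (x : Q.g) (v w : V) : ⁅x, Q.Fs v w⁆ = Q.Fs (x.1 v) w + Q.Fs v (x.1 w) :=
  Subtype.ext ((Q.sk_of x).comm_F v w)

/-- the `p`-map -/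
def pw (p : ℕ) [h : Fact (Odd p)] (x : Q.g) : Q.g := ⟨x.1 ^ p, Q.mem_g.2 ((Q.sk_of x).pow_odd h.out)⟩

@[simp] theorem pw_coe (p : ℕ) [Fact (Odd p)] (x : Q.g) : (Q.pw p x : End k V) = x.1 ^ p := rfl

/-- A pair of dual bases of a subspace `W`. -/
structure Frame (ι : Type) [Fintype ι] [DecidableEq ι] where
  W : Submodule k V
  b : ι → V
  b' : ι → V
  b_mem : ∀ i, b i ∈ W
  b'_mem : ∀ i, b' i ∈ W
  exp : ∀ x ∈ W, ∑ i, Q.β (b' i) x • b i = x
  exp' : ∀ y ∈ W, ∑ i, Q.β y (b i) • b' i = y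
  dual : ∀ i j, Q.β (b' j) (b i) = if i = j then 1 else 0

/-- nondegeneracy -/
def ND : Prop := ∀ v, (∀ w, Q.β v w = 0) → v = 0

theorem exists_frame [FiniteDimensional k V] (h : Q.ND) :
    ∃ fr : Q.Frame (Fin (finrank k V)), fr.W = ⊤ := by
  classical
  have hnd : LinearMap.BilinForm.Nondegenerate Q.β := by
    refine ⟨fun v hv => h v hv, fun v hv => h v fun w => Q.symm_zero (hv w)⟩
  let b := Module.finBasis k V
  let c := LinearMap.BilinForm.dualBasis Q.β hnd b
  have hd : ∀ i j, Q.β (c j) (b i) = if i = j then 1 else 0 := fun i j =>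
    LinearMap.BilinForm.apply_dualBasis_left hnd b j i
  have h1 : ∀ x, ∑ i, Q.β (c i) x • b i = x := by
    intro x
    conv_rhs => rw [← b.sum_repr x]
    refine Finset.sum_congr rfl fun i _ => ?_
    have : Q.β (c i) x = b.repr x i := by
      conv_lhs => rw [← b.sum_repr x]
      simp only [map_sum, map_smul, hd]
      simp
    rw [this]
  refine ⟨⟨⊤, b, c, fun _ => trivial, fun _ => trivial, fun x _ => h1 x, fun y _ => ?_, hd⟩, rfl⟩
  rw [← sub_eq_zero]
  apply h
  intro w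
  rw [map_sub, LinearMap.sub_apply, sub_eq_zero]
  conv_rhs => rw [← h1 w]
  simp [mul_comm]

namespace Frame

variable {Q} {ι : Type} [Fintype ι] [DecidableEq ι] (fr : Q.Frame ι)

theorem card_eq (h : fr.W = ⊤) : Fintype.card ι = finrank k V := by
  have hli : LinearIndependent k fr.b := by
    rw [Fintype.linearIndependent_iff]
    intro c hc j
    have := congrArg (Q.β (fr.b' j)) hc
    simpa [fr.dual] using this
  have hsp : ⊤ ≤ Submodule.span k (Set.range fr.b) := by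
    intro x _
    rw [← fr.exp x (h ▸ trivial)]
    exact Submodule.sum_mem _ fun i _ =>
      Submodule.smul_mem _ _ (Submodule.subset_span ⟨i, rfl⟩)
  exact (finrank_eq_card_basis (Basis.mk hli hsp)).symm

/-- moving a skew map across a contraction -/
theorem sum_skew {B : Type*} [AddCommGroup B] [Module k B] (G : V →ₗ[k] V →ₗ[k] B)
    {x : End k V} (hx : Q.Sk x) (hW : ∀ v ∈ fr.W, x v ∈ fr.W) :
    ∑ i, G (x (fr.b' i)) (fr.b i) + ∑ i, G (fr.b' i) (x (fr.b i)) = 0 := by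
  have h1 : ∑ i, G (x (fr.b' i)) (fr.b i)
      = ∑ i, ∑ j, Q.β (x (fr.b' i)) (fr.b j) • G (fr.b' j) (fr.b i) := by
    refine Finset.sum_congr rfl fun i _ => ?_
    conv_lhs => rw [← fr.exp' _ (hW _ (fr.b'_mem i))]
    simp [LinearMap.sum_apply]
  have h2 : ∑ i, G (fr.b' i) (x (fr.b i))
      = ∑ i, ∑ j, Q.β (fr.b' j) (x (fr.b i)) • G (fr.b' i) (fr.b j) := by
    refine Finset.sum_congr rfl fun i _ => ?_
    conv_lhs => rw [← fr.exp _ (hW _ (fr.b_mem i))]
    simp
  rw [h1, h2, Finset.sum_comm, ← Finset.sum_add_distrib]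
  refine Finset.sum_eq_zero fun i _ => ?_
  rw [← Finset.sum_add_distrib]
  refine Finset.sum_eq_zero fun j _ => ?_
  rw [hx]; simp

/-- contractions do not depend on the frame -/
theorem sum_indep {κ : Type} [Fintype κ] [DecidableEq κ] (fr' : Q.Frame κ) (h : fr.W = fr'.W)
    {B : Type*} [AddCommGroup B] [Module k B] (G : V →ₗ[k] V →ₗ[k] B) :
    ∑ i, G (fr.b i) (fr.b' i) = ∑ j, G (fr'.b j) (fr'.b' j) := by
  have h1 : ∑ i, G (fr.b i) (fr.b' i)
      = ∑ i, ∑ j, Q.β (fr'.b' j) (fr.b i) • G (fr'.b j) (fr.b' i) := by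
    refine Finset.sum_congr rfl fun i _ => ?_
    conv_lhs => rw [← fr'.exp (fr.b i) (h ▸ fr.b_mem i)]
    simp [LinearMap.sum_apply]
  rw [h1, Finset.sum_comm]
  refine Finset.sum_congr rfl fun j _ => ?_
  conv_rhs => rw [← fr.exp' (fr'.b' j) (h ▸ fr'.b'_mem j)]
  simp

theorem card_indep {κ : Type} [Fintype κ] [DecidableEq κ] (fr' : Q.Frame κ) (h : fr.W = fr'.W) :
    (Fintype.card ι : k) = Fintype.card κ := by
  have := fr.sum_indep fr' h Q.β.flip
  simpa [fr.dual, fr'.dual] using this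

theorem sum_F (h : fr.W = ⊤) {x : End k V} (hx : Q.Sk x) :
    ∑ i, Q.F (x (fr.b i)) (fr.b' i) = (2 : k) • x := by
  ext y
  simp only [LinearMap.coe_sum, Finset.sum_apply, F_apply, Finset.sum_sub_distrib,
    LinearMap.smul_apply]
  have h1 : ∑ i, Q.β (fr.b' i) y • x (fr.b i) = x y := by
    conv_rhs => rw [← fr.exp y (h ▸ trivial)]
    simp
  have h2 : ∑ i, (Q.ε * Q.β (x (fr.b i)) y) • fr.b' i = - x y := by
    conv_rhs => rw [← fr.exp' (x y) (h ▸ trivial)]
    rw [← Finset.sum_neg_distrib]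
    refine Finset.sum_congr rfl fun i _ => ?_
    rw [hx, Q.symm (x y)]; module
  rw [h1, h2]; module

theorem sum_Fs (h : fr.W = ⊤) (x : Q.g) :
    x = (2 : k)⁻¹ • ∑ i, Q.Fs (x.1 (fr.b i)) (fr.b' i) := by
  apply Subtype.ext
  have := fr.sum_F h (Q.sk_of x)
  have h2 : ((∑ i, Q.Fs (x.1 (fr.b i)) (fr.b' i) : Q.g) : End k V)
      = ∑ i, Q.F (x.1 (fr.b i)) (fr.b' i) := by
    exact map_sum Q.g.toSubmodule.subtype _ _
  change x.1 = (2 : k)⁻¹ • ((∑ i, Q.Fs (x.1 (fr.b i)) (fr.b' i) : Q.g) : End k V)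
  rw [h2, this, smul_smul, inv_mul_cancel₀ Q.two, one_smul]

/-- double expansion of a skew map -/
theorem sum_sum_Fs (h : fr.W = ⊤) (x : Q.g) :
    x = ∑ i, ∑ j, ((2 : k)⁻¹ * Q.β (fr.b' j) (x.1 (fr.b i))) • Q.Fs (fr.b j) (fr.b' i) := by
  conv_lhs => rw [fr.sum_Fs h x]
  rw [Finset.smul_sum]
  refine Finset.sum_congr rfl fun i _ => ?_
  conv_lhs => rw [← fr.exp (x.1 (fr.b i)) (h ▸ trivial)]
  simp [LinearMap.sum_apply, Finset.smul_sum, mul_smul]

/-- induction over the Lie algebra -/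
theorem g_induction (h : fr.W = ⊤) (P : Submodule k Q.g)
    (hP : ∀ i j, Q.Fs (fr.b j) (fr.b' i) ∈ P) (x : Q.g) : x ∈ P := by
  rw [fr.sum_sum_Fs h x]
  exact Submodule.sum_mem _ fun i _ => Submodule.sum_mem _ fun j _ =>
    Submodule.smul_mem _ _ (hP i j)

end Frame

end QF

end Pool.Agent.P.Bf04
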