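import Pool.Agent.P.MP_bf0464_al.Trans

/-! The bound of Humphreys for orthogonal and symplectic Lie algebras in every odd characteristic. -/

namespace Pool.Agent.P.Bf04.BlocksBCD

open Module

attribute [local instance 100] LieRing.ofAssociativeRing

universe u

section Defs

variable {k V : Type u} [Field k] [AddCommGroup V] [Module k V]

/-- The Lie algebra `so(V, β)` or `sp(V, β)` of endomorphisms that are skew for `β`. -/
def LieAlg (β : LinearMap.BilinForm k V) : Type u := skewAdjointLieSubalgebra β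

/-- Its structure of a Lie subalgebra of `End V`: the bracket is the commutator. -/
instance instLieRing (β : LinearMap.BilinForm k V) : LieRing (LieAlg β) :=
  LieSubalgebra.lieRing k (End k V) (skewAdjointLieSubalgebra β)

/-- Its structure of a Lie subalgebra of `End V`: the scalar action. -/
instance instLieAlgebra (β : LinearMap.BilinForm k V) : LieAlgebra k (LieAlg β) :=
  LieSubalgebra.lieAlgebra k (End k V) (skewAdjointLieSubalgebra β)

/-- The underlying endomorphism of `V`. -/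
def toEnd {β : LinearMap.BilinForm k V} (x : LieAlg β) : End k V := Subtype.val x

/-- The relations `x ^ p = x ^ [p] + χ(x) ^ p` in the universal enveloping algebra, where
`x ^ [p]` is the `p`-th power of the endomorphism `x`. -/
def Rel (β : LinearMap.BilinForm k V) (p : ℕ) (χ : LieAlg β →ₗ[k] k)
    (a b : UniversalEnvelopingAlgebra k (LieAlg β)) : Prop :=
  ∃ x y : LieAlg β, toEnd y = toEnd x ^ p ∧ a = UniversalEnvelopingAlgebra.ι k x ^ p ∧
    b = UniversalEnvelopingAlgebra.ι k y + algebraMap k _ (χ x ^ p)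

/-- The reduced enveloping algebra `u(g, χ)`. -/
abbrev RedEnv (β : LinearMap.BilinForm k V) (p : ℕ) (χ : LieAlg β →ₗ[k] k) : Type u :=
  RingQuot (Rel β p χ)

/-- `χ` vanishes on a Borel subalgebra: the stabiliser of a complete isotropic flag
`⟨f 0⟩ ⊂ ⟨f 0, f 1⟩ ⊂ ⋯` of length `dim V / 2`. -/
def IsNilpotentChar (β : LinearMap.BilinForm k V) (χ : LieAlg β →ₗ[k] k) : Prop :=
  ∃ f : Fin (finrank k V / 2) → V, LinearIndependent k f ∧ (∀ i j, β (f i) (f j) = 0) ∧
    ∀ x : LieAlg β, (∀ i, toEnd x (f i) ∈ Submodule.span k (f '' Set.Iic i)) → χ x = 0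

open Classical in
/-- The order of the Weyl group: type `D n` for a symmetric form in dimension `2 n`, and types
`B n`, `C n` otherwise. -/
noncomputable def weylOrder (β : LinearMap.BilinForm k V) : ℕ :=
  if β.IsSymm ∧ Even (finrank k V) then 2 ^ (finrank k V / 2 - 1) * (finrank k V / 2).factorial
  else 2 ^ (finrank k V / 2) * (finrank k V / 2).factorial

/-- A block: an indecomposable two-sided ideal that is a direct summand. -/
def IsBlock {A : Type u} [Ring A] (B : TwoSidedIdeal A) : Prop :=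
  B ≠ ⊥ ∧ (∃ C, IsCompl B C) ∧ ∀ I J : TwoSidedIdeal A, Disjoint I J → I ⊔ J = B → I = ⊥ ∨ J = ⊥

/-- Every block of `A` contains at most `n` isomorphism classes of simple modules; a simple
module `S` lies in the block `B` when `B S ≠ 0`. -/
def BlocksBounded (A : Type u) [Ring A] (n : ℕ) : Prop :=
  ∀ B : TwoSidedIdeal A, IsBlock B → ∀ (N : ℕ) (S : Fin N → Type u) [∀ i, AddCommGroup (S i)]
    [∀ i, Module A (S i)] [∀ i, IsSimpleModule A (S i)], (∀ i, ∃ b ∈ B, ∃ m : S i, b • m ≠ 0) →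
      (∀ i j, Nonempty (S i ≃ₗ[A] S j) → i = j) → N ≤ n

end Defs

open Pool.Agent.P.Bf04 in
theorem result {k V : Type u} [Field k] [IsAlgClosed k] (p : ℕ) [Fact p.Prime] [CharP k p]
    (hp : p ≠ 2) [AddCommGroup V] [Module k V] [FiniteDimensional k V]
    (β : LinearMap.BilinForm k V) (hβ : β.Nondegenerate) (hs : β.IsSymm ∨ β.IsAlt)
    (χ : LieAlg β →ₗ[k] k) (hχ : IsNilpotentChar β χ)
    (hD : β.IsSymm → Even (finrank k V) → ∃ x, χ x ≠ 0) :
    BlocksBounded (RedEnv β p χ) (weylOrder β) := by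
  intro B hB N S _ _ _ hS hiso
  haveI : Fact (Odd p) := ⟨(Fact.out : p.Prime).odd_of_ne_two hp⟩
  have h2 : (2 : k) ≠ 0 := fun h => hp ((Nat.prime_dvd_prime_iff_eq Fact.out Nat.prime_two).1
    ((CharP.cast_eq_zero_iff k p 2).1 (by exact_mod_cast h)))
  obtain ⟨Q, rfl, hε⟩ : ∃ Q : QF k V, Q.β = β ∧ (β.IsSymm → Q.ε = 1) := by
    by_cases h : β.IsSymm
    · exact ⟨⟨β, 1, Or.inl rfl, fun v w => by rw [one_mul]; exact h.eq v w, h2⟩, rfl, fun _ => rfl⟩
    · exact ⟨⟨β, -1, Or.inr rfl, fun v w => by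
        rw [neg_one_mul]; exact ((hs.resolve_left h).neg_eq w v).symm, h2⟩, rfl,
        fun h' => absurd h' h⟩
  have hQ : Q.ND := hβ.1
  obtain ⟨f, h3, h4, h5⟩ := hχ
  obtain ⟨e, he, hn, rfl⟩ := QF.nil_of_borel hQ χ f h3 h4 h5
  obtain ⟨b, b1, b2, b3⟩ := QF.good_all (p := p) _ V Q e (Nat.lt_succ_self _) hQ he hn
  let γ : LieAlg Q.β →ₗ⁅k⁆ RedEnv Q.β p (Q.χ e) :=
    (RingQuot.mkAlgHom k (Rel Q.β p (Q.χ e))).toLieHom.comp (UniversalEnvelopingAlgebra.ι k)
  refine le_trans (QF.count_block hQ b1 γ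
    (env_gen (L := LieAlg Q.β) _ (RingQuot.mkAlgHom_surjective k _))
    (fun x => ?_) B hB.2.2 S hS hiso) ?_
  · have := RingQuot.mkAlgHom_rel k (s := Rel Q.β p (Q.χ e)) ⟨x, Q.pw p x, rfl, rfl, rfl⟩
    rwa [map_pow, map_add, AlgHom.commutes] at this
  · unfold weylOrder
    split_ifs with h
    · have h6 := b3 (hε h.1) h.2 (by
        rintro rfl
        obtain ⟨x, hx⟩ := hD h.1 h.2
        exact hx ((Q.χ_apply 0 x).trans (by simp)))
      rcases Nat.eq_zero_or_pos (finrank k V / 2) with h7 | h7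
      · simpa [W, h7] using b2
      · rw [W, ← Nat.sub_add_cancel h7, pow_succ, Nat.sub_add_cancel h7, mul_comm _ 2,
          mul_assoc] at h6
        exact Nat.le_of_mul_le_mul_left h6 two_pos
    · exact b2

end Pool.Agent.P.Bf04.BlocksBCD
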