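import Pool.Agent.P.MP_bf0464_al.Main

/-! Translation to blocks of quotients of the enveloping algebra. -/

namespace Pool.Agent.P.Bf04

open Module

attribute [local instance 100] LieRing.ofAssociativeRing

universe u

theorem pow_smul_of_scalar {k A T : Type*} [Field k] [Ring A] [Algebra k A] [AddCommGroup T]
    [Module A T] {z : A} {c : k} (h : ∀ m : T, z • m = algebraMap k A c • m) (θ : k) (n : ℕ)
    (m : T) : (z - algebraMap k A θ) ^ n • m = algebraMap k A ((c - θ) ^ n) • m := by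
  induction n generalizing m with
  | zero => simp
  | succ n ih => rw [pow_succ, mul_smul, ih, sub_smul, h, ← sub_smul, ← map_sub,
      ← mul_smul, ← map_mul, pow_succ]

theorem block_scalar {k A : Type*} [Field k] [Ring A] [Algebra k A] [FiniteDimensional k A]
    (B : TwoSidedIdeal A) (hB : ∀ I J : TwoSidedIdeal A, Disjoint I J → I ⊔ J = B → I = ⊥ ∨ J = ⊥)
    {z : A} (hz : ∀ a, Commute z a) {S S' : Type*} [AddCommGroup S] [Module A S]
    [AddCommGroup S'] [Module A S'] (hS : ∃ b ∈ B, ∃ m : S, b • m ≠ 0)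
    (hS' : ∃ b ∈ B, ∃ m : S', b • m ≠ 0) {θ θ' : k} (h : ∀ m : S, z • m = algebraMap k A θ • m)
    (h' : ∀ m : S', z • m = algebraMap k A θ' • m) : θ = θ' := by
  by_contra hne
  obtain ⟨N, hN, hc⟩ := ((Filter.eventually_ge_atTop 1).and
    (LinearMap.mulLeft k (z - algebraMap k A θ)).eventually_isCompl_ker_pow_range_pow).exists
  rw [LinearMap.pow_mulLeft] at hc
  set y := (z - algebraMap k A θ) ^ N with hy
  have hyc : ∀ a, Commute y a := fun a => ((hz a).sub_left (Algebra.commutes θ a)).pow_left N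
  let I : TwoSidedIdeal A := .mk' {a | y * a = 0} (mul_zero y)
    (fun {a b} ha hb => by rw [Set.mem_setOf_eq, mul_add, ha, hb, add_zero])
    (fun {a} ha => by rw [Set.mem_setOf_eq, mul_neg, ha, neg_zero])
    (fun {a b} hb => by rw [Set.mem_setOf_eq, ← mul_assoc, hyc, mul_assoc, hb, mul_zero])
    (fun {a b} ha => by rw [Set.mem_setOf_eq, ← mul_assoc, ha, zero_mul])
  let J : TwoSidedIdeal A := .mk' {a | ∃ c, y * c = a} ⟨0, mul_zero y⟩
    (by rintro _ _ ⟨a, rfl⟩ ⟨b, rfl⟩; exact ⟨a + b, mul_add _ _ _⟩)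
    (by rintro _ ⟨a, rfl⟩; exact ⟨-a, mul_neg _ _⟩)
    (by rintro a _ ⟨b, rfl⟩; exact ⟨a * b, by rw [← mul_assoc, hyc, mul_assoc]⟩)
    (by rintro _ b ⟨a, rfl⟩; exact ⟨a * b, (mul_assoc _ _ _).symm⟩)
  have hI : ∀ a, a ∈ I ↔ y * a = 0 := fun a => TwoSidedIdeal.mem_mk' _ _ _ _ _ _ _
  have hJ : ∀ a, a ∈ J ↔ ∃ c, y * c = a := fun a => TwoSidedIdeal.mem_mk' _ _ _ _ _ _ _
  obtain ⟨f, hf, g, hg, hfg⟩ := Submodule.mem_sup.1 (hc.sup_eq_top ▸ Submodule.mem_top (x := 1))
  have hdec : ∀ b ∈ B, b * f ∈ B ⊓ I ∧ b * g ∈ B ⊓ J ∧ b * f + b * g = b := fun b hb =>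
    ⟨⟨B.mul_mem_right _ _ hb, I.mul_mem_left _ _ ((hI f).2 hf)⟩,
      ⟨B.mul_mem_right _ _ hb, J.mul_mem_left _ _ ((hJ g).2 hg)⟩, by rw [← mul_add, hfg, mul_one]⟩
  rcases hB (B ⊓ I) (B ⊓ J) (disjoint_iff_inf_le.2 fun a ha => by
      exact Submodule.disjoint_def.1 hc.disjoint a ((hI a).1 ha.1.2) ((hJ a).1 ha.2.2))
    (le_antisymm (sup_le inf_le_left inf_le_left) fun b hb =>
      TwoSidedIdeal.mem_sup.2 ⟨_, (hdec b hb).1, _, (hdec b hb).2.1, (hdec b hb).2.2⟩) with h0 | h0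
  · obtain ⟨b, hb, m, hm⟩ := hS
    obtain ⟨a1, a2, a3⟩ := hdec b hb
    rw [h0, TwoSidedIdeal.mem_bot] at a1
    obtain ⟨c, hc⟩ := (hJ _).1 a2.2
    refine hm ?_
    rw [← a3, a1, zero_add, ← hc, mul_smul, pow_smul_of_scalar h, sub_self, zero_pow (by omega), map_zero,
      zero_smul]
  · obtain ⟨b, hb, m, hm⟩ := hS'
    obtain ⟨a1, a2, a3⟩ := hdec b hb
    rw [h0, TwoSidedIdeal.mem_bot] at a2
    have a4 := congrArg (· • m) ((hI _).1 a1.2)
    rw [a2, add_zero] at a3
    simp only [a3, mul_smul, zero_smul, hy, pow_smul_of_scalar h'] at a4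
    refine hm ?_
    rw [← one_smul A (b • m), ← map_one (algebraMap k A),
      ← inv_mul_cancel₀ (pow_ne_zero N (sub_ne_zero.2 (Ne.symm hne))), map_mul, mul_smul, a4,
      smul_zero]

theorem env_gen {k L A : Type*} [Field k] [LieRing L] [LieAlgebra k L] [Ring A] [Algebra k A]
    (f : UniversalEnvelopingAlgebra k L →ₐ[k] A) (hf : Function.Surjective f) (P : Subalgebra k A)
    (h : ∀ x, f (UniversalEnvelopingAlgebra.ι k x) ∈ P) (a : A) : a ∈ P := by
  obtain ⟨a, rfl⟩ := hf a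
  let g : L →ₗ⁅k⁆ P :=
    { toFun := fun x => ⟨_, h x⟩
      map_add' := fun x y => Subtype.ext (by simp)
      map_smul' := fun c x => Subtype.ext (by simp)
      map_lie' := fun {x y} => Subtype.ext (by
        change f _ = f _ * f _ - f _ * f _
        rw [LieHom.map_lie, LieRing.of_associative_ring_bracket, map_sub, map_mul, map_mul]) }
  have : f = P.val.comp (UniversalEnvelopingAlgebra.lift k g) := by
    ext x
    exact (congrArg P.val (UniversalEnvelopingAlgebra.lift_ι_apply k g x)).symm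
  rw [this]; exact Subtype.prop _

namespace QF

variable {k V : Type u} [Field k] [AddCommGroup V] [Module k V] {Q : QF k V}

theorem count_block [IsAlgClosed k] [FiniteDimensional k V] {p : ℕ} [Fact p.Prime]
    [Fact (Odd p)] (hQ : Q.ND) {e : End k V} {b : ℕ} (hb : Q.Bound p e b) {A : Type u} [Ring A]
    [Algebra k A] (γ : Q.g →ₗ⁅k⁆ A) (gen : ∀ P : Subalgebra k A, (∀ x, γ x ∈ P) → ∀ a, a ∈ P)
    (rel : ∀ x, γ x ^ p = γ (Q.pw p x) + algebraMap k A (Q.χ e x ^ p))
    (B : TwoSidedIdeal A) (hB : ∀ I J : TwoSidedIdeal A, Disjoint I J → I ⊔ J = B → I = ⊥ ∨ J = ⊥)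
    {N : ℕ} (S : Fin N → Type u) [∀ i, AddCommGroup (S i)] [∀ i, Module A (S i)]
    [∀ i, IsSimpleModule A (S i)] (hS : ∀ i, ∃ b ∈ B, ∃ m : S i, b • m ≠ 0)
    (hiso : ∀ i j, Nonempty (S i ≃ₗ[A] S j) → i = j) : N ≤ b := by
  rcases Nat.eq_zero_or_pos N with rfl | hN
  · exact Nat.zero_le _
  haveI : FiniteDimensional k A := by
    let c := Module.finBasis k Q.g
    have h1 : ∀ y, γ y ∈ Submodule.span k (Set.range fun i => γ (c i)) := fun y => by
      rw [← c.sum_repr y, map_sum]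
      exact sum_mem fun i _ => by
        rw [map_smul]; exact Submodule.smul_mem _ _ (Submodule.subset_span ⟨i, rfl⟩)
    have h2 := fun y => Submodule.span_mono (Set.subset_insert 1 _) (h1 y)
    have h3 := fd_words (k := k) (fun i => γ (c i)) (Fact.out : p.Prime).two_le
      (fun i j => by have := h2 ⁅c i, c j⁆; rwa [LieHom.map_lie] at this) fun i => by
        rw [rel, Algebra.algebraMap_eq_smul_one]
        exact add_mem (h2 _) (Submodule.smul_mem _ _ (Submodule.subset_span (Set.mem_insert _ _)))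
    set T := Submodule.span k (Set.range fun w : List (Fin _) => (w.map fun i => γ (c i)).prod)
    have h4 : T = ⊤ := eq_top_iff.2 fun a _ => gen (T.toSubalgebra
      (Submodule.subset_span ⟨[], rfl⟩) fun x y hx hy => by
        refine (Submodule.span_le (p := T.comap (LinearMap.mulRight k y))).2 ?_ hx
        rintro _ ⟨w, rfl⟩
        refine (Submodule.span_le (p := T.comap (LinearMap.mulLeft k _))).2 ?_ hy
        rintro _ ⟨w', rfl⟩
        exact Submodule.subset_span ⟨w ++ w', by simp⟩)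
      (fun x => Submodule.span_mono (by rintro _ ⟨i, rfl⟩; exact ⟨[i], by simp⟩) (h1 x)) a
    rw [h4] at h3
    exact Module.finite_def.2 (Module.Finite.iff_fg.1 h3)
  letI : ∀ i, Module k (S i) := fun i => Module.compHom _ (algebraMap k A)
  haveI : ∀ i, IsScalarTower k A (S i) := fun i => IsScalarTower.of_compHom k A (S i)
  let R : Fin N → LRep k Q.g := fun i =>
    ⟨S i, (Algebra.lsmul k k (S i) : A →ₐ[k] End k (S i)).toLieHom.comp γ⟩
  have hsim : ∀ i, (R i).Simple := fun i => ⟨IsSimpleModule.nontrivial A (S i), fun U hU => by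
    have h1 : ∀ a : A, ∀ m ∈ U, a • (show S i from m) ∈ U := gen
      { carrier := {a | ∀ m ∈ U, a • (show S i from m) ∈ U}
        mul_mem' := fun ha hb m hm => by rw [mul_smul]; exact ha _ (hb m hm)
        add_mem' := fun ha hb m hm => by rw [add_smul]; exact add_mem (ha m hm) (hb m hm)
        algebraMap_mem' := fun c m hm => U.smul_mem c hm } hU
    let U' : Submodule A (S i) := ⟨U.toAddSubmonoid, fun a m hm => h1 a m hm⟩
    rcases eq_bot_or_eq_top U' with h | h
    · exact Or.inl (eq_bot_iff.2 fun m hm => (h.le (show m ∈ U' from hm) :))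
    · exact Or.inr (eq_top_iff.2 fun m _ => (h.ge trivial : m ∈ U'))⟩
  have hfd : ∀ i, FiniteDimensional k (S i) := fun i => Module.Finite.trans A (S i)
  choose θ hθ using fun i => (haveI := hfd i; Q.exists_cc hQ (hsim i))
  obtain ⟨fr, hfr⟩ := Q.exists_frame hQ
  have hC : ∀ i n (m : S i), fr.C (Q.Fs.compr₂ γ.toLinearMap) n • m
      = algebraMap k A (θ i n) • m := fun i n m =>
    (LinearMap.congr_fun ((map_cas (B' := End k (S i)) (Algebra.lsmul k k (S i)).toRingHom _ _
      n).trans (congrArg (cas _ · n) ((Algebra.lsmul k k (S i)).commutes _))) m).trans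
        (hθ i _ fr hfr n m)
  have hθe : ∀ i, θ i = θ ⟨0, hN⟩ := fun i => funext fun n => block_scalar B hB
    (fun a => gen (Subalgebra.centralizer k {fr.C (Q.Fs.compr₂ γ.toLinearMap) n})
      (fun x y hy => hy ▸ (fr.C_comm _ (Q.sk_of x) (fun _ _ => hfr ▸ trivial) _ (fun v w => by
        change ⁅γ x, γ (Q.Fs v w)⁆ = γ _ + γ _
        rw [← LieHom.map_lie, lie_Fs, map_add]) n).symm) a _ rfl)
    (hS i) (hS _) (hC i n) (hC _ n)
  have := hb (θ ⟨0, hN⟩) (ULift (Fin N)) (fun i => R i.down)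
    (fun i => ⟨hfd _, hsim _, fun x m => ?_, hθe i.down ▸ hθ i.down⟩) fun i j ⟨f, hf⟩ =>
      ULift.ext _ _ (hiso _ _ ⟨{ f with map_smul' := fun a m => ?_ }⟩)
  · simpa using this
  · change ((Algebra.lsmul k k (S i.down) : A →ₐ[k] End k (S i.down)) (γ x) ^ p) m = _
    rw [← map_pow, rel]
    exact add_smul _ _ _
  · exact gen
      { carrier := {a | ∀ m : S i.down, f (a • m) = a • (show S j.down from f m)}
        mul_mem' := fun ha hb m => by rw [mul_smul, ha, hb, mul_smul]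
        add_mem' := fun ha hb m => by rw [add_smul, add_smul, ← ha, ← hb]; exact f.map_add _ _
        algebraMap_mem' := fun c m => f.map_smul c m } hf a m

theorem nil_of_borel [FiniteDimensional k V] (hQ : Q.ND) (χ : Q.g →ₗ[k] k)
    (u : Fin (finrank k V / 2) → V) (hu : LinearIndependent k u) (uu : ∀ i j, Q.β (u i) (u j) = 0)
    (h : ∀ x : Q.g, (∀ i, x.1 (u i) ∈ Submodule.span k (u '' Set.Iic i)) → χ x = 0) :
    ∃ e, Q.Sk e ∧ IsNilpotent e ∧ Q.χ e = χ := by
  obtain ⟨fr, hfr⟩ := Q.exists_frame hQ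
  let e : End k V := ∑ i, ((2 : k)⁻¹ • χ ∘ₗ Q.Fs.flip (fr.b' i)).smulRight (fr.b i)
  have he : ∀ v w, Q.β w (e v) = 2⁻¹ * χ (Q.Fs v w) := fun v w => by
    conv_rhs => rw [← fr.exp' w (hfr ▸ trivial)]
    simp [e, LinearMap.sum_apply, Finset.mul_sum, mul_comm, mul_left_comm]
  have hs : Q.Sk e := fun v w => by
    rw [Q.symm, he, he, Q.Fs_swap v w, map_smul, smul_eq_mul]; ring
  refine ⟨e, hs, ?_, LinearMap.ext (fr.g_induction hfr (LinearMap.eqLocus _ _) fun i j => ?_)⟩
  swap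
  · change Q.χ e _ = _
    rw [χ_Fs _ hs, he, ← mul_assoc, mul_inv_cancel₀ Q.two, one_mul]
  obtain ⟨g, hg⟩ := (Fintype.linearCombination k u).exists_leftInverse_of_injective
    (LinearMap.ker_eq_bot.2 hu.fintypeLinearCombination_injective)
  let w : Fin (finrank k V / 2) → V := fun i => ∑ l, g (fr.b l) i • fr.b' l
  have hw : ∀ i j, Q.β (w i) (u j) = if i = j then 1 else 0 := fun i j => by
    have h1 := congrFun (LinearMap.congr_fun hg (Pi.single j 1)) i
    rw [LinearMap.comp_apply, Fintype.linearCombination_apply_single, one_smul,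
      ← fr.exp (u j) (hfr ▸ trivial)] at h1
    simpa [w, LinearMap.sum_apply, mul_comm, Pi.single_apply] using h1
  obtain ⟨V₀, _, _, _, Q₀, Fl, h1, -, h₀⟩ := Q.exists_flag hQ u
    (fun i => w i - ∑ j, (2⁻¹ * Q.β (w j) (w i)) • u j) uu
    (fun i j => by
      have := Q.two
      simp [LinearMap.sum_apply, uu, hw, Q.symm (u _) (w _)]
      rw [Q.symm (w i) (w j)]
      field_simp; ring)
    fun i j => by simp [LinearMap.sum_apply, uu, hw]
  have h2 : ∀ i x, (∀ j < i, Q.β x (Fl.u j) = 0) → Q.β x (e (Fl.u i)) = 0 := fun i x hx => by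
    rw [he, h _ fun l => ?_, mul_zero]
    rw [Fs_coe, F_apply, ← h1, Fl.uu, mul_zero, zero_smul, sub_zero]
    rcases lt_or_ge l i with hl | hl
    · rw [hx l hl, zero_smul]; exact zero_mem _
    · exact Submodule.smul_mem _ _ (Submodule.subset_span ⟨i, hl, rfl⟩)
  have h3 : ∀ x : Q₀.g, x = 0 := by
    obtain ⟨x, hx⟩ := (finrank_le_one_iff (K := k) (V := V₀)).1 (by have := Fl.finrank_eq; omega)
    by_cases h4 : Q₀.β x x = 0
    · have : x = 0 := h₀ x fun y => by obtain ⟨c, rfl⟩ := hx y; simp [h4]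
      exact g_zero_of_triv fun y => by obtain ⟨c, rfl⟩ := hx y; simp [this]
    · exact g_zero_of_line h4 fun y => (hx y).imp fun _ => Eq.symm
  let d : Fin (finrank k V / 2) → ℤ := fun i => (finrank k V / 2 : ℕ) - i.val
  have h5 : e ∈ Fl.swap.Low d 1 := by
    refine Fl.swap.low_of d (fun i => ⟨fun j hj => ?_, fun j hj => ?_, fun hj => ?_⟩)
      (fun i => ⟨fun j _ => ?_, fun j hj => ?_, fun _ => h₀ _ fun v => ?_⟩)
      fun v => ⟨fun j _ => ?_, fun j hj => ?_, fun _ => ?_⟩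
    · change Q.β (Q.ε • Fl.u j) (e (Fl.u' i)) = 0
      rw [map_smul, LinearMap.smul_apply, hs.right, Q.symm_zero (h2 j _ fun l hl => ?_)]
      · simp
      · rw [Fl.u'u, if_neg]
        rintro rfl
        simp only [d] at hj
        rw [Fin.lt_def] at hl
        omega
    · simp only [d] at hj; omega
    · simp only [d] at hj; omega
    · change Q.β (Q.ε • Fl.u j) (e (Q.ε • Fl.u i)) = 0
      simp [h2 i _ fun l _ => Fl.uu j l]
    · change Q.β (Fl.u' j) (e (Q.ε • Fl.u i)) = 0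
      rw [map_smul, map_smul, h2 i _ fun l hl => ?_, smul_zero]
      rw [Fl.u'u, if_neg]
      rintro rfl
      simp only [d] at hj
      rw [Fin.lt_def] at hl
      omega
    · change Q₀.β (Fl.pr (e (Q.ε • Fl.u i))) v = 0
      rw [← Fl.β_pr', map_smul, map_smul, LinearMap.smul_apply,
        Q.symm_zero (h2 i _ fun l _ => Fl.inc_u v l), smul_zero]
    · change Q.β (Q.ε • Fl.u j) (e (Fl.inc v)) = 0
      rw [map_smul, LinearMap.smul_apply, hs.right, Q.symm_zero (h2 j _ fun l _ => Fl.inc_u v l)]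
      simp
    · simp only [d] at hj; omega
    · exact LinearMap.congr_fun (congrArg Subtype.val (h3 ⟨_, Q₀.mem_g.2 (Fl.sk_res hs)⟩)) v
  obtain ⟨D, hD⟩ := Fl.swap.exists_low_zero d
  exact ⟨D, hD _ (by simpa using Flag.low_pow h5 D)⟩

end QF

end Pool.Agent.P.Bf04
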