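import Pool.Agent.P.MP_bf0464_al.Basic

/-! Gelfand invariants: traces of powers of the matrix of generators. -/

namespace Pool.Agent.P.Bf04

open Module

attribute [local instance 100] LieRing.ofAssociativeRing

section Plain

variable {B B' : Type*} [Ring B] [Ring B'] {ι : Type} [Fintype ι] [DecidableEq ι]

/-- the shifted matrix of generators -/
def Om (Φ : ι → ι → B) (s : B) : Matrix ι ι B :=
  Matrix.of fun i j => Φ i j - if i = j then s else 0

/-- the trace of its `n`-th power -/
def cas (Φ : ι → ι → B) (s : B) (n : ℕ) : B := Matrix.trace (Om Φ s ^ n)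

theorem Om_pow_succ (Φ : ι → ι → B) (s : B) (n : ℕ) (i j : ι) :
    (Om Φ s ^ (n + 1)) i j = ∑ l, Φ i l * (Om Φ s ^ n) l j - s * (Om Φ s ^ n) i j := by
  rw [pow_succ', Matrix.mul_apply]
  simp [Om, sub_mul, Finset.sum_sub_distrib]

theorem map_Om_pow (f : B →+* B') (Φ : ι → ι → B) (s : B) (n : ℕ) (i j : ι) :
    f ((Om Φ s ^ n) i j) = (Om (fun i j => f (Φ i j)) (f s) ^ n) i j := by
  induction n generalizing i j with
  | zero => simp [Matrix.one_apply, apply_ite f]
  | succ n ih => simp [Om_pow_succ, ih]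

theorem map_cas (f : B →+* B') (Φ : ι → ι → B) (s : B) (n : ℕ) :
    f (cas Φ s n) = cas (fun i j => f (Φ i j)) (f s) n := by
  simp [cas, Matrix.trace, map_Om_pow]

theorem cas_intertwine {R R' M M' : Type*} [CommRing R] [CommRing R'] [AddCommGroup M]
    [AddCommGroup M'] [Module R M] [Module R' M'] (j : M →+ M')
    (Φ : ι → ι → End R M) (Φ' : ι → ι → End R' M') (s : End R M) (s' : End R' M')
    (h : ∀ a b m, j (Φ a b m) = Φ' a b (j m)) (hs : ∀ m, j (s m) = s' (j m)) (n : ℕ) (m : M) :
    j (cas Φ s n m) = cas Φ' s' n (j m) := by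
  have key : ∀ n a b m, j ((Om Φ s ^ n) a b m) = (Om Φ' s' ^ n) a b (j m) := by
    intro n
    induction n with
    | zero => intro a b m; by_cases hab : a = b <;> simp [Matrix.one_apply, hab]
    | succ n ih =>
      intro a b m
      simp [Om_pow_succ, LinearMap.sum_apply, h, hs, ih]
  simp [cas, Matrix.trace, LinearMap.sum_apply, key]

theorem cas_mem (A : ℤ → AddSubgroup B) (h1 : (1 : B) ∈ A 0)
    (hmul : ∀ a b x y, x ∈ A a → y ∈ A b → x * y ∈ A (a + b))
    (d : ι → ℤ) (Φ : ι → ι → B) (s : B) (hΦ : ∀ i j, Φ i j ∈ A (d i - d j)) (hs : s ∈ A 0)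
    (n : ℕ) : cas Φ s n ∈ A 0 := by
  have key : ∀ n i j, (Om Φ s ^ n) i j ∈ A (d i - d j) := by
    intro n
    induction n with
    | zero =>
      intro i j
      by_cases hij : i = j
      · subst hij; simpa using h1
      · simp [Matrix.one_apply, hij, zero_mem]
    | succ n ih =>
      intro i j
      rw [Om_pow_succ]
      refine sub_mem (sum_mem fun l _ => ?_) ?_
      · have := hmul _ _ _ _ (hΦ i l) (ih l j)
        rwa [sub_add_sub_cancel] at this
      · have := hmul _ _ _ _ hs (ih i j)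
        rwa [zero_add] at this
  refine sum_mem fun i _ => ?_
  simpa using key n i i

end Plain

namespace QF

variable {k V : Type*} [Field k] [AddCommGroup V] [Module k V] {Q : QF k V}
  {B : Type*} [Ring B] [Algebra k B] {ι : Type} [Fintype ι] [DecidableEq ι]

/-- the shift attached to a space of dimension `n` -/
def sh (ε : k) (n : ℕ) : k := ((n : k) - 1 - ε) / 2

namespace Frame

variable (fr : Q.Frame ι) (φ : V →ₗ[k] V →ₗ[k] B) (s : k)

/-- matrix coefficients of the powers, as bilinear maps -/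
noncomputable def T : ℕ → V →ₗ[k] V →ₗ[k] B
  | 0 => Q.β.flip.compr₂ (Algebra.linearMap k B)
  | n + 1 => ∑ i, (LinearMap.mul k B).compl₁₂ (φ.flip (fr.b' i)) (T n (fr.b i)) - s • T n

theorem T_zero (v w : V) : fr.T φ s 0 v w = algebraMap k B (Q.β w v) := rfl

theorem T_succ (n : ℕ) (v w : V) :
    fr.T φ s (n + 1) v w = ∑ i, φ v (fr.b' i) * fr.T φ s n (fr.b i) w - s • fr.T φ s n v w := by
  simp [T, LinearMap.sum_apply]

/-- the Gelfand invariants for the frame, with the standard shift -/
noncomputable def C (n : ℕ) : B :=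
  cas (fun i j => φ (fr.b i) (fr.b' j)) (algebraMap k B (sh Q.ε (Fintype.card ι))) n

theorem T_frame (n : ℕ) (i j : ι) :
    fr.T φ s n (fr.b i) (fr.b' j)
      = (Om (fun i j => φ (fr.b i) (fr.b' j)) (algebraMap k B s) ^ n) i j := by
  induction n generalizing i j with
  | zero => rw [T_zero, fr.dual]; by_cases h : i = j <;> simp [Matrix.one_apply, h]
  | succ n ih => simp [T_succ, Om_pow_succ, ih, Algebra.smul_def]

theorem C_eq (n : ℕ) :
    fr.C φ n = ∑ i, fr.T φ (sh Q.ε (Fintype.card ι)) n (fr.b i) (fr.b' i) := by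
  simp [C, cas, Matrix.trace, T_frame]

theorem T_indep {κ : Type} [Fintype κ] [DecidableEq κ] (fr' : Q.Frame κ) (h : fr.W = fr'.W)
    (n : ℕ) : fr.T φ s n = fr'.T φ s n := by
  induction n with
  | zero => rfl
  | succ n ih =>
    ext v w
    rw [T_succ, T_succ, ih]
    congr 1
    have := fr.sum_indep fr' h
      (((LinearMap.mul k B).compl₁₂ (φ v) ((fr'.T φ s n).flip w)).flip)
    simpa using this

theorem C_indep {κ : Type} [Fintype κ] [DecidableEq κ] (fr' : Q.Frame κ) (h : fr.W = fr'.W)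
    (n : ℕ) : fr.C φ n = fr'.C φ n := by
  rw [C_eq, C_eq, fr.sum_indep fr' h, fr.T_indep φ _ fr' h, sh, sh, fr.card_indep fr' h]

/-- equivariance -/
theorem T_equiv {x : End k V} (hx : Q.Sk x) (hW : ∀ v ∈ fr.W, x v ∈ fr.W) (X : B)
    (hX : ∀ v w, X * φ v w - φ v w * X = φ (x v) w + φ v (x w)) (n : ℕ) (v w : V) :
    X * fr.T φ s n v w - fr.T φ s n v w * X = fr.T φ s n (x v) w + fr.T φ s n v (x w) := by
  induction n generalizing v w with
  | zero =>
    simp only [T_zero]
    rw [Algebra.commutes, sub_self, ← map_add, hx]; simp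
  | succ n ih =>
    have h0 := fr.sum_skew ((LinearMap.mul k B).compl₁₂ (φ v) ((fr.T φ s n).flip w)) hx hW
    simp only [LinearMap.compl₁₂_apply, LinearMap.mul_apply', LinearMap.flip_apply] at h0
    have h1 : ∀ i, X * (φ v (fr.b' i) * fr.T φ s n (fr.b i) w)
        - φ v (fr.b' i) * fr.T φ s n (fr.b i) w * X
        = φ (x v) (fr.b' i) * fr.T φ s n (fr.b i) w
          + φ v (fr.b' i) * fr.T φ s n (fr.b i) (x w)
          + (φ v (x (fr.b' i)) * fr.T φ s n (fr.b i) w
            + φ v (fr.b' i) * fr.T φ s n (x (fr.b i)) w) := by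
      intro i
      have a1 := hX v (fr.b' i)
      have a2 := ih (fr.b i) w
      calc _ = (X * φ v (fr.b' i) - φ v (fr.b' i) * X) * fr.T φ s n (fr.b i) w
          + φ v (fr.b' i) * (X * fr.T φ s n (fr.b i) w - fr.T φ s n (fr.b i) w * X) := by
            noncomm_ring
        _ = _ := by rw [a1, a2]; noncomm_ring
    have h2 := Finset.sum_congr (rfl : (Finset.univ : Finset ι) = _) fun i _ => h1 i
    simp only [Finset.sum_add_distrib, Finset.sum_sub_distrib] at h2
    rw [h0, add_zero, ← Finset.mul_sum, ← Finset.sum_mul] at h2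
    simp only [T_succ, mul_sub, sub_mul, mul_smul_comm, smul_mul_assoc]
    have h3 := congrArg (fun t => s • t) (ih v w)
    simp only [smul_sub, smul_add] at h3
    linear_combination (norm := abel) h2 - h3

/-- centrality -/
theorem C_comm {x : End k V} (hx : Q.Sk x) (hW : ∀ v ∈ fr.W, x v ∈ fr.W) (X : B)
    (hX : ∀ v w, X * φ v w - φ v w * X = φ (x v) w + φ v (x w)) (n : ℕ) :
    X * fr.C φ n = fr.C φ n * X := by
  rw [C_eq, ← sub_eq_zero, Finset.mul_sum, Finset.sum_mul, ← Finset.sum_sub_distrib]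
  simp only [fr.T_equiv φ _ hx hW X hX, Finset.sum_add_distrib]
  have := fr.sum_skew (fr.T φ (sh Q.ε (Fintype.card ι)) n).flip hx hW
  simp only [LinearMap.flip_apply] at this
  rw [add_comm]; exact this

end Frame

end QF

end Pool.Agent.P.Bf04
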