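import Pool.Agent.P.MP_bf0464_al.Nil

/-! Conjugacy of elements in a coset of the nilpotent radical of the stabiliser of a line. -/

namespace Pool.Agent.P.Bf04

open Module

attribute [local instance 100] LieRing.ofAssociativeRing

universe u

namespace QF

variable {k V V₀ : Type u} [Field k] [AddCommGroup V] [Module k V] [AddCommGroup V₀]
  [Module k V₀] {Q : QF k V} {Q₀ : QF k V₀}

variable (Q) in
/-- conjugacy under isometries -/
def Conj (e₁ e₂ : End k V) : Prop := ∃ g g' : End k V, g * g' = 1 ∧ g' * g = 1 ∧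
  (∀ v w, Q.β (g' v) w = Q.β v (g w)) ∧ g * e₁ = e₂ * g

theorem Conj.trans {e₁ e₂ e₃ : End k V} (h : Q.Conj e₁ e₂) (h' : Q.Conj e₂ e₃) :
    Q.Conj e₁ e₃ := by
  obtain ⟨g, g', a1, a2, a3, a4⟩ := h
  obtain ⟨f, f', b1, b2, b3, b4⟩ := h'
  refine ⟨f * g, g' * f', ?_, ?_, fun v w => ?_, ?_⟩
  · rw [mul_assoc, ← mul_assoc g, a1, one_mul, b1]
  · rw [mul_assoc, ← mul_assoc f', b2, one_mul, a2]
  · rw [End.mul_apply, a3, b3, End.mul_apply]
  · rw [mul_assoc, a4, ← mul_assoc, b4, mul_assoc]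

theorem exists_refl {e : End k V} (he : Q.Sk e) {m : ℕ} (hm : e ^ (m + 1) = 0) {z : V}
    (hz : Q.β ((e ^ m) z) z ≠ 0) : ∃ r : End k V, r * r = 1 ∧
      (∀ v w, Q.β (r v) w = Q.β v (r w)) ∧ r * e = e * r ∧
      ∀ a, ∃ b, r a = a - (2 * Q.β ((e ^ m) z) a / Q.β ((e ^ m) z) z) • z + e b := by
  have hη : (-1) ^ m * Q.ε = 1 :=
    mul_right_cancel₀ hz ((he.pow_symm m z z).symm.trans (one_mul _).symm)
  let G : ℕ → V → End k V := fun n x =>
    ∑ ij ∈ Finset.HasAntidiagonal.antidiagonal n, ((-1) ^ ij.2 * Q.β ((e ^ ij.1) z) x) • e ^ ij.2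
  let S : End k V := ∑ ij ∈ Finset.HasAntidiagonal.antidiagonal m,
    (-1 : k) ^ ij.2 • (Q.β ((e ^ ij.1) z)).smulRight ((e ^ ij.2) z)
  have hS : ∀ x, S x = G m x z := fun x => by
    simp [S, G, LinearMap.sum_apply, mul_smul]
  have hGe : ∀ n x, Commute e (G n x) := fun n x =>
    Commute.sum_right _ _ _ fun _ _ => ((Commute.refl e).pow_right _).smul_right _
  have hG : ∀ x, G m (e x) = e * G m x := fun x => by
    have h1 := Finset.Nat.sum_antidiagonal_succ (n := m)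
      (f := fun ij => ((-1) ^ ij.2 * Q.β ((e ^ ij.1) z) x) • e ^ ij.2)
    have h2 := Finset.Nat.sum_antidiagonal_succ' (n := m)
      (f := fun ij => ((-1) ^ ij.2 * Q.β ((e ^ ij.1) z) x) • e ^ ij.2)
    rw [h1] at h2
    simp only [hm, smul_zero, zero_add, LinearMap.zero_apply, map_zero, mul_zero,
      zero_smul] at h2
    apply neg_injective
    simp only [G, Finset.mul_sum, ← Finset.sum_neg_distrib]
    convert h2 using 2
    · rw [he.right, pow_succ' e, End.mul_apply]; module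
    · rw [mul_smul_comm, pow_succ' e, pow_succ]; module
  have hSe : Commute e S := LinearMap.ext fun x => by
    rw [End.mul_apply, End.mul_apply, hS, hS, hG]; rfl
  have hSG : ∀ x, Commute S (G m x) := fun x =>
    Commute.sum_right _ _ _ fun _ _ => (hSe.symm.pow_right _).smul_right _
  have hGG : ∀ x y, Commute (G m x) (G m y) := fun x y =>
    Commute.sum_right _ _ _ fun _ _ => ((hGe m x).symm.pow_right _).smul_right _
  have hadj : ∀ v w, Q.β (S v) w = Q.β v (S w) := fun v w => by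
    simp only [S, LinearMap.sum_apply, map_sum, LinearMap.smul_apply, map_smul,
      LinearMap.smulRight_apply, smul_eq_mul]
    rw [← Finset.Nat.sum_antidiagonal_swap]
    refine Finset.sum_congr rfl fun ij hij => ?_
    rw [← Finset.HasAntidiagonal.mem_antidiagonal.1 hij, pow_add] at hη
    have b4 : ((-1 : k) ^ ij.2) * (-1) ^ ij.2 = 1 := by rw [← mul_pow]; simp
    rw [Prod.fst_swap, Prod.snd_swap, Q.symm v]
    have := Q.ε_sq
    linear_combination (Q.β ((e ^ ij.2) z) v * Q.β ((e ^ ij.1) z) w)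
      * (Q.ε * (-1) ^ ij.2 * hη - (-1) ^ ij.1 * b4 - (-1) ^ ij.1 * (-1) ^ ij.2 * (-1) ^ ij.2 * this)
  have hmod : ∀ x, ∃ H, Commute e H ∧ G m x = Q.β ((e ^ m) z) x • 1 + e * H := fun x => by
    cases m with
    | zero => exact ⟨0, Commute.zero_right _, by simp [G]⟩
    | succ n =>
      refine ⟨∑ ij ∈ Finset.HasAntidiagonal.antidiagonal n, ((-1) ^ (ij.2 + 1) * Q.β ((e ^ ij.1) z) x) • e ^ ij.2,
        Commute.sum_right _ _ _ fun _ _ => ((Commute.refl e).pow_right _).smul_right _, ?_⟩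
      simp only [G]
      rw [Finset.Nat.sum_antidiagonal_succ', Finset.mul_sum]
      simp [pow_succ' e]
  obtain ⟨H, h1, h2⟩ := hmod z
  have hu : IsUnit (G m z) := by
    rw [h2]
    refine IsNilpotent.isUnit_add_left_of_commute (h1.isNilpotent_mul_right ⟨_, hm⟩) ?_
      ((Commute.one_right _).smul_right _)
    rw [← Algebra.algebraMap_eq_smul_one]
    exact (Ne.isUnit hz).map _
  obtain ⟨c, hc⟩ := hu
  have c1 : Commute S (c⁻¹ : (End k V)ˣ) := Commute.units_inv_right (hc ▸ hSG z)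
  have c2 : Commute e (c⁻¹ : (End k V)ˣ) := Commute.units_inv_right (hc ▸ hGe m z)
  have hSS : S * S = c * S := LinearMap.ext fun x => by
    rw [End.mul_apply, End.mul_apply, hS x, ← End.mul_apply, hSG, End.mul_apply, hS,
      ← End.mul_apply, hGG, hc]; rfl
  set π : End k V := (c⁻¹ : (End k V)ˣ) * S with hπ
  have hSπ : S * π = S := by
    rw [hπ, ← mul_assoc, c1, mul_assoc, hSS, Units.inv_mul_cancel_left]
  have hππ : π * π = π := by rw [hπ, mul_assoc, ← hπ, hSπ]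
  have ho : ∀ v w, Q.β (π v) (w - π w) = 0 := fun v w => by
    rw [hπ, ← c1, End.mul_apply, hadj, c1, map_sub, ← End.mul_apply, ← hπ, hSπ]; simp
  refine ⟨1 - (2 : k) • π, ?_, fun v w => ?_, ?_, fun a => ?_⟩
  · simp only [mul_sub, sub_mul, mul_smul_comm, smul_mul_assoc, hππ, mul_one, one_mul]; module
  · have a1 := ho v w
    have a2 := Q.symm_zero (ho w v)
    simp only [map_sub, LinearMap.sub_apply, LinearMap.smul_apply, End.one_apply, map_smul,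
      smul_eq_mul] at a1 a2 ⊢
    linear_combination 2 * a2 - 2 * a1
  · exact ((Commute.one_left e).sub_left ((c2.mul_right hSe).symm.smul_left _))
  · obtain ⟨H', -, h4⟩ := hmod a
    have h5 : (c : End k V) (π a) = S a := by
      rw [hπ, ← End.mul_apply, Units.mul_inv_cancel_left]
    rw [hc, h2, hS, h4] at h5
    simp only [LinearMap.add_apply, LinearMap.smul_apply, End.one_apply, End.mul_apply] at h5
    refine ⟨(2 / Q.β ((e ^ m) z) z) • (H (π a) - H' z), ?_⟩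
    simp only [LinearMap.sub_apply, LinearMap.smul_apply, End.one_apply, map_smul, map_sub]
    linear_combination (norm := skip) (-(2 / Q.β ((e ^ m) z) z)) • h5
    match_scalars <;> field_simp <;> ring

theorem exists_move {e : End k V} (he : Q.Sk e) {m : ℕ} (hm : e ^ (m + 1) = 0) {a a₀ : V} {l : k}
    (h0 : Q.β ((e ^ m) a₀) a₀ ≠ 0) (hl : l ≠ 0)
    (h : Q.β ((e ^ m) a) a = l ^ 2 * Q.β ((e ^ m) a₀) a₀) : ∃ r : End k V, r * r = 1 ∧
      (∀ v w, Q.β (r v) w = Q.β v (r w)) ∧ r * e = e * r ∧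
      ∃ μ : k, μ ≠ 0 ∧ ∃ b, r a = μ • a₀ + e b := by
  have hη : (-1) ^ m * Q.ε = 1 :=
    mul_right_cancel₀ h0 ((he.pow_symm m a₀ a₀).symm.trans (one_mul _).symm)
  have hs : Q.β ((e ^ m) a₀) a = Q.β ((e ^ m) a) a₀ := by rw [he.pow_symm, hη, one_mul]
  have key : ∀ μ : k, μ ^ 2 = l ^ 2 → Q.β ((e ^ m) (a - μ • a₀)) (a - μ • a₀) ≠ 0 →
      ∃ r : End k V, r * r = 1 ∧ (∀ v w, Q.β (r v) w = Q.β v (r w)) ∧ r * e = e * r ∧
      ∃ μ : k, μ ≠ 0 ∧ ∃ b, r a = μ • a₀ + e b := by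
    intro μ hμ hz
    obtain ⟨r, a1, a2, a3, a4⟩ := exists_refl he hm hz
    obtain ⟨b, hb⟩ := a4 a
    refine ⟨r, a1, a2, a3, μ, fun h => hl (pow_eq_zero_iff two_ne_zero |>.1 (by simp [← hμ, h])),
      b, ?_⟩
    rw [hb, (div_eq_one_iff_eq hz).2]
    · simp
    · simp only [map_sub, map_smul, LinearMap.sub_apply, LinearMap.smul_apply, smul_eq_mul, hs]
      linear_combination h - Q.β ((e ^ m) a₀) a₀ * hμ
  by_cases hz : Q.β ((e ^ m) (a - l • a₀)) (a - l • a₀) = 0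
  · refine key (-l) (by ring) fun hz' => ?_
    simp only [map_sub, map_smul, LinearMap.sub_apply, LinearMap.smul_apply, smul_eq_mul,
      hs] at hz hz'
    refine mul_ne_zero (mul_ne_zero Q.two Q.two) (mul_ne_zero (pow_ne_zero 2 hl) h0) ?_
    linear_combination hz + hz' - 2 * h
  · exact key l rfl hz

namespace Flag

variable (Fl : Q.Flag Q₀ 1)

theorem ext1 {W : Type*} [AddCommGroup W] [Module k W] {f g : V →ₗ[k] W}
    (h1 : f (Fl.u 0) = g (Fl.u 0)) (h2 : f (Fl.u' 0) = g (Fl.u' 0))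
    (h3 : ∀ v, f (Fl.inc v) = g (Fl.inc v)) : f = g := LinearMap.ext fun x => by
  rw [← Fl.dec x]; simp [h1, h2, h3]

theorem u'u0 : Q.β (Fl.u' 0) (Fl.u 0) = 1 := by simp [Fl.u'u]

theorem uu'0 : Q.β (Fl.u 0) (Fl.u' 0) = Q.ε := by simp [Fl.uu']

/-- elements of a coset of the nilpotent radical -/
def el (e₀ : End k V₀) (a : V₀) (t : k) : End k V :=
  Fl.inc ∘ₗ e₀ ∘ₗ Fl.pr + Q.F (Fl.u 0) (Fl.inc a + t • Fl.u 0)

theorem el_u (e₀ : End k V₀) (a : V₀) (t : k) : Fl.el e₀ a t (Fl.u 0) = 0 := by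
  simp [el, F_apply, Fl.pr_u, Fl.uu, Fl.inc_u]

theorem el_inc (e₀ : End k V₀) (a : V₀) (t : k) (v : V₀) :
    Fl.el e₀ a t (Fl.inc v) = Fl.inc (e₀ v) + Q₀.β a v • Fl.u 0 := by
  simp [el, F_apply, Fl.pr_inc, Fl.u_inc, Fl.β_inc]

theorem el_u' (e₀ : End k V₀) (a : V₀) (t : k) :
    Fl.el e₀ a t (Fl.u' 0) = -Fl.inc a + (t * (Q.ε - 1)) • Fl.u 0 := by
  simp only [el, F_apply, Fl.pr_u', Fl.uu'0, Fl.inc_u', LinearMap.add_apply, LinearMap.comp_apply,
    map_zero, map_add, map_smul, LinearMap.smul_apply, Q.ε_sq]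
  module

theorem conj_levi {e₀ r : End k V₀} (h1 : r * r = 1) (h2 : ∀ v w, Q₀.β (r v) w = Q₀.β v (r w))
    (h3 : r * e₀ = e₀ * r) {l : k} (hl : l ≠ 0) (a : V₀) (t : k) :
    Q.Conj (Fl.el e₀ a t) (Fl.el e₀ (l • r a) (l ^ 2 * t)) := by
  let g : k → k → End k V := fun a b => a • (Q.β (Fl.u' 0)).smulRight (Fl.u 0)
    + Fl.inc ∘ₗ r ∘ₗ Fl.pr + b • (Q.β.flip (Fl.u 0)).smulRight (Fl.u' 0)
  have g1 : ∀ a b, g a b (Fl.u 0) = a • Fl.u 0 := fun a b => by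
    simp [g, Fl.u'u0, Fl.uu, Fl.pr_u]
  have g2 : ∀ a b, g a b (Fl.u' 0) = b • Fl.u' 0 := fun a b => by
    simp [g, Fl.u'u0, Fl.u'u', Fl.pr_u']
  have g3 : ∀ a b v, g a b (Fl.inc v) = Fl.inc (r v) := fun a b v => by
    simp [g, Fl.u'_inc, Fl.inc_u, Fl.pr_inc]
  have h4 : ∀ v, r (r v) = v := LinearMap.congr_fun h1
  have h5 : ∀ v, r (e₀ v) = e₀ (r v) := LinearMap.congr_fun h3
  refine ⟨g l l⁻¹, g l⁻¹ l, ?_, ?_, fun v w => ?_, ?_⟩
  · refine Fl.ext1 ?_ ?_ fun v => ?_ <;> simp [g1, g2, g3, h4, smul_smul, hl]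
  · refine Fl.ext1 ?_ ?_ fun v => ?_ <;> simp [g1, g2, g3, h4, smul_smul, hl]
  · have : Q.β ∘ₗ g l⁻¹ l = Q.β.compl₂ (g l l⁻¹) := by
      refine Fl.ext1 ?_ ?_ fun v => ?_ <;> refine Fl.ext1 ?_ ?_ fun v => ?_ <;>
        simp [g1, g2, g3, Fl.uu, Fl.u'u', Fl.u_inc, Fl.u'_inc, Fl.inc_u, Fl.inc_u', Fl.β_inc, h2]
    exact LinearMap.congr_fun₂ this v w
  · refine Fl.ext1 ?_ ?_ fun v => ?_
    · simp [g1, el_u]
    · simp only [End.mul_apply, g1, g2, g3, el_u', map_add, map_neg, map_smul]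
      match_scalars <;> field_simp
    · simp [g1, g3, el_inc, h2, h4, h5, smul_smul, mul_comm]

theorem conj_unip {e₀ : End k V₀} (he : Q₀.Sk e₀) (a b : V₀) (t : k) :
    Q.Conj (Fl.el e₀ a t) (Fl.el e₀ (a - e₀ b) (t + Q₀.β b a - 2⁻¹ * Q₀.β b (e₀ b))) := by
  set y := Q.F (Fl.u 0) (Fl.inc b) with hy
  have y1 : y (Fl.u 0) = 0 := by simp [hy, F_apply, Fl.uu, Fl.inc_u]
  have y2 : y (Fl.u' 0) = -Fl.inc b := by simp [hy, F_apply, Fl.uu'0, Fl.inc_u', Q.ε_sq]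
  have y3 : ∀ v, y (Fl.inc v) = Q₀.β b v • Fl.u 0 := fun v => by
    simp [hy, F_apply, Fl.u_inc, Fl.β_inc]
  have hsk : Q.Sk y := Q.F_sk _ _
  have h2 := Q.two
  refine ⟨1 + y + (2⁻¹ : k) • (y * y), 1 - y + (2⁻¹ : k) • (y * y), ?_, ?_, fun v w => ?_, ?_⟩
  · refine Fl.ext1 ?_ ?_ fun v => ?_ <;> simp [y1, y2, y3]
    match_scalars <;> field_simp <;> ring
  · refine Fl.ext1 ?_ ?_ fun v => ?_ <;> simp [y1, y2, y3]
    match_scalars <;> field_simp <;> ring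
  · simp [hsk _]
  · refine Fl.ext1 ?_ ?_ fun v => ?_
    · simp [y1, el_u]
    · have a1 := Q₀.symm a b
      have a2 := Q₀.symm (e₀ b) b
      have a3 := he b b
      rw [Fl.ε_eq] at a1 a2
      simp only [End.mul_apply, LinearMap.add_apply, LinearMap.smul_apply, End.one_apply, el_u',
        map_add, map_neg, map_smul, y1, y2, y3, el_u, el_inc, map_sub, smul_zero, map_zero,
        LinearMap.sub_apply]
      match_scalars <;> try ring1
      field_simp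
      linear_combination 2 * a1 - a2 - a3
    · simp [y1, y3, el_u, el_inc, he _]
      module

theorem conj_gen {e₀ : End k V₀} (he : Q₀.Sk e₀) {m : ℕ} (hm : e₀ ^ (m + 1) = 0) {a a₀ : V₀}
    {l : k} (h0 : Q₀.β ((e₀ ^ m) a₀) a₀ ≠ 0) (hl : l ≠ 0)
    (h : Q₀.β ((e₀ ^ m) a) a = l ^ 2 * Q₀.β ((e₀ ^ m) a₀) a₀) (t t₀ : k) :
    Q.Conj (Fl.el e₀ a₀ t₀) (Fl.el e₀ a t) := by
  obtain ⟨r, a1, a2, a3, μ, hμ, b, hb⟩ := exists_move he hm h0 hl h
  have hr : μ • r (a₀ - e₀ (-(μ⁻¹ • b))) = a := by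
    rw [← map_smul, map_neg, map_smul e₀, sub_neg_eq_add, smul_add, smul_smul, mul_inv_cancel₀ hμ,
      one_smul, ← hb, ← End.mul_apply, a1, End.one_apply]
  have h3 : ∀ c : k, e₀ (c • (e₀ ^ m) a₀) = 0 := fun c => by
    rw [map_smul, ← End.mul_apply, ← pow_succ', hm]; simp
  have h4 := fun c : k => ((Fl.conj_unip he a₀ (c • (e₀ ^ m) a₀) t₀).trans
    (Fl.conj_unip he _ (-(μ⁻¹ • b)) _)).trans (Fl.conj_levi a1 a2 a3 hμ _ _)
  simp only [h3, sub_zero, hr] at h4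
  convert h4 ((t / μ ^ 2 - t₀ - Q₀.β (-(μ⁻¹ • b)) a₀
    + 2⁻¹ * Q₀.β (-(μ⁻¹ • b)) (e₀ (-(μ⁻¹ • b)))) / Q₀.β ((e₀ ^ m) a₀) a₀) using 2
  rw [map_smul Q₀.β, LinearMap.smul_apply, smul_eq_mul, div_mul_cancel₀ _ h0]
  simp only [map_zero]
  field_simp
  ring

end Flag

end QF

end Pool.Agent.P.Bf04
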