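import Mathlib

/-! Finite dimensionality of the span of words in generators with bracket and power relations. -/

namespace Pool.Agent.P.Bf04

open Module

variable {k B ι : Type*} [Field k] [Ring B] [Algebra k B]

/-- span of the words of length less than `n` -/
def wordFil (k : Type*) [Field k] [Algebra k B] (x : ι → B) (n : ℕ) : Submodule k B :=
  Submodule.span k ((fun w : List ι => (w.map x).prod) '' {w | w.length < n})

theorem word_mem (x : ι → B) {n : ℕ} {w : List ι} (h : w.length < n) :
    (w.map x).prod ∈ wordFil k x n := Submodule.subset_span ⟨w, h, rfl⟩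

theorem wordFil_mono (x : ι → B) {n m : ℕ} (h : n ≤ m) : wordFil k x n ≤ wordFil k x m :=
  Submodule.span_mono (Set.image_mono fun _ hw => lt_of_lt_of_le hw h)

theorem gen_mul_mem (x : ι → B) (i : ι) {n : ℕ} {z : B} (hz : z ∈ wordFil k x n) :
    x i * z ∈ wordFil k x (n + 1) := by
  induction hz using Submodule.span_induction with
  | mem z hz =>
    obtain ⟨w, hw, rfl⟩ := hz
    exact word_mem x (w := i :: w) (by simpa using hw)
  | zero => simp
  | add a b _ _ ha hb => rw [mul_add]; exact add_mem ha hb
  | smul c a _ ha => rw [mul_smul_comm]; exact Submodule.smul_mem _ _ ha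

theorem span_mul_mem (x : ι → B) {y : B} (hy : y ∈ Submodule.span k (insert 1 (Set.range x)))
    {n : ℕ} {z : B} (hz : z ∈ wordFil k x n) : y * z ∈ wordFil k x (n + 1) := by
  induction hy using Submodule.span_induction with
  | mem y hy =>
    rcases hy with rfl | ⟨i, rfl⟩
    · rw [one_mul]; exact wordFil_mono x (Nat.le_succ n) hz
    · exact gen_mul_mem x i hz
  | zero => simp
  | add a b _ _ ha hb => rw [add_mul]; exact add_mem ha hb
  | smul c a _ ha => rw [smul_mul_assoc]; exact Submodule.smul_mem _ _ ha

theorem perm_sub_mem (x : ι → B)
    (hc : ∀ i j, x i * x j - x j * x i ∈ Submodule.span k (insert 1 (Set.range x)))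
    {w w' : List ι} (h : w.Perm w') :
    (w.map x).prod - (w'.map x).prod ∈ wordFil k x w.length := by
  induction h with
  | nil => simp
  | cons i _ ih =>
    simp only [List.map_cons, List.prod_cons, ← mul_sub, List.length_cons]
    exact gen_mul_mem x i ih
  | swap i j l =>
    simp only [List.map_cons, List.prod_cons, ← mul_assoc, ← sub_mul, List.length_cons]
    exact span_mul_mem x (hc j i) (word_mem x (Nat.lt_succ_self _))
  | trans h1 _ ih1 ih2 =>
    rw [← h1.length_eq] at ih2
    simpa using add_mem ih1 ih2

theorem fd_words [Finite ι] (x : ι → B) {p : ℕ} (hp : 2 ≤ p)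
    (hc : ∀ i j, x i * x j - x j * x i ∈ Submodule.span k (insert 1 (Set.range x)))
    (hpow : ∀ i, x i ^ p ∈ Submodule.span k (insert 1 (Set.range x))) :
    FiniteDimensional k (Submodule.span k (Set.range fun w : List ι => (w.map x).prod)) := by
  classical
  have := Fintype.ofFinite ι
  set N := Fintype.card ι * p + 1 with hN
  have key : ∀ n, wordFil k x n ≤ wordFil k x N := by
    intro n
    induction n with
    | zero => exact wordFil_mono x (Nat.zero_le _)
    | succ n ih =>
      refine Submodule.span_le.2 ?_
      rintro _ ⟨w, hw, rfl⟩
      by_cases hl : w.length < N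
      · exact word_mem x hl
      have : ∃ i, p ≤ w.count i := by
        by_contra hcon
        push Not at hcon
        have h1 : ∑ i, w.count i = w.length := by
          have := Multiset.sum_count_eq_card (s := Finset.univ) (m := (w : Multiset ι)) (by simp)
          simpa using this
        have h2 : ∑ i, w.count i ≤ ∑ _i : ι, p := Finset.sum_le_sum fun i _ => (hcon i).le
        simp at h2
        omega
      obtain ⟨i, hi⟩ := this
      obtain ⟨l, hl'⟩ := (List.replicate_sublist_iff.2 hi).exists_perm_append
      have h1 := perm_sub_mem x hc hl'
      have h2 : ((List.replicate p i ++ l).map x).prod ∈ wordFil k x w.length := by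
        have hlen : w.length = p + l.length := by simpa using hl'.length_eq
        simp only [List.map_append, List.map_replicate, List.prod_append, List.prod_replicate]
        exact wordFil_mono x (by omega)
          (span_mul_mem x (hpow i) (word_mem x (Nat.lt_succ_self l.length)))
      have h3 : (w.map x).prod ∈ wordFil k x w.length := by simpa using add_mem h1 h2
      exact ih (wordFil_mono x (by have : w.length < n + 1 := hw; omega) h3)
  haveI : FiniteDimensional k (wordFil k x N) :=
    FiniteDimensional.span_of_finite k ((List.finite_length_lt ι N).image _)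
  refine Submodule.finiteDimensional_of_le (S₂ := wordFil k x N) (Submodule.span_le.2 ?_)
  rintro _ ⟨w, rfl⟩
  exact key _ (word_mem x (Nat.lt_succ_self _))

end Pool.Agent.P.Bf04
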