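import Pool.Agent.P.MP_bf0464_al.Generic2

/-! The function fields used in the generic step. -/

namespace Pool.Agent.P.Bf04

open Module TensorProduct MvPolynomial

universe u

theorem flat_of_inj {Z F : Type u} [CommRing Z] [IsDomain Z] [Field F] [Algebra Z F]
    (h : Function.Injective (algebraMap Z F)) : Module.Flat Z F := by
  haveI : FaithfulSMul Z F := (faithfulSMul_iff_algebraMap_injective Z F).2 h
  letI := FractionRing.liftAlgebra Z F
  haveI := FractionRing.isScalarTower_liftAlgebra Z F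
  haveI : Module.Flat Z (FractionRing Z) := IsLocalization.flat _ (nonZeroDivisors Z)
  exact Module.Flat.trans Z (FractionRing Z) F

theorem aeval_monomial_inj {k ι : Type*} [Field k] [Fintype ι] (e : ι → ι →₀ ℕ)
    (he : Function.Injective fun α : ι →₀ ℕ => ∑ i, α i • e i) :
    Function.Injective (aeval (R := k) fun i => (monomial (e i) 1 : MvPolynomial ι k)) := by
  let g : (ι →₀ ℕ) →+ (ι →₀ ℕ) :=
    { toFun := fun α => ∑ i, α i • e i
      map_zero' := by simp
      map_add' := fun a b => by simp [add_smul, Finset.sum_add_distrib] }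
  have : (aeval (R := k) fun i => (monomial (e i) 1 : MvPolynomial ι k))
      = AddMonoidAlgebra.mapDomainAlgHom k k g := by
    classical
    refine MvPolynomial.algHom_ext fun i => ?_
    rw [aeval_X]
    have h1 : g (Finsupp.single i 1) = e i := by
      simp [g, Finsupp.single_apply]
    rw [← h1]
    exact (AddMonoidAlgebra.mapDomain_single (R := k)).symm
  rw [this]
  exact AddMonoidAlgebra.mapDomain_injective he

theorem shape_inj {k K : Type*} [Field k] [Field K] [Algebra k K] {n p : ℕ} (hp : 0 < p)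
    (ξ : Fin n → K) (hξ : Function.Injective (aeval (R := k) ξ)) (d : Fin n → ℕ) :
    Function.Injective (aeval (R := k) (Fin.cons RatFunc.X fun i =>
      algebraMap K (RatFunc K) (ξ i ^ p) * RatFunc.X ^ d i : Fin (n + 1) → RatFunc K)) := by
  let e : Fin (n + 1) → Fin (n + 1) →₀ ℕ := Fin.cons (Finsupp.single 0 1) fun i =>
    Finsupp.single i.succ p + Finsupp.single 0 (d i)
  have h1 := aeval_monomial_inj (k := k) e (by
    intro α β h
    have h2 : ∀ i : Fin n, α i.succ = β i.succ := by
      intro i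
      have := DFunLike.congr_fun h i.succ
      simp [e, Fin.sum_univ_succ, Finsupp.single_apply, Finsupp.finset_sum_apply,
        (Fin.succ_ne_zero _).symm] at this
      omega
    have h3 := DFunLike.congr_fun h 0
    simp [e, Fin.sum_univ_succ, Finsupp.finset_sum_apply, h2] at h3
    ext i
    exact Fin.cases h3 h2 i)
  let f : MvPolynomial (Fin (n + 1)) k →ₐ[k] RatFunc K :=
    (IsScalarTower.toAlgHom k (Polynomial K) (RatFunc K)).comp
      ((Polynomial.mapAlgHom (aeval ξ)).comp (finSuccEquiv k n).toAlgHom)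
  have h2 : Function.Injective f :=
    (IsFractionRing.injective (Polynomial K) (RatFunc K)).comp
      ((Polynomial.map_injective _ hξ).comp (finSuccEquiv k n).injective)
  have h3 : (aeval (R := k) (Fin.cons RatFunc.X fun i =>
      algebraMap K (RatFunc K) (ξ i ^ p) * RatFunc.X ^ d i : Fin (n + 1) → RatFunc K))
      = f.comp (aeval fun i => monomial (e i) 1) := by
    refine MvPolynomial.algHom_ext fun i => ?_
    refine Fin.cases ?_ (fun i => ?_) i
    · simp [e, f, ← X_pow_eq_monomial, finSuccEquiv_X_zero]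
    · have : (monomial (e i.succ) 1 : MvPolynomial (Fin (n + 1)) k)
          = X i.succ ^ p * X 0 ^ d i := by
        simp [e, X_pow_eq_monomial, monomial_mul]
      simp [this, f, finSuccEquiv_X_zero, finSuccEquiv_X_succ]
  rw [h3]
  exact h2.comp h1

theorem exists_field {k : Type u} [Field k] {n : ℕ} (q : MvPolynomial (Fin n) k) :
    ∃ (K : Type u) (_ : Field K) (_ : Algebra k K) (ξ : Fin n → K) (σ : K →ₐ[k] K) (δ : K),
      Function.Injective (aeval (R := k) ξ) ∧ (∀ a, σ (σ a) = a) ∧
      (∀ (D : Type u) [CommRing D] [IsDomain D] [Algebra k D] (l r : K →ₐ[k] D),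
        (∀ i, l (ξ i) = r (ξ i)) → l = r ∨ l = r.comp σ) ∧
      δ ^ 2 = aeval ξ q ∧ ((∃ r, q = r ^ 2) → ∀ a, σ a = a) := by
  let K₀ := FractionRing (MvPolynomial (Fin n) k)
  let ξ₀ : Fin n → K₀ := fun i => algebraMap (MvPolynomial (Fin n) k) K₀ (X i)
  have hξ : aeval (R := k) ξ₀ = IsScalarTower.toAlgHom k (MvPolynomial (Fin n) k) K₀ :=
    MvPolynomial.algHom_ext fun i => by simp [ξ₀]
  have hinj : Function.Injective (aeval (R := k) ξ₀) := by
    rw [hξ]; exact IsFractionRing.injective (MvPolynomial (Fin n) k) K₀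
  have hext : ∀ (D : Type u) [CommRing D] [Algebra k D] (l r : K₀ →ₐ[k] D),
      (∀ i, l (ξ₀ i) = r (ξ₀ i)) → l = r := by
    intro D _ _ l r h
    have : l.comp (IsScalarTower.toAlgHom k (MvPolynomial (Fin n) k) K₀)
        = r.comp (IsScalarTower.toAlgHom k (MvPolynomial (Fin n) k) K₀) :=
      MvPolynomial.algHom_ext h
    apply AlgHom.coe_ringHom_injective
    exact IsLocalization.ringHom_ext (nonZeroDivisors (MvPolynomial (Fin n) k))
      (congrArg AlgHom.toRingHom this)
  by_cases hq : ∃ r : K₀, r ^ 2 = aeval ξ₀ q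
  · obtain ⟨r, hr⟩ := hq
    exact ⟨K₀, inferInstance, inferInstance, ξ₀, AlgHom.id k K₀, r, hinj, fun _ => rfl,
      fun D _ _ _ l r h => Or.inl (hext D l r h), hr, fun _ _ => rfl⟩
  · haveI : Fact (∀ r : K₀, r ^ 2 ≠ aeval ξ₀ q + 0 * r) :=
      ⟨fun r hr => hq ⟨r, by simpa using hr⟩⟩
    let K := QuadraticAlgebra K₀ (aeval ξ₀ q) 0
    let j : K₀ →ₐ[k] K := IsScalarTower.toAlgHom k K₀ K
    let σ : K →ₐ[k] K :=
      { starRingEnd K with
        commutes' := fun c => by
          change star (algebraMap k K c) = algebraMap k K c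
          rw [IsScalarTower.algebraMap_apply k K₀ K]
          ext <;> simp [K] }
    have hω : (QuadraticAlgebra.omega : K) ^ 2 = j (aeval ξ₀ q) := by
      rw [sq, QuadraticAlgebra.omega_mul_omega_eq_algebraMap, map_zero, zero_mul, add_zero]
      rfl
    have hz : ∀ z : K, z = j z.re + j z.im * QuadraticAlgebra.omega := fun z => by
      ext <;> simp [j, K]
    have hσ : ∀ z : K, σ z = j z.re - j z.im * QuadraticAlgebra.omega := fun z => by
      change star z = _
      ext <;> simp [j, K]
    have hj : aeval (R := k) (fun i => j (ξ₀ i)) = j.comp (aeval ξ₀) :=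
      MvPolynomial.algHom_ext fun i => by simp
    refine ⟨K, inferInstance, inferInstance, fun i => j (ξ₀ i), σ, QuadraticAlgebra.omega,
      ?_, fun a => star_star a, fun D _ _ _ l r h => ?_, by rw [hj]; exact hω, ?_⟩
    · rw [hj]; exact j.toRingHom.injective.comp hinj
    · have h1 : ∀ a, l (j a) = r (j a) :=
        AlgHom.congr_fun (hext D (l.comp j) (r.comp j) h)
      have h2 : l QuadraticAlgebra.omega ^ 2 = r QuadraticAlgebra.omega ^ 2 := by
        rw [← map_pow, ← map_pow, hω, h1]
      rcases sq_eq_sq_iff_eq_or_eq_neg.1 h2 with h3 | h3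
      · left
        ext z
        rw [hz z]; simp only [map_add, map_mul, h1, h3]
      · right
        ext z
        rw [AlgHom.comp_apply, hσ]
        conv_lhs => rw [hz z]
        simp only [map_add, map_sub, map_mul, h1, h3]; ring
    · rintro ⟨r, rfl⟩
      exact absurd ⟨aeval ξ₀ r, by simp⟩ hq

theorem Tri.generic_bound3 {k : Type u} [Field k] {L : Type u} [LieRing L] [LieAlgebra k L]
    {n p : ℕ} (T : Tri k L (n + 1) p) {K : Type u} [Field K] [Algebra k K] {ξ : Fin n → K}
    [FiniteDimensional k L] [Fact p.Prime] [CharP k p]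
    (hδ : T.δ 0 = 1) (hq0 : T.q 0 = 1) (hqs : ∀ i : Fin n, T.q i.succ = p)
    (hξ : Function.Injective (aeval (R := k) ξ)) (σ : K →ₐ[k] K) (hσ : ∀ a, σ (σ a) = a)
    (hGen : ∀ (D : Type u) [CommRing D] [IsDomain D] [Algebra k D] (l r : K →ₐ[k] D),
      (∀ i, l (ξ i) = r (ξ i)) → l = r ∨ l = r.comp σ)
    (c : ℕ → FreeAlgebra k (ℤ × L)) (hc : ∀ j, c j ∈ degSub k L 0) (θ : ℕ → k) (b : ℕ)
    (h1 : ∀ E, T.Adm E → ∃ θ', T.CC c E θ')
    (h2 : ∀ (A : Type u) [Fintype A] (E : A → LRep k T.par),
      (∀ a, T.Adm (E a) ∧ T.CC c (E a) θ) → (∀ a a', (E a).Iso (E a') → a = a') →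
        Fintype.card A ≤ b)
    {J : Type u} [Fintype J] (S : J → T.GenRep K ξ)
    (hθ : ∀ i j, (S i).π0 (c j) = algebraMap k _ (θ j))
    (hsur : ∀ i, Function.Surjective (S i).π)
    (hker : ∀ i j, (∀ z, (S i).π z = 0 ↔ (S j).π z = 0) → i = j) :
    Fintype.card J ≤ 2 * b ∧ ((∀ a, σ a = a) → Fintype.card J ≤ b) := by
  let φ := aeval (R := k) (Fin.cons RatFunc.X fun i =>
      algebraMap K (RatFunc K) (ξ i ^ p) * RatFunc.X ^ (p * T.δ i.succ) : Fin (n + 1) → RatFunc K)
  letI : Algebra (MvPolynomial (Fin (n + 1)) k) (RatFunc K) := φ.toRingHom.toAlgebra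
  haveI : IsScalarTower k (MvPolynomial (Fin (n + 1)) k) (RatFunc K) :=
    IsScalarTower.of_algebraMap_eq fun c => (φ.commutes c).symm
  haveI : Module.Flat (MvPolynomial (Fin (n + 1)) k) (RatFunc K) :=
    flat_of_inj (shape_inj (Fact.out : p.Prime).pos ξ hξ _)
  exact generic_bound2 (F := RatFunc K) (t := RatFunc.X)
    ⟨hδ, hq0, hqs, RatFunc.X_ne_zero, aeval_X _ _, fun i => aeval_X _ _⟩
    σ hσ hGen c hc θ b h1 h2 S hθ hsur hker

end Pool.Agent.P.Bf04
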