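import Pool.Agent.P.MP_bf0464_al.GRep

/-! Isotropic flags and the associated filtrations. -/

namespace Pool.Agent.P.Bf04

open Module

attribute [local instance 100] LieRing.ofAssociativeRing

universe u

namespace QF

variable {k V V₀ : Type u} [Field k] [AddCommGroup V] [Module k V] [AddCommGroup V₀]
  [Module k V₀] (Q : QF k V)

/-- `V` is the orthogonal sum of `V₀` and `M` hyperbolic planes -/
structure Flag (Q₀ : QF k V₀) (M : ℕ) extends Q.Emb Q₀ where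
  u : Fin M → V
  u' : Fin M → V
  uu : ∀ i j, Q.β (u i) (u j) = 0
  u'u' : ∀ i j, Q.β (u' i) (u' j) = 0
  u'u : ∀ i j, Q.β (u' i) (u j) = if i = j then 1 else 0
  pr_u : ∀ i, pr (u i) = 0
  pr_u' : ∀ i, pr (u' i) = 0
  dec : ∀ x, ∑ i, Q.β (u' i) x • u i + inc (pr x) + ∑ i, Q.β x (u i) • u' i = x

theorem exists_flag [FiniteDimensional k V] (hQ : Q.ND) {M : ℕ} (u u' : Fin M → V)
    (uu : ∀ i j, Q.β (u i) (u j) = 0) (u'u' : ∀ i j, Q.β (u' i) (u' j) = 0)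
    (u'u : ∀ i j, Q.β (u' i) (u j) = if i = j then 1 else 0) :
    ∃ (V₀ : Type u) (_ : AddCommGroup V₀) (_ : Module k V₀) (_ : FiniteDimensional k V₀)
      (Q₀ : QF k V₀) (Fl : Q.Flag Q₀ M), Fl.u = u ∧ Fl.u' = u' ∧ Q₀.ND := by
  let W : Submodule k V := ⨅ i, LinearMap.ker (Q.β (u i)) ⊓ LinearMap.ker (Q.β (u' i))
  have hW : ∀ x, x ∈ W ↔ ∀ i, Q.β (u i) x = 0 ∧ Q.β (u' i) x = 0 := fun x => by simp [W]
  let f : V →ₗ[k] V := LinearMap.id - ∑ i, (Q.β (u' i)).smulRight (u i)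
    - ∑ i, (Q.β.flip (u i)).smulRight (u' i)
  have hf : ∀ x, f x = x - ∑ i, Q.β (u' i) x • u i - ∑ i, Q.β x (u i) • u' i := fun x => by
    simp [f, LinearMap.sum_apply]
  have uu' : ∀ i j, Q.β (u i) (u' j) = if j = i then Q.ε else 0 := fun i j => by
    rw [Q.symm, u'u]; simp
  have hfW : ∀ x, f x ∈ W := fun x => (hW _).2 fun i => by
    simp [hf, uu, u'u', u'u, uu', Q.symm (u i) x, mul_comm]
  have hfid : ∀ x ∈ W, f x = x := fun x hx => by
    simp [hf, ((hW x).1 hx _).2, Q.symm_zero ((hW x).1 hx _).1]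
  let Q₀ : QF k W := ⟨Q.β.domRestrict₁₂ W W, Q.ε, Q.hε, fun v w => Q.symm v w, Q.two⟩
  have hβ : ∀ (v : W) w, Q.β v w = Q.β v (f w) := fun v w => by
    simp [hf, Q.symm_zero ((hW _).1 v.2 _).1, Q.symm_zero ((hW _).1 v.2 _).2]
  refine ⟨W, inferInstance, inferInstance, inferInstance, Q₀,
    { inc := W.subtype
      pr := f.codRestrict W hfW
      ε_eq := rfl
      β_pr := hβ
      pr_inc := fun v => Subtype.ext (hfid v v.2)
      u := u
      u' := u'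
      uu := uu
      u'u' := u'u'
      u'u := u'u
      pr_u := fun i => Subtype.ext (by simp [hf, uu, u'u])
      pr_u' := fun i => Subtype.ext (by simp [hf, u'u', u'u])
      dec := fun x => by
        change _ + f x + _ = x
        rw [hf]; abel }, rfl, rfl, fun v hv => Subtype.ext (hQ _ fun w => ?_)⟩
  rw [hβ]; exact hv ⟨_, hfW w⟩

namespace Flag

variable {Q} {Q₀ : QF k V₀} {M : ℕ} (Fl : Q.Flag Q₀ M)

theorem uu' (i j : Fin M) : Q.β (Fl.u i) (Fl.u' j) = if j = i then Q.ε else 0 := by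
  rw [Q.symm, Fl.u'u]; simp

theorem inc_u (v : V₀) (i : Fin M) : Q.β (Fl.inc v) (Fl.u i) = 0 := by
  rw [Fl.β_pr, Fl.pr_u, map_zero]

theorem inc_u' (v : V₀) (i : Fin M) : Q.β (Fl.inc v) (Fl.u' i) = 0 := by
  rw [Fl.β_pr, Fl.pr_u', map_zero]

theorem u_inc (v : V₀) (i : Fin M) : Q.β (Fl.u i) (Fl.inc v) = 0 := Q.symm_zero (Fl.inc_u v i)

theorem u'_inc (v : V₀) (i : Fin M) : Q.β (Fl.u' i) (Fl.inc v) = 0 := Q.symm_zero (Fl.inc_u' v i)

theorem eq_inc {x : V} (h1 : ∀ i, Q.β (Fl.u i) x = 0) (h2 : ∀ i, Q.β (Fl.u' i) x = 0) :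
    Fl.inc (Fl.pr x) = x := by
  simpa [h2, Q.symm_zero (h1 _)] using Fl.dec x

include Fl in
theorem finrank_eq [FiniteDimensional k V₀] : finrank k V = finrank k V₀ + 2 * M := by
  let f : V →ₗ[k] (Fin M → k) × V₀ × (Fin M → k) :=
    (LinearMap.pi fun i => Q.β (Fl.u' i)).prod (Fl.pr.prod (LinearMap.pi fun i => Q.β.flip (Fl.u i)))
  have hf : Function.Bijective f := by
    constructor
    · refine (injective_iff_map_eq_zero _).2 fun x hx => ?_
      have h1 : ∀ i, Q.β (Fl.u' i) x = 0 := fun i => congrFun (congrArg Prod.fst hx) i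
      have h2 : Fl.pr x = 0 := congrArg (·.2.1) hx
      have h3 : ∀ i, Q.β x (Fl.u i) = 0 := fun i => congrFun (congrArg (·.2.2) hx) i
      simpa [h1, h2, h3] using (Fl.dec x).symm
    · rintro ⟨a, v, b⟩
      refine ⟨∑ i, a i • Fl.u i + Fl.inc v + ∑ i, b i • Fl.u' i, ?_⟩
      ext i <;>
        simp [f, Fl.uu, Fl.u'u, Fl.u'u', Fl.u'_inc, Fl.inc_u, Fl.pr_u, Fl.pr_u', Fl.pr_inc,
          LinearMap.sum_apply]
  rw [(LinearEquiv.ofBijective f hf).finrank_eq]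
  simp; ring

/-- the opposite flag -/
def swap : Q.Flag Q₀ M where
  toEmb := Fl.toEmb
  u := Fl.u'
  u' i := Q.ε • Fl.u i
  uu := Fl.u'u'
  u'u' i j := by simp [Fl.uu]
  u'u i j := by simp [Fl.uu', Q.ε_sq, eq_comm]
  pr_u := Fl.pr_u'
  pr_u' i := by simp [Fl.pr_u]
  dec x := by
    conv_rhs => rw [← Fl.dec x]
    simp only [map_smul, LinearMap.smul_apply, smul_eq_mul, ← Q.symm x, smul_smul,
      mul_comm _ Q.ε, ← Q.symm (Fl.u' _) x]
    abel

variable (d : Fin M → ℤ)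

/-- the filtration attached to degrees -/
def Fil (a : ℤ) : Submodule k V where
  carrier := {x | (∀ i, a < d i → Q.β (Fl.u' i) x = 0) ∧ (∀ i, a < -d i → Q.β (Fl.u i) x = 0) ∧
    (a < 0 → Fl.pr x = 0)}
  add_mem' := fun ⟨a1, a2, a3⟩ ⟨b1, b2, b3⟩ =>
    ⟨fun i h => by rw [map_add, a1 i h, b1 i h, add_zero],
      fun i h => by rw [map_add, a2 i h, b2 i h, add_zero],
      fun h => by rw [map_add, a3 h, b3 h, add_zero]⟩
  zero_mem' := ⟨fun _ _ => map_zero _, fun _ _ => map_zero _, fun _ => map_zero _⟩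
  smul_mem' := fun c x ⟨a1, a2, a3⟩ =>
    ⟨fun i h => by rw [map_smul, a1 i h, smul_zero], fun i h => by rw [map_smul, a2 i h, smul_zero],
      fun h => by rw [map_smul, a3 h, smul_zero]⟩

theorem Fil_mono {a b : ℤ} (h : a ≤ b) : Fl.Fil d a ≤ Fl.Fil d b := fun _ ⟨a1, a2, a3⟩ =>
  ⟨fun i hi => a1 i (by omega), fun i hi => a2 i (by omega), fun hi => a3 (by omega)⟩

theorem u_mem (i : Fin M) : Fl.u i ∈ Fl.Fil d (d i) :=
  ⟨fun j h => by rw [Fl.u'u, if_neg]; rintro rfl; omega, fun j _ => Fl.uu j i, fun _ => Fl.pr_u i⟩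

theorem u'_mem (i : Fin M) : Fl.u' i ∈ Fl.Fil d (-d i) :=
  ⟨fun j _ => Fl.u'u' j i, fun j h => by rw [Fl.uu', if_neg]; rintro rfl; omega,
    fun _ => Fl.pr_u' i⟩

theorem inc_mem (v : V₀) : Fl.inc v ∈ Fl.Fil d 0 :=
  ⟨fun j _ => Fl.u'_inc v j, fun j _ => Fl.u_inc v j, fun h => absurd h (lt_irrefl _)⟩

theorem orth {a b : ℤ} {v x : V} (hv : v ∈ Fl.Fil d a) (hx : x ∈ Fl.Fil d b) (h : a + b < 0) :
    Q.β v x = 0 := by
  rw [← Fl.dec x]
  simp only [map_add, map_sum, map_smul, smul_eq_mul, Emb.β_pr']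
  rw [Finset.sum_eq_zero, Finset.sum_eq_zero, zero_add, add_zero]
  · rcases lt_or_ge a 0 with ha | ha
    · rw [hv.2.2 ha]; simp
    · rw [hx.2.2 (by omega)]; simp
  · intro i _
    rcases lt_or_ge b (-d i) with hi | hi
    · rw [Q.symm_zero (hx.2.1 i hi), zero_mul]
    · rw [Q.symm_zero (hv.1 i (by omega)), mul_zero]
  · intro i _
    rcases lt_or_ge b (d i) with hi | hi
    · rw [hx.1 i hi, zero_mul]
    · rw [Q.symm_zero (hv.2.1 i (by omega)), mul_zero]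

theorem Fil_le {a : ℤ} {U : Submodule k V} (h1 : ∀ i, d i ≤ a → Fl.u i ∈ U)
    (h2 : ∀ i, -d i ≤ a → Fl.u' i ∈ U) (h3 : 0 ≤ a → ∀ v, Fl.inc v ∈ U) : Fl.Fil d a ≤ U := by
  intro x hx
  rw [← Fl.dec x]
  refine add_mem (add_mem (sum_mem fun i _ => ?_) ?_) (sum_mem fun i _ => ?_)
  · rcases lt_or_ge a (d i) with hi | hi
    · rw [hx.1 i hi, zero_smul]; exact zero_mem _
    · exact U.smul_mem _ (h1 i hi)
  · rcases lt_or_ge a 0 with hi | hi
    · rw [hx.2.2 hi, map_zero]; exact zero_mem _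
    · exact h3 hi _
  · rcases lt_or_ge a (-d i) with hi | hi
    · rw [Q.symm_zero (hx.2.1 i hi), zero_smul]; exact zero_mem _
    · exact U.smul_mem _ (h2 i hi)

/-- maps lowering the filtration by `c` -/
def Low (c : ℤ) : Submodule k (End k V) where
  carrier := {x | ∀ a, ∀ v ∈ Fl.Fil d a, x v ∈ Fl.Fil d (a - c)}
  add_mem' := fun hx hy a v hv => add_mem (hx a v hv) (hy a v hv)
  zero_mem' := fun _ _ _ => zero_mem _
  smul_mem' := fun c _ hx a v hv => Submodule.smul_mem _ c (hx a v hv)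

theorem low_of {c : ℤ} {x : End k V} (h1 : ∀ i, x (Fl.u i) ∈ Fl.Fil d (d i - c))
    (h2 : ∀ i, x (Fl.u' i) ∈ Fl.Fil d (-d i - c)) (h3 : ∀ v, x (Fl.inc v) ∈ Fl.Fil d (-c)) :
    x ∈ Fl.Low d c := fun a _ hv =>
  Fl.Fil_le d (U := (Fl.Fil d (a - c)).comap x)
    (fun i h => Fl.Fil_mono d (by omega) (h1 i)) (fun i h => Fl.Fil_mono d (by omega) (h2 i))
    (fun h v => Fl.Fil_mono d (by omega) (h3 v)) hv

variable {Fl d}

theorem low_mul {c c' : ℤ} {x y : End k V} (hx : x ∈ Fl.Low d c) (hy : y ∈ Fl.Low d c') :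
    x * y ∈ Fl.Low d (c + c') := fun a v hv => by
  have := hx _ _ (hy a v hv)
  rwa [show a - c' - c = a - (c + c') by ring] at this

theorem low_mono {c c' : ℤ} (h : c ≤ c') {x : End k V} (hx : x ∈ Fl.Low d c') :
    x ∈ Fl.Low d c := fun a v hv => Fl.Fil_mono d (by omega) (hx a v hv)

theorem low_pow {c : ℤ} {x : End k V} (hx : x ∈ Fl.Low d c) (n : ℕ) :
    x ^ n ∈ Fl.Low d (n * c) := by
  induction n with
  | zero => intro a v hv; simpa using hv
  | succ n ih => rw [pow_succ]; convert low_mul ih hx using 2; push_cast; ring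

theorem F_low {a b : ℤ} {v w : V} (hv : v ∈ Fl.Fil d a) (hw : w ∈ Fl.Fil d b) :
    Q.F v w ∈ Fl.Low d (-(a + b)) := fun c x hx => by
  rw [F_apply]
  refine sub_mem ?_ ?_
  · rcases lt_or_ge (b + c) 0 with h | h
    · rw [Fl.orth d hw hx h, zero_smul]; exact zero_mem _
    · exact Submodule.smul_mem _ _ (Fl.Fil_mono d (by omega) hv)
  · rcases lt_or_ge (a + c) 0 with h | h
    · rw [Fl.orth d hv hx h, mul_zero, zero_smul]; exact zero_mem _
    · exact Submodule.smul_mem _ _ (Fl.Fil_mono d (by omega) hw)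

variable (Fl d) in
theorem ext_low (x : End k V₀) : Fl.inc ∘ₗ x ∘ₗ Fl.pr ∈ Fl.Low d 0 :=
  Fl.low_of d (fun i => by simp [Fl.pr_u]) (fun i => by simp [Fl.pr_u'])
    (fun v => by simpa using Fl.inc_mem d _)

variable (Fl d) in
theorem exists_low_zero : ∃ D : ℕ, ∀ x ∈ Fl.Low d D, x = 0 := by
  obtain ⟨D, hD⟩ : ∃ D : ℕ, ∀ i, |d i| ≤ D :=
    ⟨∑ i, (d i).natAbs, fun i => by
      rw [← Int.natCast_natAbs]
      exact_mod_cast Finset.single_le_sum (f := fun i => (d i).natAbs) (fun _ _ => Nat.zero_le _)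
        (Finset.mem_univ i)⟩
  refine ⟨2 * D + 1, fun x hx => LinearMap.ext fun v => ?_⟩
  have h1 : v ∈ Fl.Fil d D := ⟨fun i h => by have := abs_le.1 (hD i); omega,
    fun i h => by have := abs_le.1 (hD i); omega, fun h => by omega⟩
  exact Fl.Fil_le d (U := ⊥) (fun i h => by have := abs_le.1 (hD i); omega)
    (fun i h => by have := abs_le.1 (hD i); omega) (fun h => by omega) (hx _ _ h1)

theorem trace_low {x : End k V} (hx : x ∈ Fl.Low d 1) : LinearMap.trace k V x = 0 := by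
  obtain ⟨D, hD⟩ := Fl.exists_low_zero d
  exact (LinearMap.isNilpotent_trace_of_isNilpotent
    ⟨D, hD _ (by simpa using low_pow hx D)⟩).eq_zero

variable (Fl d)

/-- the nilpotent radical -/
def nm : LieSubalgebra k Q.g where
  carrier := {y | y.1 ∈ Fl.Low d 1}
  add_mem' := fun hx hy => (Fl.Low d 1).add_mem hx hy
  zero_mem' := zero_mem (Fl.Low d 1)
  smul_mem' := fun c _ hx => (Fl.Low d 1).smul_mem c hx
  lie_mem' := fun hx hy => low_mono (by omega) (sub_mem (low_mul hx hy) (low_mul hy hx))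

variable {Fl d}

theorem lie_mem_nm {x y : Q.g} (hx : x.1 ∈ Fl.Low d 0) (hy : y ∈ Fl.nm d) : ⁅x, y⁆ ∈ Fl.nm d := by
  have h1 := low_mul (c' := 1) hx hy
  have h2 := low_mul (c := 1) hy hx
  rw [zero_add] at h1
  rw [add_zero] at h2
  exact (Fl.Low d 1).sub_mem h1 h2

variable {p : ℕ} [Fact p.Prime] [Fact (Odd p)] [CharP k p] {e : End k V}

theorem nil_twist (h1 : ∀ y ∈ Fl.nm d, Q.χ e (Q.pw p y) = 0) {R : LRep k Q.g}
    (hR : Q.PChar p e R) {y : Q.g} (hy : y ∈ Fl.nm d) :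
    IsNilpotent (R.ρ y - Q.χ e y • (1 : End k R.M)) := by
  obtain ⟨D, hD⟩ := Fl.exists_low_zero d
  have hp := (Fact.out : p.Prime).two_le
  have key : ∀ r : ℕ, ∀ c : ℤ, 1 ≤ c → D ≤ c + r → ∀ y : Q.g, y.1 ∈ Fl.Low d c →
      IsNilpotent (R.ρ y - Q.χ e y • (1 : End k R.M)) := by
    intro r
    induction r with
    | zero =>
      intro c _ h y hy
      have : y = 0 := Subtype.ext (hD _ (low_mono (by omega) hy))
      simp [this]
    | succ r ih =>
      intro c hc h y hy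
      have h2 := ih (p * c) (by nlinarith) (by push_cast at h; nlinarith) (Q.pw p y) (low_pow hy p)
      rw [h1 y (low_mono hc hy), zero_smul, sub_zero] at h2
      refine IsNilpotent.of_pow (m := p) ?_
      rw [sub_pow_p (k := k) p ((Commute.one_right _).smul_right _), smul_pow, one_pow,
        show R.ρ y ^ p = R.ρ (Q.pw p y) + Q.χ e y ^ p • 1 from LinearMap.ext (hR y),
        add_sub_cancel_right]
      exact h2
  exact key D 1 le_rfl (by omega) y hy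

theorem engel_twist (h1 : ∀ y ∈ Fl.nm d, Q.χ e (Q.pw p y) = 0)
    (h2 : ∀ y ∈ Fl.nm d, ∀ y' ∈ Fl.nm d, Q.χ e ⁅y, y'⁆ = 0) {R : LRep k Q.g}
    (hR : Q.PChar p e R) [FiniteDimensional k R.M] [Nontrivial R.M] :
    (∃ m : R.M, m ≠ 0 ∧ ∀ y ∈ Fl.nm d, R.ρ y m = Q.χ e y • m) ∧
      Submodule.span k {a | ∃ y ∈ Fl.nm d, ∃ m, R.ρ y m - Q.χ e y • m = a} ≠ ⊤ := by
  let f : Q.g →ₗ[k] End k R.M := R.ρ.toLinearMap - (Q.χ e).smulRight 1
  have hf : ∀ y, f y = R.ρ y - Q.χ e y • (1 : End k R.M) := fun _ => rfl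
  let s : LieSubalgebra k (End k R.M) :=
    { (Fl.nm d).toSubmodule.map f with
      lie_mem' := by
        rintro _ _ ⟨y, hy, rfl⟩ ⟨y', hy', rfl⟩
        refine ⟨⁅y, y'⁆, (Fl.nm d).lie_mem hy hy', ?_⟩
        rw [hf, hf, hf, h2 y hy y' hy', R.lie_eq, LieRing.of_associative_ring_bracket]
        simp only [mul_sub, sub_mul, mul_smul_comm, smul_mul_assoc, mul_one, one_mul]
        module }
  obtain ⟨⟨m, hm, h3⟩, h4⟩ := engel s (by rintro _ ⟨y, hy, rfl⟩; exact nil_twist h1 hR hy)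
  refine ⟨⟨m, hm, fun y hy => sub_eq_zero.1 (h3 _ ⟨y, hy, rfl⟩)⟩, fun h => h4 ?_⟩
  rw [eq_top_iff, ← h]
  refine Submodule.span_mono ?_
  rintro _ ⟨y, hy, m, rfl⟩
  exact ⟨_, ⟨y, hy, rfl⟩, m, rfl⟩

end Flag

end QF

end Pool.Agent.P.Bf04
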