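import Mathlib

/-! Bundled representations of a Lie algebra. -/

namespace Pool.Agent.P.Bf04

open Module

attribute [local instance 100] LieRing.ofAssociativeRing

universe u

/-- a representation -/
structure LRep (k : Type u) [Field k] (L : Type u) [LieRing L] [LieAlgebra k L] where
  M : Type u
  [acg : AddCommGroup M]
  [mod : Module k M]
  ρ : L →ₗ⁅k⁆ End k M

attribute [instance] LRep.acg LRep.mod

theorem burnside {k M : Type*} [Field k] [IsAlgClosed k] [AddCommGroup M] [Module k M]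
    [FiniteDimensional k M] [Nontrivial M] (A : Subalgebra k (End k M))
    (h : ∀ N : Submodule k M, (∀ a ∈ A, ∀ m ∈ N, a m ∈ N) → N = ⊥ ∨ N = ⊤) : A = ⊤ := by
  classical
  haveI : IsSimpleModule A M := by
    rw [isSimpleModule_iff]
    refine ⟨fun N => ?_⟩
    rcases h (N.restrictScalars k) (fun a ha m hm => N.smul_mem ⟨a, ha⟩ hm) with h | h
    · left; simpa using h
    · right; simpa using h
  rw [eq_top_iff]
  intro f _
  let f' : End (End A M) M :=
    { toFun := f
      map_add' := f.map_add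
      map_smul' := by
        intro g m
        obtain ⟨c, rfl⟩ := (IsSimpleModule.algebraMap_end_bijective_of_isAlgClosed
          (A := A) (V := M) k).2 g
        simp }
  obtain ⟨r, hr⟩ := jacobson_density f' (Finset.univ.image (Module.finBasis k M))
  have : f = r.1 := (Module.finBasis k M).ext fun i => hr _ (by simp)
  rw [this]; exact r.2

namespace LRep

variable {k : Type u} [Field k] {L : Type u} [LieRing L] [LieAlgebra k L]

/-- invariant subspaces -/
def Stable (R : LRep k L) (N : Submodule k R.M) : Prop := ∀ x, ∀ m ∈ N, R.ρ x m ∈ N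

/-- simplicity -/
def Simple (R : LRep k L) : Prop :=
  Nontrivial R.M ∧ ∀ N : Submodule k R.M, R.Stable N → N = ⊥ ∨ N = ⊤

/-- intertwiners -/
def IsHom (R R' : LRep k L) (f : R.M →ₗ[k] R'.M) : Prop := ∀ x m, f (R.ρ x m) = R'.ρ x (f m)

/-- isomorphism -/
def Iso (R R' : LRep k L) : Prop := ∃ f : R.M ≃ₗ[k] R'.M, R.IsHom R' f

theorem lie_apply (R : LRep k L) (x y : L) (m : R.M) :
    R.ρ ⁅x, y⁆ m = R.ρ x (R.ρ y m) - R.ρ y (R.ρ x m) := by
  rw [LieHom.map_lie]; rfl

theorem comm_apply (R : LRep k L) (x y : L) (m : R.M) :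
    R.ρ x (R.ρ y m) = R.ρ y (R.ρ x m) + R.ρ ⁅x, y⁆ m := by
  rw [lie_apply]; abel

theorem lie_eq (R : LRep k L) (x y : L) : R.ρ ⁅x, y⁆ = R.ρ x * R.ρ y - R.ρ y * R.ρ x := by
  rw [LieHom.map_lie]; rfl

/-- a representation from a linear map -/
def ofLin {M : Type u} [AddCommGroup M] [Module k M] (f : L →ₗ[k] End k M)
    (h : ∀ x y m, f ⁅x, y⁆ m = f x (f y m) - f y (f x m)) : LRep k L where
  M := M
  ρ := { f with map_lie' := fun {x y} => LinearMap.ext (h x y) }

/-- subrepresentation -/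
def sub (R : LRep k L) (N : Submodule k R.M) (h : R.Stable N) : LRep k L :=
  ofLin (M := N)
    { toFun := fun x => (R.ρ x).restrict (h x)
      map_add' := fun x y => by ext m; simp
      map_smul' := fun c x => by ext m; simp }
    (fun x y m => Subtype.ext (R.lie_apply x y m))

theorem sub_hom (R : LRep k L) (N : Submodule k R.M) (h : R.Stable N) :
    (R.sub N h).IsHom R N.subtype := fun _ _ => rfl

/-- quotient representation -/
def quot (R : LRep k L) (N : Submodule k R.M) (h : R.Stable N) : LRep k L :=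
  ofLin (M := R.M ⧸ N)
    { toFun := fun x => N.mapQ N (R.ρ x) (h x)
      map_add' := fun x y => by ext m; simp
      map_smul' := fun c x => by ext m; simp }
    (fun x y m => by
      obtain ⟨m, rfl⟩ := N.mkQ_surjective m
      exact congrArg N.mkQ (R.lie_apply x y m))

theorem quot_hom (R : LRep k L) (N : Submodule k R.M) (h : R.Stable N) :
    R.IsHom (R.quot N h) N.mkQ := fun _ _ => rfl

/-- restriction along a homomorphism -/
@[reducible] def res {L' : Type u} [LieRing L'] [LieAlgebra k L'] (R : LRep k L) (f : L' →ₗ⁅k⁆ L) :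
    LRep k L' where
  M := R.M
  ρ := R.ρ.comp f

/-- direct sum -/
def prod (R R' : LRep k L) : LRep k L :=
  ofLin (M := R.M × R'.M)
    { toFun := fun x => (R.ρ x).prodMap (R'.ρ x)
      map_add' := fun x y => by ext m <;> simp
      map_smul' := fun c x => by ext m <;> simp }
    (fun x y m => Prod.ext (R.lie_apply x y m.1) (R'.lie_apply x y m.2))

theorem IsHom.ker {R R' : LRep k L} {f : R.M →ₗ[k] R'.M} (h : R.IsHom R' f) :
    R.Stable (LinearMap.ker f) := fun x m hm => by
  rw [LinearMap.mem_ker] at hm ⊢; rw [h, hm, map_zero]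

theorem IsHom.range {R R' : LRep k L} {f : R.M →ₗ[k] R'.M} (h : R.IsHom R' f) :
    R'.Stable (LinearMap.range f) := by
  rintro x _ ⟨m, rfl⟩; exact ⟨_, h x m⟩

theorem IsHom.comp {R R' R'' : LRep k L} {f : R.M →ₗ[k] R'.M} {g : R'.M →ₗ[k] R''.M}
    (hg : R'.IsHom R'' g) (hf : R.IsHom R' f) : R.IsHom R'' (g ∘ₗ f) := fun x m => by
  simp only [LinearMap.comp_apply]; rw [hf, hg]

theorem IsHom.pow {R R' : LRep k L} {f : R.M →ₗ[k] R'.M} (h : R.IsHom R' f) (x : L) (n : ℕ)
    (m : R.M) : f ((R.ρ x ^ n) m) = (R'.ρ x ^ n) (f m) := by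
  induction n generalizing m with
  | zero => rfl
  | succ n ih => rw [pow_succ, pow_succ, End.mul_apply, End.mul_apply, ih, h]

theorem Iso.refl (R : LRep k L) : R.Iso R := ⟨LinearEquiv.refl _ _, fun _ _ => rfl⟩

theorem Iso.symm {R R' : LRep k L} (h : R.Iso R') : R'.Iso R := by
  obtain ⟨f, hf⟩ := h
  refine ⟨f.symm, fun x m => f.injective ?_⟩
  have := hf x (f.symm m)
  simp only [LinearEquiv.coe_coe, LinearEquiv.apply_symm_apply] at this ⊢
  exact this.symm

theorem Iso.trans {R R' R'' : LRep k L} (h : R.Iso R') (h' : R'.Iso R'') : R.Iso R'' := by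
  obtain ⟨f, hf⟩ := h
  obtain ⟨g, hg⟩ := h'
  exact ⟨f.trans g, hg.comp hf⟩

theorem iso_of_hom {R R' : LRep k L} (h : R.Simple) (h' : R'.Simple) {f : R.M →ₗ[k] R'.M}
    (hf : R.IsHom R' f) (h0 : f ≠ 0) : R.Iso R' := by
  refine ⟨LinearEquiv.ofBijective f ⟨?_, ?_⟩, hf⟩
  · rcases h.2 _ hf.ker with h1 | h1
    · exact LinearMap.ker_eq_bot.1 h1
    · exact absurd (LinearMap.ker_eq_top.1 h1) h0
  · rcases h'.2 _ hf.range with h1 | h1
    · exact absurd (LinearMap.range_eq_bot.1 h1) h0
    · exact LinearMap.range_eq_top.1 h1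

theorem Simple.schur [IsAlgClosed k] {R : LRep k L} (h : R.Simple) [FiniteDimensional k R.M]
    {f : End k R.M} (hf : R.IsHom R f) : ∃ c : k, ∀ m, f m = c • m := by
  haveI := h.1
  obtain ⟨c, hc⟩ := End.exists_eigenvalue f
  refine ⟨c, fun m => ?_⟩
  have hs : R.Stable (f.eigenspace c) := fun x m hm => by
    rw [End.mem_eigenspace_iff] at hm ⊢; rw [hf, hm, map_smul]
  rcases h.2 _ hs with h1 | h1
  · exact absurd h1 (End.hasEigenvalue_iff.1 hc)
  · exact End.mem_eigenspace_iff.1 (h1 ▸ trivial)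

theorem exists_simple (R : LRep k L) (N₀ : Submodule k R.M) (h₀ : R.Stable N₀)
    (hfd : FiniteDimensional k N₀) (hne : N₀ ≠ ⊥) :
    ∃ N, N ≤ N₀ ∧ ∃ h : R.Stable N, (R.sub N h).Simple := by
  classical
  have ex : ∃ n, ∃ N, N ≤ N₀ ∧ R.Stable N ∧ N ≠ ⊥ ∧ finrank k N = n :=
    ⟨_, N₀, le_rfl, h₀, hne, rfl⟩
  obtain ⟨N, hle, hN, hN0, hd⟩ := Nat.find_spec ex
  haveI : FiniteDimensional k N := Submodule.finiteDimensional_of_le hle
  refine ⟨N, hle, hN, Submodule.nontrivial_iff_ne_bot.2 hN0, fun P hP => ?_⟩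
  by_cases hP0 : P = ⊥
  · exact Or.inl hP0
  right
  have h1 : R.Stable (Submodule.map N.subtype P) := by
    rintro x _ ⟨m, hm, rfl⟩; exact ⟨_, hP x m hm, rfl⟩
  have h2 : Submodule.map N.subtype P ≠ ⊥ := fun h =>
    hP0 (Submodule.map_injective_of_injective N.subtype_injective (h.trans (Submodule.map_bot _).symm))
  have h3 := Nat.find_min' ex ⟨_, (Submodule.map_subtype_le N P).trans hle, h1, h2, rfl⟩
  rw [← hd, Submodule.finrank_map_subtype_eq] at h3
  haveI : FiniteDimensional k (R.sub N hN).M := inferInstanceAs (FiniteDimensional k N)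
  exact Submodule.eq_top_of_finrank_eq (le_antisymm (Submodule.finrank_le P) h3)

/-- the action of the free algebra on a family of elements -/
noncomputable def act (R : LRep k L) : FreeAlgebra k L →ₐ[k] End k R.M :=
  FreeAlgebra.lift k fun x => R.ρ x

theorem act_ι (R : LRep k L) (x : L) : R.act (FreeAlgebra.ι k x) = R.ρ x := by simp [act]

theorem act_surj [IsAlgClosed k] {R : LRep k L} (h : R.Simple) [FiniteDimensional k R.M] :
    Function.Surjective R.act := by
  haveI := h.1
  rw [← AlgHom.range_eq_top]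
  refine burnside _ fun N hN => h.2 N fun x m hm => hN _ ⟨FreeAlgebra.ι k x, R.act_ι x⟩ m hm

theorem iso_of_ker [IsAlgClosed k] {R R' : LRep k L} (h : R.Simple) (h' : R'.Simple)
    [FiniteDimensional k R.M] (hk : ∀ w, R.act w = 0 ↔ R'.act w = 0) : R.Iso R' := by
  haveI := h.1
  obtain ⟨s, hs⟩ := exists_ne (0 : R.M)
  obtain ⟨f, hf⟩ := Module.Projective.exists_dual_eq_one k hs
  obtain ⟨w₀, hw₀⟩ := act_surj h (f.smulRight s)
  have hne : R'.act w₀ ≠ 0 := by
    rw [Ne, ← hk, hw₀]
    intro h0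
    have := LinearMap.congr_fun h0 s
    simp [hf, hs] at this
  obtain ⟨t, ht⟩ : ∃ t, R'.act w₀ t ≠ 0 := by
    by_contra hc
    push Not at hc
    exact hne (LinearMap.ext hc)
  let ev : FreeAlgebra k L →ₗ[k] R.M := (LinearMap.applyₗ s) ∘ₗ R.act.toLinearMap
  let ev' : FreeAlgebra k L →ₗ[k] R'.M := (LinearMap.applyₗ (R'.act w₀ t)) ∘ₗ R'.act.toLinearMap
  have hsur : Function.Surjective ev := by
    intro m
    obtain ⟨w, hw⟩ := act_surj h (f.smulRight m)
    exact ⟨w, by simp [ev, hw, hf]⟩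
  have hker : LinearMap.ker ev ≤ LinearMap.ker ev' := by
    intro w hw
    have h1 : R.act w s = 0 := hw
    have h2 : R.act (w * w₀) = 0 := by
      ext m; simp [hw₀, h1]
    have h3 := LinearMap.congr_fun ((hk _).1 h2) t
    simpa [ev'] using h3
  let g : R.M →ₗ[k] R'.M := ((LinearMap.ker ev).liftQ ev' hker) ∘ₗ
    (ev.quotKerEquivOfSurjective hsur).symm.toLinearMap
  have hg : ∀ w, g (ev w) = ev' w := by
    intro w
    have : (ev.quotKerEquivOfSurjective hsur).symm (ev w) = (LinearMap.ker ev).mkQ w := by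
      rw [LinearEquiv.symm_apply_eq]; rfl
    simp [g, this]
  refine iso_of_hom h h' (f := g) (fun x m => ?_) (fun h0 => ht ?_)
  · obtain ⟨w, rfl⟩ := hsur m
    have e1 : R.ρ x (ev w) = ev (FreeAlgebra.ι k x * w) := by simp [ev, act_ι]
    rw [e1, hg, hg]; simp [ev', act_ι]
  · have := hg 1
    rw [h0] at this
    simpa [ev'] using this.symm

end LRep

end Pool.Agent.P.Bf04
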