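import Pool.Agent.P.MP_bf0464_al.Types
import Pool.Agent.P.MP_bf0464_al.Rep

/-! Representations of the Lie algebra of a form, `p`-characters and central characters. -/

namespace Pool.Agent.P.Bf04

open Module

attribute [local instance 100] LieRing.ofAssociativeRing

universe u

theorem sub_pow_p {k B : Type*} [Field k] [Ring B] [Algebra k B] (p : ℕ) [Fact p.Prime]
    [CharP k p] {a b : B} (h : Commute a b) : (a - b) ^ p = a ^ p - b ^ p := by
  rcases subsingleton_or_nontrivial B with hB | hB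
  · exact Subsingleton.elim _ _
  · haveI : CharP B p := charP_of_injective_algebraMap' k p
    exact sub_pow_char_of_commute p h

theorem pow_p_comm {k B : Type*} [Field k] [Ring B] [Algebra k B] (p : ℕ) [Fact p.Prime]
    [CharP k p] (a b : B) : a ^ p * b - b * a ^ p = (LieAlgebra.ad k B a ^ p) b := by
  rw [LieAlgebra.ad_eq_lmul_left_sub_lmul_right]
  change _ = ((LinearMap.mulLeft k a - LinearMap.mulRight k a) ^ p) b
  rw [sub_pow_p (k := k) p (LinearMap.commute_mulLeft_right a a), LinearMap.pow_mulLeft,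
    LinearMap.pow_mulRight]
  rfl

theorem map_ad_pow {k L L' : Type*} [Field k] [LieRing L] [LieAlgebra k L] [LieRing L']
    [LieAlgebra k L'] (f : L →ₗ⁅k⁆ L') (x y : L) (n : ℕ) :
    f ((LieAlgebra.ad k L x ^ n) y) = (LieAlgebra.ad k L' (f x) ^ n) (f y) := by
  induction n with
  | zero => rfl
  | succ n ih =>
    rw [pow_succ', pow_succ', End.mul_apply, End.mul_apply, ← ih, LieAlgebra.ad_apply,
      LieAlgebra.ad_apply, LieHom.map_lie]

theorem engel {k M : Type*} [Field k] [AddCommGroup M] [Module k M] [FiniteDimensional k M]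
    [Nontrivial M] (s : LieSubalgebra k (End k M)) (h : ∀ x ∈ s, IsNilpotent x) :
    (∃ m : M, m ≠ 0 ∧ ∀ x ∈ s, x m = 0) ∧
      Submodule.span k {a | ∃ x ∈ s, ∃ m, x m = a} ≠ ⊤ := by
  haveI : LieModule.IsNilpotent s M :=
    (LieModule.isNilpotent_iff_forall' (R := k)).2 fun x => h x x.2
  refine ⟨?_, fun htop => ?_⟩
  · haveI := LieModule.nontrivial_max_triv_of_isNilpotent k s M
    obtain ⟨m, hm⟩ := exists_ne (0 : LieModule.maxTrivSubmodule k s M)
    exact ⟨m, fun h => hm (Subtype.ext h), fun x hx => m.2 ⟨x, hx⟩⟩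
  · have h1 : ∀ n, LieModule.lowerCentralSeries k s M n = ⊤ := by
      intro n
      induction n with
      | zero => rfl
      | succ n ih =>
        rw [LieModule.lowerCentralSeries_succ, ih, eq_top_iff]
        intro m _
        have : Submodule.span k {a | ∃ x ∈ s, ∃ m, x m = a}
            ≤ (⁅(⊤ : LieIdeal k s), (⊤ : LieSubmodule k s M)⁆ : LieSubmodule k s M).toSubmodule := by
          refine Submodule.span_le.2 ?_
          rintro _ ⟨x, hx, m, rfl⟩
          exact LieSubmodule.lie_mem_lie (x := (⟨x, hx⟩ : s)) (LieSubmodule.mem_top _)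
            (LieSubmodule.mem_top m)
        exact this (htop ▸ trivial)
    obtain ⟨n, hn⟩ := LieModule.IsNilpotent.nilpotent k s M
    exact absurd ((h1 n).symm.trans hn) top_ne_bot

namespace QF

variable {k V : Type u} [Field k] [AddCommGroup V] [Module k V] (Q : QF k V)

/-- the generators acting on a representation -/
noncomputable def φ (R : LRep k Q.g) : V →ₗ[k] V →ₗ[k] End k R.M := Q.Fs.compr₂ R.ρ.toLinearMap

theorem φ_apply (R : LRep k Q.g) (v w : V) : Q.φ R v w = R.ρ (Q.Fs v w) := rfl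

theorem φ_comm (R : LRep k Q.g) (x : Q.g) (v w : V) :
    R.ρ x * Q.φ R v w - Q.φ R v w * R.ρ x = Q.φ R (x.1 v) w + Q.φ R v (x.1 w) := by
  rw [φ_apply, ← R.lie_eq, lie_Fs, map_add]; rfl

theorem φ_swap (R : LRep k Q.g) (v w : V) : Q.φ R w v = (-Q.ε) • Q.φ R v w := by
  rw [φ_apply, Fs_swap, map_smul]; rfl

theorem pw_comm (p : ℕ) [Fact p.Prime] [Fact (Odd p)] [CharP k p] (x y : Q.g) :
    (LieAlgebra.ad k Q.g x ^ p) y = ⁅Q.pw p x, y⁆ :=
  Subtype.ext ((map_ad_pow Q.g.incl x y p).trans (pow_p_comm p x.1 y.1).symm)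

/-- the value of the character -/
noncomputable def χ (e : End k V) : Q.g →ₗ[k] k :=
  LinearMap.trace k V ∘ₗ LinearMap.mulLeft k e ∘ₗ Q.g.toSubmodule.subtype

theorem χ_apply (e : End k V) (x : Q.g) : Q.χ e x = LinearMap.trace k V (e * x.1) := rfl

theorem χ_Fs [FiniteDimensional k V] {e : End k V} (he : Q.Sk e) (v w : V) :
    Q.χ e (Q.Fs v w) = 2 * Q.β w (e v) := Q.trace_mul_F he v w

variable (p : ℕ) [Fact (Odd p)]

/-- `p`-character -/
def PChar (e : End k V) (R : LRep k Q.g) : Prop :=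
  ∀ x m, (R.ρ x ^ p) m = R.ρ (Q.pw p x) m + Q.χ e x ^ p • m

/-- central character -/
def HasCC (R : LRep k Q.g) (θ : ℕ → k) : Prop :=
  ∀ (ι : Type) [Fintype ι] [DecidableEq ι] (fr : Q.Frame ι), fr.W = ⊤ →
    ∀ n m, fr.C (Q.φ R) n m = θ n • m

variable {Q} in
theorem HasCC.of_frame {R : LRep k Q.g} {θ : ℕ → k} {ι : Type} [Fintype ι] [DecidableEq ι]
    (fr : Q.Frame ι) (h : fr.W = ⊤) (hC : ∀ n m, fr.C (Q.φ R) n m = θ n • m) : Q.HasCC R θ :=
  fun κ _ _ fr' h' n m => by rw [fr'.C_indep _ fr (h'.trans h.symm), hC]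

variable {Q} in
theorem C_hom {ι : Type} [Fintype ι] [DecidableEq ι] (fr : Q.Frame ι) (h : fr.W = ⊤)
    (R : LRep k Q.g) (n : ℕ) : R.IsHom R (fr.C (Q.φ R) n) := fun x m =>
  (LinearMap.congr_fun (fr.C_comm (Q.φ R) (Q.sk_of x) (fun _ _ => h ▸ trivial) (R.ρ x)
    (Q.φ_comm R x) n) m).symm

variable {Q} in
theorem C_scalar {ι : Type} [Fintype ι] [DecidableEq ι] (fr : Q.Frame ι) (h : fr.W = ⊤)
    {R : LRep k Q.g} (hR : R.Simple) {θ : ℕ → k} {m : R.M} (hm : m ≠ 0)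
    (hC : ∀ n, fr.C (Q.φ R) n m = θ n • m) : Q.HasCC R θ := by
  refine HasCC.of_frame fr h fun n m' => ?_
  have hs : R.Stable ((fr.C (Q.φ R) n).eigenspace (θ n)) := fun x m hm => by
    rw [End.mem_eigenspace_iff] at hm ⊢; rw [C_hom fr h, hm, map_smul]
  rcases hR.2 _ hs with h1 | h1
  · exact absurd ((Submodule.eq_bot_iff _).1 h1 m (End.mem_eigenspace_iff.2 (hC n))) hm
  · exact End.mem_eigenspace_iff.1 (h1 ▸ trivial)

theorem exists_cc [IsAlgClosed k] [FiniteDimensional k V] (hQ : Q.ND) {R : LRep k Q.g}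
    (hR : R.Simple) [FiniteDimensional k R.M] : ∃ θ, Q.HasCC R θ := by
  obtain ⟨fr, h⟩ := Q.exists_frame hQ
  choose θ hθ using fun n => hR.schur (C_hom fr h R n)
  exact ⟨θ, HasCC.of_frame fr h hθ⟩

variable {Q} in
theorem HasCC.unique [FiniteDimensional k V] (hQ : Q.ND) {R : LRep k Q.g} [Nontrivial R.M]
    {θ θ' : ℕ → k} (h : Q.HasCC R θ) (h' : Q.HasCC R θ') : θ = θ' := by
  obtain ⟨fr, hfr⟩ := Q.exists_frame hQ
  obtain ⟨m, hm⟩ := exists_ne (0 : R.M)
  funext n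
  exact smul_left_injective k hm ((h _ fr hfr n m).symm.trans (h' _ fr hfr n m))

/-- simple modules with given characters -/
structure Adm (e : End k V) (θ : ℕ → k) (R : LRep k Q.g) : Prop where
  fd : FiniteDimensional k R.M
  simple : R.Simple
  pchar : Q.PChar p e R
  cc : Q.HasCC R θ

/-- at most `b` simple modules with given characters -/
def Bound (e : End k V) (b : ℕ) : Prop :=
  ∀ (θ : ℕ → k) (A : Type u) [Fintype A] (R : A → LRep k Q.g), (∀ a, Q.Adm p e θ (R a)) →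
    (∀ a a', (R a).Iso (R a') → a = a') → Fintype.card A ≤ b

variable {Q p} in
theorem Bound.mono {e : End k V} {b b' : ℕ} (h : Q.Bound p e b) (hb : b ≤ b') :
    Q.Bound p e b' := fun θ A _ R h1 h2 => (h θ A R h1 h2).trans hb

/-- all central characters have a type -/
def Typed (e : End k V) : Prop :=
  ∀ θ R, Q.Adm p e θ R → ∃ s, IsType Q.ε (finrank k V) θ s

variable {V₀ : Type u} [AddCommGroup V₀] [Module k V₀]

/-- an orthogonal summand -/
structure Emb (Q₀ : QF k V₀) where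
  inc : V₀ →ₗ[k] V
  pr : V →ₗ[k] V₀
  ε_eq : Q₀.ε = Q.ε
  β_pr : ∀ v w, Q.β (inc v) w = Q₀.β v (pr w)
  pr_inc : ∀ v, pr (inc v) = v

namespace Emb

variable {Q} {Q₀ : QF k V₀} (E : Q.Emb Q₀)

theorem β_pr' (v : V) (w : V₀) : Q.β v (E.inc w) = Q₀.β (E.pr v) w := by
  rw [Q.symm, E.β_pr, Q₀.symm (E.pr v), E.ε_eq]

theorem β_inc (v w : V₀) : Q.β (E.inc v) (E.inc w) = Q₀.β v w := by rw [E.β_pr, E.pr_inc]

theorem sk_ext {x : End k V₀} (hx : Q₀.Sk x) : Q.Sk (E.inc ∘ₗ x ∘ₗ E.pr) := fun v w => by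
  simp only [LinearMap.comp_apply]; rw [E.β_pr, E.β_pr', hx]

theorem sk_res {x : End k V} (hx : Q.Sk x) : Q₀.Sk (E.pr ∘ₗ x ∘ₗ E.inc) := fun v w => by
  simp only [LinearMap.comp_apply]; rw [← E.β_pr, ← E.β_pr', hx]

/-- extension by zero -/
def ext : Q₀.g →ₗ⁅k⁆ Q.g where
  toFun x := ⟨E.inc ∘ₗ x.1 ∘ₗ E.pr, Q.mem_g.2 (E.sk_ext (Q₀.sk_of x))⟩
  map_add' x y := Subtype.ext (by ext v; simp)
  map_smul' c x := Subtype.ext (by ext v; simp)
  map_lie' {x y} := Subtype.ext (by ext v; simp [LieRing.of_associative_ring_bracket, E.pr_inc])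

theorem ext_apply (x : Q₀.g) (v : V) : (E.ext x).1 v = E.inc (x.1 (E.pr v)) := rfl

theorem ext_Fs (v w : V₀) : E.ext (Q₀.Fs v w) = Q.Fs (E.inc v) (E.inc w) :=
  Subtype.ext (by ext x; simp [ext_apply, F_apply, E.β_pr, E.ε_eq])

theorem ext_pw (x : Q₀.g) : E.ext (Q₀.pw p x) = Q.pw p (E.ext x) := by
  have key : ∀ n v, ((E.ext x).1 ^ (n + 1)) v = E.inc ((x.1 ^ (n + 1)) (E.pr v)) := by
    intro n
    induction n with
    | zero => intro v; simp [ext_apply]
    | succ n ih =>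
      intro v
      rw [pow_succ' _ (n + 1), End.mul_apply, ih, ext_apply, E.pr_inc, pow_succ' _ (n + 1)]; rfl
  obtain ⟨n, hn⟩ := (Fact.out : Odd p)
  apply Subtype.ext
  ext v
  rw [pw_coe, ext_apply, pw_coe, hn, key]

theorem χ_ext [FiniteDimensional k V] [FiniteDimensional k V₀] (e : End k V) (x : Q₀.g) :
    Q.χ e (E.ext x) = Q₀.χ (E.pr ∘ₗ e ∘ₗ E.inc) x :=
  LinearMap.trace_comp_comm' E.pr (e ∘ₗ E.inc ∘ₗ x.1)

/-- image of a frame -/
def frame {ι : Type} [Fintype ι] [DecidableEq ι] (fr : Q₀.Frame ι) (h : fr.W = ⊤) :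
    Q.Frame ι where
  W := LinearMap.range E.inc
  b i := E.inc (fr.b i)
  b' i := E.inc (fr.b' i)
  b_mem _ := ⟨_, rfl⟩
  b'_mem _ := ⟨_, rfl⟩
  exp := by
    rintro _ ⟨x, rfl⟩
    conv_rhs => rw [← fr.exp x (h ▸ trivial)]
    simp [β_inc]
  exp' := by
    rintro _ ⟨x, rfl⟩
    conv_rhs => rw [← fr.exp' x (h ▸ trivial)]
    simp [β_inc]
  dual i j := by rw [β_inc, fr.dual]

theorem frame_C {ι : Type} [Fintype ι] [DecidableEq ι] (fr : Q₀.Frame ι) (h : fr.W = ⊤)
    (R : LRep k Q.g) (n : ℕ) : (E.frame fr h).C (Q.φ R) n = fr.C (Q₀.φ (R.res E.ext)) n := by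
  simp only [Frame.C, E.ε_eq, φ_apply, frame, ← E.ext_Fs]
  rfl

variable {p} in
theorem pchar_res [FiniteDimensional k V] [FiniteDimensional k V₀] {e : End k V}
    {R : LRep k Q.g} (h : Q.PChar p e R) : Q₀.PChar p (E.pr ∘ₗ e ∘ₗ E.inc) (R.res E.ext) :=
  fun x m => by
    have := h (E.ext x) m
    rwa [← ext_pw, χ_ext] at this

end Emb

variable {Q p} in
theorem PChar.of_inj {e : End k V} {R R' : LRep k Q.g} (h : Q.PChar p e R')
    {f : R.M →ₗ[k] R'.M} (hf : R.IsHom R' f) (hi : Function.Injective f) : Q.PChar p e R :=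
  fun x m => by apply hi; rw [hf.pow, h, map_add, hf, map_smul]

variable {Q} in
theorem C_intertwine {ι : Type} [Fintype ι] [DecidableEq ι] (fr : Q.Frame ι) {R R' : LRep k Q.g}
    {f : R.M →ₗ[k] R'.M} (hf : R.IsHom R' f) (n : ℕ) (m : R.M) :
    f (fr.C (Q.φ R) n m) = fr.C (Q.φ R') n (f m) :=
  cas_intertwine f.toAddMonoidHom _ _ _ _ (fun _ _ m => hf _ m) (fun m => by simp) n m

end QF

end Pool.Agent.P.Bf04
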