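import Pool.Agent.P.MP_bf0464_al.Generic

/-! Counting simple modules over the generic point. -/

namespace Pool.Agent.P.Bf04

open Module TensorProduct

attribute [local instance 100] LieRing.ofAssociativeRing

universe u

/-- homogeneous elements of the free algebra -/
def degSub (k L : Type u) [Field k] (d : ℤ) : AddSubgroup (FreeAlgebra k (ℤ × L)) where
  carrier := {w | ∀ (F B : Type u) [Field F] [Ring B] [Algebra F B] [Algebra k B] (t : F)
    (f : ℤ × L → B), t ≠ 0 → FreeAlgebra.lift k (fun h => t ^ h.1 • f h) w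
      = t ^ d • FreeAlgebra.lift k f w}
  add_mem' := fun ha hb F B _ _ _ _ t f ht => by
    rw [map_add, map_add, ha F B t f ht, hb F B t f ht, smul_add]
  zero_mem' := fun F B _ _ _ _ t f _ => by simp
  neg_mem' := fun ha F B _ _ _ _ t f ht => by rw [map_neg, map_neg, ha F B t f ht, smul_neg]

section
variable {k L : Type u} [Field k]

theorem algebraMap_mem_degSub (c : k) : algebraMap k _ c ∈ degSub k L 0 :=
  fun F B _ _ _ _ t f _ => by simp

theorem ι_mem_degSub (h : ℤ × L) : FreeAlgebra.ι k h ∈ degSub k L h.1 :=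
  fun F B _ _ _ _ t f _ => by simp

theorem mul_mem_degSub (a b : ℤ) (x y : FreeAlgebra k (ℤ × L)) (hx : x ∈ degSub k L a)
    (hy : y ∈ degSub k L b) : x * y ∈ degSub k L (a + b) := fun F B _ _ _ _ t f ht => by
  rw [map_mul, map_mul, hx F B t f ht, hy F B t f ht, zpow_add₀ ht, smul_mul_smul_comm]

end

theorem sep_aux {A B B' : Type*} [Ring A] [Ring B] [Ring B'] [IsSimpleRing B] (f : A →+* B)
    (g : A →+* B') (hf : Function.Surjective f) :
    (∃ z, f z = 1 ∧ g z = 0) ∨ ∀ z, g z = 0 → f z = 0 := by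
  let I : TwoSidedIdeal B := TwoSidedIdeal.mk' {b | ∃ z, f z = b ∧ g z = 0} ⟨0, by simp⟩
    (by rintro _ _ ⟨a, rfl, ha⟩ ⟨b, rfl, hb⟩; exact ⟨a + b, by simp [ha, hb]⟩)
    (by rintro _ ⟨a, rfl, ha⟩; exact ⟨-a, by simp [ha]⟩)
    (by
      rintro x _ ⟨a, rfl, ha⟩
      obtain ⟨x, rfl⟩ := hf x
      exact ⟨x * a, by simp [ha]⟩)
    (by
      rintro _ x ⟨a, rfl, ha⟩
      obtain ⟨x, rfl⟩ := hf x
      exact ⟨a * x, by simp [ha]⟩)
  have hI : ∀ b, b ∈ I ↔ ∃ z, f z = b ∧ g z = 0 := fun b =>
    TwoSidedIdeal.mem_mk' _ _ _ _ _ _ b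
  rcases eq_bot_or_eq_top I with h | h
  · right
    intro z hz
    have : f z ∈ I := (hI _).2 ⟨z, rfl, hz⟩
    rwa [h, TwoSidedIdeal.mem_bot] at this
  · left
    exact (hI 1).1 (by rw [h]; trivial)

theorem sep_of_ker_ne {A B B' : Type*} [Ring A] [Ring B] [Ring B'] [IsSimpleRing B]
    [IsSimpleRing B'] (f : A →+* B) (g : A →+* B') (hf : Function.Surjective f)
    (hg : Function.Surjective g) (h : ¬ ∀ z, f z = 0 ↔ g z = 0) : ∃ z, f z = 1 ∧ g z = 0 := by
  rcases sep_aux f g hf with h1 | h1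
  · exact h1
  rcases sep_aux g f hg with ⟨z, h2, h3⟩ | h2
  · have := h1 (1 - z) (by simp [h2])
    simp [h3] at this
  · exact absurd (fun z => ⟨h2 z, h1 z⟩) h

theorem simpleRing_end {K S : Type*} [Field K] [AddCommGroup S] [Module K S]
    [FiniteDimensional K S] [Nontrivial S] : IsSimpleRing (End K S) := by
  haveI : Nonempty (Fin (finrank K S)) := ⟨⟨0, Module.finrank_pos⟩⟩
  exact IsSimpleRing.of_ringEquiv (LinearMap.toMatrixAlgEquiv (Module.finBasis K S)).symm.toRingEquiv
    inferInstance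

namespace Tri

variable {k : Type u} [Field k] {L : Type u} [LieRing L] [LieAlgebra k L] {n p : ℕ}

/-- action of the free algebra -/
noncomputable def act (T : Tri k L n p) (R : LRep k L) : FreeAlgebra k (ℤ × L) →ₐ[k] End k R.M :=
  FreeAlgebra.lift k fun h => R.ρ (T.pr h.1 h.2)

theorem ψ_scalar (T : Tri k L n p) (F : Type u) [Field F] [Algebra k F]
    [Algebra (MvPolynomial (Fin n) k) F] [IsScalarTower k (MvPolynomial (Fin n) k) F]
    (K : Type u) [Field K] [Algebra k K] [Algebra K F] [IsScalarTower k K F] {t : F} (ht : t ≠ 0)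
    (R : LRep k L) {w : FreeAlgebra k (ℤ × L)} (hw : w ∈ degSub k L 0) {c : k}
    (hc : ∀ m, T.act R w m = c • m) : T.ψ F K t R (1 ⊗ₜ w) = algebraMap k _ c := by
  have h1 : ∀ w (a : F) (m : R.M), FreeAlgebra.lift k
      (fun h : ℤ × L => (T.ρZ R (T.pr h.1 h.2)).baseChange F) w (a ⊗ₜ (show T.ZM R from m))
        = a ⊗ₜ (show T.ZM R from T.act R w m) := by
    intro w
    induction w using FreeAlgebra.induction with
    | grade0 r =>
      intro a m
      rw [AlgHom.commutes, AlgHom.commutes, Module.algebraMap_end_apply, ← tmul_smul]; rfl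
    | grade1 h => intro a m; rw [act, FreeAlgebra.lift_ι_apply, FreeAlgebra.lift_ι_apply]; rfl
    | mul x y hx hy => intro a m; rw [map_mul, map_mul, End.mul_apply, hy, hx]; rfl
    | add x y hx hy =>
      intro a m; rw [map_add, map_add, LinearMap.add_apply, hy, hx, ← tmul_add]; rfl
  rw [ψ, Algebra.TensorProduct.lift_tmul, map_one, one_mul, hw F _ t _ ht, zpow_zero, one_smul]
  refine LinearMap.ext fun x => TensorProduct.induction_on x (by simp) (fun a m => ?_)
    fun a b ha hb => by simp only [map_add, ha, hb]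
  rw [h1 w a m, hc, Module.algebraMap_end_apply, ← tmul_smul]; rfl

variable {T : Tri k L (n + 1) p} {K : Type u} [Field K] [Algebra k K] {ξ : Fin n → K}
  {F : Type u} [Field F] [Algebra k F] [Algebra (MvPolynomial (Fin (n + 1)) k) F]
  [IsScalarTower k (MvPolynomial (Fin (n + 1)) k) F] [Algebra K F] [IsScalarTower k K F] {t : F}

namespace GenRep

variable (S : T.GenRep K ξ) (hS : Shape T K ξ F t)
include hS

theorem exists_h : ∃ h : T.XM F S.tilde →ₗ[F] F ⊗[K] S.S,
    (∀ z x, h (T.ψ F K t S.tilde z x) = (S.π z).baseChange F (h x)) ∧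
      ∀ s, h (S.el 1 (Finsupp.single 0 s)) = 1 ⊗ₜ s := by
  haveI : SMulCommClass K (MvPolynomial (Fin (n + 1)) k) F :=
    ⟨fun a b c => by simp only [Algebra.smul_def]; ring⟩
  let l : (ℤ →₀ S.S) →ₗ[k] F ⊗[K] S.S :=
    Finsupp.lsum k fun j => t ^ (-j) • (TensorProduct.mk K F S.S 1).restrictScalars k
  have hl : ∀ j s, l (Finsupp.single j s) = t ^ (-j) • (1 : F) ⊗ₜ[K] s := fun j s => by
    simp [l]
  have hmp : ∀ (a : End K S.S) m, l (S.mp a m) = a.baseChange F (l m) := by
    intro a m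
    induction m using Finsupp.induction_linear with
    | zero => simp
    | add a b ha hb => simp only [map_add, ha, hb]
    | single j s => rw [mp_single, hl, hl, map_smul, LinearMap.baseChange_tmul]
  have hsh : ∀ (d : ℤ) m, l (S.sh d m) = t ^ (-d) • l m := by
    intro d m
    induction m using Finsupp.induction_linear with
    | zero => simp
    | add a b ha hb => simp only [map_add, ha, hb, smul_add]
    | single j s => rw [sh_single, hl, hl, smul_smul, ← zpow_add₀ hS.t0]; congr 2; ring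
  have hsc : ∀ (a : K) (y : F ⊗[K] S.S),
      (algebraMap K (End K S.S) a).baseChange F y = algebraMap K F a • y := by
    intro a y
    rw [Algebra.algebraMap_eq_smul_one, LinearMap.baseChange_smul, LinearMap.baseChange_one]
    simp
  have hB : ∀ i m, l (T.B S.tilde i m)
      = (MvPolynomial.X i : MvPolynomial (Fin (n + 1)) k) • l m := by
    intro i m
    rw [← algebraMap_smul F]
    refine Fin.cases ?_ (fun i => ?_) i
    · rw [S.B_zero hS, hS.X0]; exact (hsh _ m).trans (by simp)
    · rw [S.B_succ hS, hS.Xs]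
      refine (hsh _ _).trans ?_
      rw [hmp, hsc, smul_smul, mul_comm, ← zpow_natCast t]; simp
  let h : T.XM F S.tilde →ₗ[F] F ⊗[K] S.S := LinearMap.liftBaseChange F
    (toZ (k := k) (M := T.ZM S.tilde) l fun i m => by rw [X_smul]; exact hB i m)
  have hh : ∀ a m, h (S.el a m) = a • l m := fun a m => LinearMap.liftBaseChange_tmul _ _ _ _
  have hΘ : ∀ a x, h (S.Θ hS a x) = a.baseChange F (h x) := fun a =>
    LinearMap.congr_fun (S.el_ext (f := h ∘ₗ S.Θ hS a) (g := a.baseChange F ∘ₗ h) fun c m => by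
      rw [LinearMap.comp_apply, LinearMap.comp_apply, Θ_el, hh, hh, hmp, map_smul])
  refine ⟨h, fun z x => ?_, fun s => by rw [hh, hl]; simp⟩
  induction z using TensorProduct.induction_on with
  | zero => simp
  | add a b ha hb => simp only [map_add, LinearMap.add_apply, ha, hb, LinearMap.baseChange_add]
  | tmul a w =>
    rw [S.ψ_tmul hS, π_tmul, LinearMap.smul_apply, map_smul, hΘ, LinearMap.baseChange_smul]
    simp

theorem lattice [FiniteDimensional k L] [Fact p.Prime] [CharP k p]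
    [Module.Flat (MvPolynomial (Fin (n + 1)) k) F] (σ : K →ₐ[k] K)
    (hGen : ∀ (D : Type u) [CommRing D] [IsDomain D] [Algebra k D] (l r : K →ₐ[k] D),
      (∀ i, l (ξ i) = r (ξ i)) → l = r ∨ l = r.comp σ) :
    ∃ w ∈ Submodule.span ℚ (T.𝒱 F K t), (∀ z, S.π z = 1 → w z ≠ 0) ∧
      ∀ z, S.π z = 0 → S.π (Algebra.TensorProduct.map σ (AlgHom.id k _) z) = 0 → w z = 0 := by
  have hp := (Fact.out : p.Prime).two_le
  obtain ⟨s, hs⟩ := exists_ne (0 : S.S)
  obtain ⟨N, hfd, hN, hGN, htN⟩ := T.exists_N hp S.tG_gr S.tilde_rel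
    {(Finsupp.single 0 s : ℤ →₀ S.S)}
  let E := (S.tilde.res T.par.incl).sub N hN
  haveI : FiniteDimensional k E.M := hfd
  have hhom := (S.tilde.res T.par.incl).sub_hom N hN
  have hGE : T.GrP E (S.tG.sub N hGN) := (S.tG_gr.res T).sub T N hN hGN
  have hF := T.Ind_cat hGE (RelP.of_inj T (S.tilde_rel.res T) hhom N.subtype_injective)
  have hφ := T.lift_hom hhom
  have hφG : (T.IndG (N := E) (S.tG.sub N hGN)).IsHom S.tG (T.lift (N := E) N.subtype) :=
    T.lift_gr S.tG_gr fun _ _ => rfl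
  set φ := T.lift (N := E) (R := S.tilde) N.subtype with hφd
  have hM := hF.quot T _ hφ.ker hφG.ker
  set M := (T.Ind E).quot _ hφ.ker with hMd
  let f : M.M →ₗ[k] S.tilde.M := (LinearMap.ker φ).liftQ φ le_rfl
  have hf : M.IsHom S.tilde f := by
    intro x m
    obtain ⟨m, rfl⟩ := (LinearMap.ker φ).mkQ_surjective m
    exact hφ x m
  have hi : Function.Injective f :=
    LinearMap.ker_eq_bot.1 (Submodule.ker_liftQ_eq_bot _ _ _ le_rfl)
  haveI : Module.Finite (MvPolynomial (Fin (n + 1)) k) (T.ZM M) := hM.fg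
  refine ⟨_, T.v_mem F K t hp M _ hM, fun z hz => ?_, fun z h1 h2 => ?_⟩
  · obtain ⟨h, hh, h0⟩ := S.exists_h hS
    simp only [v, Nat.cast_ne_zero]
    refine sr_pos (h := h ∘ₗ (T.homZ hf).baseChange F) (fun x => ?_)
      (x := 1 ⊗ₜ (show T.ZM M from (LinearMap.ker φ).mkQ
        (T.inc E ⟨_, htN _ (Finset.mem_singleton_self _)⟩))) ?_
    · rw [LinearMap.comp_apply, ψ_hom, hh, hz, LinearMap.baseChange_one]; rfl
    · have : φ (T.inc E ⟨_, htN _ (Finset.mem_singleton_self _)⟩) = Finsupp.single 0 s :=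
        T.lift_inc _ _
      change h (S.el 1 (φ _)) ≠ 0
      rw [this, h0]
      intro h1
      exact hs (Module.Flat.tensorProduct_mk_injective K S.S F (a₁ := s) (a₂ := 0)
        (by simpa using h1))
  · simp only [v, Nat.cast_eq_zero]
    obtain ⟨m, hm⟩ := S.nil hS σ hGen h1 h2
    refine sr_nil ⟨m, LinearMap.ext fun x => ?_⟩
    apply Module.Flat.lTensor_preserves_injective_linearMap (M := F) (T.homZ hf) hi
    have := pow_intertwine (T.ψ_hom F K t hf z) m x
    rw [hm] at this
    exact this.trans (map_zero _).symm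

end GenRep

/-- central character of an induced module -/
def CC (T : Tri k L n p) (c : ℕ → FreeAlgebra k (ℤ × L)) (E : LRep k T.par) (θ : ℕ → k) : Prop :=
  ∀ j a, T.act (T.Ind E) (c j) a = θ j • a

theorem generic_bound [FiniteDimensional k L] [Fact p.Prime] [CharP k p]
    [Module.Flat (MvPolynomial (Fin (n + 1)) k) F] (hS : GenRep.Shape T K ξ F t) (σ : K →ₐ[k] K)
    (hGen : ∀ (D : Type u) [CommRing D] [IsDomain D] [Algebra k D] (l r : K →ₐ[k] D),
      (∀ i, l (ξ i) = r (ξ i)) → l = r ∨ l = r.comp σ)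
    (c : ℕ → FreeAlgebra k (ℤ × L)) (hc : ∀ j, c j ∈ degSub k L 0) (θ : ℕ → k) (b : ℕ)
    (h1 : ∀ E, T.Adm E → ∃ θ', T.CC c E θ')
    (h2 : ∀ (A : Type u) [Fintype A] (E : A → LRep k T.par),
      (∀ a, T.Adm (E a) ∧ T.CC c (E a) θ) → (∀ a a', (E a).Iso (E a') → a = a') →
        Fintype.card A ≤ b)
    {J : Type u} [Fintype J] (S : J → T.GenRep K ξ)
    (hθ : ∀ i j, (S i).π0 (c j) = algebraMap k _ (θ j))
    (hsep : ∀ i j, i ≠ j → ∃ z, (S i).π z = 1 ∧ (S j).π z = 0 ∧
      (S j).π (Algebra.TensorProduct.map σ (AlgHom.id k _) z) = 0) : Fintype.card J ≤ b := by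
  classical
  choose w hw hw1 hw0 using fun i => (S i).lattice hS σ hGen
  choose V hV hwV using fun i => Submodule.mem_span_finite_of_mem_span (hw i)
  let V0 := Finset.univ.biUnion V
  have hV0 : ∀ x ∈ V0, ∃ E θ', T.Adm E ∧ T.CC c E θ' ∧ T.v F K t (T.Ind E) = x := by
    intro x hx
    obtain ⟨i, -, hi⟩ := Finset.mem_biUnion.1 hx
    obtain ⟨E, hE, rfl⟩ := hV i hi
    obtain ⟨θ', h⟩ := h1 E hE
    exact ⟨E, θ', hE, h, rfl⟩
  choose E θ' hE hθ' hv using hV0
  let V1 := V0.attach.filter fun x => θ' x.1 x.2 = θ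
  have hV1 : V1.card ≤ b := by
    rw [← Fintype.card_coe]
    refine h2 V1 (fun x => E x.1.1 x.1.2) (fun x => ⟨hE _ _, ?_⟩) fun x y h => ?_
    · rw [← (Finset.mem_filter.1 x.2).2]; exact hθ' _ _
    · haveI := (hE x.1.1 x.1.2).fd
      have := T.v_iso F K t (T.Ind_iso h) (T.Ind_FG _)
      rw [hv, hv] at this
      exact Subtype.ext (Subtype.ext this)
  have hc0 : ∀ U : Finset V0, ∃ c0 : K ⊗[k] FreeAlgebra k (ℤ × L), (∀ i, (S i).π c0 = 1) ∧
      ∀ x ∈ U, x ∉ V1 → T.ψ F K t (T.Ind (E x.1 x.2)) c0 = 0 := by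
    intro U
    induction U using Finset.induction_on with
    | empty => exact ⟨1, fun i => map_one _, by simp⟩
    | insert x U _ ih =>
      obtain ⟨c0, h3, h4⟩ := ih
      by_cases hx : x ∈ V1
      · refine ⟨c0, h3, fun y hy hy1 => ?_⟩
        rcases Finset.mem_insert.1 hy with rfl | hy
        exacts [absurd hx hy1, h4 y hy hy1]
      obtain ⟨j, hj⟩ : ∃ j, θ j - θ' x.1 x.2 j ≠ 0 := by
        by_contra hcon
        push Not at hcon
        exact hx (Finset.mem_filter.2 ⟨Finset.mem_attach _ _,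
          funext fun j => (sub_eq_zero.1 (hcon j)).symm⟩)
      refine ⟨c0 * ((θ j - θ' x.1 x.2 j)⁻¹ • (1 ⊗ₜ c j - algebraMap k _ (θ' x.1 x.2 j))),
        fun i => ?_, fun y hy hy1 => ?_⟩
      · rw [map_mul, h3, one_mul, map_smul, map_sub, GenRep.π_tmul, one_smul, hθ,
          AlgHom.commutes, ← map_sub, Algebra.smul_def, ← map_mul, inv_mul_cancel₀ hj, map_one]
      · rcases Finset.mem_insert.1 hy with rfl | hy
        · rw [map_mul, map_smul, map_sub, T.ψ_scalar F K hS.t0 _ (hc j) (hθ' _ _ j),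
            AlgHom.commutes, sub_self, smul_zero, mul_zero]
        · rw [map_mul, h4 y hy hy1, zero_mul]
  obtain ⟨c0, h3, h4⟩ := hc0 Finset.univ
  have hz : ∀ j, ∀ U : Finset J, ∃ z : K ⊗[k] FreeAlgebra k (ℤ × L), (S j).π z = 1 ∧
      ∀ i ∈ U, j ≠ i → (S i).π z = 0 ∧
        (S i).π (Algebra.TensorProduct.map σ (AlgHom.id k _) z) = 0 := by
    intro j U
    induction U using Finset.induction_on with
    | empty => exact ⟨1, map_one _, by simp⟩
    | insert i U _ ih =>
      obtain ⟨z, h5, h6⟩ := ih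
      by_cases hji : j = i
      · refine ⟨z, h5, fun l hl hjl => ?_⟩
        rcases Finset.mem_insert.1 hl with rfl | hl
        exacts [absurd hji hjl, h6 l hl hjl]
      obtain ⟨z', a1, a2, a3⟩ := hsep j i hji
      refine ⟨z * z', by rw [map_mul, h5, a1, one_mul], fun l hl hjl => ?_⟩
      rcases Finset.mem_insert.1 hl with rfl | hl
      · simp only [map_mul, a2, a3, mul_zero, and_self]
      · simp only [map_mul, h6 l hl hjl, zero_mul, and_self]
  choose z hz1 hz0 using fun j => hz j Finset.univ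
  let Φ : (K ⊗[k] FreeAlgebra k (ℤ × L) → ℚ) →ₗ[ℚ] (J → ℚ) :=
    LinearMap.funLeft ℚ ℚ fun j => z j * c0
  have hli : LinearIndependent ℚ fun i => Φ (w i) := by
    rw [Fintype.linearIndependent_iff]
    intro g hg j
    have := congrFun hg j
    rw [Finset.sum_apply, Finset.sum_eq_single j] at this
    · exact (mul_eq_zero.1 this).resolve_right
        (hw1 j _ (by rw [map_mul, hz1, h3, one_mul]))
    · intro i _ hij
      obtain ⟨a1, a2⟩ := hz0 j i (Finset.mem_univ _) hij.symm
      have : w i (z j * c0) = 0 :=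
        hw0 i _ (by rw [map_mul, a1, zero_mul]) (by rw [map_mul, map_mul, a2, zero_mul])
      exact mul_eq_zero_of_right _ this
    · simp
  have hmem : ∀ i, Φ (w i) ∈ Submodule.span ℚ ((V1.image fun x => Φ x.1 : Finset _) : Set _) := by
    intro i
    refine Submodule.mem_comap.1
      ((Submodule.span_le (p := Submodule.comap Φ _)).2 (fun x hx => ?_) (hwV i))
    have hx0 : x ∈ V0 := Finset.mem_biUnion.2 ⟨i, Finset.mem_univ _, hx⟩
    refine Submodule.mem_comap.2 ?_
    by_cases h : (⟨x, hx0⟩ : V0) ∈ V1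
    · exact Submodule.subset_span (Finset.mem_coe.2 (Finset.mem_image_of_mem _ h))
    · have : Φ x = 0 := by
        funext j
        change x (z j * c0) = 0
        rw [← hv x hx0]
        simp only [v, Nat.cast_eq_zero]
        rw [map_mul, h4 ⟨x, hx0⟩ (Finset.mem_univ _) h, mul_zero]
        exact sr_nil IsNilpotent.zero
      rw [this]; exact zero_mem _
  have hli' := LinearIndependent.of_comp (v := fun i => (⟨_, hmem i⟩ : Submodule.span ℚ _))
    (Submodule.subtype _) hli
  exact hli'.fintype_card_le_finrank.trans ((finrank_span_finset_le_card _).trans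
    (Finset.card_image_le.trans hV1))

theorem generic_bound2 [FiniteDimensional k L] [Fact p.Prime] [CharP k p]
    [Module.Flat (MvPolynomial (Fin (n + 1)) k) F] (hS : GenRep.Shape T K ξ F t) (σ : K →ₐ[k] K)
    (hσ : ∀ a, σ (σ a) = a)
    (hGen : ∀ (D : Type u) [CommRing D] [IsDomain D] [Algebra k D] (l r : K →ₐ[k] D),
      (∀ i, l (ξ i) = r (ξ i)) → l = r ∨ l = r.comp σ)
    (c : ℕ → FreeAlgebra k (ℤ × L)) (hc : ∀ j, c j ∈ degSub k L 0) (θ : ℕ → k) (b : ℕ)
    (h1 : ∀ E, T.Adm E → ∃ θ', T.CC c E θ')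
    (h2 : ∀ (A : Type u) [Fintype A] (E : A → LRep k T.par),
      (∀ a, T.Adm (E a) ∧ T.CC c (E a) θ) → (∀ a a', (E a).Iso (E a') → a = a') →
        Fintype.card A ≤ b)
    {J : Type u} [Fintype J] (S : J → T.GenRep K ξ)
    (hθ : ∀ i j, (S i).π0 (c j) = algebraMap k _ (θ j))
    (hsur : ∀ i, Function.Surjective (S i).π)
    (hker : ∀ i j, (∀ z, (S i).π z = 0 ↔ (S j).π z = 0) → i = j) :
    Fintype.card J ≤ 2 * b ∧ ((∀ a, σ a = a) → Fintype.card J ≤ b) := by
  classical
  let τ := Algebra.TensorProduct.map σ (AlgHom.id k (FreeAlgebra k (ℤ × L)))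
  have hτ : ∀ z, τ (τ z) = z := by
    intro z
    induction z using TensorProduct.induction_on with
    | zero => simp
    | tmul a w => simp [τ, hσ]
    | add a b ha hb => simp only [map_add, ha, hb]
  let P : J → Set (K ⊗[k] FreeAlgebra k (ℤ × L)) := fun i => {z | (S i).π z = 0}
  let P' : J → Set (K ⊗[k] FreeAlgebra k (ℤ × L)) := fun i => {z | (S i).π (τ z) = 0}
  have hP : Function.Injective P := fun i j h => hker i j fun z => Set.ext_iff.1 h z
  have sep : ∀ i j, i ≠ j → P i ≠ P' j →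
      ∃ z, (S i).π z = 1 ∧ (S j).π z = 0 ∧ (S j).π (τ z) = 0 := by
    intro i j hij h
    haveI := simpleRing_end (K := K) (S := (S i).S)
    haveI := simpleRing_end (K := K) (S := (S j).S)
    obtain ⟨z1, a1, a2⟩ := sep_of_ker_ne (S i).π.toRingHom (S j).π.toRingHom (hsur i) (hsur j)
      fun h => hij (hker i j h)
    obtain ⟨z2, b1, b2⟩ := sep_of_ker_ne (S i).π.toRingHom ((S j).π.comp τ).toRingHom (hsur i)
      (fun y => by
        obtain ⟨z, hz⟩ := hsur j y
        exact ⟨τ z, by rw [← hz]; exact congrArg (S j).π (hτ z)⟩)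
      fun h' => h (Set.ext h')
    change (S i).π z1 = 1 at a1
    change (S j).π z1 = 0 at a2
    change (S i).π z2 = 1 at b1
    change (S j).π (τ z2) = 0 at b2
    exact ⟨z1 * z2, by rw [map_mul, a1, b1, one_mul], by rw [map_mul, a2, zero_mul],
      by rw [map_mul, map_mul, b2, mul_zero]⟩
  refine ⟨?_, fun hid => ?_⟩
  · let O : J → Finset (Set (K ⊗[k] FreeAlgebra k (ℤ × L))) := fun i => {P i, P' i}
    have hfib : Fintype.card J ≤ 2 * (Finset.univ.image O).card := by
      refine Finset.card_le_mul_card_image _ 2 fun o ho => ?_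
      obtain ⟨i, -, rfl⟩ := Finset.mem_image.1 ho
      refine (Finset.card_le_card_of_injOn P (fun j hj => ?_) hP.injOn).trans
        (Finset.card_le_two (a := P i) (b := P' i))
      have : O j = O i := (Finset.mem_filter.1 hj).2
      change P j ∈ O i
      rw [← this]; exact Finset.mem_insert_self _ _
    refine hfib.trans (Nat.mul_le_mul_left 2 ?_)
    rw [← Fintype.card_coe]
    choose s _ hs using fun o : Finset.univ.image O => Finset.mem_image.1 o.2
    refine generic_bound hS σ hGen c hc θ b h1 h2 (fun o => S (s o)) (fun o => hθ _)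
      fun o o' h => sep _ _ (fun h' => h (Subtype.ext (by rw [← hs, ← hs, h']))) fun h' => h ?_
    have h'' : P' (s o) = P (s o') := Set.ext fun z => by
      have := Set.ext_iff.1 h' (τ z)
      simp only [P, P', Set.mem_setOf_eq, hτ] at this ⊢
      exact this
    apply Subtype.ext
    rw [← hs, ← hs]
    simp only [O, h', h'', Finset.pair_comm]
  · have hτ1 : ∀ z, τ z = z := by
      intro z
      induction z using TensorProduct.induction_on with
      | zero => simp
      | tmul a w => simp [τ, hid]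
      | add a b ha hb => simp only [map_add, ha, hb]
    refine generic_bound hS σ hGen c hc θ b h1 h2 S hθ fun i j h => sep i j h fun h' => h (hP ?_)
    rw [h']; simp only [P, P', hτ1]

end Tri

end Pool.Agent.P.Bf04
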