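import Pool.Agent.P.MP_bf0464_al.Flag

/-! Highest weight data with respect to a flag. -/

namespace Pool.Agent.P.Bf04

open Module

attribute [local instance 100] LieRing.ofAssociativeRing

universe u

theorem joint_eigen {k M ι : Type*} [Field k] [IsAlgClosed k] [AddCommGroup M] [Module k M]
    [FiniteDimensional k M] [Fintype ι] (f : ι → End k M) (hc : ∀ i j, Commute (f i) (f j))
    (N : Submodule k M) (hN : N ≠ ⊥) (hf : ∀ i, ∀ m ∈ N, f i m ∈ N) :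
    ∃ ν : ι → k, ∃ m ∈ N, m ≠ 0 ∧ ∀ i, f i m = ν i • m := by
  classical
  have key : ∀ s : Finset ι, ∃ ν : ι → k, ∃ m ∈ N, m ≠ 0 ∧ ∀ i ∈ s, f i m = ν i • m := by
    intro s
    induction s using Finset.induction_on with
    | empty =>
      obtain ⟨m, hm, h0⟩ := Submodule.exists_mem_ne_zero_of_ne_bot hN
      exact ⟨0, m, hm, h0, by simp⟩
    | insert a s ha ih =>
      obtain ⟨ν, m, hm, h0, h1⟩ := ih
      let U := N ⊓ ⨅ i ∈ s, (f i).eigenspace (ν i)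
      have hU : ∀ x, x ∈ U ↔ x ∈ N ∧ ∀ i ∈ s, f i x = ν i • x := fun x => by
        simp [U, End.mem_eigenspace_iff]
      have hst : ∀ x ∈ U, f a x ∈ U := fun x hx => (hU _).2 ⟨hf a x ((hU x).1 hx).1,
        fun i hi => by
          rw [← End.mul_apply, hc i a, End.mul_apply, ((hU x).1 hx).2 i hi, map_smul]⟩
      haveI : Nontrivial U := ⟨⟨m, (hU m).2 ⟨hm, h1⟩⟩, 0, fun h => h0 (congrArg Subtype.val h)⟩
      obtain ⟨c, hc⟩ := End.exists_eigenvalue ((f a).restrict hst)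
      obtain ⟨x, hx⟩ := hc.exists_hasEigenvector
      refine ⟨Function.update ν a c, x, ((hU _).1 x.2).1, fun h => hx.2 (Subtype.ext h),
        fun i hi => ?_⟩
      rcases Finset.mem_insert.1 hi with rfl | hi'
      · rw [Function.update_self]; exact congrArg Subtype.val hx.apply_eq_smul
      · rw [Function.update_of_ne (by rintro rfl; exact ha hi')]; exact ((hU _).1 x.2).2 i hi'
  obtain ⟨ν, m, h1, h2, h3⟩ := key Finset.univ
  exact ⟨ν, m, h1, h2, fun i => h3 i (Finset.mem_univ i)⟩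

namespace QF

variable {k V V₀ : Type u} [Field k] [AddCommGroup V] [Module k V] [AddCommGroup V₀]
  [Module k V₀] {Q : QF k V}

theorem Fs_self (h : Q.ε = 1) (v : V) : Q.Fs v v = 0 :=
  Subtype.ext (by ext x; simp [F_apply, h])

theorem sh_int (Q : QF k V) (p : ℕ) [Fact p.Prime] [CharP k p] (n : ℕ) {ν : k}
    (hν : ν ^ p = ν) : ∃ m : ℤ, (m : k) = ν + sh Q.ε n := by
  rw [← mem_bot_iff_intCast p]
  refine add_mem ((Subfield.mem_bot_iff_pow_eq_self k p).2 hν) (div_mem (sub_mem (sub_mem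
    (natCast_mem _ n) (one_mem _)) ?_) (ofNat_mem _ 2))
  rcases Q.hε with h | h <;> rw [h]
  exacts [one_mem _, neg_mem (one_mem _)]

namespace Flag

variable {Q₀ : QF k V₀} {M : ℕ} (Fl : Q.Flag Q₀ M)

/-- admissible degrees -/
structure Degs (_Fl : Q.Flag Q₀ M) (d : Fin M → ℤ) : Prop where
  anti : StrictAnti d
  nonneg : ∀ i, 0 ≤ d i
  zero : ∀ i, d i = 0 → (∀ v : V₀, v = 0) ∧ Q.ε = 1

/-- second arguments of the raising generators -/
def Wp (j : Fin M) : Submodule k V where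
  carrier := {w | (∀ i ≤ j, Q.β (Fl.u i) w = 0) ∧ ∀ i < j, Q.β (Fl.u' i) w = 0}
  add_mem' := fun ⟨a1, a2⟩ ⟨b1, b2⟩ => ⟨fun i h => by rw [map_add, a1 i h, b1 i h, add_zero],
    fun i h => by rw [map_add, a2 i h, b2 i h, add_zero]⟩
  zero_mem' := ⟨fun _ _ => map_zero _, fun _ _ => map_zero _⟩
  smul_mem' := fun c x ⟨a1, a2⟩ => ⟨fun i h => by rw [map_smul, a1 i h, smul_zero],
    fun i h => by rw [map_smul, a2 i h, smul_zero]⟩

theorem u_Wp {i j : Fin M} (h : j ≤ i) : Fl.u i ∈ Fl.Wp j :=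
  ⟨fun l _ => Fl.uu l i, fun l hl => by rw [Fl.u'u, if_neg (hl.trans_le h).ne]⟩

theorem u'_Wp {i j : Fin M} (h : j < i) : Fl.u' i ∈ Fl.Wp j :=
  ⟨fun l hl => by rw [Fl.uu', if_neg (hl.trans_lt h).ne'], fun l _ => Fl.u'u' l i⟩

theorem inc_Wp (v : V₀) (j : Fin M) : Fl.inc v ∈ Fl.Wp j :=
  ⟨fun l _ => Fl.u_inc v l, fun l _ => Fl.u'_inc v l⟩

/-- vectors killed by the raising generators -/
def Top (R : LRep k Q.g) (m : R.M) : Prop := ∀ j, ∀ w ∈ Fl.Wp j, Q.φ R (Fl.u j) w m = 0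

/-- highest weight data -/
structure HW (R : LRep k Q.g) (E : LRep k Q₀.g) (j : E.M →ₗ[k] R.M) (ν : Fin M → k) : Prop where
  hom : E.IsHom (R.res Fl.ext) j
  ne : j ≠ 0
  top : ∀ v, Fl.Top R (j v)
  wt : ∀ i v, Q.φ R (Fl.u i) (Fl.u' i) (j v) = ν i • j v

variable {Fl} {d : Fin M → ℤ}

theorem Degs.raise (hd : Fl.Degs d) (j : Fin M) {w : V} (hw : w ∈ Fl.Wp j) :
    Q.Fs (Fl.u j) w ∈ Fl.swap.nm d := by
  rcases (hd.nonneg j).eq_or_lt with h | h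
  · obtain ⟨h1, h2⟩ := hd.zero j h.symm
    have hall : ∀ i, i ≤ j := fun i => not_lt.1 fun hi => by
      have := hd.anti hi; have := hd.nonneg i; omega
    have h3 := Fl.dec w
    rw [Finset.sum_eq_single j (fun i _ hi => by rw [hw.2 i ((hall i).lt_of_ne hi), zero_smul])
      (by simp), h1 (Fl.pr w)] at h3
    simp only [Q.symm_zero (hw.1 _ (hall _)), zero_smul, Finset.sum_const_zero, map_zero,
      add_zero] at h3
    rw [← h3, map_smul, Fs_self h2, smul_zero]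
    exact zero_mem _
  · have h1 : Fl.u j ∈ Fl.swap.Fil d (-d j) := by
      have := Submodule.smul_mem _ Q.ε (Fl.swap.u'_mem d j)
      rwa [show Fl.swap.u' j = Q.ε • Fl.u j from rfl, smul_smul, Q.ε_sq, one_smul] at this
    have h2 : w ∈ Fl.swap.Fil d (d j - 1) := by
      refine ⟨fun i hi => ?_, fun i hi => by have := hd.nonneg i; omega, fun _ => by omega⟩
      have : i ≤ j := not_lt.1 fun h' => by have := hd.anti h'; omega
      change Q.β (Q.ε • Fl.u i) w = 0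
      simp [hw.1 i this]
    have := F_low h1 h2
    rwa [show -(-d j + (d j - 1)) = 1 by ring] at this

variable (Fl)

theorem h_u (i j : Fin M) : Q.F (Fl.u i) (Fl.u' i) (Fl.u j) = if i = j then Fl.u j else 0 := by
  rw [F_apply, Fl.u'u, Fl.uu]; split_ifs with h <;> simp [h]

theorem h_u' (i j : Fin M) :
    Q.F (Fl.u i) (Fl.u' i) (Fl.u' j) = if i = j then -Fl.u' j else 0 := by
  rw [F_apply, Fl.u'u', Fl.uu']; split_ifs with h h' h' <;> simp_all [Q.ε_sq]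

theorem h_pw (p : ℕ) [Fact (Odd p)] (i : Fin M) :
    Q.pw p (Q.Fs (Fl.u i) (Fl.u' i)) = Q.Fs (Fl.u i) (Fl.u' i) := by
  obtain ⟨n, hn⟩ := (Fact.out : Odd p)
  apply Subtype.ext
  rw [pw_coe, Fs_coe, hn]
  have h3 : Q.F (Fl.u i) (Fl.u' i) ^ 2 * Q.F (Fl.u i) (Fl.u' i) = Q.F (Fl.u i) (Fl.u' i) := by
    ext x
    rw [End.mul_apply, F_apply _ _ _ x]
    simp [sq, h_u, h_u', sub_eq_add_neg]
  clear hn
  induction n with
  | zero => simp
  | succ n ih => rw [show 2 * (n + 1) + 1 = 2 * n + (2 + 1) by ring, pow_add, pow_succ _ 2, h3,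
      ← pow_succ, ih]

theorem lie_ext_Fs (x : Q₀.g) {v w : V} (hv : Fl.pr v = 0) (hw : Fl.pr w = 0) :
    ⁅Fl.ext x, Q.Fs v w⁆ = 0 := by
  rw [lie_Fs]; simp [Emb.ext_apply, hv, hw]

variable {p : ℕ} [Fact p.Prime] [Fact (Odd p)] [CharP k p] {e : End k V}

variable {Fl} in
theorem exists_hw [IsAlgClosed k] (hd : Fl.Degs d) (he : e ∈ Fl.swap.Low d 0) {R : LRep k Q.g}
    (hR : Q.PChar p e R) [FiniteDimensional k R.M] [Nontrivial R.M] :
    ∃ (E : LRep k Q₀.g) (j : E.M →ₗ[k] R.M) (ν : Fin M → k), E.Simple ∧ Function.Injective j ∧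
      Fl.HW R E j ν := by
  have h0 : ∀ y ∈ Fl.swap.nm d, Q.χ e y = 0 := fun y hy =>
    trace_low (Fl := Fl.swap) (d := d) (zero_add (1 : ℤ) ▸ low_mul (c' := 1) he hy)
  obtain ⟨⟨m, hm, hm0⟩, -⟩ := engel_twist (Fl := Fl.swap) (d := d)
    (fun y hy => h0 _ (low_mono (by have := (Fact.out : p.Prime).one_le; omega) (low_pow hy p)))
    (fun y hy y' hy' => h0 _ ((Fl.swap.nm d).lie_mem hy hy')) hR
  let N : Submodule k R.M := ⨅ y ∈ Fl.swap.nm d, LinearMap.ker (R.ρ y)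
  have hN : ∀ m, m ∈ N ↔ ∀ y ∈ Fl.swap.nm d, R.ρ y m = 0 := fun m => by simp [N]
  have hst : ∀ x : Q.g, x.1 ∈ Fl.swap.Low d 0 → ∀ m ∈ N, R.ρ x m ∈ N := by
    intro x hx m hm
    refine (hN _).2 fun y hy => ?_
    rw [R.comm_apply, (hN m).1 hm y hy, map_zero, zero_add, ← lie_skew, map_neg,
      LinearMap.neg_apply, (hN m).1 hm _ (lie_mem_nm hx hy), neg_zero]
  obtain ⟨ν, m', hm', h1, h2⟩ := joint_eigen (fun i => Q.φ R (Fl.u i) (Fl.u' i))
    (fun i j => by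
      rw [Commute, SemiconjBy, ← sub_eq_zero, φ_apply, φ_comm, Fs_coe, h_u, h_u']
      split_ifs <;> simp)
    N (fun h => hm ((Submodule.eq_bot_iff _).1 h m
      ((hN m).2 fun y hy => by rw [hm0 y hy, h0 y hy, zero_smul])))
    (fun i => hst _ (by
      have := Submodule.smul_mem _ (-1 : k) (F_low (Fl.swap.u_mem d i) (Fl.swap.u'_mem d i))
      rw [add_neg_cancel, neg_zero] at this
      convert this using 1
      change _ = (-1 : k) • Q.F (Fl.u' i) (Q.ε • Fl.u i)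
      rw [map_smul, Q.F_swap (Fl.u i), smul_smul, smul_smul]; simp [Q.ε_sq]))
  let N' := N ⊓ ⨅ i, (Q.φ R (Fl.u i) (Fl.u' i)).eigenspace (ν i)
  have hN' : ∀ m, m ∈ N' ↔ m ∈ N ∧ ∀ i, Q.φ R (Fl.u i) (Fl.u' i) m = ν i • m := fun m => by
    simp [N', End.mem_eigenspace_iff]
  have hst' : (R.res Fl.ext).Stable N' := by
    intro x m hm
    obtain ⟨a1, a2⟩ := (hN' m).1 hm
    refine (hN' _).2 ⟨hst _ (Fl.swap.ext_low d x.1) m a1, fun i => ?_⟩
    change R.ρ _ (R.ρ (Fl.ext x) m) = ν i • R.ρ (Fl.ext x) m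
    rw [R.comm_apply, ← lie_skew, Fl.lie_ext_Fs x (Fl.pr_u i) (Fl.pr_u' i), ← φ_apply, a2]
    simp
  obtain ⟨E, hle, hE, hs⟩ := (R.res Fl.ext).exists_simple N' hst' inferInstance
    (fun h => h1 ((Submodule.eq_bot_iff _).1 h m' ((hN' _).2 ⟨hm', h2⟩)))
  refine ⟨_, E.subtype, ν, hs, E.subtype_injective, (R.res Fl.ext).sub_hom E hE, fun h => ?_,
    fun v j w hw => (hN _).1 ((hN' _).1 (hle v.2)).1 _ (hd.raise j hw),
    fun i v => ((hN' _).1 (hle v.2)).2 i⟩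
  haveI := hs.1
  obtain ⟨v, hv⟩ := exists_ne (0 : ((R.res Fl.ext).sub E hE).M)
  exact hv (Subtype.ext (LinearMap.congr_fun h v))

variable {Fl}

theorem HW.exists_ne {R : LRep k Q.g} {E : LRep k Q₀.g} {j : E.M →ₗ[k] R.M} {ν : Fin M → k}
    (h : Fl.HW R E j ν) : ∃ v, j v ≠ 0 := by
  by_contra hc
  push Not at hc
  exact h.ne (LinearMap.ext hc)

theorem HW.wt_pow {R : LRep k Q.g} {E : LRep k Q₀.g} {j : E.M →ₗ[k] R.M} {ν : Fin M → k}
    (h : Fl.HW R E j ν) (hR : Q.PChar p e R) (i : Fin M)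
    (he : Q.χ e (Q.Fs (Fl.u i) (Fl.u' i)) = 0) : ν i ^ p = ν i := by
  obtain ⟨v, hv⟩ := h.exists_ne
  have h1 := hR (Q.Fs (Fl.u i) (Fl.u' i)) (j v)
  have h2 : ∀ n, (Q.φ R (Fl.u i) (Fl.u' i) ^ n) (j v) = ν i ^ n • j v := by
    intro n
    induction n with
    | zero => simp
    | succ n ih => rw [pow_succ', End.mul_apply, ih, map_smul, h.wt, smul_smul, pow_succ]
  rw [h_pw, he, zero_pow (Fact.out : p.Prime).ne_zero, zero_smul, add_zero, ← φ_apply, h2,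
    h.wt] at h1
  exact smul_left_injective k hv h1

/-- the shifted weights -/
noncomputable def lw (_Fl : Q.Flag Q₀ M) (ν : Fin M → k) (i : Fin M) : k := ν i + sh Q.ε (finrank k V₀ + 2 * (M - i))

theorem pp_multi [FiniteDimensional k V₀] (h₀ : Q₀.ND) {R : LRep k Q.g} {m : R.M}
    {ν : Fin M → k} (htop : Fl.Top R m) (hwt : ∀ i, Q.φ R (Fl.u i) (Fl.u' i) m = ν i • m)
    (hν : ∀ i, ν i ^ p = ν i) {θ₀ : ℕ → k} {t : Multiset k}
    (ht : IsType Q₀.ε (finrank k V₀) θ₀ t)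
    (hcc : ∀ (ι : Type) [Fintype ι] [DecidableEq ι] (fr : Q₀.Frame ι), fr.W = ⊤ →
      ∀ n, fr.C (Q₀.φ (R.res Fl.ext)) n m = θ₀ n • m) :
    ∃ θ, IsType Q.ε (finrank k V) θ (Finset.univ.val.map (Fl.lw ν) + t) ∧
      ∃ (ι : Type) (_ : Fintype ι) (_ : DecidableEq ι) (fr : Q.Frame ι), fr.W = ⊤ ∧
        ∀ n, fr.C (Q.φ R) n m = θ n • m := by
  let W : ℕ → Submodule k V := fun j =>
    ⨅ (i : Fin M) (_ : i.val < j), LinearMap.ker (Q.β (Fl.u i)) ⊓ LinearMap.ker (Q.β (Fl.u' i))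
  have hW : ∀ j x, x ∈ W j ↔ ∀ i : Fin M, i.val < j →
      Q.β (Fl.u i) x = 0 ∧ Q.β (Fl.u' i) x = 0 := fun j x => by simp [W]
  have key : ∀ j ≤ M, ∃ θ, IsType Q.ε (finrank k V₀ + 2 * (M - j)) θ
      ((Finset.univ.filter fun i : Fin M => j ≤ i.val).val.map (Fl.lw ν) + t) ∧
      ∃ (ι : Type) (_ : Fintype ι) (_ : DecidableEq ι) (fr : Q.Frame ι), fr.W = W j ∧
        Fintype.card ι = finrank k V₀ + 2 * (M - j) ∧ ∀ n, fr.C (Q.φ R) n m = θ n • m := by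
    intro j hj
    induction hj using Nat.decreasingInduction with
    | self =>
      obtain ⟨fr, hfr⟩ := Q₀.exists_frame h₀
      refine ⟨θ₀, ?_, _, _, _, Fl.frame fr hfr, ?_, by simp, fun n => ?_⟩
      · rw [Finset.filter_false_of_mem fun i _ => i.2.not_ge]
        simpa [Fl.ε_eq] using ht
      · apply le_antisymm
        · rintro _ ⟨v, rfl⟩; exact (hW _ _).2 fun i _ => ⟨Fl.u_inc v i, Fl.u'_inc v i⟩
        · intro x hx
          exact ⟨_, Fl.eq_inc (fun i => ((hW _ _).1 hx i i.2).1) fun i => ((hW _ _).1 hx i i.2).2⟩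
      · rw [Emb.frame_C, hcc _ fr hfr]
    | of_succ j hj ih =>
      obtain ⟨θ, hθ, ι, _, _, fr, h1, h2, h3⟩ := ih
      let i : Fin M := ⟨j, hj⟩
      have hne : ∀ l : Fin M, l.val < j → l ≠ i := fun l hl h => by simp [h, i] at hl
      have hyp : Q.Hyp fr.W (W j) (Fl.u i) (Fl.u' i) := by
        rw [h1]
        refine ⟨Fl.uu i i, Fl.u'u' i i, by simp [Fl.u'u],
          fun w hw => ((hW _ _).1 hw i (Nat.lt_succ_self j)).1,
          fun w hw => ((hW _ _).1 hw i (Nat.lt_succ_self j)).2,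
          fun w hw => (hW _ _).2 fun l hl => (hW _ _).1 hw l (by omega),
          (hW _ _).2 fun l hl => ⟨Fl.uu _ _, by simp [Fl.u'u, hne l hl]⟩,
          (hW _ _).2 fun l hl => ⟨by simp [Fl.uu', (hne l hl).symm], Fl.u'u' _ _⟩,
          fun x hx => (hW _ _).2 fun l hl => ?_⟩
        rcases Nat.lt_succ_iff_lt_or_eq.1 hl with h | h
        · simp [Fl.uu, Fl.uu', Fl.u'u, Fl.u'u', hne l h, (hne l h).symm, (hW _ _).1 hx l h]
        · obtain rfl : l = i := Fin.ext h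
          simp [Fl.uu, Fl.uu', Fl.u'u, Fl.u'u', Q.symm (Fl.u i) x, mul_comm]
      obtain ⟨c, hc, h4⟩ := fr.oneStep hyp (Q.φ R) (fun a c => Q.φ_comm R (Q.Fs a c))
        (Q.φ_swap R) m (ν i)
        (fun w hw => htop i w ⟨fun l hl => ((hW _ _).1 (h1 ▸ hw) l (Nat.lt_succ_of_le hl)).1,
          fun l hl => ((hW _ _).1 (h1 ▸ hw) l (Nat.lt_succ_of_lt hl)).2⟩)
        (htop i _ (Fl.u_Wp le_rfl)) (hwt i) θ h3
      have e1 : finrank k V₀ + 2 * (M - (j + 1)) + 2 = finrank k V₀ + 2 * (M - j) := by omega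
      rw [h2, e1] at hc
      refine ⟨c, ?_, _, _, _, fr.ext hyp, rfl, by simp [h2]; omega, h4⟩
      have h5 := hθ.step hc (Q.sh_int p _ (hν i))
      rw [e1] at h5
      have h6 : (Finset.univ.filter fun l : Fin M => j ≤ l.val)
          = Finset.cons i (Finset.univ.filter fun l : Fin M => j + 1 ≤ l.val) (by simp [i]) := by
        ext l; simp [i, Fin.ext_iff]; omega
      rw [h6, Finset.cons_val, Multiset.map_cons, Multiset.cons_add]
      exact h5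
  obtain ⟨θ, hθ, ι, _, _, fr, h1, -, h3⟩ := key 0 (Nat.zero_le M)
  refine ⟨θ, ?_, ι, _, _, fr, by rw [h1]; simp [W], h3⟩
  rw [Fl.finrank_eq]; simpa using hθ

theorem HW.type [FiniteDimensional k V₀] (h₀ : Q₀.ND) {R : LRep k Q.g}
    {E : LRep k Q₀.g} {j : E.M →ₗ[k] R.M} {ν : Fin M → k} (h : Fl.HW R E j ν)
    (hν : ∀ i, ν i ^ p = ν i) {θ θ₀ : ℕ → k} {t : Multiset k} (hR : Q.HasCC R θ)
    (hE : Q₀.HasCC E θ₀) (ht : IsType Q₀.ε (finrank k V₀) θ₀ t) :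
    IsType Q.ε (finrank k V) θ (Finset.univ.val.map (Fl.lw ν) + t) := by
  obtain ⟨v, hv⟩ := h.exists_ne
  obtain ⟨θ', h1, ι, _, _, fr, h2, h3⟩ := pp_multi (p := p) h₀ (h.top v) (fun i => h.wt i v) hν ht
    fun ι _ _ fr hfr n => by rw [← C_intertwine fr h.hom, hE ι fr hfr, map_smul]
  have : θ = θ' := funext fun n =>
    smul_left_injective k hv ((hR ι fr h2 n (j v)).symm.trans (h3 n))
  rwa [this]

theorem hw_adm [IsAlgClosed k] [FiniteDimensional k V] [FiniteDimensional k V₀] (h₀ : Q₀.ND)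
    (hd : Fl.Degs d) (he : e ∈ Fl.swap.Low d 0)
    (he' : ∀ i, Q.χ e (Q.Fs (Fl.u i) (Fl.u' i)) = 0)
    (hT : Q₀.Typed p (Fl.pr ∘ₗ e ∘ₗ Fl.inc)) {θ : ℕ → k} {R : LRep k Q.g} (hR : Q.Adm p e θ R) :
    ∃ (E : LRep k Q₀.g) (j : E.M →ₗ[k] R.M) (ν : Fin M → k) (θ₀ : ℕ → k) (t : Multiset k),
      Fl.HW R E j ν ∧ Q₀.Adm p (Fl.pr ∘ₗ e ∘ₗ Fl.inc) θ₀ E ∧
      IsType Q₀.ε (finrank k V₀) θ₀ t ∧
      IsType Q.ε (finrank k V) θ (Finset.univ.val.map (Fl.lw ν) + t) := by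
  haveI := hR.fd
  haveI := hR.simple.1
  obtain ⟨E, j, ν, hs, hi, hw⟩ := exists_hw hd he hR.pchar
  haveI := FiniteDimensional.of_injective j hi
  obtain ⟨θ₀, hθ₀⟩ := Q₀.exists_cc h₀ hs
  have hE : Q₀.Adm p (Fl.pr ∘ₗ e ∘ₗ Fl.inc) θ₀ E :=
    ⟨inferInstance, hs, (Fl.pchar_res hR.pchar).of_inj hw.hom hi, hθ₀⟩
  obtain ⟨t, ht⟩ := hT θ₀ E hE
  exact ⟨E, j, ν, θ₀, t, hw, hE, ht,
    hw.type (p := p) h₀ (fun i => hw.wt_pow hR.pchar i (he' i)) hR.cc hθ₀ ht⟩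

end Flag

end QF

end Pool.Agent.P.Bf04
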