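import Pool.Agent.P.MP_bf0464_al.Ind
import Pool.Agent.P.MP_bf0464_al.FD

/-! Modules over the central polynomial ring, the generic fibre and its additive invariants. -/

namespace Pool.Agent.P.Bf04

open Module TensorProduct

attribute [local instance 100] LieRing.ofAssociativeRing

universe u

section Stable

variable {K A B C : Type*} [Field K] [AddCommGroup A] [Module K A] [AddCommGroup B] [Module K B]
  [AddCommGroup C] [Module K C]

/-- the stable range -/
def sr (a : End K A) : Submodule K A := ⨅ m, LinearMap.range (a ^ m)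

theorem sr_eq [FiniteDimensional K A] (a : End K A) :
    ∃ N, ∀ m ≥ N, sr a = LinearMap.range (a ^ m) :=
  Filter.eventually_atTop.1 (LinearMap.eventually_iInf_range_pow_eq a)

theorem pow_intertwine {a : End K A} {b : End K B} {f : A →ₗ[K] B} (h : ∀ x, f (a x) = b (f x))
    (m : ℕ) (x : A) : f ((a ^ m) x) = (b ^ m) (f x) := by
  induction m generalizing x with
  | zero => rfl
  | succ m ih => rw [pow_succ, pow_succ, End.mul_apply, End.mul_apply, ih, h]

theorem le_sr [FiniteDimensional K A] {a : End K A} {U : Submodule K A} (hU : ∀ x ∈ U, a x ∈ U)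
    (hi : ∀ x ∈ U, a x = 0 → x = 0) : U ≤ sr a := by
  have hs : Function.Surjective (a.restrict hU) :=
    LinearMap.injective_iff_surjective.1 ((injective_iff_map_eq_zero _).2 fun x hx =>
      Subtype.ext (hi x x.2 (congrArg Subtype.val hx)))
  intro x hx
  refine (Submodule.mem_iInf _).2 fun m => ?_
  induction m generalizing x with
  | zero => exact ⟨x, rfl⟩
  | succ m ih =>
    obtain ⟨y, hy⟩ := hs ⟨x, hx⟩
    obtain ⟨w, hw⟩ := ih y.2
    refine ⟨w, ?_⟩
    rw [pow_succ', End.mul_apply, hw]; exact congrArg Subtype.val hy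

theorem sr_stable (a : End K A) : ∀ x ∈ sr a, a x ∈ sr a := fun x hx =>
  (Submodule.mem_iInf _).2 fun m => by
    obtain ⟨w, rfl⟩ := (Submodule.mem_iInf _).1 hx m
    exact ⟨a w, by rw [← End.mul_apply, ← End.mul_apply, ← pow_succ, ← pow_succ']⟩

theorem sr_inj [FiniteDimensional K A] (a : End K A) : ∀ x ∈ sr a, a x = 0 → x = 0 := by
  obtain ⟨N, hN⟩ := sr_eq a
  have hs : Function.Surjective (a.restrict (sr_stable a)) := by
    rintro ⟨x, hx⟩
    obtain ⟨w, rfl⟩ := hN (N + 1) (Nat.le_succ N) ▸ hx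
    exact ⟨⟨(a ^ N) w, hN N le_rfl ▸ ⟨w, rfl⟩⟩, Subtype.ext (by simp [pow_succ'])⟩
  intro x hx h0
  have := LinearMap.injective_iff_surjective.2 hs (a₁ := ⟨x, hx⟩) (a₂ := 0)
    (Subtype.ext (by simpa using h0))
  exact congrArg Subtype.val this

theorem sr_add [FiniteDimensional K B] {a : End K A} {b : End K B} {c : End K C}
    {f : A →ₗ[K] B} {g : B →ₗ[K] C} (hf : ∀ x, f (a x) = b (f x)) (hg : ∀ x, g (b x) = c (g x))
    (hi : Function.Injective f) (hs : Function.Surjective g) (hex : Function.Exact f g) :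
    finrank K (sr b) = finrank K (sr a) + finrank K (sr c) := by
  haveI : FiniteDimensional K A := FiniteDimensional.of_injective f hi
  haveI : FiniteDimensional K C := Module.Finite.of_surjective g hs
  have h1 : (sr b).map g = sr c := by
    obtain ⟨N, hN⟩ := sr_eq b
    obtain ⟨N', hN'⟩ := sr_eq c
    rw [hN (N + N') (by omega), hN' (N + N') (by omega)]
    apply le_antisymm
    · rintro _ ⟨_, ⟨x, rfl⟩, rfl⟩; exact ⟨g x, (pow_intertwine hg _ x).symm⟩
    · rintro _ ⟨y, rfl⟩
      obtain ⟨x, rfl⟩ := hs y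
      exact ⟨_, ⟨x, rfl⟩, pow_intertwine hg _ x⟩
  have h2 : (sr a).map f = sr b ⊓ LinearMap.ker g := by
    apply le_antisymm
    · rintro _ ⟨x, hx, rfl⟩
      refine ⟨(Submodule.mem_iInf _).2 fun m => ?_, (hex _).2 ⟨x, rfl⟩⟩
      obtain ⟨w, rfl⟩ := (Submodule.mem_iInf _).1 hx m
      exact ⟨f w, (pow_intertwine hf _ w).symm⟩
    · rintro y ⟨hy, hy0⟩
      obtain ⟨x, rfl⟩ := (hex y).1 hy0
      refine ⟨x, le_sr (U := (sr b).comap f) (fun x hx => ?_) (fun x hx h0 => ?_) hy, rfl⟩
      · rw [Submodule.mem_comap, hf]; exact sr_stable b _ hx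
      · apply hi; rw [map_zero]
        exact sr_inj b _ hx (by rw [← hf, h0, map_zero])
  have h3 := LinearMap.finrank_range_add_finrank_ker (g.domRestrict (sr b))
  rw [LinearMap.range_domRestrict, LinearMap.ker_domRestrict, h1,
    ← Submodule.finrank_map_subtype_eq, Submodule.map_comap_subtype, ← h2,
    ← (Submodule.equivMapOfInjective f hi (sr a)).finrank_eq] at h3
  omega

theorem sr_nil {a : End K A} (h : IsNilpotent a) : finrank K (sr a) = 0 := by
  obtain ⟨m, hm⟩ := h
  have : sr a = ⊥ := eq_bot_iff.2 ((iInf_le _ m).trans (by simp [hm]))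
  rw [this, finrank_bot]

theorem sr_pos [FiniteDimensional K A] {a : End K A} {h : A →ₗ[K] B} (hh : ∀ x, h (a x) = h x)
    {x : A} (hx : h x ≠ 0) : finrank K (sr a) ≠ 0 := by
  obtain ⟨N, hN⟩ := sr_eq a
  rw [Ne, Submodule.finrank_eq_zero, hN N le_rfl]
  intro h0
  have h1 : (a ^ N) x = 0 := (Submodule.eq_bot_iff _).1 h0 _ ⟨x, rfl⟩
  have h2 := pow_intertwine (b := 1) hh N x
  rw [h1, one_pow, map_zero] at h2
  exact hx h2.symm

end Stable

open scoped IsMulCommutative in
/-- evaluation of polynomials at commuting elements -/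
noncomputable def evalComm {k B ι : Type*} [Field k] [Ring B] [Algebra k B] (b : ι → B)
    (h : ∀ i j, b i * b j = b j * b i) : MvPolynomial ι k →ₐ[k] B :=
  haveI : IsMulCommutative (Algebra.adjoin k (Set.range b)) :=
    Algebra.isMulCommutative_adjoin k (by rintro _ ⟨i, rfl⟩ _ ⟨j, rfl⟩; exact h i j)
  (Algebra.adjoin k (Set.range b)).val.comp
    (MvPolynomial.aeval fun i => ⟨b i, Algebra.subset_adjoin ⟨i, rfl⟩⟩)

theorem evalComm_X {k B ι : Type*} [Field k] [Ring B] [Algebra k B] (b : ι → B)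
    (h : ∀ i j, b i * b j = b j * b i) (i : ι) : evalComm (k := k) b h (MvPolynomial.X i) = b i := by
  simp [evalComm]

theorem A_induction {k K H : Type*} [Field k] [Field K] [Algebra k K]
    {P : K ⊗[k] FreeAlgebra k H → Prop} (h1 : ∀ a, P (a ⊗ₜ 1))
    (h2 : ∀ x, P (1 ⊗ₜ FreeAlgebra.ι k x)) (hadd : ∀ a b, P a → P b → P (a + b))
    (hmul : ∀ a b, P a → P b → P (a * b)) (z : K ⊗[k] FreeAlgebra k H) : P z := by
  have h3 : ∀ w, P (1 ⊗ₜ w) := by
    intro w
    induction w using FreeAlgebra.induction with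
    | grade0 r =>
      have := h1 (algebraMap k K r)
      rwa [← Algebra.TensorProduct.algebraMap_apply,
        Algebra.TensorProduct.algebraMap_apply'] at this
    | grade1 x => exact h2 x
    | mul a b ha hb => simpa using hmul _ _ ha hb
    | add a b ha hb => rw [tmul_add]; exact hadd _ _ ha hb
  induction z using TensorProduct.induction_on with
  | zero => simpa using h1 0
  | tmul a w => simpa using hmul _ _ (h1 a) (h3 w)
  | add a b ha hb => exact hadd _ _ ha hb

namespace Tri

variable {k : Type u} [Field k] {L : Type u} [LieRing L] [LieAlgebra k L] {n p : ℕ}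
  (T : Tri k L n p)

/-- the central generators -/
noncomputable def B (R : LRep k L) (i : Fin n) : End k R.M := R.ρ (T.y i) ^ T.q i

theorem B_comm (R : LRep k L) (i : Fin n) (x : L) : Commute (T.B R i) (R.ρ x) := T.q_comm R i x

theorem BB (R : LRep k L) (i j : Fin n) : T.B R i * T.B R j = T.B R j * T.B R i :=
  (T.B_comm R i (T.y j)).pow_right _

/-- the module seen over the polynomial ring -/
def ZM (_T : Tri k L n p) (R : LRep k L) : Type u := R.M

instance (R : LRep k L) : AddCommGroup (T.ZM R) := inferInstanceAs (AddCommGroup R.M)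
instance (R : LRep k L) : Module k (T.ZM R) := inferInstanceAs (Module k R.M)

noncomputable instance (R : LRep k L) : Module (MvPolynomial (Fin n) k) (T.ZM R) :=
  Module.compHom R.M (evalComm (T.B R) (T.BB R)).toRingHom

theorem zsmul_def (R : LRep k L) (f : MvPolynomial (Fin n) k) (m : T.ZM R) :
    f • m = evalComm (T.B R) (T.BB R) f m := rfl

instance (R : LRep k L) : IsScalarTower k (MvPolynomial (Fin n) k) (T.ZM R) :=
  ⟨fun c f m => by rw [zsmul_def, zsmul_def, map_smul]; rfl⟩

theorem X_smul (R : LRep k L) (i : Fin n) (m : T.ZM R) :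
    (MvPolynomial.X i : MvPolynomial (Fin n) k) • m = T.B R i m := by
  rw [zsmul_def, evalComm_X]

/-- a linear map commuting with the variables is linear over the polynomial ring -/
def toZ {M W : Type*} [AddCommGroup M] [Module k M] [Module (MvPolynomial (Fin n) k) M]
    [IsScalarTower k (MvPolynomial (Fin n) k) M] [AddCommGroup W] [Module k W]
    [Module (MvPolynomial (Fin n) k) W] [IsScalarTower k (MvPolynomial (Fin n) k) W]
    (f : M →ₗ[k] W) (h : ∀ i m, f ((MvPolynomial.X i : MvPolynomial (Fin n) k) • m)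
      = (MvPolynomial.X i : MvPolynomial (Fin n) k) • f m) :
    M →ₗ[MvPolynomial (Fin n) k] W where
  toFun := f
  map_add' := f.map_add
  map_smul' := by
    intro g m
    induction g using MvPolynomial.induction_on generalizing m with
    | C a =>
      rw [RingHom.id_apply, ← MvPolynomial.algebraMap_eq, algebraMap_smul, algebraMap_smul,
        map_smul]
    | add g g' hg hg' => simp only [add_smul, map_add, hg, hg']
    | mul_X g i hg => simp only [mul_smul, hg, h, RingHom.id_apply, map_mul]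

/-- maps commuting with the central generators -/
noncomputable def linZ {R R' : LRep k L} (f : R.M →ₗ[k] R'.M) (h : ∀ i m, f (T.B R i m) = T.B R' i (f m)) :
    T.ZM R →ₗ[MvPolynomial (Fin n) k] T.ZM R' :=
  toZ (k := k) (M := T.ZM R) (W := T.ZM R') f fun i m => by rw [X_smul, X_smul]; exact h i m

/-- homomorphisms -/
noncomputable def homZ {R R' : LRep k L} {f : R.M →ₗ[k] R'.M} (h : R.IsHom R' f) :
    T.ZM R →ₗ[MvPolynomial (Fin n) k] T.ZM R' := T.linZ f fun _ m => h.pow _ _ m

/-- the action, linear over the polynomial ring -/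
noncomputable def ρZ (R : LRep k L) (x : L) : End (MvPolynomial (Fin n) k) (T.ZM R) :=
  T.linZ (R.ρ x) fun i m => (LinearMap.congr_fun (T.B_comm R i x) m).symm

/-- finite generation over the polynomial ring -/
def FG (R : LRep k L) : Prop := Module.Finite (MvPolynomial (Fin n) k) (T.ZM R)

theorem FG.of_inj {R R' : LRep k L} (h : T.FG R') {f : R.M →ₗ[k] R'.M} (hf : R.IsHom R' f)
    (hi : Function.Injective f) : T.FG R :=
  haveI : Module.Finite (MvPolynomial (Fin n) k) (T.ZM R') := h
  Module.Finite.of_injective (T.homZ hf) hi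

theorem FG.of_surj {R R' : LRep k L} (h : T.FG R) {f : R.M →ₗ[k] R'.M} (hf : R.IsHom R' f)
    (hs : Function.Surjective f) : T.FG R' :=
  haveI : Module.Finite (MvPolynomial (Fin n) k) (T.ZM R) := h
  Module.Finite.of_surjective (T.homZ hf) hs

theorem FG.exists_gen {R : LRep k L} (h : T.FG R) : ∃ t : Finset R.M,
    ∀ U : Submodule k R.M, (∀ m ∈ t, m ∈ U) → (∀ i, ∀ m ∈ U, T.B R i m ∈ U) → ∀ m, m ∈ U := by
  obtain ⟨t, ht⟩ := h.fg_top
  refine ⟨t, fun U h1 h2 m => ?_⟩
  let U' : Submodule (MvPolynomial (Fin n) k) (T.ZM R) :=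
    { carrier := (U : Set R.M)
      add_mem' := U.add_mem
      zero_mem' := U.zero_mem
      smul_mem' := by
        intro g m hm
        induction g using MvPolynomial.induction_on generalizing m with
        | C a => rw [← MvPolynomial.algebraMap_eq, algebraMap_smul]; exact U.smul_mem a hm
        | add g g' hg hg' => rw [add_smul]; exact U.add_mem (hg hm) (hg' hm)
        | mul_X g i hg => rw [mul_smul, X_smul]; exact hg (h2 i m hm) }
  have : ⊤ ≤ U' := ht ▸ Submodule.span_le.2 h1
  exact this (Submodule.mem_top (R := MvPolynomial (Fin n) k) (M := T.ZM R) (x := m))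

theorem FG.of_gen {R : LRep k L} (t : Set R.M) (ht : t.Finite)
    (h : ∀ U : Submodule k R.M, (∀ m ∈ t, m ∈ U) → (∀ i, ∀ m ∈ U, T.B R i m ∈ U) → ∀ m, m ∈ U) :
    T.FG R := by
  refine ⟨Submodule.fg_def.2 ⟨t, ht, eq_top_iff.2 fun m _ => ?_⟩⟩
  let U := Submodule.span (MvPolynomial (Fin n) k) (M := T.ZM R) t
  refine h (U.restrictScalars k)
    (fun m hm => Submodule.subset_span (R := MvPolynomial (Fin n) k) (M := T.ZM R) hm)
    (fun i m hm => ?_) m
  have := U.smul_mem (MvPolynomial.X i) hm
  rwa [X_smul] at this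

theorem Ind_FG (N : LRep k T.par) [FiniteDimensional k N.M] : T.FG (T.Ind N) := by
  let b := Module.finBasis k N.M
  have hfin : {s : Multiset (Fin n) | ∀ i, s.count i < T.q i}.Finite := by
    refine (Finset.finite_toSet (Finset.Iic (∑ i, Multiset.replicate (T.q i) i))).subset
      fun s hs => ?_
    rw [Finset.coe_Iic, Set.mem_Iic, Multiset.le_iff_count]
    intro i
    simp [Multiset.count_sum', Multiset.count_replicate, (hs i).le]
  refine FG.of_gen T _ ((hfin.prod (Set.finite_range b)).image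
    fun x => (Finsupp.single x.1 x.2 : Multiset (Fin n) →₀ N.M)) fun U h1 h2 m => ?_
  refine T.Ind_gen_pow N U (fun s hs v => ?_) (fun i a ha => ?_) m
  · rw [← b.sum_repr v, Finsupp.single_finset_sum]
    refine Submodule.sum_mem U fun j _ => ?_
    rw [← Finsupp.smul_single]
    exact U.smul_mem _ (h1 _ ⟨(s, b j), ⟨hs, j, rfl⟩, rfl⟩)
  · have := h2 i a ha
    rwa [B, Ind_y] at this

section Generic

variable (F : Type u) [Field F] [Algebra k F] [Algebra (MvPolynomial (Fin n) k) F]
  [IsScalarTower k (MvPolynomial (Fin n) k) F] (K : Type u) [Field K] [Algebra k K] [Algebra K F]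
  [IsScalarTower k K F] (t : F)

/-- the generic fibre -/
abbrev XM (R : LRep k L) : Type u := F ⊗[MvPolynomial (Fin n) k] T.ZM R

/-- the rescaled action on the generic fibre -/
noncomputable def ψ (R : LRep k L) : K ⊗[k] FreeAlgebra k (ℤ × L) →ₐ[k] End F (T.XM F R) :=
  Algebra.TensorProduct.lift
    (((Algebra.ofId F (End F (T.XM F R))).restrictScalars k).comp (IsScalarTower.toAlgHom k K F))
    (FreeAlgebra.lift k fun h => t ^ h.1 • (T.ρZ R (T.pr h.1 h.2)).baseChange F)
    (fun a _ => Algebra.commutes (algebraMap K F a) _)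

theorem ψ_left (R : LRep k L) (a : K) (m : T.XM F R) :
    T.ψ F K t R (a ⊗ₜ 1) m = algebraMap K F a • m := by
  simp [ψ, Algebra.ofId_apply]

theorem ψ_ι (R : LRep k L) (h : ℤ × L) :
    T.ψ F K t R (1 ⊗ₜ FreeAlgebra.ι k h) = t ^ h.1 • (T.ρZ R (T.pr h.1 h.2)).baseChange F := by
  simp [ψ]

theorem ψ_hom {R R' : LRep k L} {f : R.M →ₗ[k] R'.M} (hf : R.IsHom R' f)
    (z : K ⊗[k] FreeAlgebra k (ℤ × L)) (m : T.XM F R) :
    (T.homZ hf).baseChange F (T.ψ F K t R z m) = T.ψ F K t R' z ((T.homZ hf).baseChange F m) := by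
  induction z using A_induction generalizing m with
  | h1 a => rw [ψ_left, ψ_left, map_smul]
  | h2 x =>
    rw [ψ_ι, ψ_ι, LinearMap.smul_apply, LinearMap.smul_apply, map_smul, ← LinearMap.comp_apply,
      ← LinearMap.comp_apply, ← LinearMap.baseChange_comp, ← LinearMap.baseChange_comp]
    congr 3
    exact LinearMap.ext fun m => hf _ m
  | hadd a b ha hb => simp only [map_add, LinearMap.add_apply, ha, hb]
  | hmul a b ha hb => simp only [map_mul, End.mul_apply, ha, hb]

/-- the additive invariant -/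
noncomputable def v (R : LRep k L) : K ⊗[k] FreeAlgebra k (ℤ × L) → ℚ :=
  fun z => finrank F (sr (T.ψ F K t R z))

theorem v_add [Module.Flat (MvPolynomial (Fin n) k) F] {R₁ R₂ R₃ : LRep k L}
    {f : R₁.M →ₗ[k] R₂.M} {g : R₂.M →ₗ[k] R₃.M} (hf : R₁.IsHom R₂ f) (hg : R₂.IsHom R₃ g)
    (hi : Function.Injective f) (hs : Function.Surjective g) (hex : Function.Exact f g)
    (h2 : T.FG R₂) : T.v F K t R₂ = T.v F K t R₁ + T.v F K t R₃ := by
  haveI : Module.Finite (MvPolynomial (Fin n) k) (T.ZM R₂) := h2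
  funext z
  simp only [v, Pi.add_apply]
  rw [sr_add (T.ψ_hom F K t hf z) (T.ψ_hom F K t hg z)
    (Module.Flat.lTensor_preserves_injective_linearMap (T.homZ hf) hi)
    (LinearMap.lTensor_surjective F (g := T.homZ hg) hs)
    (Module.Flat.lTensor_exact F (f := T.homZ hf) (g := T.homZ hg) hex)]
  push_cast; rfl

theorem v_zero {R : LRep k L} (h : ∀ m : R.M, m = 0) : T.v F K t R = 0 := by
  funext z
  haveI : Subsingleton (T.ZM R) := ⟨fun a b => (h a).trans (h b).symm⟩
  have : T.ψ F K t R z = 0 := Subsingleton.elim _ _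
  simp only [v, Pi.zero_apply, Nat.cast_eq_zero]
  exact sr_nil (this ▸ IsNilpotent.zero)

theorem v_iso [Module.Flat (MvPolynomial (Fin n) k) F] {R R' : LRep k L} (h : R.Iso R')
    (h2 : T.FG R) : T.v F K t R = T.v F K t R' := by
  obtain ⟨f, hf⟩ := h
  have := T.v_add F K t (R.sub_hom ⊥ (fun _ _ hm => by simp_all)) hf (Submodule.subtype_injective _)
    f.surjective (fun y => ⟨fun h => ⟨0, f.injective (by simpa using h.symm)⟩,
      fun ⟨a, ha⟩ => by rw [show y = 0 from ha.symm.trans a.2, map_zero]⟩) h2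
  rw [this, T.v_zero F K t (R := R.sub ⊥ _) (fun m => Subtype.ext m.2), zero_add]

end Generic

end Tri

end Pool.Agent.P.Bf04
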