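import Mathlib

/-! The free module over the enveloping algebra of a Lie algebra of Heisenberg type. -/

namespace Pool.Agent.P.Bf04

open Module

variable {k : Type*} [Field k] {I : Type} [Fintype I] [LinearOrder I]

/-- structure constants of Heisenberg type -/
structure Heis (k : Type*) [Field k] (I : Type) [LinearOrder I] where
  z : I
  γ : I → I → k
  anti : ∀ i j, γ i j = - γ j i
  diag : ∀ i, γ i i = 0
  lt : ∀ i j, γ i j ≠ 0 → z < j

omit [Fintype I] in
theorem multiset_min_induction {P : Multiset I → Prop} (h0 : P 0)
    (h : ∀ a s, (∀ b ∈ s, a ≤ b) → P s → P (a ::ₘ s)) (s : Multiset I) : P s := by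
  induction hn : s.card generalizing s with
  | zero => rw [Multiset.card_eq_zero.1 hn]; exact h0
  | succ n ih =>
    have hs : s ≠ 0 := by rintro rfl; simp at hn
    obtain ⟨a, ha, hmin⟩ := Multiset.exists_min_image id hs
    obtain ⟨t, rfl⟩ := Multiset.exists_cons_of_mem ha
    exact h a t (fun b hb => hmin b (Multiset.mem_cons_of_mem hb)) (ih t (by simpa using hn))

section Ops

variable (k) (E : Type*) [AddCommGroup E] [Module k E]

/-- multiplication by a variable -/
noncomputable def Xo (i : I) : End k (Multiset I →₀ E) := Finsupp.lmapDomain E k (i ::ₘ ·)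

/-- derivative -/
noncomputable def Do (j : I) : End k (Multiset I →₀ E) :=
  Finsupp.lsum k fun s => (s.count j : k) • Finsupp.lsingle (s.erase j)

variable {k E}

omit [Fintype I] [LinearOrder I] in
@[simp] theorem Xo_single (i : I) (s : Multiset I) (v : E) :
    Xo k E i (Finsupp.single s v) = Finsupp.single (i ::ₘ s) v := by
  simp [Xo]

omit [Fintype I] in
@[simp] theorem Do_single (j : I) (s : Multiset I) (v : E) :
    Do k E j (Finsupp.single s v) = (s.count j : k) • Finsupp.single (s.erase j) v := by
  simp [Do]

omit [Fintype I] [LinearOrder I] in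
theorem Xo_comm (i j : I) : Xo k E i * Xo k E j = Xo k E j * Xo k E i := by
  refine Finsupp.lhom_ext fun s v => ?_
  simp [Multiset.cons_swap]

omit [Fintype I] in
theorem Do_Xo (j i : I) : Do k E j * Xo k E i = Xo k E i * Do k E j + if i = j then 1 else 0 := by
  refine Finsupp.lhom_ext fun s v => ?_
  simp only [End.mul_apply, Xo_single, Do_single, LinearMap.add_apply, map_smul]
  by_cases h : i = j
  · subst h
    by_cases hs : i ∈ s
    · simp [Multiset.cons_erase hs, add_smul]
    · simp [Multiset.count_eq_zero_of_notMem hs]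
  · simp [h, Multiset.count_cons_of_ne (Ne.symm h), Multiset.erase_cons_tail _ h]

omit [Fintype I] in
theorem Do_comm (i j : I) : Do k E i * Do k E j = Do k E j * Do k E i := by
  refine Finsupp.lhom_ext fun s v => ?_
  by_cases h : i = j
  · rw [h]
  · simp only [End.mul_apply, Do_single, map_smul, smul_smul]
    rw [Multiset.count_erase_of_ne h, Multiset.count_erase_of_ne (Ne.symm h),
      Multiset.erase_comm, mul_comm]

end Ops

namespace Heis

variable (H : Heis k I)

omit [Fintype I] in
theorem γ_z (i : I) : H.γ i H.z = 0 := by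
  by_contra h; exact lt_irrefl _ (H.lt _ _ h)

omit [Fintype I] in
theorem z_γ (i : I) : H.γ H.z i = 0 := by rw [H.anti, H.γ_z, neg_zero]

variable (E : Type*) [AddCommGroup E] [Module k E]

/-- the correction term -/
noncomputable def Ao (i : I) : End k (Multiset I →₀ E) :=
  ∑ j ∈ Finset.univ.filter (· < i), H.γ i j • Do k E j

/-- left multiplication by the generators -/
noncomputable def Yo (i : I) : End k (Multiset I →₀ E) := Xo k E i + Xo k E H.z * H.Ao E i

variable {E}

theorem Yo_z : H.Yo E H.z = Xo k E H.z := by simp [Yo, Ao, z_γ]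

theorem Ao_Xo (i j : I) :
    H.Ao E i * Xo k E j = Xo k E j * H.Ao E i + (if j < i then H.γ i j else 0) • 1 := by
  simp only [Ao, Finset.sum_mul, Finset.mul_sum, smul_mul_assoc, mul_smul_comm, Do_Xo, smul_add,
    Finset.sum_add_distrib, smul_ite, smul_zero, Finset.sum_ite_eq, Finset.mem_filter,
    Finset.mem_univ, true_and]
  split_ifs <;> simp

theorem Ao_comm (i j : I) : H.Ao E i * H.Ao E j = H.Ao E j * H.Ao E i := by
  refine Commute.sum_left _ _ _ fun a _ => Commute.sum_right _ _ _ fun b _ => ?_
  exact Commute.smul_left (Commute.smul_right (Do_comm a b) _) _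

theorem Yo_lie (i j : I) :
    H.Yo E i * H.Yo E j - H.Yo E j * H.Yo E i = H.γ i j • H.Yo E H.z := by
  have h1 := H.Ao_Xo (E := E) i j
  have h2 := H.Ao_Xo (E := E) j i
  have h3 := H.Ao_Xo (E := E) i H.z
  have h4 := H.Ao_Xo (E := E) j H.z
  simp only [γ_z, ite_self, zero_smul, add_zero] at h3 h4
  have h5 := H.Ao_comm (E := E) i j
  have h6 := Xo_comm (k := k) (E := E) i j
  have h7 := Xo_comm (k := k) (E := E) i H.z
  have h8 := Xo_comm (k := k) (E := E) j H.z
  have h9 : (if j < i then H.γ i j else 0) - (if i < j then H.γ j i else 0) = H.γ i j := by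
    rcases lt_trichotomy i j with h | h | h
    · simp [h, h.not_gt, H.anti j i]
    · simp [h, H.diag]
    · simp [h, h.not_gt]
  rw [Yo_z, ← h9]
  simp only [Yo]
  generalize (if j < i then H.γ i j else 0) = a at *
  generalize (if i < j then H.γ j i else 0) = b at *
  generalize H.Ao E i = Ai at *
  generalize H.Ao E j = Aj at *
  generalize Xo k E i = Xi at *
  generalize Xo k E j = Xj at *
  generalize Xo k E H.z = Z at *
  calc _ = (Xi * Xj - Xj * Xi) + ((Xi * Z) * Aj - Z * (Aj * Xi)) + (Z * (Ai * Xj) - (Xj * Z) * Ai)
      + Z * ((Ai * Z) * Aj - (Aj * Z) * Ai) := by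
        simp only [mul_add, add_mul, mul_sub, mul_assoc]; abel
    _ = _ := by
      rw [h1, h2, h3, h4, h6, h7, h8, mul_assoc Z Ai Aj, h5]
      simp only [mul_add, mul_smul_comm, mul_one, mul_assoc, sub_self, mul_zero]
      module

theorem Yo_single (i : I) (s : Multiset I) (v : E) :
    H.Yo E i (Finsupp.single s v) = Finsupp.single (i ::ₘ s) v
      + ∑ j ∈ Finset.univ.filter (· < i),
        (H.γ i j * s.count j) • Finsupp.single (H.z ::ₘ s.erase j) v := by
  simp [Yo, Ao, LinearMap.sum_apply, mul_smul]

theorem Yo_zero (i : I) (v : E) :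
    H.Yo E i (Finsupp.single 0 v) = Finsupp.single {i} v := by
  simp [Yo_single]

theorem gen_top (U : Submodule k (Multiset I →₀ E)) (h0 : ∀ v, Finsupp.single 0 v ∈ U)
    (hY : ∀ i, ∀ a ∈ U, H.Yo E i a ∈ U) (a : Multiset I →₀ E) : a ∈ U := by
  have key : ∀ n, ∀ s : Multiset I, s.card ≤ n → ∀ v, Finsupp.single s v ∈ U := by
    intro n
    induction n with
    | zero => intro s hs v; rw [Multiset.card_eq_zero.1 (Nat.le_zero.1 hs)]; exact h0 v
    | succ n ih =>
      intro s hs v
      rcases Multiset.empty_or_exists_mem s with rfl | ⟨i, hi⟩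
      · exact h0 v
      obtain ⟨t, rfl⟩ := Multiset.exists_cons_of_mem hi
      have ht : t.card ≤ n := by simpa using hs
      have h1 := hY i _ (ih t ht v)
      rw [Yo_single] at h1
      refine (U.add_mem_iff_left (Submodule.sum_mem _ fun j _ => U.smul_mem _ ?_)).1 h1
      have h2 := hY H.z _ (ih (t.erase j) (Multiset.card_erase_le.trans ht) v)
      rwa [Yo_z, Xo_single] at h2
  induction a using Finsupp.induction_linear with
  | zero => exact U.zero_mem
  | add a b ha hb => exact U.add_mem ha hb
  | single s v => exact key _ s le_rfl v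

section Univ

variable {B : Type*} [Ring B] [Algebra k B] (W : I → B)

/-- ordered monomials -/
noncomputable def mon (s : Multiset I) : B := ((s.sort (· ≤ ·)).map W).prod

omit [Fintype I] in
theorem mon_zero : mon W 0 = 1 := by simp [mon]

omit [Fintype I] in
theorem mon_cons {a : I} {s : Multiset I} (h : ∀ b ∈ s, a ≤ b) :
    mon W (a ::ₘ s) = W a * mon W s := by
  simp [mon, Multiset.sort_cons _ _ _ h]

omit [Fintype I] in
theorem mon_central {a : I} (ha : ∀ j, W j * W a = W a * W j) (s : Multiset I) :
    mon W (a ::ₘ s) = W a * mon W s := by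
  induction s using multiset_min_induction with
  | h0 => exact mon_cons W (by simp)
  | h b t hb ih =>
    rcases le_total a b with hab | hab
    · exact mon_cons W fun c hc => by
        rcases Multiset.mem_cons.1 hc with rfl | hc
        exacts [hab, hab.trans (hb c hc)]
    · rw [Multiset.cons_swap, mon_cons W (a := b), ih, mon_cons W hb, ← mul_assoc, ha, mul_assoc]
      intro c hc
      rcases Multiset.mem_cons.1 hc with rfl | hc
      exacts [hab, hb c hc]

theorem mul_mon (hW : ∀ i j, W i * W j - W j * W i = H.γ i j • W H.z) (s : Multiset I) (i : I) :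
    W i * mon W s = mon W (i ::ₘ s) + ∑ j ∈ Finset.univ.filter (· < i),
      (H.γ i j * s.count j) • mon W (H.z ::ₘ s.erase j) := by
  have hz : ∀ j, W j * W H.z = W H.z * W j := fun j => by
    rw [← sub_eq_zero, hW, γ_z, zero_smul]
  induction s using multiset_min_induction with
  | h0 => rw [mon_cons W (by simp)]; simp
  | h b t hb ih =>
    rcases le_or_gt i b with hib | hib
    · have hall : ∀ c ∈ b ::ₘ t, i ≤ c := fun c hc => by
        rcases Multiset.mem_cons.1 hc with rfl | hc
        exacts [hib, hib.trans (hb c hc)]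
      rw [mon_cons W hall, Finset.sum_eq_zero, add_zero]
      intro j hj
      have : j ∉ b ::ₘ t := fun h => (Finset.mem_filter.1 hj).2.not_ge (hall j h)
      simp [Multiset.count_eq_zero_of_notMem this]
    · have h1 : W i * W b = W b * W i + H.γ i b • W H.z := by rw [← hW]; abel
      have h2 : mon W (i ::ₘ b ::ₘ t) = W b * mon W (i ::ₘ t) := by
        rw [Multiset.cons_swap]
        refine mon_cons W fun c hc => ?_
        rcases Multiset.mem_cons.1 hc with rfl | hc
        exacts [hib.le, hb c hc]
      have h3 : ∀ j, W b * ((H.γ i j * t.count j) • mon W (H.z ::ₘ t.erase j))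
          + (if j = b then H.γ i b • (W H.z * mon W t) else 0)
          = (H.γ i j * (b ::ₘ t).count j) • mon W (H.z ::ₘ (b ::ₘ t).erase j) := by
        intro j
        have h4 : j ∈ t → W b * mon W (H.z ::ₘ t.erase j) = mon W (H.z ::ₘ b ::ₘ t.erase j) := by
          intro _
          rw [mon_central W hz, mon_central W hz, ← mul_assoc, hz, mul_assoc,
            mon_cons W fun c hc => hb c (Multiset.mem_of_mem_erase hc)]
        by_cases hj : j = b
        · subst hj
          simp only [if_true, Multiset.count_cons_self, Multiset.erase_cons_head, Nat.cast_add,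
            Nat.cast_one, mul_add, add_smul, mul_one, mon_central W hz t, mul_smul_comm]
          congr 1
          by_cases hjt : j ∈ t
          · rw [h4 hjt, Multiset.cons_erase hjt, mon_central W hz]
          · simp [Multiset.count_eq_zero_of_notMem hjt]
        · simp only [hj, if_false, add_zero, Multiset.count_cons_of_ne hj,
            Multiset.erase_cons_tail _ (Ne.symm hj), mul_smul_comm]
          by_cases hjt : j ∈ t
          · rw [h4 hjt]
          · simp [Multiset.count_eq_zero_of_notMem hjt]
      rw [mon_cons W hb, ← mul_assoc, h1, add_mul, mul_assoc, ih, h2, mul_add, Finset.mul_sum,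
        ← Finset.sum_congr rfl fun j _ => h3 j, Finset.sum_add_distrib, Finset.sum_ite_eq']
      simp [hib, add_assoc]

end Univ

variable {M : Type*} [AddCommGroup M] [Module k M]

/-- the universal map -/
noncomputable def univ (W : I → End k M) (f : E →ₗ[k] M) : (Multiset I →₀ E) →ₗ[k] M :=
  Finsupp.lsum k fun s => mon W s ∘ₗ f

omit [Fintype I] in
theorem univ_zero (W : I → End k M) (f : E →ₗ[k] M) (v : E) :
    univ W f (Finsupp.single 0 v) = f v := by
  simp [univ, mon_zero]

theorem univ_Yo (W : I → End k M) (hW : ∀ i j, W i * W j - W j * W i = H.γ i j • W H.z)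
    (f : E →ₗ[k] M) (i : I) (a : Multiset I →₀ E) :
    univ W f (H.Yo E i a) = W i (univ W f a) := by
  induction a using Finsupp.induction_linear with
  | zero => simp
  | add a b ha hb => simp [ha, hb]
  | single s v =>
    have := LinearMap.congr_fun (H.mul_mon W hW s i) (f v)
    simp only [End.mul_apply, LinearMap.add_apply, LinearMap.sum_apply,
      LinearMap.smul_apply] at this
    rw [Yo_single, map_add, map_sum]
    simp only [map_smul]
    simp [univ, this]

end Heis

end Pool.Agent.P.Bf04
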