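import Pool.Agent.P.MP_bf0464_al.Tri

/-! Induced modules. -/

namespace Pool.Agent.P.Bf04

open Module

attribute [local instance 100] LieRing.ofAssociativeRing

universe u

namespace Tri

variable {k : Type u} [Field k] {L : Type u} [LieRing L] [LieAlgebra k L] {n p : ℕ}
  (T : Tri k L n p) (N : LRep k T.par)

/-- the action of the negative part on maps from the Lie algebra -/
noncomputable def Wo (i : Fin n) : End k (L →ₗ[k] (Multiset (Fin n) →₀ N.M)) :=
  LinearMap.llcomp k L _ _ (T.H.Yo N.M i) - LinearMap.lcomp k _ (LieAlgebra.ad k L (T.y i))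

theorem Wo_apply (i : Fin n) (φ : L →ₗ[k] (Multiset (Fin n) →₀ N.M)) (x : L) :
    T.Wo N i φ x = T.H.Yo N.M i (φ x) - φ ⁅T.y i, x⁆ := rfl

theorem Wo_lie (i j : Fin n) :
    T.Wo N i * T.Wo N j - T.Wo N j * T.Wo N i = T.H.γ i j • T.Wo N T.H.z := by
  refine LinearMap.ext fun φ => LinearMap.ext fun x => ?_
  have h1 := LinearMap.congr_fun (T.H.Yo_lie (E := N.M) i j) (φ x)
  have h2 := congrArg φ (lie_lie (T.y i) (T.y j) x)
  rw [T.lie_y, smul_lie] at h2
  simp only [LinearMap.sub_apply, End.mul_apply, LinearMap.smul_apply, Wo_apply, map_sub,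
    map_smul, smul_sub] at h1 h2 ⊢
  linear_combination (norm := abel) h1 + h2

/-- the action on the generating subspace -/
noncomputable def f0 : N.M →ₗ[k] L →ₗ[k] (Multiset (Fin n) →₀ N.M) :=
  ((N.ρ : T.par →ₗ[k] End k N.M) ∘ₗ T.π).flip.compr₂ (Finsupp.lsingle 0)
    + ∑ i, (LinearMap.smulRightₗ (T.c i)) ∘ₗ Finsupp.lsingle {i}

theorem f0_apply (v : N.M) (x : L) : T.f0 N v x
    = Finsupp.single 0 (N.ρ (T.π x) v) + ∑ i, T.c i x • Finsupp.single {i} v := by
  simp [f0, LinearMap.sum_apply]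

/-- the action on the induced module -/
noncomputable def Act : L →ₗ[k] End k (Multiset (Fin n) →₀ N.M) :=
  (Heis.univ (T.Wo N) (T.f0 N)).flip

theorem Act_zero (x : L) (v : N.M) : T.Act N x (Finsupp.single 0 v)
    = Finsupp.single 0 (N.ρ (T.π x) v) + ∑ i, T.c i x • Finsupp.single {i} v := by
  rw [Act, LinearMap.flip_apply, Heis.univ_zero, f0_apply]

theorem Act_Yo (x : L) (i : Fin n) (a : Multiset (Fin n) →₀ N.M) :
    T.Act N x (T.H.Yo N.M i a) = T.H.Yo N.M i (T.Act N x a) - T.Act N ⁅T.y i, x⁆ a := by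
  rw [Act, LinearMap.flip_apply, T.H.univ_Yo _ (T.Wo_lie N), Wo_apply]; rfl

theorem Act_y (i : Fin n) (a : Multiset (Fin n) →₀ N.M) :
    T.Act N (T.y i) a = T.H.Yo N.M i a := by
  have := T.H.gen_top (⨅ i, LinearMap.eqLocus (T.Act N (T.y i)) (T.H.Yo N.M i)) ?_ ?_ a
  · exact (Submodule.mem_iInf _).1 this i
  · intro v
    refine (Submodule.mem_iInf _).2 fun i => ?_
    rw [LinearMap.mem_eqLocus, Act_zero, Heis.Yo_zero]
    simp [T.π_y, T.c_y]
  · intro j a ha
    have ha' : ∀ i, T.Act N (T.y i) a = T.H.Yo N.M i a := fun i => (Submodule.mem_iInf _).1 ha i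
    refine (Submodule.mem_iInf _).2 fun i => ?_
    rw [LinearMap.mem_eqLocus, Act_Yo, T.lie_y, map_smul, LinearMap.smul_apply, ha', ha']
    have h1 := LinearMap.congr_fun (T.H.Yo_lie (E := N.M) j i) a
    simp only [LinearMap.sub_apply, End.mul_apply, LinearMap.smul_apply] at h1
    rw [← h1]; abel

theorem Act_lie (x x' : L) (a : Multiset (Fin n) →₀ N.M) :
    T.Act N ⁅x, x'⁆ a = T.Act N x (T.Act N x' a) - T.Act N x' (T.Act N x a) := by
  have := T.H.gen_top (⨅ x, ⨅ x', LinearMap.eqLocus (T.Act N ⁅x, x'⁆)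
    (T.Act N x * T.Act N x' - T.Act N x' * T.Act N x)) ?_ ?_ a
  · exact (Submodule.mem_iInf _).1 ((Submodule.mem_iInf _).1 this x) x'
  · intro v
    refine (Submodule.mem_iInf _).2 fun x => (Submodule.mem_iInf _).2 fun x' => ?_
    rw [LinearMap.mem_eqLocus]
    let J : L →ₗ[k] L →ₗ[k] (Multiset (Fin n) →₀ N.M) := LinearMap.mk₂ k
      (fun x x' => T.Act N ⁅x, x'⁆ (Finsupp.single 0 v) - (T.Act N x (T.Act N x'
        (Finsupp.single 0 v)) - T.Act N x' (T.Act N x (Finsupp.single 0 v))))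
      (fun _ _ _ => by simp only [add_lie, map_add, LinearMap.add_apply]; abel)
      (fun _ _ _ => by simp only [smul_lie, map_smul, LinearMap.smul_apply, smul_sub])
      (fun _ _ _ => by simp only [lie_add, map_add, LinearMap.add_apply]; abel)
      (fun _ _ _ => by simp only [lie_smul, map_smul, LinearMap.smul_apply, smul_sub])
    have hJ : ∀ x x', J x x' = T.Act N ⁅x, x'⁆ (Finsupp.single 0 v) - (T.Act N x (T.Act N x'
        (Finsupp.single 0 v)) - T.Act N x' (T.Act N x (Finsupp.single 0 v))) := fun _ _ => rfl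
    have hpar : ∀ x : T.par, ∀ w, T.Act N x (Finsupp.single 0 w)
        = Finsupp.single 0 (N.ρ x w) := fun x w => by
      simp [Act_zero, T.π_par, T.c_par _ x.2]
    have h1 : ∀ x i, J x (T.y i) = 0 := by
      intro x i
      rw [hJ, Act_y, Act_y, Act_Yo, ← lie_skew, map_neg, LinearMap.neg_apply]; abel
    have h2 : ∀ i x, J (T.y i) x = 0 := by
      intro i x
      rw [hJ, Act_y, Act_y, Act_Yo]; abel
    have h3 : J x x' = 0 := by
      refine T.induction' (LinearMap.ker (J x)) (fun x' hx' => ?_) (h1 x) x'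
      refine T.induction' (LinearMap.ker (J.flip x')) (fun x hx => ?_) (fun i => h2 i x') x
      have := hpar ⁅(⟨x, hx⟩ : T.par), (⟨x', hx'⟩ : T.par)⁆ v
      rw [LinearMap.mem_ker, LinearMap.flip_apply, hJ, hpar ⟨x, hx⟩, hpar ⟨x', hx'⟩,
        hpar ⟨x, hx⟩, hpar ⟨x', hx'⟩, ← Finsupp.single_sub, ← N.lie_apply, ← this]
      exact sub_self _
    exact sub_eq_zero.1 h3
  · intro j a ha
    have ha' : ∀ x x', T.Act N ⁅x, x'⁆ a
        = T.Act N x (T.Act N x' a) - T.Act N x' (T.Act N x a) := fun x x' =>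
      (Submodule.mem_iInf _).1 ((Submodule.mem_iInf _).1 ha x) x'
    refine (Submodule.mem_iInf _).2 fun x => (Submodule.mem_iInf _).2 fun x' => ?_
    rw [LinearMap.mem_eqLocus]
    simp only [LinearMap.sub_apply, End.mul_apply, Act_Yo, map_sub, leibniz_lie (T.y j) x x',
      map_add, LinearMap.add_apply]
    rw [ha' x x', ha' ⁅T.y j, x⁆ x', ha' x ⁅T.y j, x'⁆, map_sub]
    abel

/-- the induced module -/
noncomputable def Ind : LRep k L := LRep.ofLin (T.Act N) (T.Act_lie N)

/-- the inclusion of the generating subspace -/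
noncomputable def inc : N.M →ₗ[k] (T.Ind N).M := Finsupp.lsingle (0 : Multiset (Fin n))

theorem inc_hom : N.IsHom ((T.Ind N).res T.par.incl) (T.inc N) := fun x w => by
  change Finsupp.single 0 _ = T.Act N x (Finsupp.single 0 w)
  simp [Act_zero, T.π_par, T.c_par _ x.2]

theorem inc_par (x : T.par) (v : N.M) : (T.Ind N).ρ x (T.inc N v) = T.inc N (N.ρ x v) :=
  (T.inc_hom N x v).symm

theorem inc_inj : Function.Injective (T.inc N) := Finsupp.single_injective _

theorem Ind_y (i : Fin n) : (T.Ind N).ρ (T.y i) = T.H.Yo N.M i :=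
  LinearMap.ext (T.Act_y N i)

theorem Ind_gen (U : Submodule k (T.Ind N).M) (h0 : ∀ v, T.inc N v ∈ U)
    (hY : ∀ i, ∀ a ∈ U, (T.Ind N).ρ (T.y i) a ∈ U) (a : (T.Ind N).M) : a ∈ U :=
  T.H.gen_top U h0 (fun i a ha => by have := hY i a ha; rwa [Ind_y] at this) a

theorem Ind_ext {M : Type*} [AddCommGroup M] [Module k M] {f g : (T.Ind N).M →ₗ[k] M}
    (W : Fin n → End k M) (hf : ∀ i a, f ((T.Ind N).ρ (T.y i) a) = W i (f a))
    (hg : ∀ i a, g ((T.Ind N).ρ (T.y i) a) = W i (g a))
    (h : ∀ v, f (T.inc N v) = g (T.inc N v)) : f = g :=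
  LinearMap.ext fun a => T.Ind_gen N (LinearMap.eqLocus f g) h
    (fun i a ha => by rw [LinearMap.mem_eqLocus] at ha ⊢; rw [hf, hg, ha]) a

theorem Ind_scalar {f : End k (T.Ind N).M} (hf : ∀ x, Commute f ((T.Ind N).ρ x)) {c : k}
    (h : ∀ v, f (T.inc N v) = c • T.inc N v) (a : (T.Ind N).M) : f a = c • a :=
  LinearMap.congr_fun (T.Ind_ext N (f := f) (g := c • LinearMap.id)
    (fun i => (T.Ind N).ρ (T.y i)) (fun i a => LinearMap.congr_fun (hf (T.y i)) a)
    (fun i a => by simp) h) a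

theorem Ind_rel (h : T.RelP N) : T.Rel (T.Ind N) := by
  intro d hd x hx a
  have := T.Ind_scalar N (T.pw_comm (T.Ind N) x) (c := T.cp x) (fun v => ?_) a
  · rw [← this]; simp
  · have h1 := (T.inc_hom N).pow ⟨x, T.mem_par_of_gr hd hx⟩ p v
    rw [h d hd ⟨x, T.mem_par_of_gr hd hx⟩ hx v, map_add, map_smul, T.inc_hom N] at h1
    rw [LinearMap.sub_apply, sub_eq_iff_eq_add']
    exact h1.symm

variable {N}

/-- the universal map -/
noncomputable def lift {R : LRep k L} (f : N.M →ₗ[k] R.M) : (T.Ind N).M →ₗ[k] R.M :=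
  Heis.univ (fun i => R.ρ (T.y i)) f

theorem lift_inc {R : LRep k L} (f : N.M →ₗ[k] R.M) (v : N.M) : T.lift f (T.inc N v) = f v :=
  Heis.univ_zero _ _ _

theorem lift_y {R : LRep k L} (f : N.M →ₗ[k] R.M) (i : Fin n) (a : (T.Ind N).M) :
    T.lift f ((T.Ind N).ρ (T.y i) a) = R.ρ (T.y i) (T.lift f a) := by
  rw [Ind_y]
  exact T.H.univ_Yo _ (fun i j => by rw [← R.lie_eq, T.lie_y, map_smul]) f i a

theorem lift_hom {R : LRep k L} {f : N.M →ₗ[k] R.M} (hf : N.IsHom (R.res T.par.incl) f) :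
    (T.Ind N).IsHom R (T.lift f) := by
  intro x a
  have := T.Ind_gen N (⨅ x, LinearMap.eqLocus (T.lift f ∘ₗ (T.Ind N).ρ x) (R.ρ x ∘ₗ T.lift f))
    ?_ ?_ a
  · exact (Submodule.mem_iInf _).1 this x
  · intro v
    refine (Submodule.mem_iInf _).2 fun x => ?_
    let J : L →ₗ[k] R.M := T.lift f ∘ₗ (LinearMap.applyₗ (T.inc N v)) ∘ₗ (T.Ind N).ρ.toLinearMap
      - (LinearMap.applyₗ (T.lift f (T.inc N v))) ∘ₗ R.ρ.toLinearMap
    have hJ : ∀ x, J x = T.lift f ((T.Ind N).ρ x (T.inc N v))
      - R.ρ x (T.lift f (T.inc N v)) := fun _ => rfl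
    have : J x = 0 := by
      refine T.induction' (LinearMap.ker J) (fun x hx => ?_) (fun i => ?_) x
      · rw [LinearMap.mem_ker, hJ, T.inc_par N ⟨x, hx⟩, lift_inc, lift_inc]
        exact sub_eq_zero.2 (hf ⟨x, hx⟩ v)
      · rw [LinearMap.mem_ker, hJ, lift_y, sub_self]
    exact sub_eq_zero.1 this
  · intro j a ha
    have ha' : ∀ x, T.lift f ((T.Ind N).ρ x a) = R.ρ x (T.lift f a) := fun x =>
      (Submodule.mem_iInf _).1 ha x
    refine (Submodule.mem_iInf _).2 fun x => ?_
    rw [LinearMap.mem_eqLocus, LinearMap.comp_apply, LinearMap.comp_apply, LRep.comm_apply,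
      map_add, lift_y, lift_y, ha', ha', R.comm_apply x]

theorem Ind_iso {N' : LRep k T.par} (h : N.Iso N') : (T.Ind N).Iso (T.Ind N') := by
  obtain ⟨g, hg⟩ := h.symm
  obtain ⟨f, hf⟩ : ∃ f : N.M ≃ₗ[k] N'.M, f = g.symm := ⟨_, rfl⟩
  have hf' : N.IsHom N' f := fun x m => g.injective (by
    have := hg x (f m)
    simp only [hf, LinearEquiv.coe_coe, LinearEquiv.apply_symm_apply] at this ⊢
    exact this.symm)
  have h1 := T.lift_hom ((T.inc_hom N').comp hf')
  have h2 := T.lift_hom ((T.inc_hom N).comp hg)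
  refine ⟨LinearEquiv.ofLinear (T.lift (T.inc N' ∘ₗ f)) (T.lift (T.inc N ∘ₗ g)) ?_ ?_, h1⟩
  · refine T.Ind_ext N' (fun i => (T.Ind N').ρ (T.y i)) (fun i a => (h1.comp h2) _ a)
      (fun _ _ => rfl) fun v => ?_
    simp [lift_inc, hf]
  · refine T.Ind_ext N (fun i => (T.Ind N).ρ (T.y i)) (fun i a => (h2.comp h1) _ a)
      (fun _ _ => rfl) fun v => ?_
    simp [lift_inc, hf]

variable (N)

theorem Ind_Ys (j : ℕ) :
    T.Ys (T.Ind N) j = Finsupp.supported N.M k {s : Multiset (Fin n) | ∃ i ∈ s, i.val < j} := by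
  apply le_antisymm
  · refine T.Ys_le _ fun i hi a => ?_
    rw [Ind_y]
    induction a using Finsupp.induction_linear with
    | zero => exact (map_zero (T.H.Yo N.M i)).symm ▸ zero_mem _
    | add a b ha hb => exact (map_add (T.H.Yo N.M i) a b).symm ▸ add_mem ha hb
    | single s v =>
      refine (T.H.Yo_single i s v).symm ▸ add_mem
        (Finsupp.single_mem_supported k _ ⟨i, Multiset.mem_cons_self _ _, hi⟩)
        (Submodule.sum_mem _ fun l hl => ?_)
      by_cases hγ : T.H.γ i l = 0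
      · rw [hγ, zero_mul, zero_smul]; exact zero_mem _
      · exact Submodule.smul_mem _ _ (Finsupp.single_mem_supported k _
          ⟨_, Multiset.mem_cons_self _ _, lt_trans (lt_trans (T.H.lt _ _ hγ)
            (Finset.mem_filter.1 hl).2) hi⟩)
  · intro a ha
    change Multiset (Fin n) →₀ N.M at a
    rw [← Finsupp.sum_single a]
    refine Submodule.sum_mem (T.Ys (T.Ind N) j) fun s hs => ?_
    obtain ⟨i, hi, hij⟩ := ha hs
    obtain ⟨t, rfl⟩ := Multiset.exists_cons_of_mem hi
    have h1 := T.y_mem_Ys (T.Ind N) hij (Finsupp.single t (a (i ::ₘ t)))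
    rw [Ind_y] at h1
    have h2 := T.H.Yo_single i t (a (i ::ₘ t))
    refine ((T.Ys (T.Ind N) j).add_mem_iff_left
      (Submodule.sum_mem _ fun l hl => ?_)).1 (h2 ▸ h1)
    by_cases hγ : T.H.γ i l = 0
    · rw [hγ, zero_mul, zero_smul]; exact zero_mem _
    · refine Submodule.smul_mem _ _ ?_
      have h3 := T.y_mem_Ys (T.Ind N) (i := T.H.z) (lt_trans (lt_trans (T.H.lt _ _ hγ)
        (Finset.mem_filter.1 hl).2) hij) (Finsupp.single (t.erase l) (a (i ::ₘ t)))
      rw [Ind_y, Heis.Yo_z] at h3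
      exact Xo_single (k := k) T.H.z (t.erase l) (a (i ::ₘ t)) ▸ h3

theorem Ind_reg : T.Reg (T.Ind N) n := by
  intro i _ a ha
  change Multiset (Fin n) →₀ N.M at a
  rw [Ind_Ys] at ha ⊢
  rw [Ind_y] at ha
  refine (Finsupp.mem_supported' k a).2 fun t ht => ?_
  have ht' : ∀ l ∈ t, ¬ l.val < i.val := fun l hl h => ht ⟨l, hl, h⟩
  have h1 := (Finsupp.mem_supported' k (T.H.Yo N.M i a)).1 ha (i ::ₘ t) (by
    rintro ⟨l, hl, h⟩
    rcases Multiset.mem_cons.1 hl with rfl | hl
    exacts [lt_irrefl _ h, ht' l hl h])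
  have h2 : Xo k N.M i a (i ::ₘ t) = a t :=
    Finsupp.mapDomain_apply (fun _ _ h => (Multiset.cons_inj_right i).1 h) a t
  have h3 : (Xo k N.M T.H.z * T.H.Ao N.M i) a (i ::ₘ t) = 0 := by
    simp only [Heis.Ao, Finset.mul_sum, mul_smul_comm, LinearMap.sum_apply, LinearMap.smul_apply,
      Finsupp.finset_sum_apply, Finsupp.smul_apply, End.mul_apply]
    refine Finset.sum_eq_zero fun l hl => ?_
    by_cases hγ : T.H.γ i l = 0
    · simp [hγ]
    · have hz : T.H.z < i := lt_trans (T.H.lt _ _ hγ) (Finset.mem_filter.1 hl).2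
      rw [show Xo k N.M T.H.z (Do k N.M l a) (i ::ₘ t) = 0 from
        Finsupp.mapDomain_notin_range _ _ ?_, smul_zero]
      rintro ⟨u, hu⟩
      have : T.H.z ∈ i ::ₘ t := hu ▸ Multiset.mem_cons_self _ _
      rcases Multiset.mem_cons.1 this with h | h
      exacts [hz.ne h, ht' _ h hz]
  rw [Heis.Yo, LinearMap.add_apply, Finsupp.add_apply, h2, h3, add_zero] at h1
  exact h1

theorem sub_inc_mem (a : (T.Ind N).M) : ∃ v, a - T.inc N v ∈ T.Ys (T.Ind N) n := by
  change Multiset (Fin n) →₀ N.M at a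
  refine ⟨a 0, ?_⟩
  rw [Ind_Ys]
  refine (Finsupp.mem_supported' k (a - Finsupp.single 0 (a 0))).2 fun t ht => ?_
  rcases Multiset.empty_or_exists_mem t with rfl | ⟨i, hi⟩
  · exact (Finsupp.sub_apply a _ 0).trans (by simp)
  · exact absurd ⟨i, hi, i.2⟩ ht

/-- degree of a monomial -/
def deg (s : Multiset (Fin n)) : ℤ := (s.map fun i => (T.δ i : ℤ)).sum

theorem deg_cons (i : Fin n) (s : Multiset (Fin n)) : T.deg (i ::ₘ s) = T.δ i + T.deg s := by
  simp [deg]

theorem deg_nonneg (s : Multiset (Fin n)) : 0 ≤ T.deg s :=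
  Multiset.sum_nonneg fun x hx => by
    obtain ⟨i, -, rfl⟩ := Multiset.mem_map.1 hx; positivity

variable {N}

/-- projections of the induced module -/
noncomputable def IP (G : Grading k N.M) (j : ℤ) : End k (Multiset (Fin n) →₀ N.M) :=
  Finsupp.lsum k fun s => Finsupp.lsingle s ∘ₗ G.P (j + T.deg s)

theorem IP_single (G : Grading k N.M) (j : ℤ) (s : Multiset (Fin n)) (v : N.M) :
    T.IP G j (Finsupp.single s v) = Finsupp.single s (G.P (j + T.deg s) v) := by
  simp [IP]

/-- the grading of the induced module -/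
noncomputable def IndG (G : Grading k N.M) : Grading k (T.Ind N).M where
  P := T.IP G
  PP i j a := by
    change Multiset (Fin n) →₀ N.M at a
    change T.IP G i (T.IP G j a) = if i = j then T.IP G j a else 0
    induction a using Finsupp.induction_linear with
    | zero => simp
    | add a b ha hb => rw [map_add, map_add, ha, hb]; split_ifs <;> simp
    | single s v => rw [IP_single, IP_single, G.PP]; split_ifs <;> simp_all
  fin a := by
    change Multiset (Fin n) →₀ N.M at a
    induction a using Finsupp.induction_linear with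
    | zero => exact zero_mem _
    | add a b ha hb => exact add_mem ha hb
    | single s v =>
      obtain ⟨t, ht, -⟩ := G.exists_sum v
      rw [← ht, Finsupp.single_finset_sum]
      refine Submodule.sum_mem _ fun j _ => Submodule.mem_iSup_of_mem (j - T.deg s)
        ⟨Finsupp.single s v, ?_⟩
      exact (T.IP_single G _ s v).trans (by rw [sub_add_cancel])

theorem IndG_inc (G : Grading k N.M) : G.IsHom (T.IndG G) (T.inc N) := fun j v => by
  change Finsupp.single 0 _ = T.IP G j (Finsupp.single 0 v)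
  rw [IP_single]; simp [deg]

theorem IndG_bdd {G : Grading k N.M} (h : G.Bdd) : (T.IndG G).Bdd := by
  obtain ⟨t, ht⟩ := h
  refine ⟨t, fun j hj a => ?_⟩
  change Multiset (Fin n) →₀ N.M at a
  change T.IP G j a = 0
  induction a using Finsupp.induction_linear with
  | zero => simp
  | add a b ha hb => rw [map_add, ha, hb, add_zero]
  | single s v =>
    have := T.deg_nonneg s
    rw [IP_single, ht _ (by omega), Finsupp.single_zero]

theorem IndG_y (G : Grading k N.M) (i : Fin n) :
    (T.IndG G).Deg ((T.Ind N).ρ (T.y i)) (-T.δ i) := by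
  intro j a
  rw [Ind_y]
  change Multiset (Fin n) →₀ N.M at a
  change T.IP G _ (T.H.Yo N.M i a) = T.H.Yo N.M i (T.IP G j a)
  induction a using Finsupp.induction_linear with
  | zero => simp
  | add a b ha hb => simp only [map_add, ha, hb]
  | single s v =>
    rw [IP_single, Heis.Yo_single, Heis.Yo_single, map_add, map_sum, IP_single, deg_cons]
    congr 1
    · congr 3; ring
    refine Finset.sum_congr rfl fun l _ => ?_
    by_cases hγ : T.H.γ i l = 0
    · simp [hγ]
    by_cases hl : l ∈ s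
    · obtain ⟨t, rfl⟩ := Multiset.exists_cons_of_mem hl
      rw [map_smul, IP_single, Multiset.erase_cons_head, deg_cons, deg_cons, T.δ_z hγ]
      congr 4; push_cast; ring
    · simp [Multiset.count_eq_zero_of_notMem hl]

theorem IndG_gr {G : Grading k N.M} (h : T.GrP N G) : T.Gr (T.Ind N) (T.IndG G) := by
  intro d x hx j a
  have := T.Ind_gen N (⨅ d, ⨅ x : T.gr d, ⨅ j, LinearMap.eqLocus
    ((T.IndG G).P (j + d) ∘ₗ (T.Ind N).ρ x) ((T.Ind N).ρ x ∘ₗ (T.IndG G).P j)) ?_ ?_ a
  · exact (Submodule.mem_iInf _).1 ((Submodule.mem_iInf _).1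
      ((Submodule.mem_iInf _).1 this d) ⟨x, hx⟩) j
  · intro v
    refine (Submodule.mem_iInf _).2 fun d => (Submodule.mem_iInf _).2 fun x =>
      (Submodule.mem_iInf _).2 fun j => ?_
    obtain ⟨x, hx⟩ := x
    rw [LinearMap.mem_eqLocus, LinearMap.comp_apply, LinearMap.comp_apply]
    rcases lt_or_ge d 0 with hd | hd
    · simp only
      rw [← T.exp_neg d hd x hx]
      simp only [map_sum, map_smul, LinearMap.sum_apply, LinearMap.smul_apply]
      refine Finset.sum_congr rfl fun i _ => ?_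
      by_cases hi : d = -T.δ i
      · rw [hi, T.IndG_y G i]
      · simp [T.c_zero i d x hx hi]
    · have hp := T.mem_par_of_gr hd hx
      rw [← T.IndG_inc G, T.inc_par N ⟨x, hp⟩, T.inc_par N ⟨x, hp⟩, ← T.IndG_inc G,
        h d ⟨x, hp⟩ hx]
  · intro i a ha
    have ha' : ∀ d, ∀ x ∈ T.gr d, ∀ j, (T.IndG G).P (j + d) ((T.Ind N).ρ x a)
        = (T.Ind N).ρ x ((T.IndG G).P j a) := fun d x hx j =>
      (Submodule.mem_iInf _).1 ((Submodule.mem_iInf _).1
        ((Submodule.mem_iInf _).1 ha d) ⟨x, hx⟩) j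
    refine (Submodule.mem_iInf _).2 fun d => (Submodule.mem_iInf _).2 fun x =>
      (Submodule.mem_iInf _).2 fun j => ?_
    obtain ⟨x, hx⟩ := x
    have h1 := T.IndG_y G i (j + T.δ i) a
    have h2 := T.IndG_y G i (j + T.δ i + d) ((T.Ind N).ρ x a)
    have h3 := ha' _ _ (T.lie_mem _ _ _ _ hx (T.y_mem i)) (j + T.δ i)
    rw [add_neg_cancel_right] at h1
    rw [show j + T.δ i + d + -T.δ i = j + d by ring] at h2
    rw [show j + T.δ i + (d + -T.δ i) = j + d by ring] at h3
    rw [LinearMap.mem_eqLocus, LinearMap.comp_apply, LinearMap.comp_apply, h1, LRep.comm_apply,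
      map_add, h2, h3, ha' d x hx, (T.Ind N).comm_apply x]

theorem lift_gr {R : LRep k L} {f : N.M →ₗ[k] R.M} {G : Grading k N.M} {G' : Grading k R.M}
    (hG' : T.Gr R G') (hf : G.IsHom G' f) : (T.IndG G).IsHom G' (T.lift f) := by
  intro j a
  have := T.Ind_gen N (⨅ j, LinearMap.eqLocus (T.lift f ∘ₗ (T.IndG G).P j)
    (G'.P j ∘ₗ T.lift f)) ?_ ?_ a
  · exact (Submodule.mem_iInf _).1 this j
  · intro v
    refine (Submodule.mem_iInf _).2 fun j => ?_
    rw [LinearMap.mem_eqLocus, LinearMap.comp_apply, LinearMap.comp_apply, ← T.IndG_inc G,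
      lift_inc, lift_inc, hf]
  · intro i a ha
    have ha' : ∀ j, T.lift f ((T.IndG G).P j a) = G'.P j (T.lift f a) := fun j =>
      (Submodule.mem_iInf _).1 ha j
    refine (Submodule.mem_iInf _).2 fun j => ?_
    have h1 := T.IndG_y G i (j + T.δ i) a
    have h2 := hG' _ _ (T.y_mem i) (j + T.δ i) (T.lift f a)
    rw [add_neg_cancel_right] at h1 h2
    rw [LinearMap.mem_eqLocus, LinearMap.comp_apply, LinearMap.comp_apply, h1, lift_y, lift_y,
      h2, ha']

variable (N)

theorem Ind_gen_pow (U : Submodule k (Multiset (Fin n) →₀ N.M))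
    (h0 : ∀ s : Multiset (Fin n), (∀ i, s.count i < T.q i) → ∀ v, Finsupp.single s v ∈ U)
    (hY : ∀ i, ∀ a ∈ U, (T.H.Yo N.M i ^ T.q i) a ∈ U) (a : Multiset (Fin n) →₀ N.M) :
    a ∈ U := by
  let C : ℕ → Submodule k (Multiset (Fin n) →₀ N.M) := fun m =>
    Finsupp.supported N.M k {s | s.card < m}
  have hC : ∀ m (V : Submodule k (Multiset (Fin n) →₀ N.M)),
      (∀ s : Multiset (Fin n), s.card < m → ∀ v, Finsupp.single s v ∈ V) → C m ≤ V := by
    intro m V h a ha
    rw [← Finsupp.sum_single a]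
    exact Submodule.sum_mem _ fun s hs => h s (ha hs) _
  have h1 : ∀ i (s : Multiset (Fin n)) v, T.H.Yo N.M i (Finsupp.single s v)
      - Finsupp.single (i ::ₘ s) v ∈ C (s.card + 1) := by
    intro i s v
    rw [Heis.Yo_single, add_sub_cancel_left]
    refine Submodule.sum_mem _ fun l _ => ?_
    by_cases hl : l ∈ s
    · obtain ⟨t, rfl⟩ := Multiset.exists_cons_of_mem hl
      exact Submodule.smul_mem _ _ (Finsupp.single_mem_supported k _ (by simp))
    · simp [Multiset.count_eq_zero_of_notMem hl]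
  have hmono : ∀ {m m'}, m ≤ m' → C m ≤ C m' := fun h =>
    Finsupp.supported_mono fun s hs => lt_of_lt_of_le hs h
  have h2 : ∀ i m, ∀ a ∈ C m, T.H.Yo N.M i a ∈ C (m + 1) := by
    intro i m a ha
    refine hC m ((C (m + 1)).comap (T.H.Yo N.M i)) (fun s hs v => ?_) ha
    have := add_mem (hmono (show s.card + 1 ≤ m + 1 by omega) (h1 i s v))
      (Finsupp.single_mem_supported k (s := {s | s.card < m + 1}) (a := i ::ₘ s) v (by simpa))
    simpa using this
  have h3 : ∀ i r (s : Multiset (Fin n)) v, (T.H.Yo N.M i ^ r) (Finsupp.single s v)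
      - Finsupp.single (Multiset.replicate r i + s) v ∈ C (s.card + r) := by
    intro i r s v
    induction r with
    | zero => simp
    | succ r ih =>
      have a1 := h2 i _ _ ih
      have a2 := h1 i (Multiset.replicate r i + s) v
      rw [Multiset.card_add, Multiset.card_replicate, add_comm r] at a2
      have := add_mem a1 a2
      rw [map_sub, sub_add_sub_cancel] at this
      rw [pow_succ', End.mul_apply, Multiset.replicate_succ, Multiset.cons_add]
      exact this
  have key : ∀ m, C m ≤ U := by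
    intro m
    induction m with
    | zero => exact hC 0 U fun s hs => absurd hs (Nat.not_lt_zero _)
    | succ m ih =>
      refine hC _ U fun s hs v => ?_
      by_cases hq : ∀ i, s.count i < T.q i
      · exact h0 s hq v
      push Not at hq
      obtain ⟨i, hi⟩ := hq
      obtain ⟨t, rfl⟩ := Multiset.le_iff_exists_add.1 (Multiset.le_count_iff_replicate_le.1 hi)
      have hp := T.q_pos i
      simp only [Multiset.card_add, Multiset.card_replicate] at hs
      have a1 := ih (hmono (show t.card + T.q i ≤ m by omega) (h3 i (T.q i) t v))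
      have a2 := hY i _ (ih (Finsupp.single_mem_supported k (s := {s : Multiset (Fin n) | s.card < m})
        (a := t) v
        (show t.card < m by omega)))
      simpa using sub_mem a2 a1
  induction a using Finsupp.induction_linear with
  | zero => exact zero_mem _
  | add a b ha hb => exact add_mem ha hb
  | single s v => exact key (s.card + 1) (Finsupp.single_mem_supported k v (by simp))

end Tri

end Pool.Agent.P.Bf04
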