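import Pool.Agent.P.MP_bf0464_al.Typed

/-! The induction on the dimension. -/

namespace Pool.Agent.P.Bf04

open Module

attribute [local instance 100] LieRing.ofAssociativeRing

universe u

/-- the order of the hyperoctahedral group -/
def W (N : ℕ) : ℕ := 2 ^ (N / 2) * (N / 2).factorial

theorem W_add (N M : ℕ) :
    ((N + 2 * M) / 2).choose M * 2 ^ M * W N * M.factorial = W (N + 2 * M) := by
  rw [W, W, show (N + 2 * M) / 2 = N / 2 + M by omega,
    ← Nat.add_choose_mul_factorial_mul_factorial, pow_add]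
  ring

namespace QF

variable {k V V₀ : Type u} [Field k] [AddCommGroup V] [Module k V] [AddCommGroup V₀]
  [Module k V₀] {Q : QF k V} {Q₀ : QF k V₀} {p : ℕ} [Fact p.Prime] [Fact (Odd p)] [CharP k p]
  {e : End k V}

theorem rank_one [IsAlgClosed k] {m : ℕ} (hn : ¬ Q.HP e m) (hm : e ^ (m + 1) = 0) {x : V}
    (hx : Q.β ((e ^ m) x) x ≠ 0) (v : V) :
    ∃ s : k, ∀ w, Q.β ((e ^ m) v) w = s * Q.β ((e ^ m) x) w := by
  obtain ⟨s, hs⟩ := exists_iso Q.two (Q.β ∘ₗ (e ^ m)) hx v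
  refine ⟨s, fun w => by_contra fun h => hn ⟨v - s • x, w, by simp [hm], by simp [hm], hs, ?_⟩⟩
  simpa [sub_eq_zero] using h

theorem case_sp2 [IsAlgClosed k] [FiniteDimensional k V] [FiniteDimensional k V₀] (hQ : Q.ND)
    (Fl : Q.Flag Q₀ 1) (h : ∀ v : V₀, v = 0) (he : Q.Sk e) {e₀ : End k V₀} {a : V₀} {t : k}
    (hel : e = Fl.el e₀ a t) : Q.Bound p e 2 := by
  have h1 : ∀ y ∈ Fl.nm fun _ => 1, ∀ y' ∈ Fl.nm fun _ => 1, y.1 * y'.1 = 0 := by
    intro y hy y' hy'
    have a1 : ∀ y ∈ Fl.nm fun _ => 1, y.1 (Fl.u' 0) = 0 := fun y hy =>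
      Fl.Fil_le _ (U := ⊥) (fun _ h => by simp at h) (fun _ h => by simp at h)
        (fun h => by simp at h) (hy _ _ (Fl.u'_mem _ 0))
    refine Fl.ext1 ?_ (by simp [a1 y' hy']) fun v => by simp [h v]
    exact Fl.Fil_le _ (U := LinearMap.ker y.1) (fun _ h => by simp at h)
      (fun i _ => by rw [Subsingleton.elim i 0]; exact a1 y hy) (fun _ v => by simp [h v])
      (hy' _ _ (Fl.u_mem _ 0))
  have h2 := Flag.T1 (p := p) hQ (fun v _ => h v) Fl.degs1 (hel ▸ Fl.el_low e₀ a t)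
    (fun i => by rw [χ_Fs _ he, Subsingleton.elim i 0, hel, Fl.el_u]; simp)
    (fun y hy => by
      rw [χ_apply, pw_coe, pow_eq_zero_of_le (Fact.out : p.Prime).two_le (by rw [sq, h1 y hy y hy])]
      simp)
    (fun y hy y' hy' => by
      change LinearMap.trace k V (e * (y.1 * y'.1 - y'.1 * y.1)) = 0
      simp [h1 y hy y' hy', h1 y' hy' y hy])
    (fun x y _ => by simp [g_zero_of_triv h x]) (fun a b h => by omega) (typed_triv h)
    (bound_one (g_zero_of_triv h))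
  rwa [Fl.finrank_eq, finrank_triv h] at h2

theorem case_so4 [IsAlgClosed k] [FiniteDimensional k V] [FiniteDimensional k V₀] (hQ : Q.ND)
    (h₀ : Q₀.ND) (Fl : Q.Flag Q₀ 1) (hε : Q.ε = 1) (he : Q.Sk e) {a : V₀} {t : k}
    (hel : e = Fl.el 0 a t) (ha : Q₀.β a a ≠ 0) (hn : ¬ Q.HP e 0) (hp : Q₀.HP 0 0) :
    finrank k V = 4 ∧ Q.Bound p e 4 := by
  obtain ⟨v, w, -, -, hv, hw, hwv⟩ := hp.normal (Sk.zero Q₀)
  replace hv : Q₀.β v v = 0 := hv 0
  replace hw : Q₀.β w w = 0 := hw 0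
  replace hwv : Q₀.β w v = 1 := hwv 0
  have hs : ∀ x y, Q₀.β x y = Q₀.β y x := fun x y => by rw [Q₀.symm, Fl.ε_eq, hε, one_mul]
  have hi : ∀ y, e (Fl.inc y) = Q₀.β a y • Fl.u 0 := fun y => by simp [hel, Fl.el_inc]
  have hu : e (Fl.u 0) = 0 := hel ▸ Fl.el_u _ _ _
  have an : ∀ y, Q₀.β a y = 0 → Q₀.β y y = 0 → y = 0 := fun y h1 h2 => h₀ y fun z => by
    by_contra h3
    refine hn ⟨Fl.inc y, Fl.inc (z - (Q₀.β a z / Q₀.β a a) • a), by simp [hi, h1],
      by rw [zero_add, pow_one, hi]; simp [ha], by simpa [Fl.β_inc] using h2, ?_⟩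
    simpa [Fl.β_inc, hs y a, h1] using h3
  have hα : Q₀.β a v ≠ 0 := fun h => by simp [an v h hv] at hwv
  have hα' : Q₀.β a w ≠ 0 := fun h => by simp [an w h hw] at hwv
  obtain ⟨V₁, _, _, _, Q₁, F, h1, h2, h3⟩ := Q.exists_flag hQ (M := 2) ![Fl.u 0, Fl.inc v]
    ![Fl.u' 0, Fl.inc w]
    (by simp [Fin.forall_fin_two, Fl.uu, Fl.u_inc, Fl.inc_u, Fl.β_inc, hv])
    (by simp [Fin.forall_fin_two, Fl.u'u', Fl.u'_inc, Fl.inc_u', Fl.β_inc, hw])
    (by simp [Fin.forall_fin_two, Fl.u'u0, Fl.u'_inc, Fl.inc_u, Fl.β_inc, hwv])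
  have u0 : F.u 0 = Fl.u 0 := by rw [h1]; rfl
  have u1 : F.u 1 = Fl.inc v := by rw [h1]; rfl
  have u0' : F.u' 0 = Fl.u' 0 := by rw [h2]; rfl
  have u1' : F.u' 1 = Fl.inc w := by rw [h2]; rfl
  have htriv : ∀ z : V₁, z = 0 := by
    intro z
    have b1 := Fl.eq_inc (x := F.inc z) (fun i => by rw [Subsingleton.elim i 0, ← u0, F.u_inc])
      fun i => by rw [Subsingleton.elim i 0, ← u0', F.u'_inc]
    set y := Fl.pr (F.inc z)
    have b2 : Q₀.β v y = 0 := by rw [← Fl.β_inc, b1, ← u1, F.u_inc]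
    have b3 : Q₀.β w y = 0 := by rw [← Fl.β_inc, b1, ← u1', F.u'_inc]
    obtain ⟨s, b4⟩ := exists_iso Q.two Q₀.β (x := Q₀.β a w • v - Q₀.β a v • w) (by
      simp only [map_sub, map_smul, LinearMap.sub_apply, LinearMap.smul_apply, smul_eq_mul, hv, hw,
        hs v w, hwv]
      convert neg_ne_zero.2 (mul_ne_zero Q.two (mul_ne_zero hα hα')) using 1; ring)
      (Q₀.β a v • y - Q₀.β a y • v)
    have b5 := an _ (by simp; ring) b4
    have b6 := congrArg (Q₀.β v) b5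
    have b7 := congrArg (Q₀.β w) b5
    simp only [map_sub, map_smul, smul_eq_mul, hv, hw, hs v w, hwv, b2, b3, map_zero] at b6 b7
    have b8 : s = 0 := by simpa [hα] using b6
    have b9 : Q₀.β a y = 0 := by simpa [b8] using b7
    have b10 : y = 0 := by simpa [b8, b9, hα] using b5
    rw [← F.pr_inc z, ← b1, b10, map_zero, map_zero]
  let d : Fin 2 → ℤ := ![1, 0]
  have hd : F.Degs d := ⟨by decide, by decide, fun _ _ => ⟨htriv, hε⟩⟩
  have top : ∀ (G : Q.Flag Q₁ 2) x, x ∈ G.Fil d 1 := fun G x =>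
    ⟨fun i h => absurd h (by revert i; decide), fun i h => absurd h (by revert i; decide),
      fun h => by omega⟩
  have hfin : finrank k V = 4 := by rw [F.finrank_eq, finrank_triv htriv]
  have f0 : F.u 0 ∈ F.swap.Fil d 0 := by
    have := Submodule.smul_mem _ Q.ε (F.swap.Fil_mono d (show -d 0 ≤ 0 by decide)
      (F.swap.u'_mem d 0))
    rwa [show F.swap.u' 0 = Q.ε • F.u 0 from rfl, smul_smul, Q.ε_sq, one_smul] at this
  have h4 := Flag.T1' (p := p) hQ h3 hd he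
    (F.swap.low_of d (Fin.forall_fin_two.2 ⟨top _ _, by
        change e (F.u' 1) ∈ _
        rw [u1', hi, ← u0]; exact Submodule.smul_mem _ _ f0⟩)
      (Fin.forall_fin_two.2 ⟨by
        change e (Q.ε • F.u 0) ∈ _
        simp [u0, hu], by
        change e (Q.ε • F.u 1) ∈ _
        rw [map_smul, u1, hi, ← u0]; exact Submodule.smul_mem _ _ (Submodule.smul_mem _ _ f0)⟩)
      fun z => by simp [htriv z])
    (F.low_of d (Fin.forall_fin_two.2 ⟨by simp [u0, hu], top _ _⟩)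
      (Fin.forall_fin_two.2 ⟨⟨Fin.forall_fin_two.2 ⟨fun _ => by
        apply mul_left_cancel₀ Q.two
        have := Q.symm (F.u' 0) (e (F.u' 0))
        rw [hε] at this
        linear_combination this + he (F.u' 0) (F.u' 0), fun h => absurd h (by decide)⟩,
        fun i h => absurd h (by revert i; decide), fun h => absurd h (by decide)⟩, top _ _⟩)
      fun z => top _ _)
    (fun z => ⟨0, by simp [htriv z]⟩) (fun _ => htriv _) (fun _ => htriv _)
    (Fin.forall_fin_two.2 ⟨by simp [u0, hu], by simp [u1, u1', hi, Fl.inc_u]⟩)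
    (fun a b h => by
      obtain rfl : a = 0 := by omega
      obtain rfl : b = 1 := by omega
      simpa [u0', u1, hi, Fl.u'u0] using hα)
    (typed_triv htriv) (bound_one (g_zero_of_triv htriv))
  rw [hfin] at h4
  exact ⟨hfin, h4⟩

variable (Q p e) in
/-- the inductive claim -/
def Good : Prop := ∃ b, Q.Bound p e b ∧ b ≤ W (finrank k V) ∧
  (Q.ε = 1 → Even (finrank k V) → e ≠ 0 → 2 * b ≤ W (finrank k V))

variable (k p) in
/-- the inductive claim in dimensions less than `N` -/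
def GoodLt (N : ℕ) : Prop := ∀ (V : Type u) [AddCommGroup V] [Module k V]
  [FiniteDimensional k V] (Q : QF k V) (e : End k V), finrank k V < N → Q.ND → Q.Sk e →
    IsNilpotent e → Q.Good p e

theorem hp_case [IsAlgClosed k] [FiniteDimensional k V] {N : ℕ} (ih : GoodLt k p N)
    (hN : finrank k V ≤ N) (hQ : Q.ND) (he : Q.Sk e) (hn : IsNilpotent e) {m : ℕ}
    (h : Q.HP e m) : ∃ b, Q.Bound p e b ∧ b * (m + 1).factorial ≤ W (finrank k V) ∧
      (m = 0 → Q.ε = 1 → Even (finrank k V) → e ≠ 0 → 2 * b ≤ W (finrank k V)) := by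
  obtain ⟨V₀, _, _, _, Q₀, e₀, a1, a2, a3, a4, a5, a6, a7⟩ := h.bound (p := p) hQ he hn
  obtain ⟨b, b1, b2, b3⟩ := ih V₀ Q₀ e₀ (by omega) a1 a3 a4
  refine ⟨_, a7 b (typed_all _ V₀ Q₀ e₀ (Nat.lt_succ_self _) a1 a3 a4) b1, ?_,
    fun h1 h2 h3 h4 => ?_⟩ <;> rw [a5, ← W_add]
  · gcongr
  · have := b3 (a2.trans h2) (by rw [a5] at h3; simpa [Nat.even_add] using h3) (a6 h1 h4)
    rw [h1, mul_left_comm]
    simpa using this

theorem good_all [IsAlgClosed k] (N : ℕ) : GoodLt k p N := by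
  induction N with
  | zero => intro V _ _ _ Q e h; omega
  | succ N ih =>
  intro V _ _ _ Q e hN hQ he hn
  by_cases hp : ∃ m, Q.HP e m
  · obtain ⟨m, hm⟩ := hp
    obtain ⟨b, b1, b2, b3⟩ := hp_case ih (by omega) hQ he hn hm
    refine ⟨b, b1, le_trans (Nat.le_mul_of_pos_right _ (Nat.factorial_pos _)) b2, ?_⟩
    rcases Nat.eq_zero_or_pos m with h | h
    · exact b3 h
    · have := Nat.factorial_le (show 2 ≤ m + 1 by omega)
      exact fun _ _ _ => le_trans (by rw [mul_comm]; exact Nat.mul_le_mul_left b this) b2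
  push Not at hp
  rcases subsingleton_or_nontrivial V with hV | hV
  · have h : ∀ v : V, v = 0 := fun v => Subsingleton.elim _ _
    exact ⟨1, bound_one (g_zero_of_triv h), by rw [finrank_triv h]; rfl,
      fun _ _ h => absurd (Subsingleton.elim _ _) h⟩
  obtain ⟨M, h1, h2⟩ := exists_index hn
  obtain ⟨x, hx⟩ : ∃ x, Q.β ((e ^ M) x) x ≠ 0 := by
    by_contra hc
    push Not at hc
    refine h2 (LinearMap.ext fun v => hQ _ fun w => by_contra fun h => ?_)
    exact hp M ⟨v, w, by simp [h1], by simp [h1], hc v, h⟩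
  have hη : (-1) ^ M * Q.ε = 1 :=
    mul_right_cancel₀ hx ((he.pow_symm M x x).symm.trans (one_mul _).symm)
  have h3 := rank_one (hp M) h1 hx
  rcases M with _ | M
  · have h4 : ∀ v, ∃ s : k, v = s • x := fun v => (h3 v).imp fun s hs =>
      sub_eq_zero.1 (hQ _ fun w => by simpa [sub_eq_zero] using hs w)
    refine ⟨1, bound_one (g_zero_of_line hx h4), by rw [finrank_line hx h4]; rfl,
      fun _ h => ?_⟩
    rw [finrank_line hx h4] at h
    exact absurd h (by decide)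
  have hu0 : (e ^ (M + 1)) x ≠ 0 := fun h => by simp [h] at hx
  have heu : e ((e ^ (M + 1)) x) = 0 := by rw [← End.mul_apply, ← pow_succ', h1]; rfl
  obtain ⟨V₀, _, _, _, Q₀, Fl, e₀, a, t, hu, h₀, he₀, hn₀, hel⟩ := line_flag hQ he hn hu0
    (by rw [he.pow, pow_pow_apply, pow_eq_zero_of_le (by omega) h1]; simp) heu
  have hdim := Fl.finrank_eq
  have h4 : ∀ v, (e ^ (M + 1)) (Fl.inc v) = 0 := fun v => by
    obtain ⟨s, hs⟩ := h3 (Fl.inc v)
    have h5 := hs x
    rw [he.pow_symm, ← hu, Fl.u_inc, mul_zero, hu, eq_comm, mul_eq_zero] at h5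
    exact hQ _ fun w => by rw [hs, h5.resolve_right hx, zero_mul]
  have h5 : ∀ v w, Q.β ((e ^ M) (Fl.inc v)) (Fl.inc w) = 0 := fun v w => by_contra fun h => by
    refine hp M ⟨_, _, h4 v, h4 w, mul_left_cancel₀ Q.two ?_, h⟩
    have := he.pow_symm M (Fl.inc v) (Fl.inc v)
    rw [pow_succ] at hη
    linear_combination this - Q.β ((e ^ M) (Fl.inc v)) (Fl.inc v) * hη
  have h6 : (e ^ (M + 1)) (Fl.u' 0) ≠ 0 := fun h => hu0 (by
    have : (e ^ (M + 1)) (Fl.u 0) = 0 := by rw [pow_succ, End.mul_apply, hu, heu, map_zero]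
    rw [← Fl.dec x]; simp [h, h4, this])
  rcases M with _ | m
  · have h7 : ∀ v : V₀, v = 0 := fun v => h₀ v fun w => by simpa [Fl.β_inc] using h5 v w
    refine ⟨2, case_sp2 hQ Fl h7 he hel, by rw [hdim, finrank_triv h7]; rfl, fun h => ?_⟩
    rw [h] at hη
    exact absurd (by linear_combination -hη) Q.two
  have h7 : e₀ ^ (m + 1) = 0 := LinearMap.ext fun v => h₀ _ fun w => by
    simpa [hel, Fl.el_pow_inc, Fl.β_inc, Fl.u_inc] using h5 v w
  have h8 : Q₀.β ((e₀ ^ m) a) a ≠ 0 := fun h => h6 (by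
    rw [hel, Fl.el_pow_u', h7, Q₀.symm_zero h]; simp)
  have hT := typed_all (p := p) _ V₀ Q₀ e₀ (Nat.lt_succ_self _) h₀ he₀ hn₀
  have hW : finrank k V / 2 * 2 * W (finrank k V₀) = W (finrank k V) := by
    simpa [← hdim] using W_add (finrank k V₀) 1
  by_cases hp₀ : Q₀.HP e₀ m
  · obtain ⟨b, b1, b2, -⟩ := hp_case ih (by omega) h₀ he₀ hn₀ hp₀
    rcases Nat.eq_zero_or_pos m with rfl | h
    · obtain rfl : e₀ = 0 := by simpa using h7
      obtain ⟨c1, c2⟩ := case_so4 (p := p) hQ h₀ Fl (by simpa using hη) he hel h8 (hp 0) hp₀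
      exact ⟨4, c2, by rw [c1]; decide, fun _ _ _ => by rw [c1]; decide⟩
    refine ⟨_, hel ▸ (Flag.T2 hQ h₀ he₀ h7 h8 t hT b1).1, ?_, fun hε _ _ => ?_⟩ <;> rw [← hW]
    · have := Nat.factorial_le (show 2 ≤ m + 1 by omega)
      rw [mul_left_comm]
      exact Nat.mul_le_mul_left _ (le_trans (by rw [mul_comm]; exact Nat.mul_le_mul_left b this) b2)
    · have h9 : m ≠ 1 := by
        rintro rfl
        rw [hε] at hη
        exact Q.two (by linear_combination -hη)
      have : 4 ≤ (m + 1).factorial := le_trans (by decide) (Nat.factorial_le (show 3 ≤ m + 1 by omega))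
      rw [← mul_assoc, mul_left_comm]
      exact Nat.mul_le_mul_left _ (le_trans (by rw [mul_comm]; exact Nat.mul_le_mul_left b this) b2)
  · obtain ⟨b, b1, b2, b3⟩ := ih V₀ Q₀ e₀ (by omega) h₀ he₀ hn₀
    have h9 := rank_one hp₀ h7 h8
    have hη₀ : (-1) ^ m * Q₀.ε = 1 :=
      mul_right_cancel₀ h8 ((he₀.pow_symm m a a).symm.trans (one_mul _).symm)
    have h12 := (Flag.T2 (Fl := Fl) hQ h₀ he₀ h7 h8 t hT b1).2 fun v w => by
      obtain ⟨s, hs⟩ := h9 v
      rw [hs, hs, he₀.pow_symm m w, hη₀]; ring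
    refine ⟨_, hel ▸ h12, ?_, fun h1 h2 _ => ?_⟩
    · rw [← hW]; exact Nat.mul_le_mul_left _ b2
    · have h10 : Even (finrank k V₀) := by rw [hdim] at h2; simpa [Nat.even_add] using h2
      rw [← hW, mul_left_comm]
      refine Nat.mul_le_mul_left _ (b3 (Fl.ε_eq.trans h1) h10 ?_)
      rintro rfl
      obtain rfl : m = 0 := by_contra fun h => h8 (by simp [zero_pow h])
      have h11 : ∀ v, ∃ s : k, v = s • a := fun v => (h9 v).imp fun s hs =>
        sub_eq_zero.1 (h₀ _ fun w => by simpa [sub_eq_zero] using hs w)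
      rw [finrank_line h8 h11] at h10
      exact absurd h10 (by decide)

end QF

end Pool.Agent.P.Bf04
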