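import Pool.Agent.P.MP_bf0464_al.T1

/-! Pairs of Jordan blocks in duality. -/

namespace Pool.Agent.P.Bf04

open Module

attribute [local instance 100] LieRing.ofAssociativeRing

universe u

namespace QF

variable {k V : Type u} [Field k] [AddCommGroup V] [Module k V] {Q : QF k V} {e : End k V}

theorem Sk.pow_right (he : Q.Sk e) (n : ℕ) (v w : V) :
    Q.β v ((e ^ n) w) = (-1) ^ n * Q.β ((e ^ n) v) w := by
  rw [he.pow, ← mul_assoc, ← mul_pow]; simp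

theorem Sk.pow_symm (he : Q.Sk e) (n : ℕ) (v w : V) :
    Q.β ((e ^ n) v) w = ((-1) ^ n * Q.ε) * Q.β ((e ^ n) w) v := by
  rw [he.pow, Q.symm v]; ring

theorem pow_pow_apply (e : End k V) (a b : ℕ) (v : V) : (e ^ a) ((e ^ b) v) = (e ^ (a + b)) v := by
  rw [pow_add]; rfl

theorem pow_zero_of_le {n m : ℕ} {v : V} (h : (e ^ n) v = 0) (hm : n ≤ m) : (e ^ m) v = 0 := by
  obtain ⟨r, rfl⟩ := Nat.exists_eq_add_of_le' hm
  rw [← pow_pow_apply, h, map_zero]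

theorem iso_fix (he : Q.Sk e) {m : ℕ} {v w : V} (hv : (e ^ (m + 1)) v = 0)
    (hw : (e ^ (m + 1)) w = 0) (h1 : Q.β ((e ^ m) v) w ≠ 0) (h2 : Q.β ((e ^ m) w) w = 0) :
    ∃ v', (e ^ (m + 1)) v' = 0 ∧ Q.β ((e ^ m) v') w = Q.β ((e ^ m) v) w ∧
      ∀ j, Q.β ((e ^ j) v') v' = 0 := by
  have h3 : ∀ j, m ≤ j → Q.β ((e ^ j) w) w = 0 := fun j hj => by
    rcases hj.eq_or_lt with rfl | hj
    · exact h2
    · rw [pow_zero_of_le hw hj]; simp
  have key : ∀ r : ℕ, ∃ v', (e ^ (m + 1)) v' = 0 ∧ Q.β ((e ^ m) v') w = Q.β ((e ^ m) v) w ∧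
      ∀ j, m + 1 ≤ j + r → Q.β ((e ^ j) v') v' = 0 := by
    intro r
    induction r with
    | zero => exact ⟨v, hv, rfl, fun j hj => by rw [pow_zero_of_le hv (show m + 1 ≤ j from hj)]; simp⟩
    | succ r ih =>
      obtain ⟨z, a1, a2, a3⟩ := ih
      obtain ⟨s, hs⟩ : ∃ s, s * (2 * Q.β ((e ^ m) v) w) = -Q.β ((e ^ (m - r)) z) z * (-1) ^ r :=
        ⟨_, div_mul_cancel₀ _ (mul_ne_zero Q.two h1)⟩
      refine ⟨z + s • (e ^ r) w, ?_, ?_, fun j hj => ?_⟩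
      · rw [map_add, map_smul, pow_pow_apply, pow_zero_of_le hw (by omega), a1]; simp
      · simp [pow_pow_apply, h3, a2]
      · have b1 : Q.β ((e ^ j) z) ((e ^ r) w) = (-1) ^ r * Q.β ((e ^ (j + r)) z) w := by
          rw [he.pow_right, pow_pow_apply, add_comm]
        have b2 : Q.β ((e ^ (j + r)) w) ((e ^ r) w) = 0 := by
          rw [he.pow_right, pow_pow_apply, h3 _ (by omega), mul_zero]
        simp only [map_add, map_smul, LinearMap.add_apply, LinearMap.smul_apply, smul_eq_mul,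
          pow_pow_apply, b1, b2, he.pow_symm (j + r) w z]
        rcases (show m ≤ j + r by omega).eq_or_lt with h | h
        · have b3 := he.pow_symm j z z
          have b4 : ((-1 : k) ^ r) * (-1) ^ r = 1 := by rw [← mul_pow]; simp
          rw [show m - r = j by omega] at hs
          rw [pow_add (-1 : k), ← h, a2]
          apply mul_left_cancel₀ Q.two
          linear_combination b3 - (1 + (-1) ^ j * Q.ε) * Q.β ((e ^ j) z) z * b4
            + (-1) ^ r * (1 + (-1) ^ j * Q.ε) * hs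
        · rw [a3 j h, pow_zero_of_le a1 h]; simp
  obtain ⟨v', a1, a2, a3⟩ := key (m + 1)
  exact ⟨v', a1, a2, fun j => a3 j (by omega)⟩

theorem dual_fix (he : Q.Sk e) {m : ℕ} {v w : V} (hv : (e ^ (m + 1)) v = 0)
    (hw : (e ^ (m + 1)) w = 0) (h1 : Q.β ((e ^ m) w) v ≠ 0) (h2 : ∀ j, Q.β ((e ^ j) w) w = 0) :
    ∃ w', (e ^ (m + 1)) w' = 0 ∧ (∀ j, Q.β ((e ^ j) w') w' = 0) ∧
      ∀ j, Q.β w' ((e ^ j) v) = if j = m then 1 else 0 := by
  have h3 : Q.β w ((e ^ m) v) ≠ 0 := by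
    rw [he.pow_right]; exact mul_ne_zero (pow_ne_zero _ (by simp)) h1
  have key : ∀ r : ℕ, ∃ w', (e ^ (m + 1)) w' = 0 ∧ (∀ j, Q.β ((e ^ j) w') w' = 0) ∧
      Q.β w' ((e ^ m) v) = 1 ∧ ∀ j < m, m ≤ j + r → Q.β w' ((e ^ j) v) = 0 := by
    intro r
    induction r with
    | zero =>
      refine ⟨(Q.β w ((e ^ m) v))⁻¹ • w, by simp [hw], fun j => by simp [h2], by simp [h3],
        fun j h h' => by omega⟩
    | succ r ih =>
      obtain ⟨z, a1, a2, a3, a4⟩ := ih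
      have b1 : ∀ j, Q.β ((e ^ (r + 1)) z) ((e ^ j) v)
          = (-1) ^ (r + 1) * Q.β z ((e ^ (r + 1 + j)) v) := fun j => by rw [he.pow, pow_pow_apply]
      refine ⟨z - ((-1) ^ (r + 1) * Q.β z ((e ^ (m - (r + 1))) v)) • (e ^ (r + 1)) z, ?_,
        fun j => ?_, ?_, fun j h h' => ?_⟩
      · rw [map_sub, map_smul, pow_pow_apply, pow_zero_of_le a1 (Nat.le_add_right _ _), a1]; simp
      · simp [pow_pow_apply, he.pow_right (r + 1), a2]
      · rw [map_sub, map_smul, LinearMap.sub_apply, LinearMap.smul_apply, b1,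
          pow_zero_of_le hv (show m + 1 ≤ r + 1 + m by omega), a3]; simp
      · rw [map_sub, map_smul, LinearMap.sub_apply, LinearMap.smul_apply, b1]
        rcases h'.eq_or_lt with h' | h'
        · have b4 : ((-1 : k) ^ (r + 1)) * (-1) ^ (r + 1) = 1 := by rw [← mul_pow]; simp
          rw [show r + 1 + j = m by omega, show m - (r + 1) = j by omega, a3, smul_eq_mul]
          linear_combination -Q.β z ((e ^ j) v) * b4
        · rw [pow_zero_of_le hv (show m + 1 ≤ r + 1 + j by omega), a4 j h (by omega)]; simp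
  obtain ⟨w', a1, a2, a3, a4⟩ := key m
  refine ⟨w', a1, a2, fun j => ?_⟩
  rcases lt_trichotomy j m with h | rfl | h
  · rw [a4 j h (by omega), if_neg h.ne]
  · rw [a3, if_pos rfl]
  · rw [pow_zero_of_le hv h, if_neg h.ne', map_zero]

variable (Q e) in
/-- there are two Jordan blocks of size `m + 1` in duality -/
def HP (m : ℕ) : Prop := ∃ v w, (e ^ (m + 1)) v = 0 ∧ (e ^ (m + 1)) w = 0 ∧
  Q.β ((e ^ m) v) v = 0 ∧ Q.β ((e ^ m) v) w ≠ 0

theorem HP.normal (he : Q.Sk e) {m : ℕ} (h : Q.HP e m) : ∃ v w, (e ^ (m + 1)) v = 0 ∧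
    (e ^ (m + 1)) w = 0 ∧ (∀ j, Q.β ((e ^ j) v) v = 0) ∧ (∀ j, Q.β ((e ^ j) w) w = 0) ∧
      ∀ j, Q.β w ((e ^ j) v) = if j = m then 1 else 0 := by
  obtain ⟨v, w, a1, a2, a3, a4⟩ := h
  have hη : (-1) ^ m * Q.ε ≠ 0 := mul_ne_zero (pow_ne_zero _ (by simp)) Q.ε_ne
  have sw : ∀ v w, Q.β ((e ^ m) v) w ≠ 0 → Q.β ((e ^ m) w) v ≠ 0 := fun v w h => by
    rw [he.pow_symm]; exact mul_ne_zero hη h
  obtain ⟨w₁, b1, b2, b3⟩ := iso_fix he a2 a1 (sw _ _ a4) a3
  have b4 := sw _ _ (b2 ▸ sw _ _ a4)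
  obtain ⟨v₁, c1, c2, c3⟩ := iso_fix he a1 b1 b4 (b3 m)
  obtain ⟨w₂, d1, d2, d3⟩ := dual_fix he c1 b1 (sw _ _ (c2 ▸ b4)) b3
  exact ⟨v₁, w₂, c1, d1, c3, d2, d3⟩

variable {p : ℕ} [Fact p.Prime] [Fact (Odd p)] [CharP k p]

theorem HP.bound [IsAlgClosed k] [FiniteDimensional k V] (hQ : Q.ND) (he : Q.Sk e)
    (hn : IsNilpotent e) {m : ℕ} (h : Q.HP e m) :
    ∃ (V₀ : Type u) (_ : AddCommGroup V₀) (_ : Module k V₀) (_ : FiniteDimensional k V₀)
      (Q₀ : QF k V₀) (e₀ : End k V₀), Q₀.ND ∧ Q₀.ε = Q.ε ∧ Q₀.Sk e₀ ∧ IsNilpotent e₀ ∧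
      finrank k V = finrank k V₀ + 2 * (m + 1) ∧ (m = 0 → e ≠ 0 → e₀ ≠ 0) ∧
      ∀ b, Q₀.Typed p e₀ → Q₀.Bound p e₀ b →
        Q.Bound p e ((finrank k V / 2).choose (m + 1) * 2 ^ (m + 1) * b) := by
  obtain ⟨v, w, a1, a2, a3, a4, a5⟩ := h.normal he
  obtain ⟨V₀, _, _, _, Q₀, Fl, hu, hu', h₀⟩ := Q.exists_flag hQ (M := m + 1)
    (fun i => (e ^ (m - i)) v) (fun i => (-1 : k) ^ i.val • (e ^ i.val) w)
    (fun i j => by rw [he.pow_right, pow_pow_apply, a3, mul_zero])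
    (fun i j => by simp [he.pow_right, pow_pow_apply, a4])
    (fun i j => by
      rw [map_smul, LinearMap.smul_apply, he.pow, pow_pow_apply, a5, smul_eq_mul, ← mul_assoc,
        ← mul_pow]
      have := i.2
      have := j.2
      simp only [Fin.ext_iff]
      split_ifs <;> first | omega | simp)
  let d : Fin (m + 1) → ℤ := fun i => m + 1 - i
  have hd : Fl.Degs d := ⟨fun i j h => by simp only [d]; rw [Fin.lt_def] at h; omega,
    fun i => by simp only [d]; omega, fun i h => by simp only [d] at h; omega⟩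
  have e1 : ∀ i, e (Fl.u i) = 0 ∨ ∃ j : Fin (m + 1), j.val + 1 = i ∧ e (Fl.u i) = Fl.u j := by
    intro i
    have h1 : e (Fl.u i) = (e ^ (m - i + 1)) v := by rw [hu, pow_succ']; rfl
    rcases Nat.eq_zero_or_pos i.val with h | h
    · left; rw [h1, h]; exact a1
    · right
      refine ⟨⟨i - 1, by omega⟩, by simp only; omega, ?_⟩
      rw [h1, hu]; congr 2; simp only; omega
  have e2 : ∀ i, e (Fl.u' i) = 0 ∨ ∃ j : Fin (m + 1), j.val = i + 1 ∧ e (Fl.u' i) = -Fl.u' j := by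
    intro i
    have h1 : e (Fl.u' i) = (-1 : k) ^ i.val • (e ^ (i.val + 1)) w := by
      rw [hu', pow_succ' e, map_smul]; rfl
    rcases (Nat.lt_succ_iff.1 i.2).eq_or_lt with h | h
    · left; rw [h1, h, a2, smul_zero]
    · right
      refine ⟨⟨i + 1, by omega⟩, rfl, ?_⟩
      rw [h1, hu']; simp [pow_succ (-1 : k)]
  have e3 : ∀ x, e (Fl.inc x) = Fl.inc (Fl.pr (e (Fl.inc x))) := fun x => by
    refine (Fl.eq_inc (fun i => ?_) fun i => ?_).symm <;> rw [he.right]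
    · rcases e1 i with h | ⟨j, -, h⟩ <;> simp [h, Fl.u_inc]
    · rcases e2 i with h | ⟨j, -, h⟩ <;> simp [h, Fl.u'_inc]
  have hlow : e ∈ Fl.swap.Low d 0 := by
    refine Fl.swap.low_of d (fun i => ?_) (fun i => ?_) fun x => ?_
    · change e (Fl.u' i) ∈ _
      rcases e2 i with h | ⟨j, hj, h⟩ <;> rw [h]
      · exact zero_mem _
      · exact neg_mem (Fl.swap.Fil_mono d (by simp only [d]; omega) (Fl.swap.u_mem d j))
    · change e (Q.ε • Fl.u i) ∈ _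
      rcases e1 i with h | ⟨j, hj, h⟩ <;> rw [map_smul, h]
      · simp
      · exact Fl.swap.Fil_mono d (by simp only [d]; omega) (Fl.swap.u'_mem d j)
    · change e (Fl.inc x) ∈ _
      rw [e3, neg_zero]; exact Fl.swap.inc_mem d _
  refine ⟨V₀, _, _, inferInstance, Q₀, Fl.pr ∘ₗ e ∘ₗ Fl.inc, h₀, Fl.ε_eq, Fl.sk_res he,
    Flag.nil_res hd hlow hn, Fl.finrank_eq, fun hm h0 h1 => h0 (LinearMap.ext fun x => ?_),
    fun b hT hB => Flag.T1' hQ h₀ hd he hlow ?_ (fun x => ⟨_, e3 x⟩) (fun i => ?_) (fun i => ?_)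
      (fun i => ?_) (fun a b h => ?_) hT hB⟩
  · have f1 : ∀ i, e (Fl.u i) = 0 := fun i => (e1 i).resolve_right fun ⟨j, h, _⟩ => by omega
    have f2 : ∀ i, e (Fl.u' i) = 0 := fun i => (e2 i).resolve_right fun ⟨j, h, _⟩ => by omega
    have f3 : Fl.pr (e (Fl.inc (Fl.pr x))) = 0 := LinearMap.congr_fun h1 _
    rw [← Fl.dec x]
    simp only [map_add, map_sum, map_smul, f1, f2]
    rw [e3, f3]; simp
  · refine Fl.low_of d (fun i => ?_) (fun i => ?_) fun x => ?_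
    · rcases e1 i with h | ⟨j, hj, h⟩ <;> rw [h]
      · exact zero_mem _
      · exact Fl.Fil_mono d (by simp only [d]; omega) (Fl.u_mem d j)
    · rcases e2 i with h | ⟨j, hj, h⟩ <;> rw [h]
      · exact zero_mem _
      · exact neg_mem (Fl.Fil_mono d (by simp only [d]; omega) (Fl.u'_mem d j))
    · rw [e3]; exact Fl.Fil_mono d (by omega) (Fl.inc_mem d _)
  · rcases e1 i with h | ⟨j, hj, h⟩ <;> simp [h, Fl.pr_u]
  · rcases e2 i with h | ⟨j, hj, h⟩ <;> simp [h, Fl.pr_u']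
  · rcases e1 i with h | ⟨j, hj, h⟩ <;> rw [h]
    · simp
    · rw [Fl.u'u, if_neg (by rintro rfl; omega)]
  · have : e (Fl.u b) = Fl.u a := by
      rw [hu]
      change (e ^ 1) ((e ^ (m - b)) v) = (e ^ (m - a)) v
      rw [pow_pow_apply]; congr 2; omega
    rw [this, Fl.u'u]; simp

end QF

end Pool.Agent.P.Bf04
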