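import Pool.Agent.P.MP_bf0464_al.Cas

/-! The Perelomov-Popov recursion, one hyperbolic plane at a time. -/

namespace Pool.Agent.P.Bf04

/-- the recursion relating the values `c` of the Gelfand invariants to the values `q` for the
smaller space -/
def PPRel {k : Type*} [Field k] (ε l : k) (q c : ℕ → k) : Prop :=
  PowerSeries.mk c * (1 - PowerSeries.C (l ^ 2) * PowerSeries.X ^ 2)
    = PowerSeries.mk q * ((1 - PowerSeries.X) ^ 2 - PowerSeries.C (l ^ 2) * PowerSeries.X ^ 2)
      + (2 - PowerSeries.X + PowerSeries.C ε * PowerSeries.X)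

open PowerSeries in
theorem rel_of_seq {k : Type*} [Field k] (ε l : k) (q a μ : ℕ → k) (ha0 : a 0 = 1)
    (ha : ∀ n, a (n + 1) = l * a n - μ n - (1 - ε) * (-l) ^ n) (hμ0 : μ 0 = q 0)
    (hμ : ∀ n, μ (n + 1) + l * μ n = q (n + 1) + (l - 1) * q n) :
    PPRel ε l q (fun n => a n + μ n + (-l) ^ n) := by
  have hd : (mk fun n => (-l) ^ n) + C l * ((mk fun n => (-l) ^ n) * X) = (1 : PowerSeries k) := by
    ext n
    cases n with
    | zero => simp
    | succ n => simp [coeff_succ_mul_X, pow_succ, coeff_one]; ring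
  have hm : mk μ + C l * (mk μ * X) = mk q + C (l - 1) * (mk q * X) := by
    ext n
    cases n with
    | zero => simp [hμ0]
    | succ n => simp only [map_add, coeff_C_mul, coeff_succ_mul_X, coeff_mk]; exact hμ n
  have hA : mk a - C l * (mk a * X)
      = 1 - mk μ * X - C (1 - ε) * ((mk fun n => (-l) ^ n) * X) := by
    ext n
    cases n with
    | zero => simp [ha0]
    | succ n =>
      rw [map_sub, map_sub, map_sub, coeff_C_mul, coeff_C_mul]
      simp only [coeff_succ_mul_X, coeff_mk, coeff_one]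
      rw [ha]; simp; ring
  have hc : (mk fun n => a n + μ n + (-l) ^ n) = mk a + mk μ + mk fun n => (-l) ^ n := by
    ext n; simp
  unfold PPRel
  rw [hc]
  simp only [map_sub, map_one, map_pow] at hm hA ⊢
  linear_combination (1 + C l * X) * hA + (1 - C l * X - X) * hm
    + (1 - C l * X - (1 - C ε) * X) * hd

open Module

namespace QF

variable {k V : Type*} [Field k] [AddCommGroup V] [Module k V] (Q : QF k V)

/-- `W` is the orthogonal sum of `W₀` and the hyperbolic plane on `u, u'`. -/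
structure Hyp (W₀ W : Submodule k V) (u u' : V) : Prop where
  uu : Q.β u u = 0
  u'u' : Q.β u' u' = 0
  u'u : Q.β u' u = 1
  u_W : ∀ w ∈ W₀, Q.β u w = 0
  u'_W : ∀ w ∈ W₀, Q.β u' w = 0
  le : W₀ ≤ W
  u_mem : u ∈ W
  u'_mem : u' ∈ W
  dec : ∀ x ∈ W, x - Q.β u' x • u - Q.β x u • u' ∈ W₀

variable {Q}

theorem Hyp.uu' {W₀ W : Submodule k V} {u u' : V} (h : Q.Hyp W₀ W u u') : Q.β u u' = Q.ε := by
  rw [Q.symm, h.u'u, mul_one]

theorem Hyp.W_u {W₀ W : Submodule k V} {u u' : V} (h : Q.Hyp W₀ W u u') (w : V) (hw : w ∈ W₀) :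
    Q.β w u = 0 := Q.symm_zero (h.u_W w hw)

theorem Hyp.W_u' {W₀ W : Submodule k V} {u u' : V} (h : Q.Hyp W₀ W u u') (w : V) (hw : w ∈ W₀) :
    Q.β w u' = 0 := Q.symm_zero (h.u'_W w hw)

namespace Frame

variable {ι : Type} [Fintype ι] [DecidableEq ι] (fr : Q.Frame ι)
  {W : Submodule k V} {u u' : V}

/-- extension of a frame by a hyperbolic plane -/
def ext (h : Q.Hyp fr.W W u u') : Q.Frame (Option (Option ι)) where
  W := W
  b := fun o => o.elim u fun o => o.elim u' fr.b
  b' := fun o => o.elim u' fun o => o.elim (Q.ε • u) fr.b'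
  b_mem := by
    rintro (_ | _ | i)
    exacts [h.u_mem, h.u'_mem, h.le (fr.b_mem i)]
  b'_mem := by
    rintro (_ | _ | i)
    exacts [h.u'_mem, W.smul_mem _ h.u_mem, h.le (fr.b'_mem i)]
  exp := by
    intro x hx
    have h1 := fr.exp _ (h.dec x hx)
    simp only [map_sub, map_smul, h.W_u _ (fr.b'_mem _), h.W_u' _ (fr.b'_mem _), smul_zero,
      sub_zero] at h1
    simp only [Fintype.sum_option, Option.elim, h1, map_smul, LinearMap.smul_apply, smul_eq_mul,
      ← Q.symm x u]
    abel
  exp' := by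
    intro x hx
    have h1 := fr.exp' _ (h.dec x hx)
    simp only [map_sub, map_smul, LinearMap.sub_apply, LinearMap.smul_apply,
      h.u_W _ (fr.b_mem _), h.u'_W _ (fr.b_mem _), smul_zero, sub_zero] at h1
    simp only [Fintype.sum_option, Option.elim, h1, smul_smul, mul_comm _ Q.ε, ← Q.symm u' x]
    abel
  dual := by
    rintro (_ | _ | i) (_ | _ | j) <;>
      simp [h.uu, h.u'u', h.u'u, h.uu', Q.ε_sq, h.u_W _ (fr.b_mem _), h.u'_W _ (fr.b_mem _),
        h.W_u _ (fr.b'_mem _), h.W_u' _ (fr.b'_mem _), fr.dual]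

@[simp] theorem ext_W (h : Q.Hyp fr.W W u u') : (fr.ext h).W = W := rfl

theorem ext_T_succ (h : Q.Hyp fr.W W u u') {B : Type*} [Ring B] [Algebra k B]
    (φ : V →ₗ[k] V →ₗ[k] B) (s : k) (n : ℕ) (v w : V) :
    (fr.ext h).T φ s (n + 1) v w = φ v u' * (fr.ext h).T φ s n u w
      + Q.ε • (φ v u * (fr.ext h).T φ s n u' w)
      + ∑ i, φ v (fr.b' i) * (fr.ext h).T φ s n (fr.b i) w - s • (fr.ext h).T φ s n v w := by
  rw [T_succ]
  simp only [Fintype.sum_option]
  simp [ext, add_assoc]

theorem ext_C (h : Q.Hyp fr.W W u u') {B : Type*} [Ring B] [Algebra k B]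
    (φ : V →ₗ[k] V →ₗ[k] B) (n : ℕ) :
    (fr.ext h).C φ n = (fr.ext h).T φ (sh Q.ε (Fintype.card ι + 2)) n u u'
      + Q.ε • (fr.ext h).T φ (sh Q.ε (Fintype.card ι + 2)) n u' u
      + ∑ i, (fr.ext h).T φ (sh Q.ε (Fintype.card ι + 2)) n (fr.b i) (fr.b' i) := by
  rw [C_eq]
  simp only [Fintype.sum_option, Fintype.card_option]
  simp [ext, add_assoc]

theorem F_mem {a c : V} (ha : a ∈ W) (hc : c ∈ W) (v : V) : Q.F a c v ∈ W := by
  rw [F_apply]; exact W.sub_mem (W.smul_mem _ ha) (W.smul_mem _ hc)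

theorem oneStep (h : Q.Hyp fr.W W u u') {M : Type*} [AddCommGroup M] [Module k M]
    (φ : V →ₗ[k] V →ₗ[k] End k M)
    (hφ : ∀ a c v w, φ a c * φ v w - φ v w * φ a c = φ (Q.F a c v) w + φ v (Q.F a c w))
    (hsw : ∀ v w, φ w v = (-Q.ε) • φ v w)
    (m : M) (ν : k)
    (hEu : ∀ w ∈ fr.W, φ u w m = 0) (hEuu : φ u u m = 0)
    (hν : φ u u' m = ν • m) (q : ℕ → k) (hq : ∀ n, fr.C φ n m = q n • m) :
    ∃ c : ℕ → k, PPRel Q.ε (ν + sh Q.ε (Fintype.card ι + 2)) q c ∧
      ∀ n, (fr.ext h).C φ n m = c n • m := by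
  set s := sh Q.ε (Fintype.card ι + 2) with hs
  set l := ν + s with hl
  set T := (fr.ext h).T φ s with hT
  have hε := Q.ε_sq
  -- commutation with generators
  have comm : ∀ a ∈ W, ∀ c ∈ W, ∀ n v w m, φ a c (T n v w m)
      = T n v w (φ a c m) + T n (Q.F a c v) w m + T n v (Q.F a c w) m := by
    intro a ha c hc n v w m
    have := (fr.ext h).T_equiv φ s (Q.F_sk a c) (fun v _ => F_mem ha hc v) (φ a c) (hφ a c) n v w
    have := LinearMap.congr_fun this m
    simp only [LinearMap.sub_apply, End.mul_apply, LinearMap.add_apply] at this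
    rw [add_assoc, ← this]; abel
  have succ : ∀ n v w m, T (n + 1) v w m = φ v u' (T n u w m) + Q.ε • φ v u (T n u' w m)
      + ∑ i, φ v (fr.b' i) (T n (fr.b i) w m) - s • T n v w m := by
    intro n v w m
    rw [hT, ext_T_succ]
    simp [LinearMap.sum_apply]
  have zero : ∀ v w m, T 0 v w m = Q.β w v • m := by
    intro v w m; rw [hT, T_zero]; simp
  have hvu : ∀ v ∈ fr.W, φ v u m = 0 := by
    intro v hv; rw [hsw]; simp [hEu v hv]
  -- first column
  have col1 : ∀ n, T n u u m = 0 ∧ (∀ v ∈ fr.W, T n v u m = 0) ∧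
      T n u' u m = (Q.ε * (-l) ^ n) • m := by
    intro n
    induction n with
    | zero =>
      refine ⟨by simp [zero, h.uu], fun v hv => by simp [zero, h.u_W v hv], by simp [zero, h.uu']⟩
    | succ n ih =>
      obtain ⟨i1, i2, i3⟩ := ih
      refine ⟨?_, fun v hv => ?_, ?_⟩
      · simp [succ, i1, i2 _ (fr.b_mem _), i3, hEuu]
      · simp [succ, i1, i2 _ (fr.b_mem _), i3, hvu v hv, i2 v hv]
      · simp only [succ, i1, i2 _ (fr.b_mem _), i3, map_zero, map_smul, Finset.sum_const_zero]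
        rw [hsw u u']
        simp only [LinearMap.smul_apply, hν, smul_smul, zero_add, add_zero, ← sub_smul]
        congr 1
        rw [hl]
        linear_combination (-Q.ε * (-(ν + s)) ^ n * ν) * hε
  -- the row of `u`
  have row1 : ∀ n, ∀ w ∈ fr.W, T n u w m = 0 := by
    intro n w hw
    induction n with
    | zero => simp [zero, h.W_u w hw]
    | succ n ih =>
      rw [succ, comm u h.u_mem u h.u_mem]
      have : ∀ i, φ u (fr.b' i) (T n (fr.b i) w m) = 0 := by
        intro i
        rw [comm u h.u_mem _ (h.le (fr.b'_mem i))]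
        simp [F_apply, hEu _ (fr.b'_mem i), h.u_W _ (fr.b_mem i), h.u_W w hw, ih,
          (col1 n).2.1 _ (fr.b_mem i)]
      simp [this, ih, hEuu, F_apply, h.u_W w hw]
  -- the block of `W₀`
  have mid : ∀ n, ∀ v ∈ fr.W, ∀ w ∈ fr.W, T (n + 1) v w m
      = ∑ i, φ v (fr.b' i) (T n (fr.b i) w m) - (s - 1) • T n v w m
        - (Q.β w v * (-l) ^ n) • m := by
    intro n v hv w hw
    rw [succ, comm v (h.le hv) u h.u_mem]
    simp only [row1 n w hw, hvu v hv, map_zero, F_apply, h.uu', h.W_u' v hv,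
      h.u_W w hw, mul_zero, zero_smul, sub_zero, zero_sub, map_neg, map_smul, zero_add,
      LinearMap.neg_apply, LinearMap.smul_apply, (col1 n).2.2]
    rw [Q.symm w v]
    match_scalars
    · linear_combination hε
    · linear_combination (-Q.ε * Q.β v w * (-l) ^ n) * hε
    · ring
  have hs0 : sh Q.ε (Fintype.card ι) = s - 1 := by
    rw [hs, sh, sh]; have := Q.two; push_cast; field_simp; ring
  set T0 := fr.T φ (s - 1) with hT0
  have mid2 : ∀ n, ∀ v ∈ fr.W, ∀ w ∈ fr.W,
      T (n + 1) v w m + l • T n v w m = T0 (n + 1) v w m + (l - 1) • T0 n v w m := by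
    intro n
    induction n with
    | zero =>
      intro v hv w hw
      rw [mid 0 v hv w hw, hT0, T_succ]
      simp only [zero, T_zero, LinearMap.sub_apply, LinearMap.coe_sum, Finset.sum_apply,
        End.mul_apply, LinearMap.smul_apply, Module.algebraMap_end_apply]
      module
    | succ n ih =>
      intro v hv w hw
      have g2 := mid (n + 1) v hv w hw
      have g1 := mid n v hv w hw
      have e1 := Finset.sum_congr (rfl : (Finset.univ : Finset ι) = _) fun i _ =>
        congrArg (φ v (fr.b' i)) (ih _ (fr.b_mem i) w hw)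
      simp only [map_add, map_smul, Finset.sum_add_distrib, ← Finset.smul_sum] at e1
      have e2 := ih v hv w hw
      have f2 := LinearMap.congr_fun (fr.T_succ φ (s - 1) (n + 1) v w) m
      have f1 := LinearMap.congr_fun (fr.T_succ φ (s - 1) n v w) m
      simp only [LinearMap.sub_apply, LinearMap.coe_sum, Finset.sum_apply,
        End.mul_apply, LinearMap.smul_apply, ← hT0] at f1 f2
      linear_combination (norm := module) g2 + l • g1 - f2 - (l - 1) • f1 + e1 - (s - 1) • e2
  -- the corner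
  have corner : ∀ n, T (n + 1) u u' m = l • T n u u' m
      - ∑ i, T n (fr.b i) (fr.b' i) m - ((1 - Q.ε) * (-l) ^ n) • m := by
    intro n
    rw [succ, comm u h.u_mem u h.u_mem, comm u h.u_mem u' h.u'_mem]
    have : ∀ i, φ u (fr.b' i) (T n (fr.b i) u' m)
        = T n u u' m - T n (fr.b i) (fr.b' i) m := by
      intro i
      rw [comm u h.u_mem _ (h.le (fr.b'_mem i))]
      simp [F_apply, hEu _ (fr.b'_mem i), h.u_W _ (fr.b_mem i), fr.dual,
        h.W_u' _ (fr.b'_mem i), h.uu', hε, sub_eq_add_neg]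
    simp only [this, hEuu, hν, F_apply, h.uu, h.uu', h.u'u, h.u'u', hε, map_zero,
      map_smul, map_sub, LinearMap.sub_apply, LinearMap.smul_apply, (col1 n).2.2,
      Finset.sum_sub_distrib, Finset.sum_const, Finset.card_univ, mul_zero, zero_smul,
      ← Nat.cast_smul_eq_nsmul k]
    have h2s : (Fintype.card ι : k) = 2 * s - 1 + Q.ε := by
      rw [hs, sh]; have := Q.two; push_cast; field_simp; ring
    rw [h2s]
    match_scalars
    · rw [hl]; linear_combination hε
    · ring
    · linear_combination (Q.ε - 1) * (-l) ^ n * hε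
    · ring
  let μ : ℕ → k := fun n => Nat.rec (q 0) (fun n x => q (n + 1) + (l - 1) * q n - l * x) n
  let a : ℕ → k := fun n => Nat.rec 1 (fun n x => l * x - μ n - (1 - Q.ε) * (-l) ^ n) n
  refine ⟨_, rel_of_seq Q.ε l q a μ rfl (fun n => rfl) rfl
    (fun n => by simp only [μ]; ring), ?_⟩
  have hq' : ∀ n, ∑ i, T0 n (fr.b i) (fr.b' i) m = q n • m := by
    intro n; rw [← hq n, C_eq, hs0]; simp [LinearMap.sum_apply, hT0]
  have hμ : ∀ n, ∑ i, T n (fr.b i) (fr.b' i) m = μ n • m := by
    intro n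
    induction n with
    | zero =>
      have := hq' 0
      simp only [hT0, T_zero, Module.algebraMap_end_apply] at this
      simp only [zero]; exact this
    | succ n ih =>
      have e1 := Finset.sum_congr (rfl : (Finset.univ : Finset ι) = _) fun i _ =>
        mid2 n _ (fr.b_mem i) _ (fr.b'_mem i)
      simp only [Finset.sum_add_distrib, ← Finset.smul_sum, hq', ih] at e1
      change _ = (q (n + 1) + (l - 1) * q n - l * μ n) • m
      linear_combination (norm := module) e1
  have ha : ∀ n, T n u u' m = a n • m := by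
    intro n
    induction n with
    | zero => simp [zero, h.u'u, a]
    | succ n ih =>
      rw [corner n, ih, hμ]
      change _ = (l * a n - μ n - (1 - Q.ε) * (-l) ^ n) • m
      module
  intro n
  rw [ext_C]
  simp only [LinearMap.add_apply, LinearMap.smul_apply, LinearMap.coe_sum, Finset.sum_apply,
    ← hs, ← hT, ha, hμ, (col1 n).2.2]
  match_scalars
  linear_combination (-l) ^ n * hε

end Frame

end QF

end Pool.Agent.P.Bf04
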