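import Pool.Agent.P.MP_bf0464_al.BC
import Pool.Agent.P.MP_bf0464_al.Fields

/-! The grading attached to an isotropic line. -/

namespace Pool.Agent.P.Bf04

open Module

attribute [local instance 100] LieRing.ofAssociativeRing

universe u

namespace QF

namespace Flag

variable {k V V₀ : Type u} [Field k] [AddCommGroup V] [Module k V] [AddCommGroup V₀]
  [Module k V₀] {Q : QF k V} {Q₀ : QF k V₀} (Fl : Q.Flag Q₀ 1)

/-- the projections of the grading -/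
def P (a : ℤ) : End k V :=
  if a = 1 then (Q.β (Fl.u' 0)).smulRight (Fl.u 0) else if a = 0 then Fl.inc ∘ₗ Fl.pr
    else if a = -1 then (Q.β.flip (Fl.u 0)).smulRight (Fl.u' 0) else 0

theorem P_u (a : ℤ) : Fl.P a (Fl.u 0) = if a = 1 then Fl.u 0 else 0 := by
  unfold P; split_ifs <;> simp [Fl.u'u0, Fl.pr_u, Fl.uu]

theorem P_u' (a : ℤ) : Fl.P a (Fl.u' 0) = if a = -1 then Fl.u' 0 else 0 := by
  unfold P; split_ifs <;> first | omega | simp [Fl.u'u0, Fl.pr_u', Fl.u'u']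

theorem P_inc (a : ℤ) (v : V₀) : Fl.P a (Fl.inc v) = if a = 0 then Fl.inc v else 0 := by
  unfold P; split_ifs <;> first | omega | simp [Fl.pr_inc, Fl.u'_inc, Fl.inc_u]

theorem PP (a b : ℤ) (v : V) : Fl.P a (Fl.P b v) = if a = b then Fl.P a v else 0 := by
  have : Fl.P a * Fl.P b = if a = b then Fl.P a else 0 := by
    refine Fl.ext1 ?_ ?_ fun v => ?_ <;>
      simp only [End.mul_apply, P_u, P_u', P_inc, apply_ite (Fl.P a), map_zero] <;>
      split_ifs <;> first | omega | simp [P_u, P_u', P_inc, *]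
  rw [← End.mul_apply, this]; split_ifs <;> rfl

theorem P_zero {a : ℤ} (h : a < -1 ∨ 1 < a) : Fl.P a = 0 := by
  unfold P; split_ifs <;> first | omega | rfl

theorem P_sum (v : V) : Fl.P 1 v + Fl.P 0 v + Fl.P (-1) v = v := by
  simpa [P] using Fl.dec v

theorem P_adj (a : ℤ) (v w : V) : Q.β (Fl.P a v) w = Q.β v (Fl.P (-a) w) := by
  have : Q.β ∘ₗ Fl.P a = Q.β.compl₂ (Fl.P (-a)) := by
    refine Fl.ext1 ?_ ?_ fun v => ?_ <;> refine Fl.ext1 ?_ ?_ fun v => ?_ <;>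
      simp only [LinearMap.comp_apply, LinearMap.compl₂_apply, P_u, P_u', P_inc] <;>
      split_ifs <;> first | omega | simp [Fl.uu, Fl.u'u', Fl.u_inc, Fl.u'_inc, Fl.inc_u, Fl.inc_u']
  exact LinearMap.congr_fun₂ this v w

theorem pr_P {a : ℤ} (h : a ≠ 0) (v : V) : Fl.pr (Fl.P a v) = 0 := by
  unfold P; split_ifs <;> first | omega | simp [Fl.pr_u, Fl.pr_u']

/-- homogeneous endomorphisms -/
def grE (d : ℤ) : Submodule k (End k V) where
  carrier := {x | ∀ a v, x (Fl.P a v) = Fl.P (a + d) (x v)}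
  add_mem' := fun hx hy a v => by simp [hx a v, hy a v]
  zero_mem' := fun a v => by simp
  smul_mem' := fun c x hx a v => by simp [hx a v]

/-- homogeneous components -/
def prE (d : ℤ) : End k V →ₗ[k] End k V :=
  LinearMap.mulLeft k (Fl.P (1 + d)) ∘ₗ LinearMap.mulRight k (Fl.P 1)
    + LinearMap.mulLeft k (Fl.P d) ∘ₗ LinearMap.mulRight k (Fl.P 0)
    + LinearMap.mulLeft k (Fl.P (-1 + d)) ∘ₗ LinearMap.mulRight k (Fl.P (-1))

theorem prE_apply (d : ℤ) (x : End k V) (v : V) : Fl.prE d x v = Fl.P (1 + d) (x (Fl.P 1 v))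
    + Fl.P d (x (Fl.P 0 v)) + Fl.P (-1 + d) (x (Fl.P (-1) v)) := rfl

theorem prE_mem (d : ℤ) (x : End k V) : Fl.prE d x ∈ Fl.grE d := fun a v => by
  simp only [prE_apply, PP, map_add]
  split_ifs <;> first | omega | simp [*]

theorem prE_sum (x : End k V) : ∑ d ∈ Finset.Icc (-2 : ℤ) 2, Fl.prE d x = x := by
  ext v
  rw [show Finset.Icc (-2 : ℤ) 2 = {-2, -1, 0, 1, 2} by decide]
  conv_rhs => rw [← Fl.P_sum v, map_add, map_add, ← Fl.P_sum (x (Fl.P 1 v)),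
    ← Fl.P_sum (x (Fl.P 0 v)), ← Fl.P_sum (x (Fl.P (-1) v))]
  simp [prE_apply, Fl.P_zero (a := -2), Fl.P_zero (a := -3), Fl.P_zero (a := 2),
    Fl.P_zero (a := 3)]
  abel

variable {Fl}

theorem prE_of_mem {d : ℤ} (d' : ℤ) {x : End k V} (hx : x ∈ Fl.grE d) :
    Fl.prE d' x = if d' = d then x else 0 := by
  ext v
  simp only [prE_apply, hx _ v, PP, zero_add]
  by_cases h : d' = d
  · subst h
    simp only [if_true]
    rw [← hx, ← hx, ← zero_add d', ← hx, ← map_add, ← map_add, P_sum]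
  · simp [h]

theorem grE_mul {a b : ℤ} {x y : End k V} (hx : x ∈ Fl.grE a) (hy : y ∈ Fl.grE b) :
    x * y ∈ Fl.grE (a + b) := fun c v => by
  rw [End.mul_apply, hy, hx, End.mul_apply]; congr 2; ring

theorem grE_pow {a : ℤ} {x : End k V} (hx : x ∈ Fl.grE a) (n : ℕ) : x ^ n ∈ Fl.grE (n * a) := by
  induction n with
  | zero => intro c v; simp
  | succ n ih => rw [pow_succ]; convert grE_mul ih hx using 2; push_cast; ring

theorem grE_zero {a : ℤ} {x : End k V} (hx : x ∈ Fl.grE a) (h : a < -2 ∨ 2 < a) : x = 0 := by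
  ext v
  rw [← Fl.P_sum v, map_add, map_add, hx, hx, hx, Fl.P_zero (by omega), Fl.P_zero (by omega),
    Fl.P_zero (by omega)]
  simp

theorem grE_trace {a : ℤ} {x : End k V} (hx : x ∈ Fl.grE a) (h : a ≠ 0) :
    LinearMap.trace k V x = 0 :=
  (LinearMap.isNilpotent_trace_of_isNilpotent ⟨3, grE_zero (grE_pow hx 3) (by omega)⟩).eq_zero

theorem F_grE {a b : ℤ} {v w : V} (hv : Fl.P a v = v) (hw : Fl.P b w = w) :
    Q.F v w ∈ Fl.grE (a + b) := fun c x => by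
  have h1 : ∀ c, Fl.P c v = if c = a then v else 0 := fun c => by
    rw [← hv, PP]; split_ifs with h <;> simp [h, hv]
  have h2 : ∀ c, Fl.P c w = if c = b then w else 0 := fun c => by
    rw [← hw, PP]; split_ifs with h <;> simp [h, hw]
  rw [F_apply, F_apply, map_sub, map_smul, map_smul, ← neg_neg c, ← P_adj, ← P_adj, h1, h1, h2, h2]
  split_ifs <;> first | omega | simp

variable (Fl) in
theorem ext_grE (x : End k V₀) : Fl.inc ∘ₗ x ∘ₗ Fl.pr ∈ Fl.grE 0 := fun a v => by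
  have : (Fl.inc ∘ₗ x ∘ₗ Fl.pr) * Fl.P a = Fl.P (a + 0) * (Fl.inc ∘ₗ x ∘ₗ Fl.pr) := by
    refine Fl.ext1 ?_ ?_ fun v => ?_ <;> simp only [End.mul_apply, P_u, P_u', P_inc,
      LinearMap.comp_apply] <;> split_ifs <;> first | omega | simp [Fl.pr_u, Fl.pr_u']
  exact LinearMap.congr_fun this v

theorem prE_P (d a : ℤ) (x : End k V) (v : V) :
    Fl.prE d x (Fl.P a v) = Fl.P (a + d) (x (Fl.P a v)) := by
  rcases lt_or_ge a (-1) with h | h
  · simp [Fl.P_zero (Or.inl h)]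
  rcases lt_or_ge 1 a with h' | h'
  · simp [Fl.P_zero (Or.inr h')]
  obtain rfl | rfl | rfl : a = -1 ∨ a = 0 ∨ a = 1 := by omega
  all_goals simp [prE_apply, PP]

theorem prE_sk (d : ℤ) {x : End k V} (hx : Q.Sk x) : Q.Sk (Fl.prE d x) := by
  have key : ∀ a b v w, Q.β (Fl.prE d x (Fl.P a v)) (Fl.P b w)
      = -Q.β (Fl.P a v) (Fl.prE d x (Fl.P b w)) := by
    intro a b v w
    rw [prE_P, prE_P, P_adj, ← neg_neg (b + d), ← Fl.P_adj (-(b + d)), PP, PP]
    split_ifs with h1 h2 h2 <;> try omega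
    · rw [h1, h2, hx]
    · simp
  intro v w
  rw [← Fl.P_sum v, ← Fl.P_sum w]
  simp only [map_add, LinearMap.add_apply, key]
  ring

theorem neg_u' {d : ℤ} {x : End k V} (hx : x ∈ Fl.grE d) (hd : d < 0) : x (Fl.u' 0) = 0 := by
  have := hx (-1) (Fl.u' 0)
  rwa [P_u', if_pos rfl, Fl.P_zero (by omega)] at this

theorem neg_inc {d : ℤ} {x : End k V} (hx : x ∈ Fl.grE d) (hd : d ≠ 0) (v : V₀) :
    Fl.pr (x (Fl.inc v)) = 0 := by
  have := hx 0 (Fl.inc v)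
  rw [P_inc, if_pos rfl] at this
  rw [this, Fl.pr_P (by omega)]

theorem β_u {d a : ℤ} {x : End k V} (hx : x ∈ Fl.grE d) {w : V} (hw : Fl.P a w = w)
    (h : a + d + 1 ≠ 0) : Q.β w (x (Fl.u 0)) = 0 := by
  have := hx 1 (Fl.u 0)
  rw [P_u, if_pos rfl] at this
  rw [this, ← hw, P_adj, PP, if_neg (by omega), map_zero]

theorem eq_zero_of {x : End k V} (hx : Q.Sk x) (h1 : x (Fl.u 0) = 0) (h2 : x (Fl.u' 0) = 0)
    (h3 : ∀ v, Fl.pr (x (Fl.inc v)) = 0) : x = 0 := by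
  refine Fl.ext1 h1 h2 fun v => ?_
  rw [← Fl.eq_inc (x := x (Fl.inc v)) (fun i => ?_) fun i => ?_, h3]
  · simp
  all_goals rw [hx.right, Subsingleton.elim i 0]; simp [h1, h2]

variable (Fl)

theorem hm_u : Fl.P 1 (Fl.u 0) = Fl.u 0 := by simp [P_u]

theorem hm_u' : Fl.P (-1) (Fl.u' 0) = Fl.u' 0 := by simp [P_u']

theorem hm_inc (v : V₀) : Fl.P 0 (Fl.inc v) = Fl.inc v := by simp [P_inc]

theorem lie_Fs_u' {v w : V} (hw : Q.β (Fl.u' 0) w = 0) :
    ⁅Q.Fs (Fl.u' 0) v, Q.Fs (Fl.u' 0) w⁆ = Q.β v w • Q.Fs (Fl.u' 0) (Fl.u' 0)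
      + Q.β v (Fl.u' 0) • Q.Fs (Fl.u' 0) w := by
  rw [lie_Fs]; simp [F_apply, hw, Fl.u'u', add_comm]

/-- the generators of the negative part -/
def yy {n : ℕ} (ω : Fin n → V) : Fin (n + 1) → Q.g × k :=
  Fin.cons (0, 1) fun i => (Q.Fs (Fl.u' 0) (ω i), 0)

/-- dual systems of generators -/
structure DS (n : ℕ) where
  ω : Fin n → V
  ω' : Fin n → V
  δ : Fin n → ℕ
  δ_pos : ∀ i, 0 < δ i
  hm : ∀ i, Fl.P (1 - δ i) (ω i) = ω i
  hm' : ∀ i, Fl.P (δ i - 1) (ω' i) = ω' i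
  dual : ∀ i j, 2 * Q.β (ω' i) (Q.F (Fl.u' 0) (ω j) (Fl.u 0)) = if i = j then 1 else 0
  exp : ∀ x, Q.Sk x → Q.β (Fl.u' 0) (x (Fl.u 0)) = 0 →
    ∑ i, (2 * Q.β (ω' i) (x (Fl.u 0))) • Q.F (Fl.u' 0) (ω i) (Fl.u 0) = x (Fl.u 0)
  H : Heis k (Fin (n + 1))
  lie : ∀ i j, ⁅Fl.yy ω i, Fl.yy ω j⁆ = H.γ i j • Fl.yy ω H.z
  span : ∀ a : V₀, ∃ s : Fin n → k, ∑ i, s i • Fl.pr (ω' i) = a

theorem exists_DS [FiniteDimensional k V₀] (h₀ : Q₀.ND) : ∃ n, Nonempty (Fl.DS n) := by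
  obtain ⟨fr, hfr⟩ := Q₀.exists_frame h₀
  have h2 := Q.two
  have hε := Q.ε_sq
  have F1 : ∀ v, Q.F (Fl.u' 0) (Fl.inc v) (Fl.u 0) = -Q.ε • Fl.inc v := fun v => by
    simp [F_apply, Fl.inc_u, Fl.u'u0]
  have c1 : ∀ t : k, 2 * (-(Q.ε / 2) * (-Q.ε * t)) = t := fun t => by
    field_simp; linear_combination t * hε
  have ex : ∀ w, ∑ i, (2 * Q.β (-(Q.ε / 2) • Fl.inc (fr.b' i)) w) •
      Q.F (Fl.u' 0) (Fl.inc (fr.b i)) (Fl.u 0) = Fl.inc (Fl.pr w) := fun w => by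
    conv_rhs => rw [← fr.exp (Fl.pr w) (hfr ▸ trivial), map_sum]
    refine Finset.sum_congr rfl fun i _ => ?_
    rw [F1, smul_smul, map_smul, map_smul, LinearMap.smul_apply, Fl.β_pr]
    congr 1
    rw [← c1 (Q₀.β (fr.b' i) (Fl.pr w)), smul_eq_mul, c1]; field_simp; ring_nf
    linear_combination Q₀.β (fr.b' i) (Fl.pr w) * hε
  have sp : ∀ a, ∑ i, (-(2 * Q.ε) * Q₀.β a (fr.b i)) • Fl.pr (-(Q.ε / 2) • Fl.inc (fr.b' i)) = a :=
    fun a => by
      conv_rhs => rw [← fr.exp' a (hfr ▸ trivial)]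
      refine Finset.sum_congr rfl fun i _ => ?_
      rw [map_smul, smul_smul, Fl.pr_inc]
      congr 1
      field_simp; linear_combination Q₀.β a (fr.b i) * hε
  rcases Q.hε with h | h
  · refine ⟨_, ⟨⟨fun i => Fl.inc (fr.b i), fun i => -(Q.ε / 2) • Fl.inc (fr.b' i), fun _ => 1,
      fun _ => one_pos, fun i => by simpa using Fl.hm_inc _, fun i => by simp [P_inc],
      fun i j => ?_, fun x hx hu => ?_, ⟨0, 0, by simp, by simp, by simp⟩, fun i j => ?_,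
      fun a => ⟨_, sp a⟩⟩⟩⟩
    · simp only [F1, map_smul, LinearMap.smul_apply, smul_eq_mul, Fl.β_inc, fr.dual]
      rw [mul_left_comm (-Q.ε), c1]; simp only [eq_comm]
    · have h3 : Q.β (x (Fl.u 0)) (Fl.u 0) = 0 := by
        apply mul_left_cancel₀ h2
        have := Q.symm (x (Fl.u 0)) (Fl.u 0)
        rw [h] at this
        linear_combination this + hx (Fl.u 0) (Fl.u 0)
      rw [ex]
      simpa [hu, h3] using Fl.dec (x (Fl.u 0))
    · refine Fin.cases ?_ (fun i => ?_) i <;> refine Fin.cases ?_ (fun j => ?_) j <;>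
        simp [yy, lie_Fs_u', Fl.u'_inc, Fl.inc_u', Fs_self h,
          LieRing.of_associative_ring_bracket]
  · have F2 : Q.F (Fl.u' 0) (Fl.u' 0) (Fl.u 0) = (2 : k) • Fl.u' 0 := by
      simp only [F_apply, Fl.u'u0, h]; module
    let Ω : Fin (finrank k V₀ + 2) → V := Fin.cons 0 (Fin.cons (Fl.u' 0) fun i => Fl.inc (fr.b i))
    have hΩ : ∀ i, Q.β (Ω i) (Fl.u' 0) = 0 := fun i => by
      refine Fin.cases ?_ (fun i => Fin.cases ?_ (fun i => ?_) i) i <;>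
        simp [Ω, Fl.u'u', Fl.inc_u']
    refine ⟨_, ⟨⟨Fin.cons (Fl.u' 0) fun i => Fl.inc (fr.b i),
      Fin.cons (-(4 : k)⁻¹ • Fl.u 0) fun i => -(Q.ε / 2) • Fl.inc (fr.b' i),
      Fin.cons 2 fun _ => 1, fun i => ?_, fun i => ?_, fun i => ?_,
      fun i j => ?_, fun x hx hu => ?_, ⟨1, fun i j => Q.β (Ω i) (Ω j), fun i j => ?_, fun i => ?_,
        fun i j => ?_⟩, fun i j => ?_, fun a => ⟨Fin.cons 0 fun i => -(2 * Q.ε) * Q₀.β a (fr.b i),
          by simpa [Fin.sum_univ_succ] using sp a⟩⟩⟩⟩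
    · refine Fin.cases ?_ (fun i => ?_) i <;> simp
    · refine Fin.cases ?_ (fun i => ?_) i <;> simp [P_u', P_inc]
    · refine Fin.cases ?_ (fun i => ?_) i <;> simp [P_u, P_inc]
    · have h4 : (4 : k) ≠ 0 := by simpa [show (2 : k) * 2 = 4 by norm_num] using mul_ne_zero h2 h2
      refine Fin.cases ?_ (fun i => ?_) i <;> refine Fin.cases ?_ (fun j => ?_) j <;>
        simp only [Fin.cons_zero, Fin.cons_succ, F1, F2, map_smul, LinearMap.smul_apply,
          smul_eq_mul, Fl.β_inc, fr.dual, Fl.uu'0, Fl.u_inc, Fl.inc_u']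
      · rw [h]; simp; field_simp; norm_num
      · simp [(Fin.succ_ne_zero _).symm]
      · simp
      · rw [mul_left_comm (-Q.ε), c1]; simp [eq_comm]
    · have h4 : (4 : k) ≠ 0 := by simpa [show (2 : k) * 2 = 4 by norm_num] using mul_ne_zero h2 h2
      rw [Fin.sum_univ_succ]
      simp only [Fin.cons_zero, Fin.cons_succ, ex, F2]
      conv_rhs => rw [← Fl.dec (x (Fl.u 0))]
      simp only [Fin.sum_univ_one, hu, map_smul, LinearMap.smul_apply, Q.symm (Fl.u 0), h]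
      match_scalars
      · simp only [smul_eq_mul]; field_simp; ring
      all_goals ring
    · rw [Q.symm, h]; ring
    · apply mul_left_cancel₀ h2
      have := Q.symm (Ω i) (Ω i)
      rw [h] at this
      linear_combination this
    · refine Fin.cases ?_ (fun j => Fin.cases ?_ (fun j => ?_) j) j
      · simp [Ω]
      · exact fun h => absurd (hΩ i) h
      · intro _; rw [Fin.lt_def]; simp
    · have e1 : Fl.yy (Fin.cons (Fl.u' 0) fun i => Fl.inc (fr.b i)) 1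
          = (Q.Fs (Fl.u' 0) (Fl.u' 0), 0) := rfl
      rw [e1]
      refine Fin.cases ?_ (fun i => ?_) i <;> refine Fin.cases ?_ (fun j => ?_) j
      · simp [Ω]
      · simp [yy, Ω, LieRing.of_associative_ring_bracket]
      · simp [yy, Ω, LieRing.of_associative_ring_bracket]
      · have a1 := Fl.lie_Fs_u' (v := Ω i.succ) (Q.symm_zero (hΩ j.succ))
        rw [hΩ, zero_smul, add_zero] at a1
        exact Prod.ext a1 (by simp [yy])

variable {Fl}

theorem DS.y_mem {n : ℕ} (D : Fl.DS n) (i : Fin n) :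
    Q.F (Fl.u' 0) (D.ω i) ∈ Fl.grE (-D.δ i) := by
  convert F_grE Fl.hm_u' (D.hm i) using 2; ring

theorem DS.pw_y {n : ℕ} (D : Fl.DS n) (p : ℕ) [Fact p.Prime] [Fact (Odd p)] (i : Fin n) :
    Q.pw p (Q.Fs (Fl.u' 0) (D.ω i)) = 0 :=
  Subtype.ext (grE_zero (grE_pow (D.y_mem i) p) (by
    have := D.δ_pos i
    have h3 : 3 ≤ p := by
      have := (Fact.out : p.Prime).two_le
      obtain ⟨m, hm⟩ := (Fact.out : Odd p)
      omega
    left; nlinarith))

theorem pw_comm_prod (p : ℕ) [Fact p.Prime] [Fact (Odd p)] [CharP k p] (R : LRep k (Q.g × k))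
    (x x' : Q.g × k) : Commute (R.ρ x ^ p - R.ρ (Q.pw p x.1, 0)) (R.ρ x') := by
  have h1 : (LieAlgebra.ad k _ x ^ p) x' = ⁅((Q.pw p x.1, 0) : Q.g × k), x'⁆ := by
    refine Prod.ext ((map_ad_pow (LieHom.fst k Q.g k) x x' p).trans (Q.pw_comm p _ _))
      ((map_ad_pow (LieHom.snd k Q.g k) x x' p).trans ?_)
    obtain ⟨n, hn⟩ := Nat.exists_eq_add_of_le' (Fact.out : p.Prime).one_le
    rw [congrArg (fun m => (LieAlgebra.ad k k _ ^ m) _) hn, pow_succ', End.mul_apply]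
    simp [LieRing.of_associative_ring_bracket, mul_comm]
  have h2 := pow_p_comm (k := k) p (R.ρ x) (R.ρ x')
  rw [← map_ad_pow, h1, R.lie_eq] at h2
  rw [Commute, SemiconjBy, sub_mul, mul_sub, sub_eq_sub_iff_sub_eq_sub, h2]

/-- the graded Lie algebra -/
noncomputable def DS.tri {n : ℕ} (D : Fl.DS n) (p : ℕ) [Fact p.Prime] [Fact (Odd p)] [CharP k p]
    (e₀ : End k V₀) : Tri k (Q.g × k) (n + 1) p where
  gr d :=
    { carrier := {x | x.1.1 ∈ Fl.grE d ∧ (d ≠ -1 → x.2 = 0)}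
      add_mem' := fun hx hy => ⟨add_mem hx.1 hy.1, fun h => by simp [hx.2 h, hy.2 h]⟩
      zero_mem' := ⟨zero_mem (Fl.grE d), fun _ => rfl⟩
      smul_mem' := fun c x hx => ⟨(Fl.grE d).smul_mem c hx.1, fun h => by simp [hx.2 h]⟩ }
  pr d := LinearMap.prodMap ((Fl.prE d).restrict (p := Q.g.toSubmodule) (q := Q.g.toSubmodule)
    fun x hx => Q.mem_g.2 (prE_sk d (Q.mem_g.1 hx))) (if d = -1 then LinearMap.id else 0)
  D := Finset.Icc (-2) 2
  pr_mem d x := ⟨Fl.prE_mem d _, fun h => by simp [h]⟩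
  sum_pr x := by
    refine Prod.ext (Subtype.ext ?_) ?_
    · rw [Prod.fst_sum]
      erw [AddSubmonoidClass.coe_finset_sum]
      exact Fl.prE_sum x.1.1
    · rw [Prod.snd_sum]
      change ∑ d ∈ _, (if d = -1 then LinearMap.id else 0 : k →ₗ[k] k) x.2 = _
      simp [apply_ite (fun f : k →ₗ[k] k => f x.2)]
  pr_of_mem d d' x hx := by
    refine Prod.ext (Subtype.ext ((prE_of_mem d' hx.1).trans ?_)) ?_
    · split_ifs <;> rfl
    · change (if d' = -1 then LinearMap.id else 0 : k →ₗ[k] k) x.2 = _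
      split_ifs with h1 h2 h2
      exacts [rfl, hx.2 (by omega), (hx.2 (by omega)).symm, rfl]
  lie_mem a b x y hx hy := ⟨sub_mem (grE_mul hx.1 hy.1) (add_comm a b ▸ grE_mul hy.1 hx.1),
    fun _ => by simp [LieRing.of_associative_ring_bracket, mul_comm]⟩
  y := Fl.yy D.ω
  δ := Fin.cons 1 D.δ
  δ_pos i := Fin.cases one_pos D.δ_pos i
  y_mem i := Fin.cases ⟨zero_mem (Fl.grE _), fun h => absurd rfl h⟩
    (fun i => ⟨D.y_mem i, fun _ => rfl⟩) i
  c := Fin.cons (LinearMap.snd k _ k) fun i => ((2 : k) • Q.β (D.ω' i)) ∘ₗ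
    LinearMap.applyₗ (Fl.u 0) ∘ₗ Q.g.toSubmodule.subtype ∘ₗ LinearMap.fst k _ k
  c_y i j := by
    refine Fin.cases ?_ (fun i => ?_) i <;> refine Fin.cases ?_ (fun j => ?_) j
    · rfl
    · simp [yy, (Fin.succ_ne_zero _).symm]
    · simp [yy]
    · simpa [yy] using D.dual i j
  c_zero i d x hx := by
    refine Fin.cases hx.2 (fun i h => ?_) i
    have := β_u hx.1 (D.hm' i) (by simp at h; omega)
    simp [this]
  exp_neg d hd x hx := by
    rw [Fin.sum_univ_succ]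
    refine Prod.ext (Subtype.ext ?_) (by simp [yy, Prod.snd_sum])
    have h1 : ((∑ i, (2 * Q.β (D.ω' i) (x.1.1 (Fl.u 0))) • Q.Fs (Fl.u' 0) (D.ω i) : Q.g) : End k V)
        = ∑ i, (2 * Q.β (D.ω' i) (x.1.1 (Fl.u 0))) • Q.F (Fl.u' 0) (D.ω i) :=
      map_sum Q.g.toSubmodule.subtype _ _
    have h2 := eq_zero_of (Fl := Fl) (Q.sk_of
      (∑ i, (2 * Q.β (D.ω' i) (x.1.1 (Fl.u 0))) • Q.Fs (Fl.u' 0) (D.ω i) - x.1)) ?_ ?_ fun v => ?_
    · rw [← sub_eq_zero, ← h2]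
      simp [yy, Prod.fst_sum]
    all_goals change _ = _; erw [AddSubgroupClass.coe_sub, h1]
    · simpa [LinearMap.sum_apply, sub_eq_zero] using
        D.exp _ (Q.sk_of x.1) (β_u hx.1 Fl.hm_u' (by omega))
    · simp [LinearMap.sum_apply, neg_u' hx.1 hd,
        fun i => neg_u' (D.y_mem i) (by have := D.δ_pos i; omega)]
    · simp [LinearMap.sum_apply, neg_inc hx.1 hd.ne,
        fun i => neg_inc (D.y_mem i) (by have := D.δ_pos i; omega)]
  H := D.H
  lie_y := D.lie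
  q := Fin.cons 1 fun _ => p
  q_pos i := Fin.cases one_pos (fun _ => (Fact.out : p.Prime).pos) i
  q_comm R i x := by
    refine Fin.cases ?_ (fun i => ?_) i
    · rw [Fin.cons_zero, pow_one, Commute, SemiconjBy, ← sub_eq_zero, ← R.lie_eq]
      simp [yy, LieRing.of_associative_ring_bracket, show ((0, 0) : Q.g × k) = 0 from rfl]
    · have h1 := pw_comm_prod p R (Fl.yy D.ω i.succ) x
      have h2 : Q.pw p (Fl.yy D.ω i.succ).1 = 0 := D.pw_y p i
      rwa [h2, show ((0, 0) : Q.g × k) = 0 from rfl, map_zero, sub_zero] at h1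
  pw x := (Q.pw p x.1, 0)
  cp x := Q.χ (Fl.inc ∘ₗ e₀ ∘ₗ Fl.pr) x.1 ^ p
  pw_mem d x hx := ⟨grE_pow hx.1 p, fun _ => rfl⟩
  cp_pos d hd x hx := by
    rw [χ_apply, grE_trace (grE_mul (Fl.ext_grE e₀) hx.1) (by omega),
      zero_pow (Fact.out : p.Prime).ne_zero]
  pw_comm := pw_comm_prod p

end Flag

end QF

end Pool.Agent.P.Bf04
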