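import Pool.Agent.P.MP_bf0464_al.HW

/-! Simple modules are determined by their highest weight data; the counting theorem for flags. -/

namespace Pool.Agent.P.Bf04

open Module

attribute [local instance 100] LieRing.ofAssociativeRing

universe u

theorem exists_perm_of_map_eq {α : Type*} {M : ℕ} {l l' : Fin M → α}
    (h : Finset.univ.val.map l = Finset.univ.val.map l') :
    ∃ σ : Equiv.Perm (Fin M), l ∘ σ = l' := by
  classical
  have hc : ∀ a, Fintype.card {i // l' i = a} = Fintype.card {i // l i = a} := by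
    intro a
    have := congrArg (Multiset.count a) h
    rw [Multiset.count_map, Multiset.count_map] at this
    simp only [Fintype.card_subtype, eq_comm (b := a)]
    exact this.symm
  exact ⟨Equiv.ofFiberEquiv fun a => Fintype.equivOfCardEq (hc a),
    funext (Equiv.ofFiberEquiv_map _)⟩

namespace QF

namespace Flag

variable {k V V₀ : Type u} [Field k] [AddCommGroup V] [Module k V] [AddCommGroup V₀]
  [Module k V₀] {Q : QF k V} {Q₀ : QF k V₀} {M : ℕ} {Fl : Q.Flag Q₀ M} {d : Fin M → ℤ}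

theorem span3 (U : Submodule k V) (h1 : ∀ i, Fl.u i ∈ U) (h2 : ∀ v, Fl.inc v ∈ U)
    (h3 : ∀ i, Fl.u' i ∈ U) (x : V) : x ∈ U := by
  rw [← Fl.dec x]
  exact add_mem (add_mem (sum_mem fun i _ => U.smul_mem _ (h1 i)) (h2 _))
    (sum_mem fun i _ => U.smul_mem _ (h3 i))

theorem g_decomp [FiniteDimensional k V] (hQ : Q.ND) (hd : Fl.Degs d) (P : Submodule k Q.g)
    (h1 : ∀ y ∈ Fl.nm d, y ∈ P) (h2 : ∀ i, Q.Fs (Fl.u i) (Fl.u' i) ∈ P) (h3 : ∀ x, Fl.ext x ∈ P)
    (h4 : ∀ j, ∀ w ∈ Fl.Wp j, Q.Fs (Fl.u j) w ∈ P) (x : Q.g) : x ∈ P := by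
  obtain ⟨fr, hfr⟩ := Q.exists_frame hQ
  have sw : ∀ v w, Q.Fs v w ∈ P → Q.Fs w v ∈ P := fun v w h => by
    rw [Fs_swap]; exact P.smul_mem _ h
  have B : ∀ i v, Q.Fs (Fl.u i) (Fl.inc v) ∈ P := fun i v => h4 i _ (Fl.inc_Wp v i)
  have C : ∀ i j, Q.Fs (Fl.u i) (Fl.u' j) ∈ P := by
    intro i j
    rcases lt_trichotomy i j with h | rfl | h
    · exact h4 i _ (Fl.u'_Wp h)
    · exact h2 i
    · have := hd.anti h
      exact h1 _ (low_mono (by omega) (F_low (Fl.u_mem d i) (Fl.u'_mem d j)))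
  have E : ∀ v j, Q.Fs (Fl.inc v) (Fl.u' j) ∈ P := by
    intro v j
    rcases (hd.nonneg j).eq_or_lt with h | h
    · rw [(hd.zero j h.symm).1 v]; simp
    · exact h1 _ (low_mono (by omega) (F_low (Fl.inc_mem d v) (Fl.u'_mem d j)))
  have key : ∀ v w, Q.Fs v w ∈ P := by
    intro v w
    refine span3 (Fl := Fl) (P.comap (Q.Fs.flip w)) (fun i => ?_) (fun a => ?_) (fun i => ?_) v
    · refine span3 (Fl := Fl) (P.comap (Q.Fs (Fl.u i))) (fun j => ?_) (B i) (C i) w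
      rcases le_total i j with h | h
      exacts [h4 i _ (Fl.u_Wp h), sw _ _ (h4 j _ (Fl.u_Wp h))]
    · refine span3 (Fl := Fl) (P.comap (Q.Fs (Fl.inc a))) (fun j => sw _ _ (B j a))
        (fun b => ?_) (E a) w
      change Q.Fs _ _ ∈ P
      rw [← Fl.ext_Fs a b]; exact h3 _
    · refine span3 (Fl := Fl) (P.comap (Q.Fs (Fl.u' i))) (fun j => sw _ _ (C j i))
        (fun b => sw _ _ (E b i)) (fun j => ?_) w
      have hi := hd.nonneg i
      have hj := hd.nonneg j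
      by_cases h : d i + d j = 0
      · obtain rfl : i = j := hd.anti.injective (by omega)
        change Q.Fs _ _ ∈ P
        rw [Fs_self (hd.zero i (by omega)).2]; exact zero_mem _
      · exact h1 _ (low_mono (by omega) (F_low (Fl.u'_mem d i) (Fl.u'_mem d j)))
  exact fr.g_induction hfr P (fun i j => key _ _) x

variable {p : ℕ} [Fact p.Prime] [Fact (Odd p)] [CharP k p] {e : End k V}

variable (Fl d e) in
/-- the twisted image of the nilpotent radical -/
def J (R : LRep k Q.g) : Submodule k R.M :=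
  Submodule.span k {a | ∃ y ∈ Fl.nm d, ∃ m, R.ρ y m - Q.χ e y • m = a}

theorem HW.gen [FiniteDimensional k V] (hQ : Q.ND) (hd : Fl.Degs d) {R : LRep k Q.g}
    {E : LRep k Q₀.g} {j : E.M →ₗ[k] R.M} {ν : Fin M → k} (h : Fl.HW R E j ν) :
    ∃ D : Submodule k R.M, R.Stable D ∧ LinearMap.range j ≤ D ∧
      D ≤ LinearMap.range j ⊔ Fl.J d e R := by
  let D : Submodule k R.M := sInf {U | LinearMap.range j ≤ U ∧ ∀ y ∈ Fl.nm d, ∀ m ∈ U, R.ρ y m ∈ U}
  have h1 : LinearMap.range j ≤ D := le_sInf fun U hU => hU.1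
  have h2 : ∀ y ∈ Fl.nm d, ∀ m ∈ D, R.ρ y m ∈ D := fun y hy m hm =>
    Submodule.mem_sInf.2 fun U hU => hU.2 y hy m (Submodule.mem_sInf.1 hm U hU)
  refine ⟨D, fun x m hm => ?_, h1, sInf_le ⟨le_sup_left, fun y hy m hm => ?_⟩⟩
  · have : D ≤ D ⊓ ⨅ x, D.comap (R.ρ x) := by
      refine sInf_le ⟨le_inf h1 (le_iInf fun x => ?_), fun y hy m hm => ⟨h2 y hy m hm.1, ?_⟩⟩
      · rintro _ ⟨v, rfl⟩
        refine g_decomp hQ hd (D.comap (LinearMap.applyₗ (j v) ∘ₗ R.ρ.toLinearMap))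
          (fun y hy => h2 y hy _ (h1 ⟨v, rfl⟩)) (fun i => ?_) (fun x => ?_) (fun i w hw => ?_) x
        · change Q.φ R _ _ (j v) ∈ D
          rw [h.wt i v]; exact D.smul_mem (ν i) (h1 ⟨v, rfl⟩)
        · exact h1 ⟨_, h.hom x v⟩
        · change Q.φ R _ _ (j v) ∈ D
          rw [h.top v i w hw]; exact D.zero_mem
      · have h3 := (Submodule.mem_iInf _).1 hm.2
        refine (Submodule.mem_iInf _).2 fun x => ?_
        rw [Submodule.mem_comap, R.comm_apply]
        exact add_mem (h2 y hy _ (h3 x)) (h3 _)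
    exact (Submodule.mem_iInf _).1 (this hm).2 x
  · have := add_mem (Submodule.mem_sup_right (S := LinearMap.range j)
      (Submodule.subset_span ⟨y, hy, m, rfl⟩ : _ ∈ Fl.J d e R)) (Submodule.smul_mem _ (Q.χ e y) hm)
    rwa [sub_add_cancel] at this

theorem J_map {R R' : LRep k Q.g} {f : R.M →ₗ[k] R'.M} (hf : R.IsHom R' f) {m : R.M}
    (hm : m ∈ Fl.J d e R) : f m ∈ Fl.J d e R' := by
  refine (Submodule.span_le (p := (Fl.J d e R').comap f)).2 ?_ hm
  rintro _ ⟨y, hy, m, rfl⟩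
  exact Submodule.subset_span ⟨y, hy, f m, by rw [map_sub, map_smul, hf]⟩

theorem J_stable (h3 : ∀ x, ∀ y ∈ Fl.nm d, Q.χ e ⁅Fl.ext x, y⁆ = 0) (R : LRep k Q.g) :
    (R.res Fl.ext).Stable (Fl.J d e R) := by
  intro x m hm
  refine (Submodule.span_le (p := (Fl.J d e R).comap (R.ρ (Fl.ext x)))).2 ?_ hm
  rintro _ ⟨y, hy, m, rfl⟩
  have a1 : _ ∈ Fl.J d e R := Submodule.subset_span ⟨y, hy, R.ρ (Fl.ext x) m, rfl⟩
  have a2 : _ ∈ Fl.J d e R :=
    Submodule.subset_span ⟨_, lie_mem_nm (x := Fl.ext x) (Fl.ext_low d x.1) hy, m, rfl⟩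
  rw [h3 x y hy, zero_smul, sub_zero] at a2
  change R.ρ (Fl.ext x) _ ∈ Fl.J d e R
  rw [map_sub, map_smul, R.comm_apply]
  convert add_mem a1 a2 using 1; abel

theorem iso_of_hw [FiniteDimensional k V] (hQ : Q.ND) (hd : Fl.Degs d)
    (h1 : ∀ y ∈ Fl.nm d, Q.χ e (Q.pw p y) = 0)
    (h2 : ∀ y ∈ Fl.nm d, ∀ y' ∈ Fl.nm d, Q.χ e ⁅y, y'⁆ = 0)
    (h3 : ∀ x, ∀ y ∈ Fl.nm d, Q.χ e ⁅Fl.ext x, y⁆ = 0) {θ : ℕ → k} {R R' : LRep k Q.g}
    (hR : Q.Adm p e θ R) (hR' : Q.Adm p e θ R') {E : LRep k Q₀.g} (hE : E.Simple)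
    {j : E.M →ₗ[k] R.M} {j' : E.M →ₗ[k] R'.M} {ν : Fin M → k} (h : Fl.HW R E j ν)
    (h' : Fl.HW R' E j' ν) : R.Iso R' := by
  haveI := hR.fd
  haveI := hR'.fd
  haveI := hR.simple.1
  haveI := hR'.simple.1
  have hJ := (engel_twist h1 h2 hR.pchar).2
  have hJ' := (engel_twist h1 h2 hR'.pchar).2
  have hw : Fl.HW (R.prod R') E (j.prod j') ν :=
    ⟨fun x v => Prod.ext (h.hom x v) (h'.hom x v),
      fun h0 => h.ne (LinearMap.ext fun v => congrArg Prod.fst (LinearMap.congr_fun h0 v)),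
      fun v i w hw => Prod.ext (h.top v i w hw) (h'.top v i w hw),
      fun i v => Prod.ext (h.wt i v) (h'.wt i v)⟩
  obtain ⟨D, hD, hD1, hD2⟩ := hw.gen (e := e) hQ hd
  have p1 : (R.prod R').IsHom R (LinearMap.fst k R.M R'.M) := fun _ _ => rfl
  have p2 : (R.prod R').IsHom R' (LinearMap.snd k R.M R'.M) := fun _ _ => rfl
  have i2 : R'.IsHom (R.prod R') (LinearMap.inr k R.M R'.M) :=
    fun x m => Prod.ext (map_zero (R.ρ x)).symm rfl
  have hinc := (R.prod R').sub_hom D hD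
  have q1 := p1.comp hinc
  have q2 := p2.comp hinc
  -- the first projection is onto
  have s1 : LinearMap.range (LinearMap.fst k R.M R'.M ∘ₗ D.subtype) = ⊤ := by
    refine (hR.simple.2 _ q1.range).resolve_left fun h0 => h.ne (LinearMap.ext fun v => ?_)
    exact (Submodule.eq_bot_iff _).1 h0 _ ⟨⟨_, hD1 ⟨v, rfl⟩⟩, rfl⟩
  -- the image of `E` meets `J` trivially
  have hEJ : ∀ v, j v ∈ Fl.J d e R → v = 0 := by
    have hs : E.Stable ((Fl.J d e R).comap j) := fun x v hv => by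
      rw [Submodule.mem_comap, h.hom]; exact J_stable h3 R x _ hv
    rcases hE.2 _ hs with h0 | h0
    · exact fun v hv => (Submodule.eq_bot_iff _).1 h0 v hv
    · refine absurd (eq_top_iff.2 fun m _ => ?_) hJ
      obtain ⟨a, rfl⟩ := LinearMap.range_eq_top.1 s1 m
      obtain ⟨_, ⟨v, rfl⟩, b, hb, hab⟩ := Submodule.mem_sup.1 (hD2 a.2)
      have : j v + b.1 = a.1.1 := congrArg Prod.fst hab
      change a.1.1 ∈ _
      rw [← this]
      exact add_mem (show v ∈ (Fl.J d e R).comap j from h0 ▸ trivial) (J_map p1 hb)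
  have hker : ∀ m', (0, m') ∈ D → m' = 0 := by
    have hs : R'.Stable (D.comap (LinearMap.inr k R.M R'.M)) := fun x m hm =>
      (congrArg (· ∈ D) (i2 x m)).mpr (hD x _ hm)
    rcases hR'.simple.2 _ hs with h0 | h0
    · exact fun v hv => (Submodule.eq_bot_iff _).1 h0 v hv
    · refine absurd (eq_top_iff.2 fun m _ => ?_) hJ'
      obtain ⟨_, ⟨v, rfl⟩, b, hb, hab⟩ := Submodule.mem_sup.1
        (hD2 (show m ∈ D.comap (LinearMap.inr k R.M R'.M) from h0 ▸ trivial))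
      have a1 : j v + b.1 = 0 := congrArg Prod.fst hab
      have a2 : j' v + b.2 = m := congrArg Prod.snd hab
      have a3 : v = 0 := hEJ v (eq_neg_of_add_eq_zero_left a1 ▸ neg_mem (J_map p1 hb))
      rw [← a2, a3, map_zero, zero_add]
      exact J_map p2 hb
  have hbij : Function.Bijective (LinearMap.fst k R.M R'.M ∘ₗ D.subtype) :=
    ⟨(injective_iff_map_eq_zero _).2 fun a ha => Subtype.ext (Prod.ext ha (hker _ (by
      have : ((0 : R.M), a.1.2) = a.1 := Prod.ext ha.symm rfl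
      rw [this]; exact a.2))), LinearMap.range_eq_top.1 s1⟩
  let f := LinearEquiv.ofBijective _ hbij
  refine LRep.iso_of_hom hR.simple hR'.simple
    (f := (LinearMap.snd k R.M R'.M ∘ₗ D.subtype) ∘ₗ f.symm.toLinearMap) (q2.comp fun x m => ?_)
    fun h0 => h'.ne (LinearMap.ext fun v => ?_)
  · apply f.injective
    exact (f.apply_symm_apply _).trans
      ((congrArg (R.ρ x) (f.apply_symm_apply m)).symm.trans (q1 x (f.symm m)).symm)
  · have := LinearMap.congr_fun h0 (f ⟨_, hD1 ⟨v, rfl⟩⟩)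
    exact (congrArg (LinearMap.snd k R.M R'.M ∘ₗ D.subtype) (f.symm_apply_apply _)).symm.trans this

theorem HW.reflect {R : LRep k Q.g} (hR : Q.PChar p e R) {E : LRep k Q₀.g} {j : E.M →ₗ[k] R.M}
    {ν : Fin M → k} (h : Fl.HW R E j ν) (hν : ∀ i, ν i ^ p = ν i) {a b : Fin M}
    (hab : b.val = a.val + 1) (hf : Q.χ e (Q.Fs (Fl.u b) (Fl.u' a)) ≠ 0) :
    ∃ j' ν', Fl.HW R E j' ν' ∧ Fl.lw ν' = Fl.lw ν ∘ Equiv.swap a b := by
  have hlt : a < b := by rw [Fin.lt_def]; omega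
  have hne : a ≠ b := hlt.ne
  set f := Q.Fs (Fl.u b) (Fl.u' a) with hfd
  have hfx : ∀ x, f.1 x = Q.β (Fl.u' a) x • Fl.u b - (Q.ε * Q.β (Fl.u b) x) • Fl.u' a :=
    fun x => F_apply _ _ _ _
  have hinj : Function.Injective (R.ρ f) := by
    have hp := (Fact.out : p.Prime).two_le
    have h2 : Q.pw p f = 0 := by
      apply Subtype.ext
      have : f.1 ^ 2 = 0 := by
        ext x; simp [sq, hfx, Fl.uu, Fl.uu', Fl.u'u, Fl.u'u', hne]
      exact pow_eq_zero_of_le hp this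
    refine (injective_iff_map_eq_zero _).2 fun m hm => ?_
    have := hR f m
    obtain ⟨n, rfl⟩ := Nat.exists_eq_add_of_le' (show 1 ≤ p by omega)
    rw [pow_succ, End.mul_apply, hm, map_zero, h2, map_zero, LinearMap.zero_apply, zero_add] at this
    exact (smul_eq_zero.1 this.symm).resolve_left (pow_ne_zero _ hf)
  have comm : ∀ v w m, Q.φ R v w (R.ρ f m)
      = R.ρ f (Q.φ R v w m) - Q.φ R (f.1 v) w m - Q.φ R v (f.1 w) m := by
    intro v w m
    have := LinearMap.congr_fun (Q.φ_comm R f v w) m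
    simp only [LinearMap.sub_apply, End.mul_apply, LinearMap.add_apply] at this
    rw [sub_sub, ← this]; abel
  have fu : ∀ i, f.1 (Fl.u i) = if a = i then Fl.u b else 0 := fun i => by
    rw [hfx, Fl.u'u, Fl.uu]; split_ifs <;> simp
  have fu' : ∀ i, f.1 (Fl.u' i) = if i = b then -Fl.u' a else 0 := fun i => by
    rw [hfx, Fl.u'u', Fl.uu']; split_ifs <;> simp [Q.ε_sq]
  -- weights
  have wt : ∀ r : ℕ, ∀ i v, Q.φ R (Fl.u i) (Fl.u' i) ((R.ρ f ^ r) (j v))
      = (ν i - (if a = i then (r : k) else 0) + (if i = b then (r : k) else 0))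
        • (R.ρ f ^ r) (j v) := by
    intro r i v
    induction r with
    | zero => simpa using h.wt i v
    | succ r ih =>
      rw [pow_succ', End.mul_apply, comm, ih, fu, fu']
      by_cases h1 : a = i
      · subst h1
        simp only [if_true, hne, if_false, map_zero, LinearMap.zero_apply, map_smul, φ_apply, ← hfd]
        push_cast; module
      · by_cases h2 : i = b
        · subst h2
          simp only [if_true, hne, if_false, map_zero, LinearMap.zero_apply, map_smul, φ_apply,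
            map_neg, LinearMap.neg_apply, ← hfd]
          push_cast; module
        · simp [h1, h2]
  -- most raising generators
  have top' : ∀ r : ℕ, ∀ v i, ∀ w ∈ Fl.Wp i, (i = a → Q.β (Fl.u b) w = 0) →
      Q.φ R (Fl.u i) w ((R.ρ f ^ r) (j v)) = 0 := by
    intro r v
    induction r with
    | zero => exact fun i w hw _ => h.top v i w hw
    | succ r ih =>
      intro i w hw hi
      rw [pow_succ', End.mul_apply, comm, ih i w hw hi, map_zero, zero_sub, fu]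
      rcases lt_trichotomy i a with h1 | rfl | h1
      · rw [if_neg h1.ne', ih i _ _ fun h => absurd h h1.ne]
        · simp
        · rw [hfx]
          exact sub_mem (Submodule.smul_mem _ _ (Fl.u_Wp (h1.trans hlt).le))
            (Submodule.smul_mem _ _ (Fl.u'_Wp h1))
      · have b1 : Q.φ R (Fl.u i) (Fl.u b) ((R.ρ f ^ r) (j v)) = 0 :=
          ih i _ (Fl.u_Wp hlt.le) fun _ => Fl.uu _ _
        have b2 := ih b (w - Q.β (Fl.u' i) w • Fl.u i) ⟨fun l hl => ?_, fun l hl => ?_⟩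
          fun h => absurd h hne.symm
        · rw [map_sub, map_smul, Q.φ_swap R (Fl.u i) (Fl.u b)] at b2
          simp only [LinearMap.sub_apply, LinearMap.smul_apply, b1, smul_zero, sub_zero] at b2
          simp [hfx, hi rfl, b1, b2]
        · rcases hl.eq_or_lt with rfl | hl
          · simp [hi rfl, Fl.uu]
          · simp [Fl.uu, hw.1 l (by rw [Fin.le_def]; rw [Fin.lt_def] at hl; omega)]
        · have hl' : l ≤ i := by rw [Fin.le_def]; rw [Fin.lt_def] at hl; omega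
          rcases hl'.eq_or_lt with rfl | hl'
          · simp [Fl.u'u]
          · simp [Fl.u'u, hl'.ne, hw.2 l hl']
      · have : b ≤ i := by rw [Fin.le_def]; rw [Fin.lt_def] at h1; omega
        simp [h1.ne, hfx, hw.1 b this, hw.2 a h1]
  -- the simple raising generator
  have sl2 : ∀ r : ℕ, ∀ v, Q.φ R (Fl.u a) (Fl.u' b) ((R.ρ f ^ (r + 1)) (j v))
      = (((r : k) + 1) * (ν a - ν b - r)) • (R.ρ f ^ r) (j v) := by
    intro r v
    induction r with
    | zero =>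
      rw [pow_succ', End.mul_apply, comm, fu, fu']
      simp only [pow_zero, End.one_apply, h.top v a _ (Fl.u'_Wp hlt), if_true, map_neg,
        LinearMap.neg_apply, h.wt, map_zero]
      module
    | succ r ih =>
      rw [pow_succ' _ (r + 1), End.mul_apply, comm, ih, fu, fu']
      simp only [if_true, map_neg, LinearMap.neg_apply, wt, hne, hne.symm, if_false, map_smul,
        ← End.mul_apply, ← pow_succ']
      push_cast; module
  obtain ⟨r, hr⟩ : ∃ r : ℕ, (r : k) + 1 = ν a - ν b + 1 := by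
    haveI : NeZero p := ⟨(Fact.out : p.Prime).ne_zero⟩
    have : ν a - ν b ∈ (⊥ : Subfield k) := sub_mem
      ((Subfield.mem_bot_iff_pow_eq_self k p).2 (hν a))
      ((Subfield.mem_bot_iff_pow_eq_self k p).2 (hν b))
    obtain ⟨n, hn⟩ := (mem_bot_iff_intCast p k).1 this
    refine ⟨(n : ZMod p).val, ?_⟩
    rw [← hn, ZMod.natCast_val, ZMod.cast_intCast (dvd_refl p)]
  refine ⟨(R.ρ f ^ (r + 1)) ∘ₗ j, fun i => ν i - (if a = i then ((r + 1 : ℕ) : k) else 0)
    + (if i = b then ((r + 1 : ℕ) : k) else 0), ⟨fun x v => ?_, fun h0 => ?_, fun v i w hw => ?_,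
      fun i v => wt (r + 1) i v⟩, funext fun i => ?_⟩
  · have : Commute (R.ρ f) (R.ρ (Fl.ext x)) := by
      rw [Commute, SemiconjBy, eq_comm, ← sub_eq_zero, ← R.lie_eq,
        Fl.lie_ext_Fs x (Fl.pr_u b) (Fl.pr_u' a), map_zero]
    rw [LinearMap.comp_apply, h.hom]
    exact LinearMap.congr_fun (this.pow_left (r + 1)) (j v)
  · obtain ⟨v, hv⟩ := h.exists_ne
    exact hv ((End.coe_pow (R.ρ f) (r + 1) ▸ hinj.iterate (r + 1))
      ((LinearMap.congr_fun h0 v).trans (map_zero _).symm))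
  · rw [LinearMap.comp_apply]
    by_cases hi : i = a
    · subst hi
      have b1 := top' (r + 1) v i (w - (Q.ε * Q.β (Fl.u b) w) • Fl.u' b)
        (sub_mem hw (Submodule.smul_mem _ _ (Fl.u'_Wp hlt))) fun _ => by
          simp only [map_sub, map_smul, Fl.uu', if_true, smul_eq_mul]
          linear_combination (-Q.β (Fl.u b) w) * Q.ε_sq
      rw [map_sub, map_smul, LinearMap.sub_apply, LinearMap.smul_apply, sl2,
        show ν i - ν b - r = 0 by linear_combination -hr] at b1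
      simpa using b1
    · exact top' _ v i w hw fun h => absurd h hi
  · have hsh : sh Q.ε (finrank k V₀ + 2 * (M - a)) = sh Q.ε (finrank k V₀ + 2 * (M - b)) + 1 := by
      have := b.2
      rw [show finrank k V₀ + 2 * (M - a) = finrank k V₀ + 2 * (M - b) + 2 by omega, sh, sh]
      have := Q.two
      push_cast; field_simp; ring
    simp only [lw, Function.comp_apply]
    by_cases h1 : i = a
    · subst h1
      simp only [if_true, hne, if_false, Equiv.swap_apply_left, hsh]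
      push_cast; linear_combination -hr
    · by_cases h2 : i = b
      · subst h2
        simp only [if_true, hne, if_false, Equiv.swap_apply_right, hsh]
        push_cast; linear_combination hr
      · simp [Ne.symm h1, h2, Equiv.swap_apply_of_ne_of_ne h1 h2]

theorem HW.perm {R : LRep k Q.g} (hR : Q.PChar p e R)
    (he' : ∀ i, Q.χ e (Q.Fs (Fl.u i) (Fl.u' i)) = 0)
    (hf : ∀ a b : Fin M, b.val = a.val + 1 → Q.χ e (Q.Fs (Fl.u b) (Fl.u' a)) ≠ 0)
    {E : LRep k Q₀.g} (σ : Equiv.Perm (Fin M)) : ∀ {j : E.M →ₗ[k] R.M} {ν : Fin M → k},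
      Fl.HW R E j ν → ∃ j' ν', Fl.HW R E j' ν' ∧ Fl.lw ν' = Fl.lw ν ∘ σ := by
  cases M with
  | zero => intro j ν h; exact ⟨_, _, h, Subsingleton.elim _ _⟩
  | succ n =>
    have hσ : σ ∈ Submonoid.closure (Set.range fun i : Fin n => Equiv.swap i.castSucc i.succ) :=
      Equiv.Perm.mclosure_swap_castSucc_succ n ▸ trivial
    induction hσ using Submonoid.closure_induction with
    | mem σ hσ =>
      obtain ⟨i, rfl⟩ := hσ
      intro j ν h
      exact h.reflect hR (fun i => h.wt_pow hR i (he' i)) rfl (hf _ _ rfl)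
    | one => intro j ν h; exact ⟨_, _, h, rfl⟩
    | mul σ τ _ _ h1 h2 =>
      intro j ν h
      obtain ⟨j', ν', h3, h4⟩ := h1 h
      obtain ⟨j'', ν'', h5, h6⟩ := h2 h3
      exact ⟨j'', ν'', h5, by rw [h6, h4]; rfl⟩

omit [Fact p.Prime] [CharP k p] in
theorem count_hw {e₀ : End k V₀} {b : ℕ} (hB : Q₀.Bound p e₀ b) {A : Type u} [Fintype A]
    {θ : ℕ → k} (E : A → LRep k Q₀.g) (ν : A → Fin M → k) (θ₀ : A → ℕ → k) (t : A → Multiset k)
    (hE : ∀ a, Q₀.Adm p e₀ (θ₀ a) (E a)) (ht : ∀ a, IsType Q₀.ε (finrank k V₀) (θ₀ a) (t a))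
    (hty : ∀ a, IsType Q.ε (finrank k V) θ (Finset.univ.val.map (Fl.lw (ν a)) + t a))
    (hinj : ∀ a a', Finset.univ.val.map (Fl.lw (ν a)) = Finset.univ.val.map (Fl.lw (ν a')) →
      (E a).Iso (E a') → a = a') :
    Fintype.card A ≤ (finrank k V / 2).choose M * 2 ^ M * b := by
  classical
  rcases isEmpty_or_nonempty A with hA | ⟨⟨a₀⟩⟩
  · simp
  obtain ⟨𝒳, hc, h𝒳⟩ := count_sq (Finset.univ.val.map (Fl.lw (ν a₀)) + t a₀) M
  rw [(hty a₀).card] at hc
  have hmap : ∀ a, Finset.univ.val.map (Fl.lw (ν a)) ∈ 𝒳 := fun a => h𝒳 _ (by simp) (by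
    rw [← (hty a).sq_eq Q.two (hty a₀), Multiset.map_add]; exact Multiset.le_add_right _ _)
  refine (Finset.card_le_mul_card_image_of_maps_to (s := Finset.univ) (fun a _ => hmap a) b
    fun X _ => ?_).trans (by rw [mul_comm]; exact Nat.mul_le_mul_right b hc)
  rw [← Fintype.card_coe]
  rcases isEmpty_or_nonempty
    (Finset.univ.filter fun a => Finset.univ.val.map (Fl.lw (ν a)) = X) with hX | ⟨⟨a₁, ha₁⟩⟩
  · rw [Fintype.card_eq_zero]; exact Nat.zero_le _
  refine hB (θ₀ a₁) _ (fun a => E a.1) (fun a => ?_) fun a a' hi => Subtype.ext (hinj _ _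
    ((Finset.mem_filter.1 a.2).2.trans (Finset.mem_filter.1 a'.2).2.symm) hi)
  have := (hty a.1).sq_eq Q.two (hty a₁)
  rw [Multiset.map_add, Multiset.map_add, (Finset.mem_filter.1 a.2).2,
    (Finset.mem_filter.1 ha₁).2, add_right_inj] at this
  rw [← (ht a.1).char_eq Q.two (ht a₁) this]
  exact hE a.1

theorem T1 [IsAlgClosed k] [FiniteDimensional k V] [FiniteDimensional k V₀] (hQ : Q.ND)
    (h₀ : Q₀.ND) (hd : Fl.Degs d) (he : e ∈ Fl.swap.Low d 0)
    (he' : ∀ i, Q.χ e (Q.Fs (Fl.u i) (Fl.u' i)) = 0)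
    (h1 : ∀ y ∈ Fl.nm d, Q.χ e (Q.pw p y) = 0)
    (h2 : ∀ y ∈ Fl.nm d, ∀ y' ∈ Fl.nm d, Q.χ e ⁅y, y'⁆ = 0)
    (h3 : ∀ x, ∀ y ∈ Fl.nm d, Q.χ e ⁅Fl.ext x, y⁆ = 0)
    (hf : ∀ a b : Fin M, b.val = a.val + 1 → Q.χ e (Q.Fs (Fl.u b) (Fl.u' a)) ≠ 0)
    (hT : Q₀.Typed p (Fl.pr ∘ₗ e ∘ₗ Fl.inc)) {b : ℕ} (hB : Q₀.Bound p (Fl.pr ∘ₗ e ∘ₗ Fl.inc) b) :
    Q.Bound p e ((finrank k V / 2).choose M * 2 ^ M * b) := by
  intro θ A _ R hR hiso
  choose E j ν θ₀ t hw hE ht hty using fun a => hw_adm h₀ hd he he' hT (hR a)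
  refine count_hw hB E ν θ₀ t hE ht hty fun a a' hm hi => hiso _ _ ?_
  obtain ⟨σ, hσ⟩ := exists_perm_of_map_eq hm.symm
  obtain ⟨j', ν', h4, h5⟩ := HW.perm (hR a').pchar he' hf σ (hw a')
  obtain rfl : ν' = ν a := funext fun i => add_right_cancel (congrFun (h5.trans hσ) i)
  obtain ⟨g, hg⟩ := hi
  refine iso_of_hw hQ hd h1 h2 h3 (hR _) (hR _) (hE a).simple (hw a)
    (j' := j' ∘ₗ g.toLinearMap) ⟨h4.hom.comp hg, fun h0 => h4.ne ?_, fun v => h4.top _,
      fun i v => h4.wt i _⟩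
  ext v
  obtain ⟨v, rfl⟩ := g.surjective v
  exact LinearMap.congr_fun h0 v

theorem T1' [IsAlgClosed k] [FiniteDimensional k V] [FiniteDimensional k V₀] (hQ : Q.ND)
    (h₀ : Q₀.ND) (hd : Fl.Degs d) (hs : Q.Sk e) (he : e ∈ Fl.swap.Low d 0)
    (he1 : e ∈ Fl.Low d (-1)) (he2 : ∀ v, ∃ w, e (Fl.inc v) = Fl.inc w)
    (he3 : ∀ i, Fl.pr (e (Fl.u i)) = 0) (he4 : ∀ i, Fl.pr (e (Fl.u' i)) = 0)
    (he' : ∀ i, Q.β (Fl.u' i) (e (Fl.u i)) = 0)
    (hf : ∀ a b : Fin M, b.val = a.val + 1 → Q.β (Fl.u' a) (e (Fl.u b)) ≠ 0)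
    (hT : Q₀.Typed p (Fl.pr ∘ₗ e ∘ₗ Fl.inc)) {b : ℕ} (hB : Q₀.Bound p (Fl.pr ∘ₗ e ∘ₗ Fl.inc) b) :
    Q.Bound p e ((finrank k V / 2).choose M * 2 ^ M * b) := by
  have h0 : ∀ y : Q.g, y.1 ∈ Fl.Low d 2 → Q.χ e y = 0 := fun y hy =>
    trace_low (Fl := Fl) (d := d) (low_mono (by omega) (low_mul he1 hy))
  refine T1 hQ h₀ hd he (fun i => by rw [χ_Fs _ hs, he', mul_zero])
    (fun y hy => h0 _ (low_mono (by have := (Fact.out : p.Prime).two_le; omega) (low_pow hy p)))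
    (fun y hy y' hy' => h0 _ (low_mono (by omega) (sub_mem (low_mul hy hy') (low_mul hy' hy))))
    (fun x y hy => ?_) (fun a b h => by rw [χ_Fs _ hs]; exact mul_ne_zero Q.two (hf a b h)) hT hB
  have h1 : e * (Fl.ext x).1 - (Fl.ext x).1 * e ∈ Fl.Low d 0 := by
    refine Fl.low_of d (fun i => ?_) (fun i => ?_) fun v => ?_
    · simp [Emb.ext_apply, Fl.pr_u, he3]
    · simp [Emb.ext_apply, Fl.pr_u', he4]
    · obtain ⟨w, hw⟩ := he2 (x.1 (Fl.pr (Fl.inc v)))
      rw [LinearMap.sub_apply, End.mul_apply, End.mul_apply, Emb.ext_apply, Emb.ext_apply, hw,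
        ← map_sub, neg_zero]
      exact Fl.inc_mem d _
  have h2 := trace_low (Fl := Fl) (d := d) (low_mono (by omega) (low_mul (c' := 1) h1 hy))
  rw [χ_apply, ← h2]
  change LinearMap.trace k V (e * ((Fl.ext x).1 * y.1 - y.1 * (Fl.ext x).1)) = _
  rw [mul_sub, sub_mul, map_sub, map_sub, ← mul_assoc, ← mul_assoc,
    LinearMap.trace_mul_cycle k e y.1]

theorem nil_res (hd : Fl.Degs d) (he : e ∈ Fl.swap.Low d 0) (hn : IsNilpotent e) :
    IsNilpotent (Fl.pr ∘ₗ e ∘ₗ Fl.inc) := by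
  by_cases h : ∃ i, d i = 0
  · obtain ⟨i, hi⟩ := h
    exact ⟨0, LinearMap.ext fun v => ((hd.zero i hi).1 _).trans ((hd.zero i hi).1 _).symm⟩
  push Not at h
  have hpos : ∀ i, 0 < d i := fun i => lt_of_le_of_ne (hd.nonneg i) (h i).symm
  have key : ∀ n : ℕ, ∀ v, (e ^ n) (Fl.inc v) ∈ Fl.swap.Fil d 0 ∧
      Fl.pr ((e ^ n) (Fl.inc v)) = ((Fl.pr ∘ₗ e ∘ₗ Fl.inc) ^ n) v := by
    intro n v
    induction n with
    | zero => exact ⟨Fl.swap.inc_mem d v, Fl.pr_inc v⟩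
    | succ n ih =>
      rw [pow_succ', pow_succ', End.mul_apply, End.mul_apply, ← ih.2]
      set x := (e ^ n) (Fl.inc v)
      have h1 : x - Fl.inc (Fl.pr x) ∈ Fl.swap.Fil d (-1) :=
        ⟨fun i _ => by
          rw [map_sub, ih.1.1 i (hpos i), zero_sub, neg_eq_zero]; exact Fl.swap.u'_inc _ i,
        fun i hi => by have := hpos i; omega, fun _ => by
          change Fl.pr _ = 0
          rw [map_sub, Fl.pr_inc, sub_self]⟩
      have h2 : Fl.pr (e (x - Fl.inc (Fl.pr x))) = 0 := (he _ _ h1).2.2 (by omega)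
      rw [map_sub, map_sub, sub_eq_zero] at h2
      exact ⟨by simpa using he _ _ ih.1, h2⟩
  obtain ⟨n, hn⟩ := hn
  exact ⟨n, LinearMap.ext fun v => by rw [← (key n v).2, hn]; simp⟩

end Flag

end QF

end Pool.Agent.P.Bf04
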