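import Pool.Agent.P.MP_bf0464_al.Par

/-! The generic step for the stabiliser of an isotropic line. -/

namespace Pool.Agent.P.Bf04

open Module TensorProduct

attribute [local instance 100] LieRing.ofAssociativeRing

universe u

namespace QF

namespace Flag

variable {k V V₀ : Type u} [Field k] [AddCommGroup V] [Module k V] [AddCommGroup V₀]
  [Module k V₀] {Q : QF k V} {Q₀ : QF k V₀} {Fl : Q.Flag Q₀ 1}

variable (Fl) in
theorem exists_hm_frame [FiniteDimensional k V₀] (h₀ : Q₀.ND) :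
    ∃ (ι : Type) (_ : Fintype ι) (_ : DecidableEq ι) (fr : Q.Frame ι) (dg : ι → ℤ), fr.W = ⊤ ∧
      ∀ i j, Q.F (fr.b i) (fr.b' j) ∈ Fl.grE (dg i - dg j) := by
  obtain ⟨fr, hfr⟩ := Q₀.exists_frame h₀
  have hyp : Q.Hyp (Fl.frame fr hfr).W ⊤ (Fl.u 0) (Fl.u' 0) :=
    ⟨Fl.uu _ _, Fl.u'u' _ _, Fl.u'u0, by rintro _ ⟨v, rfl⟩; exact Fl.u_inc v 0,
      by rintro _ ⟨v, rfl⟩; exact Fl.u'_inc v 0, le_top, trivial, trivial, fun x _ =>
        ⟨Fl.pr x, by
          have := Fl.dec x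
          simp only [Fin.sum_univ_one] at this
          linear_combination (norm := abel) this⟩⟩
  refine ⟨_, inferInstance, inferInstance, (Fl.frame fr hfr).ext hyp,
    fun o => o.elim 1 fun o => o.elim (-1) fun _ => 0, rfl, fun i j => ?_⟩
  rw [sub_eq_add_neg]
  refine F_grE ?_ ?_
  · rcases i with _ | _ | i
    exacts [Fl.hm_u, Fl.hm_u', Fl.hm_inc _]
  · rcases j with _ | _ | j
    exacts [Fl.hm_u', (map_smul _ _ _).trans (congrArg _ Fl.hm_u), Fl.hm_inc _]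

theorem gr0_dec {x : Q.g} (hx : x.1 ∈ Fl.grE 0) : ∃ (x₀ : Q₀.g) (c : k),
    x = Fl.ext x₀ + c • Q.Fs (Fl.u 0) (Fl.u' 0) := by
  refine ⟨⟨_, Q₀.mem_g.2 (Fl.sk_res (Q.sk_of x))⟩, Q.β (Fl.u' 0) (x.1 (Fl.u 0)), ?_⟩
  rw [← sub_eq_zero]
  refine Subtype.ext (eq_zero_of (Fl := Fl) (Q.sk_of _) ?_ ?_ fun v => ?_)
  · have := hx 1 (Fl.u 0)
    rw [hm_u] at this
    simpa [Emb.ext_apply, Fl.pr_u, h_u, sub_eq_zero, P] using this
  · have := hx (-1) (Fl.u' 0)
    rw [hm_u'] at this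
    simpa [Emb.ext_apply, Fl.pr_u', h_u', P, Q.sk_of x _, add_eq_zero_iff_eq_neg] using this
  · simp [Emb.ext_apply, Fl.pr_inc, F_apply, Fl.u_inc, Fl.u'_inc]

namespace DS

variable {n : ℕ} (D : Fl.DS n) (p : ℕ) [Fact p.Prime] [Fact (Odd p)] [CharP k p] (e₀ : End k V₀)

theorem mem_gr {d : ℤ} {x : Q.g} (hx : x.1 ∈ Fl.grE d) : (x, 0) ∈ (D.tri p e₀).gr d :=
  ⟨hx, fun _ => rfl⟩

/-- the Levi factor -/
noncomputable def j0 : Q₀.g →ₗ⁅k⁆ (D.tri p e₀).par where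
  toFun x := ⟨(Fl.ext x, 0), (D.tri p e₀).mem_par_of_gr le_rfl (D.mem_gr p e₀ (Fl.ext_grE _))⟩
  map_add' x y := Subtype.ext (Prod.ext (map_add Fl.ext x y) (add_zero _).symm)
  map_smul' c x := Subtype.ext (Prod.ext (map_smul Fl.ext c x) (smul_zero _).symm)
  map_lie' {x y} := Subtype.ext (Prod.ext (Fl.ext.map_lie x y) (lie_self (0 : k)).symm)

theorem h_mem : (Q.Fs (Fl.u 0) (Fl.u' 0), 0) ∈ (D.tri p e₀).gr 0 :=
  D.mem_gr p e₀ (by simpa using F_grE Fl.hm_u Fl.hm_u')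

/-- the grading element -/
noncomputable def hh : (D.tri p e₀).par := ⟨_, (D.tri p e₀).mem_par_of_gr le_rfl (D.h_mem p e₀)⟩

theorem par_ind (U : Submodule k (D.tri p e₀).par) (h1 : ∀ x, D.j0 p e₀ x ∈ U)
    (h2 : D.hh p e₀ ∈ U) (h3 : ∀ d, 0 < d → ∀ x : (D.tri p e₀).par, x.1 ∈ (D.tri p e₀).gr d → x ∈ U)
    (x : (D.tri p e₀).par) : x ∈ U := by
  refine (D.tri p e₀).par_induction U (fun d hd x hx => ?_) x
  rcases hd.eq_or_lt with rfl | hd
  · obtain ⟨x₀, c, h⟩ := gr0_dec hx.1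
    have : x = D.j0 p e₀ x₀ + c • D.hh p e₀ :=
      Subtype.ext (Prod.ext h ((hx.2 (by omega)).trans (by change 0 = 0 + c • (0 : k); simp)))
    rw [this]; exact add_mem (h1 _) (U.smul_mem _ h2)
  · exact h3 d hd x hx

variable {D p e₀}

theorem adm_iso {E E' : LRep k (D.tri p e₀).par} (hE : (D.tri p e₀).Adm E)
    (hE' : (D.tri p e₀).Adm E') {ν : k} (h : ∀ m, E.ρ (D.hh p e₀) m = ν • m)
    (h' : ∀ m, E'.ρ (D.hh p e₀) m = ν • m) (hi : (E.res (D.j0 p e₀)).Iso (E'.res (D.j0 p e₀))) :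
    E.Iso E' := by
  obtain ⟨f, hf⟩ := hi
  refine ⟨f, fun x m => D.par_ind p e₀ (LinearMap.eqLocus
    (f.toLinearMap ∘ₗ LinearMap.applyₗ m ∘ₗ E.ρ.toLinearMap)
    (LinearMap.applyₗ (f.toLinearMap m) ∘ₗ E'.ρ.toLinearMap)) (fun x => hf x m) ?_
      (fun d hd x hx => ?_) x⟩
  · change f.toLinearMap (E.ρ _ m) = E'.ρ _ _
    rw [h, h', map_smul]
  · change f.toLinearMap (E.ρ _ m) = E'.ρ _ _
    rw [hE.pos d hd x hx, hE'.pos d hd x hx, map_zero]

theorem adm_data [IsAlgClosed k] [FiniteDimensional k V] [FiniteDimensional k V₀] (h₀ : Q₀.ND)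
    (he₀ : Q₀.Sk e₀) (hT : Q₀.Typed p e₀) {E : LRep k (D.tri p e₀).par}
    (hE : (D.tri p e₀).Adm E) : ∃ (ν : k) (θ₀ : ℕ → k) (t : Multiset k), ν ^ p = ν ∧
      (∀ m, E.ρ (D.hh p e₀) m = ν • m) ∧ Q₀.Adm p e₀ θ₀ (E.res (D.j0 p e₀)) ∧
      IsType Q₀.ε (finrank k V₀) θ₀ t ∧
      Fl.HW (((D.tri p e₀).Ind E).res (LieHom.inl k Q.g k)) (E.res (D.j0 p e₀))
        ((D.tri p e₀).inc E) fun _ => ν := by
  haveI := hE.fd
  haveI := hE.simple.1
  obtain ⟨ν, hν⟩ := hE.simple.schur (f := E.ρ (D.hh p e₀)) fun x m => by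
    have := D.par_ind p e₀ (LinearMap.ker (E.ρ.toLinearMap ∘ₗ LieAlgebra.ad k _ (D.hh p e₀)))
      (fun x => ?_) ?_ (fun d hd x hx => LinearMap.ext (hE.pos d hd _ ?_)) x
    · rw [E.comm_apply, show E.ρ ⁅D.hh p e₀, x⁆ = 0 from this]; simp
    · change E.ρ ⁅D.hh p e₀, D.j0 p e₀ x⁆ = 0
      rw [← lie_skew, show ⁅D.j0 p e₀ x, D.hh p e₀⁆ = 0 from Subtype.ext (Prod.ext
        (Fl.lie_ext_Fs x (Fl.pr_u 0) (Fl.pr_u' 0)) (lie_self (0 : k)))]
      simp
    · change E.ρ ⁅D.hh p e₀, D.hh p e₀⁆ = 0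
      simp
    · exact zero_add d ▸ (D.tri p e₀).lie_mem _ _ _ _ (D.h_mem p e₀) hx
  have hs : (E.res (D.j0 p e₀)).Simple := by
    refine ⟨hE.simple.1, fun N hN => hE.simple.2 N fun x m hm => D.par_ind p e₀
      (N.comap (LinearMap.applyₗ m ∘ₗ E.ρ.toLinearMap)) (fun x => hN x m hm) ?_
        (fun d hd x hx => ?_) x⟩
    · change E.ρ _ m ∈ N
      rw [hν]; exact N.smul_mem _ hm
    · change E.ρ _ m ∈ N
      rw [hE.pos d hd x hx]; exact N.zero_mem
  have hp : Q₀.PChar p e₀ (E.res (D.j0 p e₀)) := fun x m => by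
    have h1 := hE.rel 0 le_rfl (D.j0 p e₀ x) (D.mem_gr p e₀ (Fl.ext_grE _)) m
    have h2 : Fl.pr ∘ₗ (Fl.inc ∘ₗ e₀ ∘ₗ Fl.pr) ∘ₗ Fl.inc = e₀ := by ext; simp [Fl.pr_inc]
    refine h1.trans (congrArg₂ (· + ·) (congrArg (E.ρ · m)
      (Subtype.ext (Prod.ext (Fl.ext_pw p x).symm rfl))) ?_)
    change Q.χ _ (Fl.ext x) ^ p • m = _
    rw [Emb.χ_ext, h2]
  obtain ⟨θ₀, hθ₀⟩ := Q₀.exists_cc h₀ hs
  have hA : Q₀.Adm p e₀ θ₀ (E.res (D.j0 p e₀)) := ⟨hE.fd, hs, hp, hθ₀⟩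
  obtain ⟨t, ht⟩ := hT θ₀ _ hA
  obtain ⟨m, hm⟩ := exists_ne (0 : E.M)
  refine ⟨ν, θ₀, t, smul_left_injective k hm ?_, hν, hA, ht,
    fun x v => ((D.tri p e₀).inc_par E (D.j0 p e₀ x) v).symm,
    fun h => hm ((D.tri p e₀).inc_inj E ((LinearMap.congr_fun h m).trans (map_zero _).symm)),
    fun v j w hw => ?_, fun i v => ?_⟩
  · have h1 := hE.rel 0 le_rfl (D.hh p e₀) (D.h_mem p e₀) m
    have h2 : ∀ n, (E.ρ (D.hh p e₀) ^ n) m = ν ^ n • m := fun n => by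
      rw [show E.ρ (D.hh p e₀) = ν • 1 from LinearMap.ext hν, smul_pow, one_pow]; rfl
    have h3 : (D.tri p e₀).cp (D.hh p e₀) = 0 := by
      change Q.χ _ (Q.Fs _ _) ^ p = 0
      rw [χ_Fs _ (Fl.sk_ext he₀)]
      simp [Fl.pr_u, (Fact.out : p.Prime).ne_zero]
    rw [h2, h3, zero_smul, add_zero] at h1
    refine h1.trans (Eq.trans (congrArg (E.ρ · m) ?_) (hν m))
    exact Subtype.ext (Prod.ext (Fl.h_pw p 0) rfl)
  · have key : ∀ w (d : ℤ), 0 ≤ d → Fl.P d w = w → Q.φ (((D.tri p e₀).Ind E).res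
        (LieHom.inl k Q.g k)) (Fl.u 0) w ((D.tri p e₀).inc E v) = 0 := fun w d hd hw => by
      have h1 := D.mem_gr p e₀ (x := Q.Fs _ _) (F_grE Fl.hm_u hw)
      exact ((D.tri p e₀).inc_par E ⟨_, (D.tri p e₀).mem_par_of_gr (by omega) h1⟩ v).trans
        (by rw [hE.pos _ (by omega) _ h1, map_zero])
    obtain rfl : j = 0 := Subsingleton.elim _ _
    rw [← Fl.dec w]
    simp [Q.symm_zero (hw.1 0 le_rfl), key _ 1 (by omega) Fl.hm_u, key _ 0 le_rfl (Fl.hm_inc _)]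
  · obtain rfl : i = 0 := Subsingleton.elim _ _
    exact ((D.tri p e₀).inc_par E (D.hh p e₀) v).trans (by rw [hν, map_smul])

end DS

theorem el_bc (K : Type u) [Field K] [Algebra k K] (e₀ : End k V₀) (a : V₀) (t : k) :
    (Fl.bc K).el (e₀.baseChange K) (1 ⊗ₜ a) (algebraMap k K t) = (Fl.el e₀ a t).baseChange K := by
  rw [el, el, LinearMap.baseChange_add, LinearMap.baseChange_comp, LinearMap.baseChange_comp,
    ← bc_F, tmul_add, tmul_smul, ← algebraMap_smul K t]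
  rfl

theorem T2 [IsAlgClosed k] [FiniteDimensional k V] [FiniteDimensional k V₀] {p : ℕ}
    [Fact p.Prime] [Fact (Odd p)] [CharP k p] (hQ : Q.ND) (h₀ : Q₀.ND) {e₀ : End k V₀}
    (he₀ : Q₀.Sk e₀) {m : ℕ} (hm : e₀ ^ (m + 1) = 0) {a₀ : V₀} (h0 : Q₀.β ((e₀ ^ m) a₀) a₀ ≠ 0)
    (t₀ : k) (hT : Q₀.Typed p e₀) {b : ℕ} (hB : Q₀.Bound p e₀ b) :
    Q.Bound p (Fl.el e₀ a₀ t₀) (2 * (finrank k V / 2 * 2 * b)) ∧
      ((∀ v w, Q₀.β ((e₀ ^ m) v) w * Q₀.β ((e₀ ^ m) a₀) a₀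
          = Q₀.β ((e₀ ^ m) v) a₀ * Q₀.β ((e₀ ^ m) w) a₀) →
        Q.Bound p (Fl.el e₀ a₀ t₀) (finrank k V / 2 * 2 * b)) := by
  obtain ⟨n, ⟨D⟩⟩ := Fl.exists_DS h₀
  obtain ⟨ι, _, _, fr, dg, hfr, hdg⟩ := Fl.exists_hm_frame h₀
  let T := D.tri p e₀
  -- the field
  let q : MvPolynomial (Fin n) k := ∑ i, ∑ j, MvPolynomial.C
    (Q₀.β ((e₀ ^ m) (Fl.pr (D.ω' i))) (Fl.pr (D.ω' j)) / Q₀.β ((e₀ ^ m) a₀) a₀)
      * (MvPolynomial.X i * MvPolynomial.X j)
  have hq : q ≠ 0 := by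
    obtain ⟨s, hs⟩ := D.span a₀
    intro h
    have := congrArg (MvPolynomial.eval s) h
    simp only [q, map_sum, map_mul, MvPolynomial.eval_C, MvPolynomial.eval_X, map_zero,
      div_mul_eq_mul_div, ← Finset.sum_div, div_eq_zero_iff, h0, or_false] at this
    refine h0 ?_
    rw [← hs, ← this]
    simp only [map_sum, map_smul, LinearMap.sum_apply, LinearMap.smul_apply, smul_eq_mul,
      Finset.mul_sum]
    rw [Finset.sum_comm]
    exact Finset.sum_congr rfl fun i _ => Finset.sum_congr rfl fun j _ => by ring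
  obtain ⟨K, _, _, ξ, σ, δ, hξ, hσ, hGen, hδ, hsq⟩ := exists_field q
  let a : K ⊗[k] V₀ := ∑ i, ξ i ⊗ₜ Fl.pr (D.ω' i)
  let t : K := ∑ i, ξ i * algebraMap k K (Q.β (Fl.u' 0) (D.ω' i))
  have hb : ∀ (c c' : K) v w, (Q₀.bc K).β ((e₀.baseChange K ^ m) (c ⊗ₜ v)) (c' ⊗ₜ w)
      = algebraMap k K (Q₀.β ((e₀ ^ m) v) w) * (c * c') := fun c c' v w => by
    rw [← LinearMap.baseChange_pow, LinearMap.baseChange_tmul, bc_β]
  have h0' := (map_ne_zero (algebraMap k K)).2 h0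
  have hconj := (Fl.bc K).conj_gen (he₀.bc K) (m := m) (a := a) (a₀ := 1 ⊗ₜ a₀) (l := δ)
    (by rw [← LinearMap.baseChange_pow, hm, LinearMap.baseChange_zero])
    (by simpa [hb] using h0) (fun h => hq (hξ (by simp [← hδ, h]))) (by
      simp only [a, q, hδ, map_sum, LinearMap.sum_apply, hb, map_mul, MvPolynomial.aeval_X,
        MvPolynomial.aeval_C, Finset.sum_mul, map_div₀]
      rw [Finset.sum_comm]
      exact Finset.sum_congr rfl fun i _ => Finset.sum_congr rfl fun j _ => by field_simp)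
    t (algebraMap k K t₀)
  rw [el_bc] at hconj
  obtain ⟨Λ, l1, l2, l3, l4⟩ := exists_twist K hQ p hconj
  have htr : ∀ x : Q.g, LinearMap.trace K _ ((Fl.bc K).el (e₀.baseChange K) a t * x.1.baseChange K)
      = algebraMap k K (Q.χ (Fl.inc ∘ₗ e₀ ∘ₗ Fl.pr) x)
        + ∑ i, ξ i * algebraMap k K (T.c i.succ (x, 0)) := by
    intro x
    have h1 : (Fl.bc K).inc a + t • (Fl.bc K).u 0 = ∑ i, ξ i ⊗ₜ D.ω' i := by
      simp only [a, t, map_sum, Finset.sum_smul, ← Finset.sum_add_distrib]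
      refine Finset.sum_congr rfl fun i _ => ?_
      have h2 : Q.β (D.ω' i) (Fl.u 0) = 0 := by
        have := D.δ_pos i
        rw [← D.hm' i, P_adj, P_u, if_neg (by omega), map_zero]
      conv_rhs => rw [← Fl.dec (D.ω' i)]
      simp [h2, Flag.bc, tmul_add, add_comm, smul_tmul', Algebra.smul_def, mul_comm]
    rw [el, h1, add_mul, map_add, LinearMap.trace_mul_comm K ((Q.bc K).F _ _),
      trace_mul_F _ ((Q.sk_of x).bc K), χ_apply, ← LinearMap.trace_baseChange,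
      LinearMap.baseChange_mul, LinearMap.baseChange_comp, LinearMap.baseChange_comp]
    congr 1
    simp only [map_sum, LinearMap.sum_apply, Finset.mul_sum]
    refine Finset.sum_congr rfl fun i _ => ?_
    change 2 * (Q.bc K).β _ (1 ⊗ₜ _) = ξ i * algebraMap k K (2 * Q.β (D.ω' i) (x.1 (Fl.u 0)))
    rw [bc_β, map_mul, map_ofNat]; ring
  -- the central elements
  let c : ℕ → FreeAlgebra k (ℤ × (Q.g × k)) := cas
    (fun i j => FreeAlgebra.ι k (dg i - dg j, (Q.Fs (fr.b i) (fr.b' j), 0)))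
    (algebraMap k _ (sh Q.ε (Fintype.card ι)))
  have hc : ∀ j, c j ∈ degSub k (Q.g × k) 0 := cas_mem (degSub k _)
    (map_one (algebraMap k (FreeAlgebra k (ℤ × (Q.g × k)))) ▸ algebraMap_mem_degSub 1) mul_mem_degSub dg _ _
    (fun i j => ι_mem_degSub _) (algebraMap_mem_degSub _)
  have hlift : ∀ (B : Type u) [Ring B] [Algebra k B] (f : Q.g × k → B) j,
      FreeAlgebra.lift k (fun h : ℤ × (Q.g × k) => f (T.pr h.1 h.2)) (c j)
        = cas (fun i j => f (Q.Fs (fr.b i) (fr.b' j), 0))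
          (algebraMap k _ (sh Q.ε (Fintype.card ι))) j := by
    intro B _ _ f j
    refine (map_cas (FreeAlgebra.lift k _).toRingHom _ _ j).trans ?_
    congr 1
    · funext i j
      refine (FreeAlgebra.lift_ι_apply _ _).trans ?_
      rw [T.pr_of_mem _ _ _ (D.mem_gr p e₀ (hdg i j)), if_pos rfl]
    · exact AlgHom.commutes _ _
  have hact : ∀ R j, T.act R (c j) = fr.C (Q.φ (R.res (LieHom.inl k Q.g k))) j :=
    fun R => hlift _ R.ρ
  have h1 : ∀ E, T.Adm E → ∃ θ', T.CC c E θ' := by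
    intro E hE
    obtain ⟨ν, θ₀, s, a1, -, a3, a4, a5⟩ := DS.adm_data h₀ he₀ hT hE
    have key := fun v => pp_multi (p := p) h₀ (a5.top v) (fun i => a5.wt i v) (fun _ => a1) a4
      fun ι _ _ fr hfr n => by rw [← C_intertwine fr a5.hom, a3.cc ι fr hfr, map_smul]
    obtain ⟨θ', b1, -⟩ := key 0
    refine ⟨θ', fun j => ?_⟩
    rw [hact]
    refine T.Ind_scalar E (fun x => (fr.C_comm _ (Q.sk_of x.1) (fun _ _ => hfr ▸ trivial) _
      (fun v w => ?_) j).symm) fun v => ?_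
    · refine ((T.Ind E).lie_eq x (Q.Fs v w, 0)).symm.trans ?_
      rw [φ_apply, φ_apply, ← map_add, ← lie_Fs]
      exact congrArg (T.Ind E).ρ (Prod.ext rfl (lie_zero _))
    · obtain ⟨θ'', b2, κ, _, _, fr', b3, b4⟩ := key v
      rw [fr.C_indep _ fr' (hfr.trans b3.symm), b4, b2.char_eq Q.two b1 rfl]
  have main : ∀ (θ : ℕ → k) (A : Type u) [Fintype A] (R : A → LRep k Q.g),
      (∀ a, Q.Adm p (Fl.el e₀ a₀ t₀) θ (R a)) → (∀ a a', (R a).Iso (R a') → a = a') →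
      Fintype.card A ≤ 2 * (finrank k V / 2 * 2 * b) ∧
        ((∀ a, σ a = a) → Fintype.card A ≤ finrank k V / 2 * 2 * b) := by
    intro θ A _ R hR hiso
    let ρ : ∀ a, Q.g × k →ₗ[k] End K (K ⊗[k] (R a).M) := fun a =>
      Λ (R a) ∘ₗ LinearMap.fst k _ k + Algebra.linearMap k _ ∘ₗ LinearMap.snd k _ k
    have hρ : ∀ a x, ρ a x = Λ (R a) x.1 + x.2 • 1 := fun a x => by
      rw [← Algebra.algebraMap_eq_smul_one]; rfl
    let S : A → T.GenRep K ξ := fun a =>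
      haveI := (hR a).fd
      haveI := (hR a).simple.1
      { S := K ⊗[k] (R a).M
        ρ := ρ a
        lie := fun x y => by
          simp only [hρ, LieAlgebra.Prod.bracket_apply, l1, LieRing.of_associative_ring_bracket,
            mul_add, add_mul, mul_smul_comm, smul_mul_assoc, mul_one, one_mul]
          module
        y0 := by simp [hρ, T, DS.tri, yy]
        ys := fun i => by
          have h2 : Q.χ (Fl.inc ∘ₗ e₀ ∘ₗ Fl.pr) (Q.Fs (Fl.u' 0) (D.ω i)) = 0 :=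
            grE_trace (grE_mul (Fl.ext_grE e₀) (D.y_mem i)) (by have := D.δ_pos i; omega)
          have h3 : ∀ j : Fin n, T.c j.succ (Q.Fs (Fl.u' 0) (D.ω i), 0)
              = if j.succ = i.succ then 1 else 0 := fun j => T.c_y j.succ i.succ
          change ρ a (Q.Fs (Fl.u' 0) (D.ω i), 0) ^ p = _
          rw [hρ, zero_smul, add_zero, l2 _ (hR a).pchar, D.pw_y, htr, h2]
          simp [h3, Algebra.algebraMap_eq_smul_one (R := K), apply_ite (algebraMap k K)]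
        rel := fun d hd x hx => by
          have h2 : x.2 = 0 := hx.2 (by omega)
          have h3 : ∀ j : Fin n, T.c j.succ (x.1, 0) = 0 := fun j =>
            T.c_zero _ d _ (D.mem_gr p e₀ hx.1) (by have := T.δ_pos j.succ; omega)
          rw [hρ, hρ, h2, zero_smul, add_zero, l2 _ (hR a).pchar, htr]
          simp only [h3, map_zero, mul_zero, Finset.sum_const_zero, add_zero, ← map_pow,
            algebraMap_smul]
          change _ = _ + (0 : k) • _ + _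
          rw [zero_smul, add_zero]; rfl }
    choose κ _ cf y hy using l4
    let Ψ : FreeAlgebra k Q.g →ₐ[k] K ⊗[k] FreeAlgebra k (ℤ × (Q.g × k)) := FreeAlgebra.lift k
      fun x => ∑ l, cf x l ⊗ₜ ∑ d ∈ T.D, FreeAlgebra.ι k (d, (y x l, 0))
    have hΨ : ∀ a w, (S a).π (Ψ w) = ((R a).act w).baseChange K := by
      intro a
      have : (S a).π.comp Ψ = (End.baseChangeHom k K _).comp (R a).act := by
        refine FreeAlgebra.hom_ext (funext fun x => ?_)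
        change (S a).π (Ψ (FreeAlgebra.ι k x)) = ((R a).act (FreeAlgebra.ι k x)).baseChange K
        rw [LRep.act_ι, hy, FreeAlgebra.lift_ι_apply, map_sum]
        refine Finset.sum_congr rfl fun l _ => ?_
        rw [Tri.GenRep.π_tmul, map_sum]
        simp only [Tri.GenRep.π0, FreeAlgebra.lift_ι_apply, ← map_sum, T.sum_pr]
        exact congrArg _ ((hρ a _).trans (by simp))
      exact AlgHom.congr_fun this
    refine T.generic_bound3 rfl rfl (fun _ => rfl) hξ σ hσ hGen c hc θ _ h1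
      (fun A' _ E hE hi => ?_) S (fun a j => ?_) (fun a f => ?_) fun a a' h => hiso _ _ ?_
    · choose ν θ₀ s a1 a2 a3 a4 a5 using fun a => DS.adm_data h₀ he₀ hT (hE a).1
      have := count_hw (Fl := Fl) hB _ (fun a _ => ν a) θ₀ s a3 a4 (fun a =>
        (a5 a).type (p := p) h₀ (fun _ => a1 a)
          (HasCC.of_frame fr hfr fun j m => hact _ j ▸ (hE a).2 j m) (a3 a).cc (a4 a))
        fun a a' h hi' => hi _ _ (DS.adm_iso (hE a).1 (hE a').1 (a2 a)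
          ((show ν a' = ν a by simpa [lw, eq_comm] using h) ▸ a2 a') hi')
      simpa using this
    · refine (hlift _ (ρ a) j).trans (Eq.trans ?_ (l3 _ θ (hR a).cc ι fr hfr j))
      simp only [hρ, zero_smul, add_zero]
    · haveI := (hR a).fd
      haveI : Module.FinitePresentation k (R a).M := Module.finitePresentation_of_finite _ _
      refine (Module.FinitePresentation.isBaseChange_map k (R a).M (R a).M K).inductionOn f
        (fun f => ∃ z, (S a).π z = f) ⟨0, map_zero _⟩ (fun f => ?_) ?_ ?_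
      · obtain ⟨w, rfl⟩ := LRep.act_surj (hR a).simple f
        exact ⟨_, hΨ a w⟩
      · rintro s _ ⟨z, rfl⟩
        exact ⟨(s ⊗ₜ 1) * z, by rw [map_mul, Tri.GenRep.π_tmul, map_one, smul_mul_assoc, one_mul]⟩
      · rintro _ _ ⟨z, rfl⟩ ⟨z', rfl⟩
        exact ⟨z + z', map_add _ _ _⟩
    · haveI := (hR a).fd
      refine LRep.iso_of_ker (hR a).simple (hR a').simple fun w => ?_
      have := h (Ψ w)
      rw [hΨ, hΨ] at this
      exact (map_eq_zero_iff _ (LinearMap.baseChangeHom_injective k _ K)).symm.trans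
        (this.trans (map_eq_zero_iff _ (LinearMap.baseChangeHom_injective k _ K)))
  refine ⟨fun θ A _ R h1 h2 => (main θ A R h1 h2).1,
    fun h θ A _ R h1 h2 => (main θ A R h1 h2).2 (hsq ⟨∑ i, MvPolynomial.C
      (Q₀.β ((e₀ ^ m) (Fl.pr (D.ω' i))) a₀ / Q₀.β ((e₀ ^ m) a₀) a₀) * MvPolynomial.X i, ?_⟩)⟩
  rw [sq, Finset.sum_mul_sum]
  refine Finset.sum_congr rfl fun i _ => Finset.sum_congr rfl fun j _ => ?_
  rw [mul_mul_mul_comm, ← map_mul, div_mul_div_comm, ← h, mul_div_mul_right _ _ h0]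

end Flag

end QF

end Pool.Agent.P.Bf04
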