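import Pool.Agent.P.MP_bf0464_al.T2

/-! Base cases and the type of central characters. -/

namespace Pool.Agent.P.Bf04

open Module

attribute [local instance 100] LieRing.ofAssociativeRing

universe u

theorem exists_iso {k V : Type*} [Field k] [IsAlgClosed k] [AddCommGroup V] [Module k V]
    (h2 : (2 : k) ≠ 0) (b : V →ₗ[k] V →ₗ[k] k) {x : V} (hx : b x x ≠ 0) (v : V) :
    ∃ s : k, b (v - s • x) (v - s • x) = 0 := by
  haveI : NeZero (2 : k) := ⟨h2⟩
  obtain ⟨s, hs⟩ := exists_quadratic_eq_zero (b := -(b v x + b x v)) (c := b v v) hx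
    (IsAlgClosed.exists_eq_mul_self _)
  refine ⟨s, ?_⟩
  simp only [map_sub, map_smul, LinearMap.sub_apply, LinearMap.smul_apply, smul_eq_mul]
  linear_combination hs

theorem exists_index {R : Type*} [Ring R] [Nontrivial R] {e : R} (h : IsNilpotent e) :
    ∃ M, e ^ (M + 1) = 0 ∧ e ^ M ≠ 0 := by
  classical
  have h1 := Nat.find_spec h
  obtain ⟨M, hM⟩ : ∃ M, Nat.find h = M + 1 :=
    Nat.exists_eq_succ_of_ne_zero fun h0 => by simp [h0] at h1
  exact ⟨M, hM ▸ h1, Nat.find_min h (by omega)⟩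

namespace QF

variable {k V V₀ : Type u} [Field k] [AddCommGroup V] [Module k V] [AddCommGroup V₀]
  [Module k V₀] {Q : QF k V} {Q₀ : QF k V₀} {p : ℕ} [Fact p.Prime] [Fact (Odd p)] [CharP k p]
  {e : End k V}

theorem g_zero_of_triv (h : ∀ v : V, v = 0) (x : Q.g) : x = 0 :=
  Subtype.ext (LinearMap.ext fun _ => h _)

theorem g_zero_of_line {x : V} (hx : Q.β x x ≠ 0) (h : ∀ v, ∃ s : k, v = s • x) (y : Q.g) :
    y = 0 := by
  obtain ⟨c, hc⟩ := h (y.1 x)
  have h1 := Q.sk_of y x x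
  rw [hc] at h1
  simp only [map_smul, LinearMap.smul_apply, smul_eq_mul] at h1
  have h2 : c = 0 := by
    apply mul_left_cancel₀ (mul_ne_zero Q.two hx)
    linear_combination h1
  refine Subtype.ext (LinearMap.ext fun v => ?_)
  obtain ⟨s, rfl⟩ := h v
  simp [hc, h2]

theorem finrank_line {x : V} (hx : Q.β x x ≠ 0) (h : ∀ v, ∃ s : k, v = s • x) :
    finrank k V = 1 :=
  finrank_eq_one x (by rintro rfl; simp at hx) fun v => (h v).imp fun _ => Eq.symm

theorem finrank_triv (h : ∀ v : V, v = 0) : finrank k V = 0 :=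
  haveI : Subsingleton V := ⟨fun a b => (h a).trans (h b).symm⟩
  finrank_zero_of_subsingleton

omit [Fact p.Prime] [CharP k p] in
theorem bound_one (h : ∀ x : Q.g, x = 0) : Q.Bound p e 1 := by
  intro θ A _ R hR hi
  refine Fintype.card_le_one_iff.2 fun a a' => hi _ _ ?_
  haveI := (hR a).simple.1
  haveI := (hR a').simple.1
  obtain ⟨s, hs⟩ := exists_ne (0 : (R a).M)
  obtain ⟨s', hs'⟩ := exists_ne (0 : (R a').M)
  obtain ⟨f, hf⟩ := Module.Projective.exists_dual_eq_one k hs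
  refine LRep.iso_of_hom (hR a).simple (hR a').simple (f := f.smulRight s')
    (fun x m => by simp [h x]) fun h0 => hs' ?_
  simpa [hf] using LinearMap.congr_fun h0 s

omit [Fact p.Prime] [CharP k p] in
theorem typed_triv (h : ∀ v : V, v = 0) : Q.Typed p e := by
  intro θ R hR
  haveI := hR.simple.1
  obtain ⟨m, hm⟩ := exists_ne (0 : R.M)
  let fr : Q.Frame Empty := ⟨⊤, Empty.elim, Empty.elim, fun _ => trivial, fun _ => trivial,
    fun x _ => (h _).trans (h _).symm, fun x _ => (h _).trans (h _).symm, fun i => i.elim⟩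
  obtain rfl : θ = fun _ => 0 := funext fun n => smul_left_injective k hm (by
    simpa [Frame.C, cas, Matrix.trace] using (hR.cc _ fr rfl n m).symm)
  rw [finrank_triv h]
  exact ⟨0, isType_zero _⟩

omit [Fact p.Prime] [CharP k p] in
theorem typed_line {x : V} (hx : Q.β x x ≠ 0) (h : ∀ v, ∃ s : k, v = s • x) : Q.Typed p e := by
  intro θ R hR
  haveI := hR.simple.1
  obtain ⟨m, hm⟩ := exists_ne (0 : R.M)
  have hε : Q.ε = 1 := mul_right_cancel₀ hx ((Q.symm x x).symm.trans (one_mul _).symm)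
  let fr : Q.Frame Unit := ⟨⊤, fun _ => x, fun _ => (Q.β x x)⁻¹ • x, fun _ => trivial,
    fun _ => trivial, fun v _ => by obtain ⟨s, rfl⟩ := h v; simp [hx],
    fun v _ => by obtain ⟨s, rfl⟩ := h v; simp [hx, smul_smul], fun _ _ => by simp [hx]⟩
  have key : ∀ n, fr.C (Q.φ R) n = algebraMap k _ (2⁻¹ ^ n) := by
    have h1 : ∀ v w, Q.φ R v w = 0 := fun v w => by rw [φ_apply, g_zero_of_line hx h (Q.Fs v w)]; simp
    have h2 : sh Q.ε (Fintype.card Unit) = -2⁻¹ := by simp [sh, hε]; ring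
    intro n
    simp only [Frame.C, cas, Matrix.trace, h1, h2, Finset.univ_unique, Finset.sum_singleton,
      Matrix.diag]
    induction n with
    | zero => simp
    | succ n ih => rw [Om_pow_succ, ih, pow_succ', map_mul]; simp
  obtain rfl : θ = fun n => 2⁻¹ ^ n := funext fun n => smul_left_injective k hm (by
    have := hR.cc _ fr rfl n m
    rw [key] at this
    exact this.symm)
  rw [finrank_line hx h, hε]
  exact ⟨0, isType_one Q.two⟩

theorem exists_partner (hQ : Q.ND) {u : V} (h0 : u ≠ 0) (hu : Q.β u u = 0) :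
    ∃ u', Q.β u' u' = 0 ∧ Q.β u' u = 1 := by
  obtain ⟨w, hw⟩ : ∃ w, Q.β w u ≠ 0 := by
    by_contra hc
    push Not at hc
    exact h0 (hQ u fun w => Q.symm_zero (hc w))
  obtain ⟨x, hx⟩ : ∃ x, Q.β x u = 1 := ⟨(Q.β w u)⁻¹ • w, by simp [hw]⟩
  refine ⟨x - (Q.β x x / 2) • u, ?_, by simp [hx, hu]⟩
  have := Q.two
  simp only [map_sub, map_smul, LinearMap.sub_apply, LinearMap.smul_apply, smul_eq_mul, hx, hu,
    Q.symm u x]
  field_simp
  linear_combination 2 * Q.symm x x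

namespace Flag

variable (Fl : Q.Flag Q₀ 1)

theorem degs1 : Fl.Degs fun _ => 1 :=
  ⟨Subsingleton.strictAnti _, fun _ => zero_le_one, fun _ h => absurd h one_ne_zero⟩

theorem eq_el (he : Q.Sk e) (hu : e (Fl.u 0) = 0) :
    ∃ a t, e = Fl.el (Fl.pr ∘ₗ e ∘ₗ Fl.inc) a t := by
  refine ⟨-Fl.pr (e (Fl.u' 0)), -(Q.β (Fl.u' 0) (e (Fl.u' 0)) / 2), ?_⟩
  rw [← sub_eq_zero]
  refine eq_zero_of (Fl := Fl) (he.sub ((Fl.sk_ext (Fl.sk_res he)).add (Q.F_sk _ _))) ?_ ?_
    fun v => ?_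
  · simp [hu, el_u]
  · have h1 := Fl.dec (e (Fl.u' 0))
    have h2 := Q.symm (Fl.u' 0) (e (Fl.u' 0))
    have := Q.two
    rw [he (Fl.u' 0) (Fl.u' 0)] at h2
    simp only [Fin.sum_univ_one, he _ (Fl.u 0), hu, map_zero, neg_zero, zero_smul, add_zero] at h1
    rw [LinearMap.sub_apply, el_u', map_neg, show -(Q.β (Fl.u' 0) (e (Fl.u' 0)) / 2) * (Q.ε - 1)
      = Q.β (Fl.u' 0) (e (Fl.u' 0)) by field_simp; linear_combination -h2]
    linear_combination (norm := abel) -h1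
  · simp [el_inc, Fl.pr_inc, Fl.pr_u]

theorem el_low (e₀ : End k V₀) (a : V₀) (t : k) : Fl.el e₀ a t ∈ Fl.swap.Low (fun _ => 1) 0 := by
  refine Fl.swap.low_of _ (fun i => ⟨fun _ h => by simp at h, fun _ h => by simp at h,
    fun h => by simp at h⟩) (fun i => ?_) fun v => ?_
  · rw [Subsingleton.elim i 0]
    change Fl.el e₀ a t (Q.ε • Fl.u 0) ∈ _
    simp [el_u]
  · change Fl.el e₀ a t (Fl.inc v) ∈ _
    rw [el_inc, neg_zero]
    refine add_mem (Fl.swap.inc_mem _ _) ⟨fun i _ => ?_, fun _ h => by simp at h,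
      fun h => by simp at h⟩
    change Q.β (Q.ε • Fl.u i) _ = 0
    simp [Fl.uu]

theorem el_res (e₀ : End k V₀) (a : V₀) (t : k) : Fl.pr ∘ₗ Fl.el e₀ a t ∘ₗ Fl.inc = e₀ := by
  ext v; simp [el_inc, Fl.pr_inc, Fl.pr_u]

theorem el_pow_inc (e₀ : End k V₀) (a : V₀) (t : k) (j : ℕ) (v : V₀) :
    (Fl.el e₀ a t ^ (j + 1)) (Fl.inc v)
      = Fl.inc ((e₀ ^ (j + 1)) v) + Q₀.β a ((e₀ ^ j) v) • Fl.u 0 := by
  induction j with
  | zero => simp [el_inc]
  | succ j ih => rw [pow_succ', End.mul_apply, ih, pow_succ' e₀ (j + 1)]; simp [el_inc, el_u]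

theorem el_pow_u' (e₀ : End k V₀) (a : V₀) (t : k) (j : ℕ) :
    (Fl.el e₀ a t ^ (j + 2)) (Fl.u' 0)
      = -(Fl.inc ((e₀ ^ (j + 1)) a) + Q₀.β a ((e₀ ^ j) a) • Fl.u 0) := by
  rw [pow_succ, End.mul_apply, el_u', map_add, map_neg, el_pow_inc, map_smul, pow_succ (Fl.el _ _ _),
    End.mul_apply, el_u]
  simp

end Flag

theorem line_flag [FiniteDimensional k V] (hQ : Q.ND) (he : Q.Sk e) (hn : IsNilpotent e) {u : V}
    (h0 : u ≠ 0) (hu : Q.β u u = 0) (heu : e u = 0) :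
    ∃ (V₀ : Type u) (_ : AddCommGroup V₀) (_ : Module k V₀) (_ : FiniteDimensional k V₀)
      (Q₀ : QF k V₀) (Fl : Q.Flag Q₀ 1) (e₀ : End k V₀) (a : V₀) (t : k), Fl.u 0 = u ∧ Q₀.ND ∧
      Q₀.Sk e₀ ∧ IsNilpotent e₀ ∧ e = Fl.el e₀ a t := by
  obtain ⟨u', h1, h2⟩ := exists_partner hQ h0 hu
  obtain ⟨V₀, _, _, _, Q₀, Fl, a1, -, a3⟩ := Q.exists_flag hQ (M := 1) (fun _ => u) (fun _ => u')
    (fun _ _ => hu) (fun _ _ => h1) fun i j => by rw [h2, if_pos (Subsingleton.elim _ _)]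
  have a4 : Fl.u 0 = u := by rw [a1]
  obtain ⟨a, t, h⟩ := Fl.eq_el he (a4 ▸ heu)
  exact ⟨V₀, _, _, inferInstance, Q₀, Fl, _, a, t, a4, a3, Fl.sk_res he,
    Flag.nil_res Fl.degs1 (h ▸ Fl.el_low _ a t) hn, h⟩

theorem typed_all [IsAlgClosed k] (N : ℕ) : ∀ (V : Type u) [AddCommGroup V] [Module k V]
    [FiniteDimensional k V] (Q : QF k V) (e : End k V), finrank k V < N → Q.ND → Q.Sk e →
      IsNilpotent e → Q.Typed p e := by
  induction N with
  | zero => intro V _ _ _ Q e h; omega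
  | succ N ih =>
    intro V _ _ _ Q e hN hQ he hn
    by_cases h : ∃ u, u ≠ 0 ∧ Q.β u u = 0 ∧ e u = 0
    · obtain ⟨u, h0, hu, heu⟩ := h
      obtain ⟨V₀, _, _, _, Q₀, Fl, e₀, a, t, -, h₀, he₀, hn₀, rfl⟩ := line_flag hQ he hn h0 hu heu
      have := Fl.finrank_eq
      intro θ R hR
      obtain ⟨E, j, ν, θ₀, s, -, -, -, h4⟩ := Flag.hw_adm h₀ Fl.degs1 (Fl.el_low e₀ a t)
        (fun i => by rw [χ_Fs _ he, Subsingleton.elim i 0, Fl.el_u]; simp)
        (by rw [Fl.el_res]; exact ih V₀ Q₀ e₀ (by omega) h₀ he₀ hn₀) hR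
      exact ⟨_, h4⟩
    push Not at h
    rcases subsingleton_or_nontrivial V with hV | hV
    · exact typed_triv fun v => Subsingleton.elim _ _
    obtain ⟨M, h1, h2⟩ := exists_index hn
    obtain ⟨x, hx⟩ : ∃ x, (e ^ M) x ≠ 0 := by
      by_contra hc
      push Not at hc
      exact h2 (LinearMap.ext hc)
    have h3 : ∀ v, e ((e ^ M) v) = 0 := fun v => by rw [← End.mul_apply, ← pow_succ', h1]; rfl
    have h4 : Q.β ((e ^ M) x) ((e ^ M) x) ≠ 0 := fun h4 => h _ hx h4 (h3 x)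
    obtain rfl : M = 0 := by
      by_contra hM
      refine h4 ?_
      rw [he.pow, pow_pow_apply, pow_eq_zero_of_le (by omega) h1]; simp
    refine typed_line h4 fun v => ?_
    obtain ⟨s, hs⟩ := exists_iso Q.two Q.β h4 v
    exact ⟨s, sub_eq_zero.1 (by_contra fun h5 => h _ h5 hs (h3 _))⟩

end QF

end Pool.Agent.P.Bf04
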