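import Pool.Agent.P.MP_bf0464_al.OneStep

/-! The type of a central character. -/

namespace Pool.Agent.P.Bf04

open PowerSeries

variable {k : Type*} [Field k]

/-- product of the factors `1 - a X` -/
noncomputable def lin (A : Multiset k) : PowerSeries k := (A.map fun a => 1 - C a * X).prod

theorem lin_add (A A' : Multiset k) : lin (A + A') = lin A * lin A' := by simp [lin]

theorem lin_ne (A : Multiset k) : lin A ≠ 0 := by
  intro h
  have := congrArg (constantCoeff (R := k)) h
  simp [lin, map_multiset_prod, Multiset.map_map] at this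

theorem lin_inj {A A' : Multiset k} (h : lin A = lin A') (hc : A.card = A'.card) : A = A' := by
  let P : Multiset k → Polynomial k := fun A =>
    (A.map fun a => 1 - Polynomial.C a * Polynomial.X).prod
  have h1 : ∀ A, Polynomial.coeToPowerSeries.ringHom (P A) = lin A := by
    intro A; simp [P, lin, map_multiset_prod, Multiset.map_map]
  have h2 : P A = P A' := by
    apply Polynomial.coe_injective k
    have := h1 A; have := h1 A'
    simp_all
  have h3 : ∀ A, (RatFunc.X : RatFunc k) ^ A.card * Polynomial.aeval (RatFunc.X : RatFunc k)⁻¹ (P A)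
      = algebraMap (Polynomial k) (RatFunc k)
        (A.map fun a => Polynomial.X - Polynomial.C a).prod := by
    intro A
    induction A using Multiset.induction_on with
    | empty => simp [P]
    | cons a A ih =>
      simp only [P, Multiset.map_cons, Multiset.prod_cons, map_mul, Multiset.card_cons] at ih ⊢
      rw [← ih]
      have : (RatFunc.X : RatFunc k) ≠ 0 := RatFunc.X_ne_zero
      simp only [map_sub, map_one, map_mul, Polynomial.aeval_C, Polynomial.aeval_X,
        RatFunc.algebraMap_X, RatFunc.algebraMap_C, RatFunc.algebraMap_eq_C]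
      field_simp
      ring
  have h4 : (A.map fun a => Polynomial.X - Polynomial.C a).prod
      = (A'.map fun a => Polynomial.X - Polynomial.C a).prod := by
    apply IsFractionRing.injective (Polynomial k) (RatFunc k)
    rw [← h3, ← h3, h2, hc]
  rw [← Polynomial.roots_multiset_prod_X_sub_C A, h4, Polynomial.roots_multiset_prod_X_sub_C]

/-- the elements of `s` with both signs -/
def pm (s : Multiset k) : Multiset k := s + s.map fun a => -a

theorem pm_cons (l : k) (s : Multiset k) : pm (l ::ₘ s) = l ::ₘ (-l) ::ₘ pm s := by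
  simp [pm, Multiset.cons_swap]

theorem lin_pm_cons (l : k) (s : Multiset k) :
    lin (pm (l ::ₘ s)) = (1 - C (l ^ 2) * X ^ 2) * lin (pm s) := by
  simp only [pm_cons, lin, Multiset.map_cons, Multiset.prod_cons, map_neg, map_pow]; ring

theorem lin_pm_cons' (l : k) (s : Multiset k) :
    lin ((pm (l ::ₘ s)).map (· + 1))
      = ((1 - X) ^ 2 - C (l ^ 2) * X ^ 2) * lin ((pm s).map (· + 1)) := by
  simp only [pm_cons, lin, Multiset.map_cons, Multiset.prod_cons, map_neg, map_pow, map_add,
    map_one]; ring

/-- normalised generating series -/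
noncomputable def Hh (ε : k) (c : ℕ → k) : PowerSeries k :=
  (2 - X) * X * mk c - (2 - X + C ε * X)

/-- its value for the anisotropic kernel -/
noncomputable def base (ε : k) (N : ℕ) : PowerSeries k :=
  if Even N then -(2 - X + C ε * X) else 2 * X - 2

theorem base_ne (h2 : (2 : k) ≠ 0) (ε : k) (N : ℕ) : base ε N ≠ 0 := by
  intro h
  have := congrArg (constantCoeff (R := k)) h
  unfold base at this
  have e : constantCoeff (R := k) 2 = 2 := map_ofNat _ 2
  split_ifs at this <;> simp [e, h2] at this

/-- `s` is a type of the central character `θ` in dimension `N` -/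
structure IsType (ε : k) (N : ℕ) (θ : ℕ → k) (s : Multiset k) : Prop where
  card : s.card = N / 2
  int : ∀ l ∈ s, ∃ n : ℤ, (n : k) = l
  eq : Hh ε θ * lin (pm s) = base ε N * lin ((pm s).map (· + 1))

theorem IsType.step {ε l : k} {N : ℕ} {q c : ℕ → k} {s : Multiset k} (h : IsType ε N q s)
    (hr : PPRel ε l q c) (hl : ∃ n : ℤ, (n : k) = l) : IsType ε (N + 2) c (l ::ₘ s) where
  card := by rw [Multiset.card_cons, h.card]; omega
  int := by
    intro a ha
    rcases Multiset.mem_cons.1 ha with rfl | ha
    exacts [hl, h.int a ha]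
  eq := by
    have hb : base ε (N + 2) = base ε N := by simp [base, Nat.even_add]
    have := h.eq
    unfold PPRel at hr
    rw [lin_pm_cons, lin_pm_cons', hb]
    unfold Hh at this ⊢
    linear_combination ((1 - X) ^ 2 - C (l ^ 2) * X ^ 2) * this
      + (2 - X) * X * lin (pm s) * hr

theorem isType_zero (ε : k) : IsType ε 0 (fun _ => 0) 0 where
  card := rfl
  int := by simp
  eq := by
    have : (mk fun _ => (0 : k)) = 0 := by ext; simp
    simp [Hh, base, pm, lin, this]

theorem isType_one (h2 : (2 : k) ≠ 0) : IsType (1 : k) 1 (fun n => (2⁻¹ : k) ^ n) 0 where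
  card := rfl
  int := by simp
  eq := by
    have hd : C 2 * (mk fun n => (2⁻¹ : k) ^ n) - (mk fun n => (2⁻¹ : k) ^ n) * X
        = C (2 : k) := by
      ext n
      cases n with
      | zero => simp
      | succ n =>
        rw [map_sub, coeff_C_mul, coeff_succ_mul_X, coeff_mk, coeff_mk, coeff_C]
        simp only [Nat.add_eq_zero_iff, one_ne_zero, and_false, if_false]
        rw [pow_succ, mul_comm (2⁻¹ ^ n : k), ← mul_assoc, mul_inv_cancel₀ h2, one_mul, sub_self]
    have e : (C (2 : k) : PowerSeries k) = 2 := map_ofNat _ 2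
    rw [e] at hd
    simp only [Hh, base, pm, lin, Multiset.map_zero, add_zero, Multiset.prod_zero, mul_one,
      Nat.not_even_one, if_false, map_one]
    linear_combination X * hd

theorem pm_eq_of_shift {S T : Multiset k} (hS : ∀ l ∈ S, ∃ n : ℤ, (n : k) = l)
    (hT : ∀ l ∈ T, ∃ n : ℤ, (n : k) = l) (hc : S.card = T.card)
    (h : S.map (· + 1) + T = T.map (· + 1) + S) : S = T := by
  classical
  have step : ∀ a : k, (S.count (a + 1) : ℤ) - T.count (a + 1) = S.count a - T.count a := by
    intro a
    have := congrArg (Multiset.count (a + 1)) h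
    rw [Multiset.count_add, Multiset.count_add,
      Multiset.count_map_eq_count' _ _ (add_left_injective 1),
      Multiset.count_map_eq_count' _ _ (add_left_injective 1)] at this
    omega
  have const : ∀ n : ℤ, (S.count (n : k) : ℤ) - T.count (n : k) = S.count 0 - T.count 0 := by
    intro n
    induction n using Int.induction_on with
    | zero => simp
    | succ n ih => rw [← ih]; push_cast; exact step _
    | pred n ih =>
      rw [← ih, ← step]; push_cast; simp
  rcases le_total (S.count 0) (T.count 0) with h0 | h0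
  · refine Multiset.eq_of_le_of_card_le (Multiset.le_iff_count.2 fun a => ?_) hc.ge
    by_cases ha : a ∈ S
    · obtain ⟨n, rfl⟩ := hS a ha
      have := const n; omega
    · simp [Multiset.count_eq_zero_of_notMem ha]
  · refine (Multiset.eq_of_le_of_card_le (Multiset.le_iff_count.2 fun a => ?_) hc.le).symm
    by_cases ha : a ∈ T
    · obtain ⟨n, rfl⟩ := hT a ha
      have := const n; omega
    · simp [Multiset.count_eq_zero_of_notMem ha]

theorem pm_int {s : Multiset k} (h : ∀ l ∈ s, ∃ n : ℤ, (n : k) = l) :
    ∀ l ∈ pm s, ∃ n : ℤ, (n : k) = l := by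
  intro l hl
  rcases Multiset.mem_add.1 hl with hl | hl
  · exact h l hl
  · obtain ⟨a, ha, rfl⟩ := Multiset.mem_map.1 hl
    obtain ⟨n, rfl⟩ := h a ha
    exact ⟨-n, by simp⟩

theorem IsType.pm_eq (h2 : (2 : k) ≠ 0) {ε : k} {N : ℕ} {θ : ℕ → k} {s t : Multiset k}
    (hs : IsType ε N θ s) (ht : IsType ε N θ t) : pm s = pm t := by
  have hc : (pm s).card = (pm t).card := by simp [pm, hs.card, ht.card]
  refine pm_eq_of_shift (pm_int hs.int) (pm_int ht.int) hc (lin_inj ?_ (by simp [hc]))
  rw [lin_add, lin_add]
  apply mul_left_cancel₀ (base_ne h2 ε N)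
  linear_combination lin (pm s) * ht.eq - lin (pm t) * hs.eq

theorem map_sq_pm (s : Multiset k) : (pm s).map (· ^ 2) = 2 • s.map (· ^ 2) := by
  simp [pm, two_nsmul, Multiset.map_map]

theorem IsType.sq_eq (h2 : (2 : k) ≠ 0) {ε : k} {N : ℕ} {θ : ℕ → k} {s t : Multiset k}
    (hs : IsType ε N θ s) (ht : IsType ε N θ t) : s.map (· ^ 2) = t.map (· ^ 2) := by
  classical
  have := congrArg (Multiset.map (· ^ 2)) (hs.pm_eq h2 ht)
  rw [map_sq_pm, map_sq_pm] at this
  ext a
  have := congrArg (Multiset.count a) this
  simp only [Multiset.count_nsmul] at this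
  omega

theorem lin_pm_sq (s : Multiset k) :
    lin (pm s) = ((s.map (· ^ 2)).map fun a => 1 - C a * X ^ 2).prod := by
  induction s using Multiset.induction_on with
  | empty => simp [lin, pm]
  | cons a s ih => rw [lin_pm_cons, ih]; simp

theorem lin_pm_sq' (s : Multiset k) :
    lin ((pm s).map (· + 1))
      = ((s.map (· ^ 2)).map fun a => (1 - X) ^ 2 - C a * X ^ 2).prod := by
  induction s using Multiset.induction_on with
  | empty => simp [lin, pm]
  | cons a s ih => rw [lin_pm_cons', ih]; simp

theorem IsType.char_eq (h2 : (2 : k) ≠ 0) {ε : k} {N : ℕ} {θ θ' : ℕ → k} {s t : Multiset k}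
    (hs : IsType ε N θ s) (ht : IsType ε N θ' t) (h : s.map (· ^ 2) = t.map (· ^ 2)) :
    θ = θ' := by
  have e1 : lin (pm s) = lin (pm t) := by rw [lin_pm_sq, lin_pm_sq, h]
  have e2 : lin ((pm s).map (· + 1)) = lin ((pm t).map (· + 1)) := by
    rw [lin_pm_sq', lin_pm_sq', h]
  have h3 : Hh ε θ = Hh ε θ' := by
    apply mul_right_cancel₀ (lin_ne (pm s))
    rw [hs.eq, e1, ht.eq, e2]
  have h4 : (2 - X : PowerSeries k) * X ≠ 0 := by
    refine mul_ne_zero (fun h => ?_) X_ne_zero
    have := congrArg (constantCoeff (R := k)) h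
    have e : constantCoeff (R := k) 2 = 2 := map_ofNat _ 2
    simp [e, h2] at this
  have h5 : PowerSeries.mk θ = PowerSeries.mk θ' := by
    apply mul_left_cancel₀ h4
    unfold Hh at h3
    linear_combination h3
  funext n
  simpa using congrArg (coeff n) h5

/-- counting multisets whose squares lie in a given multiset of squares -/
theorem count_sq (s : Multiset k) : ∀ M : ℕ, ∃ 𝒳 : Finset (Multiset k),
    𝒳.card ≤ s.card.choose M * 2 ^ M ∧
      ∀ A : Multiset k, A.card = M → A.map (· ^ 2) ≤ s.map (· ^ 2) → A ∈ 𝒳 := by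
  classical
  induction s using Multiset.induction_on with
  | empty =>
    intro M
    cases M with
    | zero => exact ⟨{0}, by simp, fun A hA _ => by simpa using hA⟩
    | succ M =>
      refine ⟨∅, by simp, fun A hA h => ?_⟩
      have := Multiset.card_le_card h
      simp [hA] at this
  | cons a s ih =>
    intro M
    cases M with
    | zero => exact ⟨{0}, by simp, fun A hA _ => by simpa using hA⟩
    | succ M =>
      obtain ⟨X1, c1, h1⟩ := ih (M + 1)
      obtain ⟨X2, c2, h2⟩ := ih M
      refine ⟨X1 ∪ X2.image (a ::ₘ ·) ∪ X2.image ((-a) ::ₘ ·), ?_, fun A hA h => ?_⟩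
      · have e1 := Finset.card_union_le (X1 ∪ X2.image (a ::ₘ ·)) (X2.image ((-a) ::ₘ ·))
        have e2 := Finset.card_union_le X1 (X2.image (a ::ₘ ·))
        have e3 := Finset.card_image_le (s := X2) (f := (a ::ₘ ·))
        have e4 := Finset.card_image_le (s := X2) (f := ((-a) ::ₘ ·))
        rw [Multiset.card_cons, Nat.choose_succ_succ', add_mul, pow_succ] at *
        nlinarith
      · rw [Multiset.map_cons] at h
        by_cases hm : a ^ 2 ∈ A.map (· ^ 2)
        · obtain ⟨b, hb, hba⟩ := Multiset.mem_map.1 hm
          obtain ⟨A', rfl⟩ := Multiset.exists_cons_of_mem hb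
          rw [Multiset.map_cons, hba, Multiset.cons_le_cons_iff] at h
          have hA' : A' ∈ X2 := h2 A' (by simpa using hA) h
          rcases sq_eq_sq_iff_eq_or_eq_neg.1 hba with rfl | rfl
          · exact Finset.mem_union_left _ (Finset.mem_union_right _
              (Finset.mem_image_of_mem _ hA'))
          · exact Finset.mem_union_right _ (Finset.mem_image_of_mem _ hA')
        · exact Finset.mem_union_left _ (Finset.mem_union_left _
            (h1 A hA ((Multiset.le_cons_of_notMem hm).1 h)))

end Pool.Agent.P.Bf04
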